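import Pool.Agent.Run7.h94.Two

/-! `C_1` fields which are not special at the primes dividing the degrees. -/

set_option autoImplicit false

open MvPolynomial Module Pool.Agent.H19CI

namespace Run7.h94

universe u

variable {K : Type u} [Field K]

/-- homogeneous version -/
theorem nonspecial_hom (hK : IsC K 1) {J ι : Type} [Fintype J] [Fintype ι]
    (f : J → MvPolynomial ι K) (d : J → ℕ) (hd0 : ∀ j, 0 < d j)
    (hS : ∀ r : ℕ, r.Prime → ∀ j, r ∣ d j → ¬ Special K r)
    (hf : ∀ j, (f j).IsHomogeneous (d j)) (hani : Aniso f) :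
    Fintype.card ι ≤ ∑ j, d j ^ 1 := by
  classical
  by_cases halg : IsAlgClosed K
  · exact (closed_le' f d hd0 hf hani).trans (card_le_sum d hd0)
  rcases special_or K with hN | ⟨r, hr, hSr⟩
  · by_contra hlt
    push Not at hlt
    obtain ⟨x, hx0, hx⟩ := strongly_gcd (i := 1) hK halg (fun r hr => by
      obtain ⟨b, hb1, hb2, hb3⟩ := hN r hr
      exact ⟨b, hb1, hb2, by rwa [pow_one]⟩) f d hd0 hf hlt
    exact hx0 (hani x hx)
  · exact (bez' hr hSr f d (fun j hj => hS r hr j hj hSr) hf hani).trans (card_le_sum d hd0)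

/-- weighted version -/
theorem nonspecial (hK : IsC K 1) {J ι : Type} [Fintype J] [Fintype ι]
    (f : J → MvPolynomial ι K) (w : ι → ℕ) (d : J → ℕ) (hw : ∀ v, 0 < w v) (hd0 : ∀ j, 0 < d j)
    (hS : ∀ r : ℕ, r.Prime → ∀ j, r ∣ d j → ¬ Special K r)
    (hf : ∀ j, IsWeightedHomogeneous w (f j) (d j)) (hlt : ∑ j, d j < ∑ v, w v) :
    ∃ x : ι → K, x ≠ 0 ∧ ∀ j, eval x (f j) = 0 := by
  classical
  by_contra hcon
  push Not at hcon
  have hani : Aniso f := by
    intro x hx
    by_contra h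
    obtain ⟨t, ht⟩ := hcon x h
    exact ht (hx t)
  have h1 := weighted_reduction 1 f w d hw hf hani fun k Ω hΩ _ h hh1 hh2 => by
    refine nonspecial_hom hK h (fun l => wt d l.1 / Ω) (fun l => Nat.div_pos (Nat.le_of_dvd
      (Finset.prod_pos fun s _ => hd0 _) l.2) hΩ) (fun r hr l hrl => ?_) hh1 hh2
    have h2 : r ∣ wt d l.1 := hrl.trans (Nat.div_dvd_of_dvd l.2)
    obtain ⟨s, -, hs⟩ := (Prime.dvd_finsetProd_iff hr.prime _).1 h2
    exact hS r hr _ hs
  simp only [pow_one] at h1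
  omega

end Run7.h94
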