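import Pool.Agent.Run7.h94.Expo
import Pool.Agent.Run7.h94.NSp

/-! Systems of forms of arbitrary degrees over a `C_i` field with a normic form of order `i` and of
prime degree; every `C_1` field is strongly `C_1`. -/

set_option autoImplicit false

open MvPolynomial Pool.Agent.H19CI Real

namespace Run7.h94

section

variable {K : Type*} [Field K] {i ℓ : ℕ}

/-- systems of forms of the same degree `m * ℓ ^ a` -/
theorem same_expo (hi : 0 < i) (hK : IsC K i) (hℓ : ℓ.Prime) (hnorm : HasForm K ℓ (Fin (ℓ ^ i)))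
    {m : ℕ} (hm : 2 ≤ m) (hcop : ¬ ℓ ∣ m) (a : ℕ) (V T : Type) [Fintype V] [Fintype T]
    (g : T → MvPolynomial V K) (hg : ∀ t, (g t).IsHomogeneous (m * ℓ ^ a)) (hani : Aniso g) :
    (Fintype.card V : ℝ) ≤ Fintype.card T *
      ((m : ℝ) ^ expo K i ℓ * ((ℓ : ℝ) ^ i) ^ a) := by
  have hℓ0 : (0 : ℝ) < ℓ := by exact_mod_cast hℓ.pos
  have hm0 : (0 : ℝ) < m := by exact_mod_cast (by omega : 0 < m)
  have h1 := same_eff hi hK (q := m) (by omega) hℓ.two_le hnorm 1 a V T g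
    (by rw [pow_one]; exact hg) hani
  refine h1.trans (mul_le_mul_of_nonneg_left ?_ (by positivity))
  have h2 : Eff K i m ℓ 1 ≤ (m : ℝ) ^ expo K i ℓ / (m : ℝ) ^ i := by
    refine csSup_le (eff_nonempty (by omega) hℓ.pos 1) ?_
    rintro _ ⟨b, N, h, rfl⟩
    rw [pow_one] at h
    have h3 : PP K i ℓ m ((N : ℝ) / ((ℓ : ℝ) ^ i) ^ b) :=
      ⟨b, N, h, le_of_eq (div_mul_cancel₀ _ (by positivity))⟩
    have h4 := upper hK hℓ hm hcop h3
    rw [div_le_iff₀ (by positivity)] at h4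
    rw [div_le_div_iff₀ (by positivity) (by positivity)]
    have h5 : ((m : ℝ) ^ 1 * (ℓ : ℝ) ^ b) ^ i = (m : ℝ) ^ i * ((ℓ : ℝ) ^ i) ^ b := by
      rw [mul_pow, pow_one, ← pow_mul, ← pow_mul, mul_comm b i]
    rw [h5]
    nlinarith [show (0 : ℝ) < (m : ℝ) ^ i by positivity]
  have h5 : ((m : ℝ) ^ 1 * (ℓ : ℝ) ^ a) ^ i = (m : ℝ) ^ i * ((ℓ : ℝ) ^ i) ^ a := by
    rw [mul_pow, pow_one, ← pow_mul, ← pow_mul, mul_comm a i]
  rw [h5]
  calc Eff K i m ℓ 1 * ((m : ℝ) ^ i * ((ℓ : ℝ) ^ i) ^ a)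
      ≤ (m : ℝ) ^ expo K i ℓ / (m : ℝ) ^ i * ((m : ℝ) ^ i * ((ℓ : ℝ) ^ i) ^ a) :=
        mul_le_mul_of_nonneg_right h2 (by positivity)
    _ = (m : ℝ) ^ expo K i ℓ * ((ℓ : ℝ) ^ i) ^ a := by
        rw [← mul_assoc, div_mul_cancel₀ _ (by positivity)]

/-- **Systems of forms of arbitrary degrees** over a `C_i` field with a normic form of order `i` and
of prime degree. -/
theorem strong_prime (hi : 0 < i) (hK : IsC K i) (hℓ : ℓ.Prime) (hnorm : HasForm K ℓ (Fin (ℓ ^ i)))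
    {J ι : Type} [Fintype J] [Fintype ι] (f : J → MvPolynomial ι K) (d : J → ℕ)
    (hd : ∀ j, 0 < d j) (hf : ∀ j, (f j).IsHomogeneous (d j)) (hani : Aniso f) :
    Fintype.card ι ≤ ∑ j, d j ^ i := by
  classical
  -- the decomposition of the degrees
  have hdec : ∀ j, ∃ a m : ℕ, ¬ ℓ ∣ m ∧ d j = ℓ ^ a * m := fun j => by
    obtain ⟨a, m, h1, h2⟩ := Nat.exists_eq_pow_mul_and_not_dvd (hd j).ne' ℓ hℓ.ne_one
    exact ⟨a, m, h1, h2⟩
  choose a m hm hdm using hdec
  have hmpos : ∀ j, 0 < m j := fun j => Nat.pos_of_ne_zero fun h => hm j (by rw [h]; exact dvd_zero _)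
  set Q := (ℓ + 1) * ∏ j, m j with hQ
  have hprodpos : 0 < ∏ j, m j := Finset.prod_pos fun j _ => hmpos j
  have hQ2 : 2 ≤ Q := by
    calc 2 ≤ ℓ + 1 := by have := hℓ.two_le; omega
      _ = (ℓ + 1) * 1 := (mul_one _).symm
      _ ≤ Q := Nat.mul_le_mul_left _ hprodpos
  have hQcop : ¬ ℓ ∣ Q := by
    intro h
    rcases (Nat.Prime.dvd_mul hℓ).1 h with h1 | h1
    · have := (Nat.dvd_add_right (dvd_refl ℓ)).1 h1
      exact hℓ.one_lt.ne' (Nat.dvd_one.1 this)
    · obtain ⟨j, -, hj⟩ := (Prime.dvd_finsetProd_iff hℓ.prime _).1 h1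
      exact hm j hj
  have hmQ : ∀ j, m j ∣ Q := fun j =>
    (Finset.dvd_prod_of_mem m (Finset.mem_univ j)).trans (Dvd.intro_left _ rfl)
  have hQr : (1 : ℝ) < Q := by exact_mod_cast (by omega : 1 < Q)
  set s : ℝ := ((∑ j, d j ^ i : ℕ) : ℝ) with hs
  set n : ℝ := (Fintype.card ι : ℝ) with hn
  have hθ0 := expo_nonneg (K := K) hK hℓ
  have hθi := expo_le (K := K) hK hℓ
  set θ := expo K i ℓ with hθ
  have hℓr : (0 : ℝ) < (ℓ : ℝ) ^ i := by
    have : (0 : ℝ) < ℓ := by exact_mod_cast hℓ.pos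
    positivity
  -- the estimate with a small loss
  have key : ∀ δ : ℝ, 0 < δ → n ≤ (Q : ℝ) ^ (2 * δ) * s := by
    intro δ hδ
    obtain ⟨R, hR⟩ := lower hi hK hℓ hnorm δ hδ
    -- the power
    set k := R + 1 with hk
    have hk0 : k ≠ 0 := by omega
    have hQk : R ≤ Q ^ k := by
      have : k < Q ^ k := Nat.lt_pow_self hQ2
      omega
    obtain ⟨g, hg1, hg2⟩ := syspow f d hf hani k
    set A : (Fin k → J) → ℕ := fun l => ∑ t, a (l t) with hA
    set μ : (Fin k → J) → ℕ := fun l => ∏ t, m (l t) with hμ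
    have hdeg : ∀ l : Fin k → J, ∏ t, d (l t) = ℓ ^ A l * μ l := by
      intro l
      rw [hA, hμ, ← Finset.prod_pow_eq_pow_sum, ← Finset.prod_mul_distrib]
      exact Finset.prod_congr rfl fun t _ => hdm _
    have hμdvd : ∀ l, μ l ∣ Q ^ k := by
      intro l
      have h1 : Q ^ k = ∏ _t : Fin k, Q := by simp
      rw [h1]
      exact Finset.prod_dvd_prod_of_dvd _ _ fun t _ => hmQ _
    have hμpos : ∀ l, 0 < μ l := fun l => Finset.prod_pos fun t _ => hmpos _
    set Z : (Fin k → J) → ℕ := fun l => Q ^ (2 * k) / μ l with hZ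
    have hZμ : ∀ l, Z l * μ l = Q ^ (2 * k) := fun l =>
      Nat.div_mul_cancel ((hμdvd l).trans (pow_dvd_pow Q (by omega)))
    have hZge : ∀ l, Q ^ k ≤ Z l := by
      intro l
      have h1 : Q ^ k * μ l ≤ Z l * μ l := by
        calc Q ^ k * μ l ≤ Q ^ k * Q ^ k :=
              Nat.mul_le_mul_left _ (Nat.le_of_dvd (Nat.pow_pos (by omega)) (hμdvd l))
          _ = Q ^ (2 * k) := by rw [two_mul, pow_add (m := k) (n := k)]
          _ = Z l * μ l := (hZμ l).symm
      exact Nat.le_of_mul_le_mul_right h1 (hμpos l)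
    have hZpos : ∀ l, 0 < Z l := fun l => lt_of_lt_of_le (Nat.pow_pos (by omega)) (hZge l)
    choose B N hN1 hN2 using fun l => hR (Z l) (hQk.trans (hZge l)) (hZpos l)
    set T := ∑ l, (B l + A l) with hT
    have hBT : ∀ l, B l + A l ≤ T := fun l => Finset.single_le_sum
      (f := fun l => B l + A l) (fun l _ => Nat.zero_le _) (Finset.mem_univ l)
    -- the normic forms
    set M : (Fin k → J) → ℕ := fun l => N l * (ℓ ^ i) ^ (T - A l - B l) with hM
    have hform : ∀ l, HasForm K (Z l * ℓ ^ (T - A l)) (Fin (M l)) := by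
      intro l
      have h1 := (hN1 l).compFin (hnorm.pow (T - A l - B l))
      have h2 : Z l * ℓ ^ B l * ℓ ^ (T - A l - B l) = Z l * ℓ ^ (T - A l) := by
        rw [mul_assoc, ← pow_add]
        congr 2
        have := hBT l
        omega
      rwa [h2] at h1
    have hMge : ∀ l, (Z l : ℝ) ^ (θ - δ) * ((ℓ : ℝ) ^ i) ^ (T - A l) ≤ M l := by
      intro l
      have h1 : ((ℓ : ℝ) ^ i) ^ (T - A l) = ((ℓ : ℝ) ^ i) ^ B l * ((ℓ : ℝ) ^ i) ^ (T - A l - B l) := by
        rw [← pow_add]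
        congr 1
        have := hBT l
        omega
      rw [h1, ← mul_assoc, hM]
      push_cast
      exact mul_le_mul_of_nonneg_right (hN2 l) (by positivity)
    have hZr : ∀ l, (0 : ℝ) < Z l := fun l => by exact_mod_cast hZpos l
    have hMpos : ∀ l, (0 : ℝ) < M l := by
      intro l
      refine lt_of_lt_of_le ?_ (hMge l)
      have h1 := rpow_pos_of_pos (hZr l) (θ - δ)
      positivity
    have hW : ∀ l, Z l * ℓ ^ (T - A l) * ∏ t, d (l t) = Q ^ (2 * k) * ℓ ^ T := by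
      intro l
      rw [hdeg, ← hZμ l]
      have h1 : ℓ ^ T = ℓ ^ (T - A l) * ℓ ^ A l := by
        rw [← pow_add]
        congr 1
        have := hBT l
        omega
      rw [h1]
      ring
    have hQ2k : 2 ≤ Q ^ (2 * k) := by
      calc 2 ≤ Q := hQ2
        _ = Q ^ 1 := (pow_one _).symm
        _ ≤ Q ^ (2 * k) := Nat.pow_le_pow_right (by omega) (by omega)
    have hQ2cop : ¬ ℓ ∣ Q ^ (2 * k) := fun h => hQcop (hℓ.dvd_of_dvd_pow h)
    have h1 := system_beta (Q ^ (2 * k) * ℓ ^ T)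
      (((Q ^ (2 * k) : ℕ) : ℝ) ^ θ * ((ℓ : ℝ) ^ i) ^ T)
      (fun V T' _ _ g hg hani => same_expo hi hK hℓ hnorm hQ2k hQ2cop T V T' g hg hani) g
      (fun l => ∏ t, d (l t)) hg1 (fun l => Z l * ℓ ^ (T - A l)) M hW
      (fun l => by exact_mod_cast hMpos l) hform hg2
    -- the terms
    have hterm : ∀ l, ((Q ^ (2 * k) : ℕ) : ℝ) ^ θ * ((ℓ : ℝ) ^ i) ^ T / M l ≤
        ((Q : ℝ) ^ (2 * δ)) ^ k * ∏ t, ((d (l t) : ℝ)) ^ i := by
      intro l
      rw [div_le_iff₀ (hMpos l)]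
      have hμr : (1 : ℝ) ≤ μ l := by exact_mod_cast hμpos l
      have hμ0 : (0 : ℝ) < μ l := by linarith
      have h2 : ((Q ^ (2 * k) : ℕ) : ℝ) ^ θ = (Z l : ℝ) ^ θ * (μ l : ℝ) ^ θ := by
        rw [← hZμ l, Nat.cast_mul, mul_rpow (hZr l).le hμ0.le]
      have h3 : (μ l : ℝ) ^ θ ≤ (μ l : ℝ) ^ i := by
        rw [← rpow_natCast]
        exact rpow_le_rpow_of_exponent_le hμr hθi
      have h4 : (Z l : ℝ) ^ θ = (Z l : ℝ) ^ δ * (Z l : ℝ) ^ (θ - δ) := by
        rw [← rpow_add (hZr l)]; congr 1; ring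
      have h5 : (Z l : ℝ) ^ δ ≤ ((Q : ℝ) ^ (2 * δ)) ^ k := by
        have h6 : (Z l : ℝ) ≤ (Q : ℝ) ^ (2 * k) := by
          have h7 : Z l ≤ Q ^ (2 * k) := Nat.div_le_self _ _
          exact_mod_cast h7
        calc (Z l : ℝ) ^ δ ≤ ((Q : ℝ) ^ (2 * k)) ^ δ := rpow_le_rpow (hZr l).le h6 hδ.le
          _ = ((Q : ℝ) ^ (2 * δ)) ^ k := by
              rw [← rpow_natCast, ← rpow_natCast, ← rpow_mul (by linarith), ← rpow_mul (by linarith)]
              congr 1
              push_cast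
              ring
      have h6 : ((ℓ : ℝ) ^ i) ^ T = ((ℓ : ℝ) ^ i) ^ (T - A l) * ((ℓ : ℝ) ^ i) ^ A l := by
        rw [← pow_add]
        congr 1
        have := hBT l
        omega
      have h7 : ∏ t, ((d (l t) : ℝ)) ^ i = ((ℓ : ℝ) ^ i) ^ A l * (μ l : ℝ) ^ i := by
        rw [Finset.prod_pow]
        have h8 : (∏ t, (d (l t) : ℝ)) = ((ℓ ^ A l * μ l : ℕ) : ℝ) := by
          rw [← hdeg l]
          push_cast
          rfl
        rw [h8]
        push_cast
        rw [mul_pow, ← pow_mul, ← pow_mul, mul_comm (A l) i]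
      rw [h2, h4, h6, h7]
      have h8 := rpow_pos_of_pos (hZr l) (θ - δ)
      have h9 := rpow_pos_of_pos (hZr l) δ
      have h10 : (0 : ℝ) < (μ l : ℝ) ^ θ := rpow_pos_of_pos hμ0 θ
      calc (Z l : ℝ) ^ δ * (Z l : ℝ) ^ (θ - δ) * (μ l : ℝ) ^ θ *
            (((ℓ : ℝ) ^ i) ^ (T - A l) * ((ℓ : ℝ) ^ i) ^ A l)
          = (Z l : ℝ) ^ δ * ((μ l : ℝ) ^ θ * (((ℓ : ℝ) ^ i) ^ A l *
            ((Z l : ℝ) ^ (θ - δ) * ((ℓ : ℝ) ^ i) ^ (T - A l)))) := by ring
        _ ≤ ((Q : ℝ) ^ (2 * δ)) ^ k * ((μ l : ℝ) ^ i * (((ℓ : ℝ) ^ i) ^ A l * M l)) := by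
            apply mul_le_mul h5 _ (by positivity) (by positivity)
            apply mul_le_mul h3 _ (by positivity) (by positivity)
            exact mul_le_mul_of_nonneg_left (hMge l) (by positivity)
        _ = ((Q : ℝ) ^ (2 * δ)) ^ k * (((ℓ : ℝ) ^ i) ^ A l * (μ l : ℝ) ^ i) * M l := by ring
    have h2 : n ^ k ≤ ((Q : ℝ) ^ (2 * δ) * s) ^ k := by
      have h3 : (Fintype.card (Fin k → ι) : ℝ) = n ^ k := by
        rw [Fintype.card_fun, Fintype.card_fin]
        push_cast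
        rfl
      rw [← h3]
      refine h1.trans ((Finset.sum_le_sum fun l _ => hterm l).trans (le_of_eq ?_))
      rw [← Finset.mul_sum, mul_pow]
      congr 1
      have h4 : s = ∑ j, (d j : ℝ) ^ i := by rw [hs]; push_cast; rfl
      rw [h4, Fintype.sum_pow]
    have hs0 : 0 ≤ s := by rw [hs]; positivity
    exact le_of_pow_le_pow_left₀ hk0 (by positivity) h2
  -- conclusion
  have hs0 : 0 ≤ s := by rw [hs]; positivity
  have hfin : n ≤ s := by
    by_contra hlt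
    push Not at hlt
    rcases hs0.eq_or_lt with h0 | h0
    · have := key 1 one_pos
      rw [← h0, mul_zero] at this
      linarith
    · -- a small exponent
      have hQlog : 0 < log (Q : ℝ) := log_pos hQr
      have hratio : 1 < n / s := by rwa [lt_div_iff₀ h0, one_mul]
      have hlr : 0 < log (n / s) := log_pos hratio
      set δ := log (n / s) / (4 * log (Q : ℝ)) with hδ
      have hδ0 : 0 < δ := by positivity
      have h1 := key δ hδ0
      have h2 : (Q : ℝ) ^ (2 * δ) < n / s := by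
        rw [← log_lt_log_iff (rpow_pos_of_pos (by linarith) _) (by linarith),
          log_rpow (by linarith), hδ]
        have h3 : 2 * (log (n / s) / (4 * log (Q : ℝ))) * log (Q : ℝ) = log (n / s) / 2 := by
          field_simp
          ring
        rw [h3]
        linarith
      have h3 : (Q : ℝ) ^ (2 * δ) * s < n := by
        rwa [lt_div_iff₀ h0] at h2
      linarith
  have h2 : (Fintype.card ι : ℝ) ≤ ((∑ j, d j ^ i : ℕ) : ℝ) := hfin
  exact_mod_cast h2

end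

universe u

variable {K : Type u} [Field K]

/-- **Every `C_1` field is strongly `C_1`**, homogeneous version -/
theorem strong_one_hom (hK : IsC K 1) {J ι : Type} [Fintype J] [Fintype ι]
    (f : J → MvPolynomial ι K) (d : J → ℕ) (hd0 : ∀ j, 0 < d j)
    (hf : ∀ j, (f j).IsHomogeneous (d j)) (hani : Aniso f) :
    Fintype.card ι ≤ ∑ j, d j ^ 1 := by
  classical
  by_cases halg : IsAlgClosed K
  · exact (closed_le' f d hd0 hf hani).trans (card_le_sum d hd0)
  rcases special_or K with hN | ⟨r, hr, hSr⟩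
  · by_contra hlt
    push Not at hlt
    obtain ⟨x, hx0, hx⟩ := strongly_gcd (i := 1) hK halg (fun r hr => by
      obtain ⟨b, hb1, hb2, hb3⟩ := hN r hr
      exact ⟨b, hb1, hb2, by rwa [pow_one]⟩) f d hd0 hf hlt
    exact hx0 (hani x hx)
  · have hnorm := special_normic halg r hr hSr
    exact strong_prime one_pos hK hr (by rwa [pow_one]) f d hd0 hf hani

/-- **Every `C_1` field is strongly `C_1`**, weighted version -/
theorem strong_one (hK : IsC K 1) {J ι : Type} [Fintype J] [Fintype ι]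
    (f : J → MvPolynomial ι K) (w : ι → ℕ) (d : J → ℕ) (hw : ∀ v, 0 < w v) (hd0 : ∀ j, 0 < d j)
    (hf : ∀ j, IsWeightedHomogeneous w (f j) (d j)) (hlt : ∑ j, d j < ∑ v, w v) :
    ∃ x : ι → K, x ≠ 0 ∧ ∀ j, eval x (f j) = 0 := by
  classical
  by_contra hcon
  push Not at hcon
  have hani : Aniso f := by
    intro x hx
    by_contra h
    obtain ⟨t, ht⟩ := hcon x h
    exact ht (hx t)
  have h1 := weighted_reduction 1 f w d hw hf hani fun k Ω hΩ _ h hh1 hh2 => by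
    exact strong_one_hom hK h (fun l => wt d l.1 / Ω) (fun l => Nat.div_pos (Nat.le_of_dvd
      (Finset.prod_pos fun s _ => hd0 _) l.2) hΩ) hh1 hh2
  simp only [pow_one] at h1
  omega

end Run7.h94
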