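import Mathlib
import Pool.Agent.K369.Conic
import Pool.Agent.Run7.h94.Strong

set_option autoImplicit false
set_option linter.all false

/-!
# R-equivalence over an arbitrary `C₁` field, I: conics, and finite extensions
-/

namespace Run7.h94.REq

open MvPolynomial Pool.Agent.K369 Pool.Agent.H19CI

universe u

theorem isC_of (k : Type u) [Field k] (hk : IsC1 k) : IsC k 1 := fun n d f hd hf hlt =>
  hk n d f hd (by simpa using hlt) hf

/-- weighted systems over `C₁` fields -/
theorem sys_w {k : Type u} [Field k] (hk : IsC1 k) {J ι : Type} [Fintype J] [Fintype ι]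
    (f : J → MvPolynomial ι k) (w : ι → ℕ) (d : J → ℕ) (hw : ∀ v, 0 < w v) (hd0 : ∀ j, 1 ≤ d j)
    (hf : ∀ j, IsWeightedHomogeneous w (f j) (d j)) (hlt : ∑ j, d j < ∑ v, w v) :
    ∃ x : ι → k, x ≠ 0 ∧ ∀ j, eval x (f j) = 0 :=
  strong_one (isC_of k hk) f w d hw hd0 hf hlt

/-- systems over `C₁` fields -/
theorem sys {k : Type u} [Field k] (hk : IsC1 k) {J ι : Type} [Fintype J] [Fintype ι]
    (d : J → ℕ) (hd0 : ∀ j, 1 ≤ d j) (f : J → MvPolynomial ι k)
    (hf : ∀ j, (f j).IsHomogeneous (d j)) (hlt : ∑ j, d j < Fintype.card ι) :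
    ∃ x : ι → k, x ≠ 0 ∧ ∀ j, eval x (f j) = 0 := by
  refine sys_w hk f (fun _ => 1) d (fun _ => one_pos) hd0 (fun j => ?_) (by simpa using hlt)
  exact hf j

/-- A finite extension of a `C₁` field is `C₁`. -/
theorem isC1_ext {k : Type u} [Field k] (hk : IsC1 k) (K : Type u) [Field K] [Algebra k K]
    [FiniteDimensional k K] : IsC1 K := by
  classical
  intro n d F hd hdn hF
  let m := Module.finrank k K
  have hm : 0 < m := Module.finrank_pos
  let b := Module.finBasis k K
  let H : MvPolynomial (Fin n × Fin m) K :=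
    aeval (fun i => ∑ j : Fin m, C (b j) * (X (i, j) : MvPolynomial (Fin n × Fin m) K)) F
  have hH : H.IsHomogeneous d := by
    have := hF.aeval (fun i => ∑ j : Fin m, C (b j) * (X (i, j) : MvPolynomial (Fin n × Fin m) K))
      (n := 1) (fun i => by
        refine IsHomogeneous.sum _ _ _ fun j _ => ?_
        simpa using (isHomogeneous_C (Fin n × Fin m) (b j)).mul (isHomogeneous_X K (i, j)))
    rwa [one_mul] at this
  let G : Fin m → MvPolynomial (Fin n × Fin m) k := fun l =>
    ∑ e ∈ H.support, monomial e (b.coord l (coeff e H))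
  have hG : ∀ l, (G l).IsHomogeneous d := by
    intro l
    refine IsHomogeneous.sum _ _ _ fun e he => ?_
    rw [mem_support_iff] at he
    refine isHomogeneous_monomial _ ?_
    have h1 := hH he
    rw [Finsupp.weight_apply] at h1
    rw [← h1]
    simp [Finsupp.degree, Finsupp.sum]
  obtain ⟨y, hy, hy0⟩ := sys hk (J := Fin m) (fun _ => d) (fun _ => hd) G hG (by
    simp only [Finset.sum_const, Finset.card_univ, Fintype.card_fin, Fintype.card_prod,
      smul_eq_mul]
    rw [mul_comm n m]
    exact Nat.mul_lt_mul_of_pos_left hdn hm)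
  have hev : ∀ l, b.coord l (eval (fun p => algebraMap k K (y p)) H) = eval y (G l) := by
    intro l
    rw [eval_eq, map_sum]
    simp only [G, map_sum]
    refine Finset.sum_congr rfl fun e he => ?_
    rw [eval_monomial, Finsupp.prod]
    have h1 : (∏ i ∈ e.support, algebraMap k K (y i) ^ e i) =
        algebraMap k K (∏ i ∈ e.support, y i ^ e i) := by
      rw [map_prod]
      exact Finset.prod_congr rfl fun i _ => by rw [map_pow]
    rw [h1, mul_comm, ← Algebra.smul_def, map_smul, smul_eq_mul, mul_comm]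
  have hH0 : eval (fun p => algebraMap k K (y p)) H = 0 := by
    apply b.ext_elem
    intro l
    have h1 := hev l
    rw [hy0 l, Module.Basis.coord_apply] at h1
    rw [h1]
    simp
  refine ⟨fun i => ∑ j : Fin m, b j * algebraMap k K (y (i, j)), ?_, ?_⟩
  · intro h0
    apply hy
    funext ⟨i, j⟩
    have h1 := congrFun h0 i
    simp only [Pi.zero_apply] at h1
    have h2 : ∑ j : Fin m, y (i, j) • b j = 0 := by
      rw [← h1]
      refine Finset.sum_congr rfl fun j _ => ?_
      rw [Algebra.smul_def, mul_comm]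
    exact (Fintype.linearIndependent_iff.1 b.linearIndependent) (fun j => y (i, j)) h2 j
  · rw [eval_aeval] at hH0
    rw [← hH0]
    congr 2
    funext i
    simp

section Graded

variable {k : Type*} [Field k] {ι : Type*} {w : ι → ℕ}

/-- Polynomials in `u` over a polynomial ring whose coefficient of `u ^ i` is weighted homogeneous
of degree `i`. -/
def GW (w : ι → ℕ) (p : Polynomial (MvPolynomial ι k)) : Prop :=
  ∀ i, IsWeightedHomogeneous w (p.coeff i) i

theorem GW.add {p q : Polynomial (MvPolynomial ι k)} (hp : GW w p) (hq : GW w q) :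
    GW w (p + q) := fun i => by rw [Polynomial.coeff_add]; exact (hp i).add (hq i)

theorem GW.mul {p q : Polynomial (MvPolynomial ι k)} (hp : GW w p) (hq : GW w q) :
    GW w (p * q) := fun i => by
  rw [Polynomial.coeff_mul]
  refine IsWeightedHomogeneous.sum _ _ _ fun x hx => ?_
  rw [Finset.HasAntidiagonal.mem_antidiagonal] at hx
  rw [← hx]
  exact (hp x.1).mul (hq x.2)

theorem GW.C {a : MvPolynomial ι k} (ha : IsWeightedHomogeneous w a 0) :
    GW w (Polynomial.C a) := fun i => by
  rw [Polynomial.coeff_C]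
  split_ifs with h
  · rw [h]; exact ha
  · exact isWeightedHomogeneous_zero _ _ _

theorem GW.X_pow_mul_C {a : MvPolynomial ι k} {n : ℕ} (ha : IsWeightedHomogeneous w a n) :
    GW w (Polynomial.X ^ n * Polynomial.C a) := fun i => by
  rw [mul_comm, Polynomial.coeff_C_mul_X_pow]
  split_ifs with h
  · rw [h]; exact ha
  · exact isWeightedHomogeneous_zero _ _ _

theorem GW.aeval {σ : Type*} (F : MvPolynomial σ k) (g : σ → Polynomial (MvPolynomial ι k))
    (hg : ∀ i, GW w (g i)) : GW w (MvPolynomial.aeval g F) := by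
  induction F using MvPolynomial.induction_on with
  | C a =>
    rw [aeval_C]
    exact GW.C (isWeightedHomogeneous_C _ a)
  | add p q hp hq => rw [map_add]; exact hp.add hq
  | mul_X p i hp => rw [map_mul, aeval_X]; exact hp.mul (hg i)

theorem gw_gen {m : ℕ} (A B : Fin m → k) (M : Fin m → MvPolynomial ι k)
    (Δ : MvPolynomial ι k) (hM : ∀ i, IsWeightedHomogeneous w (M i) 1)
    (hΔ : IsWeightedHomogeneous w Δ 2)
    (i : Fin m) : GW w (gen A B M Δ i) :=
  ((GW.C (isWeightedHomogeneous_C _ _)).add (GW.X_pow_mul_C (hM i))).add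
    (GW.X_pow_mul_C (by simpa using hΔ.mul (isWeightedHomogeneous_C w (B i))))

end Graded

/-- Over every `C₁` field, two points of `F = 0` are joined by a conic or by two lines if
`∑ (d j)² ≤ m + 1`, `m` being the number of the variables. -/
theorem re_of_conic' {k : Type u} [Field k] (hk : IsC1 k) {m : ℕ} {J : Type} [Fintype J]
    (F : J → MvPolynomial (Fin m) k) (d : J → ℕ) (hd : ∀ j, 1 ≤ d j)
    (hF : ∀ j, (F j).IsHomogeneous (d j)) (hsum : ∑ j, d j ^ 2 < m + 2) {P Q : Fin m → k}
    (hP : P ≠ 0) (hQ : Q ≠ 0) (hP0 : ∀ j, eval P (F j) = 0) (hQ0 : ∀ j, eval Q (F j) = 0) :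
    RE F P Q := by
  classical
  let ι := Fin m ⊕ Unit
  let w : ι → ℕ := Sum.elim (fun _ => 1) (fun _ => 2)
  let M : Fin m → MvPolynomial ι k := fun i => X (Sum.inl i)
  let Δ : MvPolynomial ι k := X (Sum.inr ())
  have hM : ∀ i, IsWeightedHomogeneous w (M i) 1 := fun i => isWeightedHomogeneous_X _ _ _
  have hΔ : IsWeightedHomogeneous w Δ 2 := isWeightedHomogeneous_X _ _ _
  let I := (Σ j, Fin (d j)) ⊕ (Σ j, Fin (d j - 1))
  let e : I → ℕ := Sum.elim (fun p => (p.2 : ℕ) + 1) (fun p => (p.2 : ℕ) + 1)
  let f : I → MvPolynomial ι k := Sum.elim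
    (fun p => (aeval (gen P Q M Δ) (F p.1) : Polynomial (MvPolynomial ι k)).coeff ((p.2 : ℕ) + 1))
    (fun p => (aeval (gen Q P M Δ) (F p.1) : Polynomial (MvPolynomial ι k)).coeff ((p.2 : ℕ) + 1))
  have hf : ∀ i, IsWeightedHomogeneous w (f i) (e i) := by
    rintro (p | p)
    · exact GW.aeval (F p.1) _ (gw_gen P Q M Δ hM hΔ) _
    · exact GW.aeval (F p.1) _ (gw_gen Q P M Δ hM hΔ) _
  have he : ∀ i, 1 ≤ e i := by
    rintro (p | p)
    · exact Nat.le_add_left _ _
    · exact Nat.le_add_left _ _
  have hse : ∑ i, e i = ∑ j, d j ^ 2 := by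
    rw [Fintype.sum_sum_type, Fintype.sum_sigma, Fintype.sum_sigma, ← Finset.sum_add_distrib]
    exact Finset.sum_congr rfl fun j _ => sum_sq (d j) (hd j)
  have hc : ∑ i, e i < ∑ v, w v := by
    rw [hse, Fintype.sum_sum_type]
    simpa [w] using hsum
  have hwpos : ∀ v, 0 < w v := by
    rintro (v | v)
    · exact one_pos
    · exact two_pos
  obtain ⟨x, hx, hx0⟩ := sys_w hk f w e hwpos he hf hc
  set M' : Fin m → k := fun i => x (Sum.inl i) with hM'
  set δ : k := x (Sum.inr ()) with hδ
  have hΔx : eval x Δ = δ := by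
    rw [show Δ = X (Sum.inr ()) from rfl, eval_X]
  have c1 : ∀ j, ∀ i ≤ d j, (aeval (crv P Q M' δ) (F j) : Polynomial k).coeff i = 0 := by
    intro j i hi
    rcases i with _ | i
    · rw [coeff_zero_crv]; exact hP0 j
    · have h1 := hx0 (Sum.inl ⟨j, ⟨i, hi⟩⟩)
      simp only [f, Sum.elim_inl] at h1
      rw [← Polynomial.coeff_map, map_aeval_curve] at h1
      rw [← h1]
      congr 3
      funext l
      rw [map_gen, hΔx]
      simp [M, hM']
  have c2 : ∀ j, ∀ i ≤ d j - 1, (aeval (crv Q P M' δ) (F j) : Polynomial k).coeff i = 0 := by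
    intro j i hi
    rcases i with _ | i
    · rw [coeff_zero_crv]; exact hQ0 j
    · have h1 := hx0 (Sum.inr ⟨j, ⟨i, hi⟩⟩)
      simp only [f, Sum.elim_inr] at h1
      rw [← Polynomial.coeff_map, map_aeval_curve] at h1
      rw [← h1]
      congr 3
      funext l
      rw [map_gen, hΔx]
      simp [M, hM']
  by_cases hδ0 : δ = 0
  · -- two lines
    have hM0 : M' ≠ 0 := by
      intro h0
      apply hx
      funext i
      rcases i with i | i
      · exact congrFun h0 i
      · exact hδ0
    rw [hδ0] at c1 c2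
    have e1 : ∀ A B : Fin m → k, crv A B M' 0 = crv A 0 M' 0 := by
      intro A B
      funext i
      simp [crv]
    rw [e1] at c1 c2
    have l1 : Lk F P M' := by
      refine Lk.of_line fun j => ?_
      refine binary_eq_zero ((hF j).aeval _ (lin_homog P M')) (d j) 0 (by omega) ?_ ?_
      · intro i hi
        rw [aeval_lin]
        exact c1 j i hi
      · intro i hi
        rw [Nat.le_zero.1 hi, aeval_lin']
        have h3 : (aeval (crv P 0 M' 0) (F j) : Polynomial k).coeff (d j) = eval M' (F j) := by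
          have h4 := Polynomial.homogenize_eq_of_isHomogeneous
            ((hF j).aeval _ (lin_homog P M')) (p := aeval (crv P 0 M' 0) (F j)) (aeval_lin _ _ _)
          rw [one_mul] at h4
          rw [← eval_one_zero_homogenize, h4]
          rw [eval_aeval]
          congr 2
          funext i
          simp [Pool.Agent.K369.lin]
        rw [← h3]
        exact c1 j _ le_rfl
    have l2 : Lk F Q M' := by
      refine Lk.of_line fun j => ?_
      refine binary_eq_zero ((hF j).aeval _ (lin_homog Q M')) (d j - 1) 0 (by have := hd j; omega)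
        ?_ ?_
      · intro i hi
        rw [aeval_lin]
        exact c2 j i hi
      · intro i hi
        rw [Nat.le_zero.1 hi, aeval_lin']
        exact l1.zero_right hF j
    exact (RE.of_lk hP hM0 l1).trans (RE.of_lk hQ hM0 l2).symm
  · -- a conic
    refine RE.of_lk hP hQ ?_
    refine Lk.of_forms 2 (bin P Q M' δ) (bin_homog P Q M' δ) (fun j => ?_) one_ne_zero hδ0
      (by rw [eval_bin_zero, one_smul]) (eval_bin_one _ _ _ _)
    refine binary_eq_zero ((hF j).aeval _ (bin_homog P Q M' δ)) (d j) (d j - 1)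
      (by have := hd j; omega) ?_ ?_
    · intro i hi
      rw [aeval_bin]
      exact c1 j i hi
    · intro i hi
      have h3 := congrArg (fun p => Polynomial.coeff p i) (aeval_bin' P Q M' δ (hF j))
      simp only [Polynomial.comp_C_mul_X_coeff] at h3
      rw [← Polynomial.C_pow, Polynomial.coeff_C_mul, c2 j i hi, mul_zero] at h3
      exact (mul_eq_zero.1 h3).resolve_right (pow_ne_zero _ hδ0)

end Run7.h94.REq
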