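import Mathlib
import Pool.Agent.K369.Monoid
import Pool.Agent.Run7.h94.REq1

set_option autoImplicit false
set_option linter.all false

/-!
# R-equivalence over an arbitrary `C₁` field, II: plane curves with a point of high multiplicity
-/

namespace Run7.h94.REq

open MvPolynomial Pool.Agent.K369

universe u

/-- Two points `P`, `R` such that the line `P R` has a high contact with `F s = 0` at `P` and is
in `F j = 0` for the other `j` are R-equivalent. -/
theorem re_of_monoid' {k : Type u} [Field k] {m : ℕ} {J : Type} (hk : IsC1 k) [Fintype J] [DecidableEq J]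
    (F : J → MvPolynomial (Fin m) k) (d : J → ℕ)
    (hF : ∀ j, (F j).IsHomogeneous (d j)) (s : J) (hs : 2 ≤ d s)
    (hsum : ∑ j ∈ Finset.univ.erase s, (d j + 2).choose 3 + (d s).choose 3 + d s < m)
    {P R : Fin m → k} (hP : P ≠ 0) (hR : R ≠ 0)
    (hline : ∀ j, j ≠ s → (aeval (crv P 0 R 0) (F j) : Polynomial k) = 0)
    (hPs : eval P (F s) = 0) (hRs : eval R (F s) = 0)
    (hc : ∀ i, 1 ≤ i → i ≤ d s - 2 → (aeval (crv P 0 R 0) (F s) : Polynomial k).coeff i = 0) :
    RE F P R := by
  classical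
  obtain ⟨i0, hi0⟩ := Function.ne_iff.1 hP
  let a : J → ℕ := fun j => if j = s then d s - 2 else d j
  let I := (Σ j, Σ l : Fin (a j), Fin (a j - l)) ⊕ (Unit ⊕ Unit)
  let W : Fin m → MvPolynomial (Fin m) k := X
  let gp : Fin m → MvPolynomial (Fin 3) (MvPolynomial (Fin m) k) :=
    pln (fun i => C (P i)) W (fun i => C (R i))
  have hgp : ∀ i, GrW (gp i) := grW_pln P R W fun i => isHomogeneous_X _ _
  let e : I → ℕ := Sum.elim (fun p => (p.2.1 : ℕ) + 1) (Sum.elim (fun _ => d s - 1) (fun _ => 1))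
  let f : I → MvPolynomial (Fin m) k := Sum.elim
    (fun p => coeff (e3 (d p.1 - ((p.2.1 : ℕ) + 1) - (p.2.2 : ℕ)) ((p.2.1 : ℕ) + 1) (p.2.2 : ℕ))
      (aeval gp (F p.1)))
    (Sum.elim (fun _ => coeff (e3 1 (d s - 1) 0) (aeval gp (F s))) (fun _ => X i0))
  have hf : ∀ i, (f i).IsHomogeneous (e i) := by
    rintro (p | p | p)
    · exact GrW.aeval (F p.1) gp hgp _
    · exact GrW.aeval (F s) gp hgp _
    · exact isHomogeneous_X _ _
  have he : ∀ i, 1 ≤ e i := by
    rintro (p | p | p)
    · exact Nat.le_add_left _ _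
    · change 1 ≤ d s - 1
      omega
    · exact le_rfl
  have hse : ∑ i, e i =
      ∑ j ∈ Finset.univ.erase s, (d j + 2).choose 3 + (d s).choose 3 + d s := by
    rw [Fintype.sum_sum_type, Fintype.sum_sum_type, Fintype.sum_sigma]
    have h1 : ∀ j, ∑ p : (Σ l : Fin (a j), Fin (a j - l)), e (Sum.inl ⟨j, p⟩) =
        (a j + 2).choose 3 := by
      intro j
      rw [Fintype.sum_sigma]
      exact sum_choose_three (a j)
    rw [Finset.sum_congr rfl fun j _ => h1 j]
    rw [← Finset.sum_erase_add _ _ (Finset.mem_univ s)]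
    have h2 : ∑ j ∈ Finset.univ.erase s, (a j + 2).choose 3 =
        ∑ j ∈ Finset.univ.erase s, (d j + 2).choose 3 := by
      refine Finset.sum_congr rfl fun j hj => ?_
      rw [Finset.mem_erase] at hj
      simp only [a, if_neg hj.1]
    have h3 : a s + 2 = d s := by
      simp only [a, if_true]
      omega
    rw [h2, h3]
    simp only [e, Sum.elim_inr, Sum.elim_inl, Finset.univ_unique, Finset.sum_const,
      Finset.card_singleton, one_smul]
    omega
  have hcard : ∑ i, e i < Fintype.card (Fin m) := by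
    rw [hse, Fintype.card_fin]
    exact hsum
  obtain ⟨w, hw, hw0⟩ := sys hk e he f hf hcard
  have hev : ∀ j, map (eval w) (aeval gp (F j)) = bind₁ (pln P w R) (F j) := by
    intro j
    rw [map_aeval_pln]
    change _ = aeval (pln P w R) (F j)
    congr 2
    funext i
    rw [map_pln]
    simp [W]
  have hH : ∀ j, (bind₁ (pln P w R) (F j)).IsHomogeneous (d j) := by
    intro j
    have := (hF j).aeval _ (pln_homog P w R)
    rwa [one_mul] at this
  have hbase : ∀ j (e : Fin 3 →₀ ℕ), e 1 = 0 → e 0 + e 1 + e 2 = d j →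
      coeff e (bind₁ (pln P w R) (F j)) =
        (aeval (crv P 0 R 0) (F j) : Polynomial k).coeff (e 2) := by
    intro j e h1 h2
    have h3 : (aeval (crv P 0 R 0) (F j) : Polynomial k) =
        aeval ![1, 0, Polynomial.X] (bind₁ (pln P w R) (F j)) := by
      rw [aeval_bind_pln]
      congr 2
      funext i
      simp [crv]
    rw [h3, coeff_line (hH j) (e 2) (by omega)]
    congr 1
    rw [eq_e3 e]
    simp only [e3_zero, e3_one, e3_two]
    rw [h1]
    congr 1
    omega
  have hcf : ∀ j (e : Fin 3 →₀ ℕ), 1 ≤ e 1 → e 0 + e 1 + e 2 = d j → e 1 + e 2 ≤ a j →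
      coeff e (bind₁ (pln P w R) (F j)) = 0 := by
    intro j e h1 h2 h3
    have h4 := hw0 (Sum.inl ⟨j, ⟨e 1 - 1, by omega⟩, ⟨e 2, by
      change e 2 < a j - (e 1 - 1)
      omega⟩⟩)
    simp only [f, Sum.elim_inl] at h4
    rw [← coeff_map, hev] at h4
    rw [← h4]
    congr 1
    rw [eq_e3 e]
    simp only [e3_zero, e3_one, e3_two]
    congr 1 <;> omega
  refine re_of_plane hF s (by omega) hP hR (w := w) ?_ ?_ ?_ ?_ hRs
  · intro b hb
    have h1 := hw0 (Sum.inr (Sum.inr ()))
    simp only [f, Sum.elim_inr, eval_X] at h1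
    rw [hb] at h1
    simp only [Pi.smul_apply, smul_eq_mul] at h1
    rcases mul_eq_zero.1 h1 with h2 | h2
    · apply hw
      rw [hb, h2, zero_smul]
    · exact hi0 h2
  · intro j hj
    ext e
    rw [coeff_zero]
    by_contra hne
    have h1 := sum_eq_of_coeff_ne_zero (hH j) hne
    apply hne
    by_cases h2 : e 1 = 0
    · rw [hbase j e h2 h1, hline j hj, Polynomial.coeff_zero]
    · refine hcf j e (by omega) h1 ?_
      simp only [a, if_neg hj]
      omega
  · intro e he2
    by_contra hne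
    have h1 := sum_eq_of_coeff_ne_zero (hH s) hne
    apply hne
    by_cases h2 : e 1 = 0
    · rw [hbase s e h2 h1]
      by_cases h3 : e 2 = 0
      · rw [h3, coeff_zero_crv, hPs]
      · exact hc _ (by omega) (by omega)
    · refine hcf s e (by omega) h1 ?_
      simp only [a, if_true]
      omega
  · have h1 := hw0 (Sum.inr (Sum.inl ()))
    simp only [f, Sum.elim_inr, Sum.elim_inl] at h1
    rw [← coeff_map, hev] at h1
    exact h1

/-- Over every `C₁` field, all points of `F = 0` are R-equivalent if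
`∑_{j ≠ s} (d j)² + (d s - 1)² + 1 < m` and `∑_{j ≠ s} C(d j + 2, 3) + C(d s, 3) + d s < m`,
`m` being the number of the variables. -/
theorem re_of_two_monoids' {k : Type u} [Field k] {m : ℕ} {J : Type} (hk : IsC1 k) [Fintype J]
    [DecidableEq J] (F : J → MvPolynomial (Fin m) k) (d : J → ℕ) (hd : ∀ j, 1 ≤ d j)
    (hF : ∀ j, (F j).IsHomogeneous (d j)) (s : J) (hs : 2 ≤ d s)
    (hsum1 : ∑ j ∈ Finset.univ.erase s, d j ^ 2 + (d s - 1) ^ 2 + 1 < m)
    (hsum2 : ∑ j ∈ Finset.univ.erase s, (d j + 2).choose 3 + (d s).choose 3 + d s < m)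
    {P Q : Fin m → k} (hP : P ≠ 0) (hQ : Q ≠ 0) (hP0 : ∀ j, eval P (F j) = 0)
    (hQ0 : ∀ j, eval Q (F j) = 0) : RE F P Q := by
  classical
  let a : J → ℕ := fun j => if j = s then d s - 2 else d j
  let b : J → ℕ := fun j => if j = s then d s - 2 else d j - 1
  let I := ((Σ j, Fin (a j)) ⊕ (Σ j, Fin (b j))) ⊕ Unit
  let M : Fin m → MvPolynomial (Fin m) k := X
  have hM : ∀ i, (M i).IsHomogeneous 1 := fun i => isHomogeneous_X _ _
  let e : I → ℕ := Sum.elim (Sum.elim (fun p => (p.2 : ℕ) + 1) (fun p => (p.2 : ℕ) + 1))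
    (fun _ => d s)
  let f : I → MvPolynomial (Fin m) k := Sum.elim (Sum.elim
    (fun p => (aeval (gen P 0 M 0) (F p.1) :
      Polynomial (MvPolynomial (Fin m) k)).coeff ((p.2 : ℕ) + 1))
    (fun p => (aeval (gen Q 0 M 0) (F p.1) :
      Polynomial (MvPolynomial (Fin m) k)).coeff ((p.2 : ℕ) + 1)))
    (fun _ => F s)
  have hf : ∀ i, (f i).IsHomogeneous (e i) := by
    rintro ((p | p) | p)
    · exact Gr.aeval (F p.1) _ (gr_gen P 0 M 0 hM (isHomogeneous_zero _ _ _)) _
    · exact Gr.aeval (F p.1) _ (gr_gen Q 0 M 0 hM (isHomogeneous_zero _ _ _)) _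
    · exact hF s
  have he : ∀ i, 1 ≤ e i := by
    rintro ((p | p) | p)
    · exact Nat.le_add_left _ _
    · exact Nat.le_add_left _ _
    · exact hd s
  have hse : ∑ i, e i = ∑ j ∈ Finset.univ.erase s, d j ^ 2 + (d s - 1) ^ 2 + 1 := by
    rw [Fintype.sum_sum_type, Fintype.sum_sum_type, Fintype.sum_sigma, Fintype.sum_sigma,
      ← Finset.sum_add_distrib, ← Finset.sum_erase_add _ _ (Finset.mem_univ s)]
    have h1 : ∀ j ∈ Finset.univ.erase s, (∑ l : Fin (a j), e (Sum.inl (Sum.inl ⟨j, l⟩)) +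
        ∑ l : Fin (b j), e (Sum.inl (Sum.inr ⟨j, l⟩))) = d j ^ 2 := by
      intro j hj
      rw [Finset.mem_erase] at hj
      simp only [e, Sum.elim_inl, Sum.elim_inr]
      have h2 := sum_succ_two (a j)
      have h3 := sum_succ_two (b j)
      have h4 : a j = d j := by simp only [a, if_neg hj.1]
      have h5 : b j = d j - 1 := by simp only [b, if_neg hj.1]
      obtain ⟨c, hc⟩ : ∃ c, d j = c + 1 := ⟨d j - 1, by have := hd j; omega⟩
      rw [h4, hc] at h2
      rw [h5, hc, Nat.add_sub_cancel] at h3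
      rw [h4, h5, hc, Nat.add_sub_cancel]
      nlinarith
    rw [Finset.sum_congr rfl h1, add_assoc, add_assoc, add_assoc]
    congr 1
    simp only [e, Sum.elim_inl, Sum.elim_inr]
    have h2 := sum_succ_two (a s)
    have h3 := sum_succ_two (b s)
    have h4 : a s = d s - 2 := by simp only [a, if_true]
    have h5 : b s = d s - 2 := by simp only [b, if_true]
    obtain ⟨c, hc⟩ : ∃ c, d s = c + 2 := ⟨d s - 2, by omega⟩
    rw [h4, hc, Nat.add_sub_cancel] at h2
    rw [h5, hc, Nat.add_sub_cancel] at h3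
    rw [h4, h5, hc, Nat.add_sub_cancel]
    have h6 : c + 2 - 1 = c + 1 := by omega
    rw [h6]
    simp only [Finset.univ_unique, Finset.sum_const, Finset.card_singleton, one_smul]
    nlinarith
  have hcard : ∑ i, e i < Fintype.card (Fin m) := by
    rw [hse, Fintype.card_fin]
    exact hsum1
  obtain ⟨R, hR, hR0⟩ := sys hk e he f hf hcard
  have hev : ∀ (A : Fin m → k) j, Polynomial.map (eval R) (aeval (gen A 0 M 0) (F j)) =
      aeval (crv A 0 R 0) (F j) := by
    intro A j
    rw [map_aeval_curve]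
    congr 2
    funext i
    rw [map_gen, map_zero]
    congr 1
    funext l
    simp [M]
  have hRs : eval R (F s) = 0 := hR0 (Sum.inr ())
  have c1 : ∀ j i, 1 ≤ i → i ≤ a j → (aeval (crv P 0 R 0) (F j) : Polynomial k).coeff i = 0 := by
    intro j i h1 h2
    obtain ⟨i, rfl⟩ : ∃ i', i = i' + 1 := ⟨i - 1, by omega⟩
    have h3 := hR0 (Sum.inl (Sum.inl ⟨j, ⟨i, by omega⟩⟩))
    simp only [f, Sum.elim_inl] at h3
    rw [← Polynomial.coeff_map, hev] at h3
    exact h3
  have c2 : ∀ j i, 1 ≤ i → i ≤ b j → (aeval (crv Q 0 R 0) (F j) : Polynomial k).coeff i = 0 := by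
    intro j i h1 h2
    obtain ⟨i, rfl⟩ : ∃ i', i = i' + 1 := ⟨i - 1, by omega⟩
    have h3 := hR0 (Sum.inl (Sum.inr ⟨j, ⟨i, by omega⟩⟩))
    simp only [f, Sum.elim_inl, Sum.elim_inr] at h3
    rw [← Polynomial.coeff_map, hev] at h3
    exact h3
  have hRj : ∀ j, eval R (F j) = 0 := by
    intro j
    by_cases hj : j = s
    · rw [hj]; exact hRs
    · rw [← coeff_crv_top (hF j) P R]
      refine c1 j _ (hd j) ?_
      simp only [a, if_neg hj]
      exact le_rfl
  have r1 : RE F P R := by
    refine re_of_monoid' hk F d hF s hs hsum2 hP hR ?_ (hP0 s) hRs ?_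
    · intro j hj
      refine crv_eq_zero (hF j) P R fun i hi => ?_
      rcases i with _ | i
      · rw [coeff_zero_crv]; exact hP0 j
      · refine c1 j _ (Nat.le_add_left _ _) ?_
        simp only [a, if_neg hj]
        exact hi
    · intro i h1 h2
      refine c1 s i h1 ?_
      simp only [a, if_true]
      exact h2
  have r2 : RE F Q R := by
    refine re_of_monoid' hk F d hF s hs hsum2 hQ hR ?_ (hQ0 s) hRs ?_
    · intro j hj
      refine crv_eq_zero (hF j) Q R fun i hi => ?_
      rcases i with _ | i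
      · rw [coeff_zero_crv]; exact hQ0 j
      · by_cases h4 : i + 1 = d j
        · rw [h4, coeff_crv_top (hF j)]
          exact hRj j
        · refine c2 j _ (Nat.le_add_left _ _) ?_
          simp only [b, if_neg hj]
          omega
    · intro i h1 h2
      refine c2 s i h1 ?_
      simp only [b, if_true]
      exact h2
  exact r1.trans r2.symm



/-- Over every `C₁` field, `X(k)/R` has exactly one element, with the same conditions. -/
theorem card_one {k : Type u} [Field k] (hk : IsC1 k) {n r : ℕ}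
    (F : Fin r → MvPolynomial (Fin (n + 1)) k) (d : Fin r → ℕ) (hd : ∀ j, 1 ≤ d j)
    (hF : ∀ j, (F j).IsHomogeneous (d j))
    (h : ∑ j, d j ^ 2 ≤ n + 2 ∨ ∃ s, 2 ≤ d s ∧
      ∑ j ∈ Finset.univ.erase s, d j ^ 2 + (d s - 1) ^ 2 + 1 ≤ n ∧
      ∑ j ∈ Finset.univ.erase s, (d j + 2).choose 3 + (d s).choose 3 + d s ≤ n)
    (hne : (Pt F).Nonempty) : Nat.card (RClasses F) = 1 := by
  refine card_RClasses hF hne fun P Q hP hQ hP0 hQ0 => ?_
  rcases h with h | ⟨s, hs, h1, h2⟩
  · exact re_of_conic' hk F d hd hF (by omega) hP hQ hP0 hQ0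
  · exact re_of_two_monoids' hk F d hd hF s hs (by omega) (by omega) hP hQ hP0 hQ0

end Run7.h94.REq
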