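import Pool.Agent.H19CI.D

/-! Systems of forms over an algebraically closed field. -/

set_option autoImplicit false

open MvPolynomial Pool.Agent.H19CI

namespace Run7.h94

variable {K : Type*} [Field K]

/-- the ideal of the linear space where the first `j` coordinates vanish -/
noncomputable def lin (K : Type*) [Field K] (n j : ℕ) : Ideal (MvPolynomial (Fin n) K) :=
  RingHom.ker (bind₁ fun s : Fin n => if (s : ℕ) < j then (0 : MvPolynomial (Fin n) K) else X s)

instance lin_prime (n j : ℕ) : (lin K n j).IsPrime := RingHom.ker_isPrime _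

theorem lin_lt (n j : ℕ) (hj : j < n) : lin K n j < lin K n (j + 1) := by
  refine lt_of_le_of_ne ?_ fun h => ?_
  · intro p hp
    have h1 : bind₁ (fun s : Fin n => if (s : ℕ) < j then (0 : MvPolynomial (Fin n) K) else X s) p
      = 0 := hp
    show bind₁ (fun s : Fin n => if (s : ℕ) < j + 1 then (0 : MvPolynomial (Fin n) K) else X s) p
      = 0
    have h2 := congrArg (bind₁ (fun s : Fin n =>
      if (s : ℕ) < j + 1 then (0 : MvPolynomial (Fin n) K) else X s)) h1
    rw [map_zero, bind₁_bind₁] at h2
    refine Eq.trans ?_ h2
    congr 2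
    funext s
    by_cases h4 : (s : ℕ) < j
    · rw [if_pos h4, map_zero, if_pos (by omega)]
    · rw [if_neg h4, bind₁_X_right]
  · have h1 : (X ⟨j, hj⟩ : MvPolynomial (Fin n) K) ∈ lin K n (j + 1) := by
      show bind₁ (fun s : Fin n => if (s : ℕ) < j + 1 then (0 : MvPolynomial (Fin n) K) else X s)
        (X ⟨j, hj⟩) = 0
      rw [bind₁_X_right, if_pos (by simp)]
    rw [← h] at h1
    have h2 : bind₁ (fun s : Fin n => if (s : ℕ) < j then (0 : MvPolynomial (Fin n) K) else X s)
        (X ⟨j, hj⟩) = 0 := h1
    rw [bind₁_X_right, if_neg (by simp)] at h2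
    exact X_ne_zero _ h2

theorem lin_height (n j : ℕ) (hj : j ≤ n) : (j : ℕ∞) ≤ (lin K n j).height := by
  induction j with
  | zero => simp
  | succ j ih =>
    have h1 := Ideal.height_add_one_le_of_lt_of_isPrime (lin_lt (K := K) n j (by omega))
    refine le_trans ?_ h1
    push_cast
    exact add_le_add_left (ih (by omega)) 1

/-- over an algebraically closed field an anisotropic system has at least as many forms as
variables -/
theorem closed_le [IsAlgClosed K] {n : ℕ} {J : Type} [Fintype J] (f : J → MvPolynomial (Fin n) K)
    (d : J → ℕ) (hd : ∀ j, 0 < d j) (hf : ∀ j, (f j).IsHomogeneous (d j)) (hani : Aniso f) :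
    n ≤ Fintype.card J := by
  classical
  have hzero : ∀ j, eval 0 (f j) = 0 := fun j => by
    have h1 : coeff 0 (f j) = 0 := by
      by_contra hne
      have h2 := hf j hne
      rw [map_zero] at h2
      exact absurd h2.symm (hd j).ne'
    have h3 := constantCoeff_eq (R := K) (σ := Fin n)
    have h4 : eval (0 : Fin n → K) = constantCoeff := by
      ext <;> simp
    rw [h4, constantCoeff_eq, h1]
  set I : Ideal (MvPolynomial (Fin n) K) := Ideal.span (Set.range f) with hI
  have hloc : zeroLocus K I = {0} := by
    rw [hI, zeroLocus_span]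
    ext x
    simp only [Set.mem_range, forall_exists_index, forall_apply_eq_imp_iff, Set.mem_ofPred_eq,
      Set.mem_singleton_iff]
    constructor
    · intro hx
      exact hani x fun j => by simpa using hx j
    · rintro rfl j
      simpa using hzero j
  have hrad : vanishingIdeal K ({0} : Set (Fin n → K)) = I.radical := by
    rw [← hloc]; exact vanishingIdeal_zeroLocus_eq_radical I
  set P : Ideal (MvPolynomial (Fin n) K) := vanishingIdeal K ({0} : Set (Fin n → K)) with hP
  have hPprime : P.IsPrime := inferInstance
  have hmin : P ∈ I.minimalPrimes := by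
    rw [← Ideal.radical_minimalPrimes, ← hrad, Ideal.minimalPrimes_eq_subsingleton_self]
    exact Set.mem_singleton _
  have h1 := Ideal.height_le_card_of_mem_minimalPrimes_span (Set.finite_range f) hmin
  have h2 : lin K n n ≤ P := by
    intro p hp
    have h3 : bind₁ (fun s : Fin n => if (s : ℕ) < n then (0 : MvPolynomial (Fin n) K) else X s) p
      = 0 := hp
    rw [hP, mem_vanishingIdeal_singleton_iff]
    have h4 := congrArg (eval 0) h3
    rw [eval_bind, map_zero] at h4
    have h5 : (fun s : Fin n => eval (0 : Fin n → K) (if (s : ℕ) < n then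
      (0 : MvPolynomial (Fin n) K) else X s)) = 0 := by
      funext s
      rw [if_pos s.2, map_zero]
      rfl
    rw [h5] at h4
    simpa using h4
  have h3 := (lin_height (K := K) n n le_rfl).trans ((Ideal.height_mono h2).trans h1)
  have h4 : n ≤ (Set.range f).ncard := by exact_mod_cast h3
  refine h4.trans ?_
  rw [← Set.image_univ]
  refine (Set.ncard_image_le Set.finite_univ).trans ?_
  rw [Set.ncard_univ, Nat.card_eq_fintype_card]

end Run7.h94
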