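import Pool.Agent.H19CI.D

/-! Norm forms, and the degrees of the finite extensions. -/

set_option autoImplicit false

open MvPolynomial Pool.Agent.H19CI Module

namespace Run7.h94

universe u

variable {K : Type u} [Field K]

/-- the norm form of a finite extension -/
theorem hasForm_finrank (L : Type*) [Field L] [Algebra K L] [FiniteDimensional K L] :
    HasForm K (finrank K L) (Fin (finrank K L)) := by
  classical
  let b := finBasis K L
  let M : Matrix (Fin (finrank K L)) (Fin (finrank K L)) (MvPolynomial (Fin (finrank K L)) K) :=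
    fun r c => ∑ i, C (Algebra.leftMulMatrix b (b i) r c) * X i
  have hM : ∀ r c, (M r c).IsHomogeneous 1 := fun r c =>
    IsHomogeneous.sum _ _ _ fun i _ => by
      have := (isHomogeneous_C (Fin (finrank K L)) (Algebra.leftMulMatrix b (b i) r c)).mul
        (isHomogeneous_X K i)
      rwa [zero_add] at this
  refine ⟨M.det, ?_, fun x hx => ?_⟩
  · rw [Matrix.det_apply]
    refine IsHomogeneous.sum _ _ _ fun σ _ => ?_
    have h1 : (∏ i, M (σ i) i).IsHomogeneous (∑ _i : Fin (finrank K L), 1) :=
      IsHomogeneous.prod _ _ _ fun i _ => hM _ _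
    simp only [Finset.sum_const, Finset.card_univ, Fintype.card_fin, smul_eq_mul, mul_one] at h1
    have h2 : (Equiv.Perm.sign σ • ∏ i, M (σ i) i) =
        C ((Equiv.Perm.sign σ : ℤ) : K) * ∏ i, M (σ i) i := by
      rw [Units.smul_def, ← Int.cast_smul_eq_zsmul K, MvPolynomial.smul_eq_C_mul]
    rw [h2]
    have := (isHomogeneous_C (Fin (finrank K L)) ((Equiv.Perm.sign σ : ℤ) : K)).mul h1
    rwa [zero_add] at this
  · have h1 : eval x M.det = (Algebra.leftMulMatrix b (∑ i, x i • b i)).det := by
      rw [RingHom.map_det]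
      congr 1
      ext r c
      simp only [RingHom.mapMatrix_apply, Matrix.map_apply, M, map_sum, map_mul, eval_C, eval_X,
        map_smul, Matrix.sum_apply, Matrix.smul_apply, smul_eq_mul]
      exact Finset.sum_congr rfl fun i _ => mul_comm _ _
    rw [h1, ← Algebra.norm_eq_matrix_det b, Algebra.norm_eq_zero_iff] at hx
    have h2 := (Fintype.linearIndependent_iff.1 b.linearIndependent) x hx
    funext i
    exact h2 i

/-- every nontrivial finite extension of `K` has degree divisible by `r` -/
def Special (K : Type u) [Field K] (r : ℕ) : Prop :=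
  ∀ (L : Type u) [Field L] [Algebra K L] [FiniteDimensional K L],
    ¬ r ∣ finrank K L → finrank K L = 1

/-- the two cases -/
theorem special_or (K : Type u) [Field K] :
    (∀ p : ℕ, p.Prime → ∃ b, 2 ≤ b ∧ ¬ p ∣ b ∧ HasForm K b (Fin b)) ∨
      ∃ r : ℕ, r.Prime ∧ Special K r := by
  by_contra hcon
  push Not at hcon
  obtain ⟨⟨p, hp, h1⟩, h2⟩ := hcon
  apply h2 p hp
  intro L _ _ _ hL
  by_contra hne
  have hpos : 0 < finrank K L := finrank_pos
  exact h1 (finrank K L) (by omega) hL (hasForm_finrank L)

end Run7.h94
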