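import Pool.Agent.Run7.h94.Zero
import Pool.Agent.Run7.h94.Dim
import Pool.Agent.Run7.h94.NormF

/-! Systems of forms of degrees prime to `r` over a field all of whose nontrivial finite extensions
have degree divisible by `r`. -/

set_option autoImplicit false

open MvPolynomial Module Pool.Agent.H19CI

namespace Run7.h94

universe u

variable {K : Type u} [Field K] {n : ℕ}

/-- the ideal generated by the first `j` variables -/
noncomputable def Iv (K : Type u) [Field K] (n : ℕ) : ℕ → Ideal (MvPolynomial (Fin n) K)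
  | 0 => ⊥
  | j + 1 => Iv K n j ⊔ Ideal.span {if h : j < n then X ⟨j, h⟩ else 0}

theorem Iv_succ {j : ℕ} (h : j < n) : Iv K n (j + 1) = Iv K n j ⊔ Ideal.span {X ⟨j, h⟩} := by
  show Iv K n j ⊔ Ideal.span {if h : j < n then X ⟨j, h⟩ else 0} = _
  rw [dif_pos h]

theorem Iv_hom (j : ℕ) : HomI (Iv K n j) := by
  induction j with
  | zero =>
    intro a ha i
    have : a = 0 := ha
    rw [this, map_zero]
    exact Ideal.zero_mem _
  | succ j ih =>
    by_cases h : j < n
    · rw [Iv_succ h]
      exact ih.sup (isHomogeneous_X K _)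
    · have h1 : Iv K n (j + 1) = Iv K n j ⊔ Ideal.span {0} := by
        show Iv K n j ⊔ Ideal.span {if h : j < n then X ⟨j, h⟩ else 0} = _
        rw [dif_neg h]
      rw [h1]
      exact HomI.sup ih (f := 0) (d := 0) (isHomogeneous_zero (Fin n) K 0)

theorem X_mem_Iv {j : ℕ} {i : Fin n} (hi : (i : ℕ) < j) : (X i : MvPolynomial (Fin n) K) ∈ Iv K n j := by
  induction j with
  | zero => omega
  | succ j ih =>
    by_cases h : (i : ℕ) < j
    · exact Submodule.mem_sup_left (ih h)
    · have hij : (i : ℕ) = j := by omega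
      have hj : j < n := hij ▸ i.2
      rw [Iv_succ hj]
      refine Submodule.mem_sup_right ?_
      have : i = ⟨j, hj⟩ := Fin.ext hij
      rw [this]
      exact Ideal.mem_span_singleton_self _

theorem Iv_le_lin (j : ℕ) : Iv K n j ≤ lin K n j := by
  induction j with
  | zero => exact bot_le
  | succ j ih =>
    by_cases h : j < n
    · rw [Iv_succ h]
      refine sup_le (ih.trans (lin_lt n j h).le) ?_
      rw [Ideal.span_le, Set.singleton_subset_iff]
      show bind₁ (fun s : Fin n => if (s : ℕ) < j + 1 then (0 : MvPolynomial (Fin n) K) else X s)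
        (X ⟨j, h⟩) = 0
      rw [bind₁_X_right, if_pos (by simp)]
    · show Iv K n j ⊔ Ideal.span {if h : j < n then X ⟨j, h⟩ else 0} ≤ _
      rw [dif_neg h]
      refine sup_le (ih.trans ?_) ?_
      · intro a ha
        have h1 : bind₁ (fun s : Fin n => if (s : ℕ) < j then (0 : MvPolynomial (Fin n) K) else X s) a
          = 0 := ha
        show bind₁ (fun s : Fin n => if (s : ℕ) < j + 1 then (0 : MvPolynomial (Fin n) K) else X s)
          a = 0
        refine Eq.trans ?_ h1
        congr 2
        funext s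
        have := s.2
        rw [if_pos (by omega), if_pos (by omega)]
      · rw [Ideal.span_le, Set.singleton_subset_iff]
        exact Ideal.zero_mem _

theorem lin_le_Iv (j : ℕ) : lin K n j ≤ Iv K n j := by
  intro a ha
  have h1 : bind₁ (fun s : Fin n => if (s : ℕ) < j then (0 : MvPolynomial (Fin n) K) else X s) a
    = 0 := ha
  have key : ∀ b : MvPolynomial (Fin n) K, b - bind₁ (fun s : Fin n => if (s : ℕ) < j then
      (0 : MvPolynomial (Fin n) K) else X s) b ∈ Iv K n j := by
    intro b
    induction b using MvPolynomial.induction_on with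
    | C c => rw [bind₁_C_right, sub_self]; exact Ideal.zero_mem _
    | add p q hp hq =>
      rw [map_add]
      have := Ideal.add_mem _ hp hq
      convert this using 1
      ring
    | mul_X p s hp =>
      rw [map_mul, bind₁_X_right]
      by_cases hs : (s : ℕ) < j
      · rw [if_pos hs, mul_zero, sub_zero]
        exact Ideal.mul_mem_left _ _ (X_mem_Iv hs)
      · rw [if_neg hs, ← sub_mul]
        exact Ideal.mul_mem_right _ _ hp
  have h2 := key a
  rwa [h1, sub_zero] at h2

theorem Iv_eq (j : ℕ) : Iv K n j = lin K n j := le_antisymm (Iv_le_lin j) (lin_le_Iv j)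

theorem Iv_prime (j : ℕ) : (Iv K n j).IsPrime := by
  rw [Iv_eq]; infer_instance

theorem X_notMem_Iv {j : ℕ} (h : j < n) : (X ⟨j, h⟩ : MvPolynomial (Fin n) K) ∉ Iv K n j := by
  rw [Iv_eq]
  intro h1
  have h2 : bind₁ (fun s : Fin n => if (s : ℕ) < j then (0 : MvPolynomial (Fin n) K) else X s)
      (X ⟨j, h⟩) = 0 := h1
  rw [bind₁_X_right, if_neg (by simp)] at h2
  exact X_ne_zero _ h2

theorem hf_Iv_succ {j : ℕ} (h : j < n) (t : ℕ) :
    hf (Iv K n j) (t + 1) = hf (Iv K n j) t + hf (Iv K n (j + 1)) (t + 1) := by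
  have h1 := hf_step (Iv_hom (K := K) (n := n) j) (isHomogeneous_X K (⟨j, h⟩ : Fin n)) t
  rw [quo_prime (Iv_prime j) (X_notMem_Iv h)] at h1
  rw [Iv_succ h]
  exact h1

theorem hf_zero {P : Ideal (MvPolynomial (Fin n) K)} (hP : P ≠ ⊤) : hf P 0 = 1 := by
  have h1 : part P 0 = ⊥ := by
    rw [eq_bot_iff]
    intro a ha
    rw [mem_part] at ha
    have h2 : a = C (coeff 0 a) := by
      conv_lhs => rw [← homogeneousComponent_eq_self ha.1, homogeneousComponent_zero]
    by_contra hne
    apply hP
    rw [Ideal.eq_top_iff_one]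
    have h3 : coeff 0 a ≠ 0 := by
      intro h3
      rw [h3, C_0] at h2
      exact hne h2
    have h4 := P.mul_mem_left (C (coeff 0 a)⁻¹) ha.2
    rw [h2] at h4
    rwa [← C_mul, coeff_C, if_pos rfl, inv_mul_cancel₀ h3, C_1] at h4
  have h2 : finrank K (homogeneousSubmodule (Fin n) K 0) = 1 := by
    rw [finrank_eq_one_iff_of_nonzero' (⟨1, isHomogeneous_one (Fin n) K⟩ :
      homogeneousSubmodule (Fin n) K 0) (by
        intro h
        have := congrArg (fun z : homogeneousSubmodule (Fin n) K 0 =>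
          (z : MvPolynomial (Fin n) K)) h
        exact one_ne_zero this)]
    rintro ⟨a, ha⟩
    refine ⟨coeff 0 a, Subtype.ext ?_⟩
    show coeff 0 a • (1 : MvPolynomial (Fin n) K) = a
    conv_rhs => rw [← homogeneousComponent_eq_self ha, homogeneousComponent_zero]
    rw [smul_eq_C_mul, mul_one]
  unfold hf
  rw [h1, h2, finrank_bot]
  norm_num

theorem Tp_Iv (k : ℕ) (hk : k < n) : Tp k 1 (hf (Iv K n (n - 1 - k))) := by
  refine ⟨?_, one_pos⟩
  induction k with
  | zero =>
    refine ⟨0, fun t _ => ?_⟩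
    show hf (Iv K n (n - 1 - 0)) t = 1
    rw [Nat.sub_zero]
    induction t with
    | zero => exact hf_zero (Iv_prime (n - 1)).ne_top
    | succ t ih =>
      rw [hf_Iv_succ (show n - 1 < n by omega), ih (Nat.zero_le _),
        Nat.sub_add_cancel (by omega : 1 ≤ n)]
      rw [hf_irrel' (fun i => X_mem_Iv i.2) (t + 1) (by omega), add_zero]
  | succ k ih =>
    refine Ld.of_dl ?_
    have h1 := (ih (by omega)).shift 1
    convert h1 using 1
    funext t
    have h2 := hf_Iv_succ (K := K) (show n - 1 - (k + 1) < n by omega) t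
    have h3 : n - 1 - (k + 1) + 1 = n - 1 - k := by omega
    rw [h3] at h2
    show hf _ (t + 1) - hf _ t = _
    omega

theorem Tp_bot (hn : 0 < n) : Tp (n - 1) 1 (hf (⊥ : Ideal (MvPolynomial (Fin n) K))) := by
  have h := Tp_Iv (K := K) (n - 1) (show n - 1 < n by omega)
  rw [Nat.sub_self] at h
  exact h

/-- **Bezout.** -/
theorem bez {r : ℕ} (hr : r.Prime) (hS : Special K r) {J : Type} [Fintype J]
    (f : J → MvPolynomial (Fin n) K) (d : J → ℕ) (hd : ∀ j, ¬ r ∣ d j)
    (hf' : ∀ j, (f j).IsHomogeneous (d j)) (hani : Aniso f) : n ≤ Fintype.card J := by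
  classical
  by_contra hlt
  push Not at hlt
  have hd0 : ∀ j, 0 < d j := fun j => Nat.pos_of_ne_zero fun h => hd j (h ▸ dvd_zero r)
  have hrp : Prime (r : ℤ) := Nat.prime_iff_prime_int.1 hr
  -- the chain of integral subschemes
  have h1 : ∀ T : Finset J, ∃ P : Ideal (MvPolynomial (Fin n) K), HomI P ∧ P.IsPrime ∧
      (∀ j ∈ T, f j ∈ P) ∧ ∃ D c, n ≤ D + 1 + T.card ∧ Tp D c (hf P) ∧ ¬ (r : ℤ) ∣ c := by
    intro T
    induction T using Finset.induction_on with
    | empty =>
      refine ⟨⊥, Iv_hom (K := K) (n := n) 0, Iv_prime (K := K) (n := n) 0, by simp, n - 1, 1,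
        by simp; omega, Tp_bot (by omega), fun h => ?_⟩
      exact hrp.not_isUnit (isUnit_of_dvd_one h)
    | insert j T hj ih =>
      obtain ⟨P, hP, hPp, hPf, D, c, hD, hc, hrc⟩ := ih
      have hcard : T.card < Fintype.card J := by
        have := Finset.card_lt_univ_of_notMem hj
        exact this
      by_cases hfj : f j ∈ P
      · refine ⟨P, hP, hPp, fun k hk => ?_, D, c, ?_, hc, hrc⟩
        · rcases Finset.mem_insert.1 hk with rfl | hk
          · exact hfj
          · exact hPf k hk
        · rw [Finset.card_insert_of_notMem hj]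
          omega
      · obtain ⟨D, rfl⟩ : ∃ D', D = D' + 1 := ⟨D - 1, by omega⟩
        have h2 := section_deg hP hPp (hd0 j) (hf' j) hfj hc
        obtain ⟨Q, hQ, hQp, hPQ, c', hc', hrc'⟩ := exists_prime (r := (r : ℤ)) _
          (hP.sup (hf' j)) ⟨_, h2, fun h => by
            rcases hrp.dvd_or_dvd h with h3 | h3
            · exact hd j (by exact_mod_cast h3)
            · exact hrc h3⟩
        refine ⟨Q, hQ, hQp, fun k hk => ?_, D, c', ?_, hc', hrc'⟩
        · rcases Finset.mem_insert.1 hk with rfl | hk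
          · exact hPQ (Submodule.mem_sup_right (Ideal.mem_span_singleton_self _))
          · exact hPQ (Submodule.mem_sup_left (hPf k hk))
        · rw [Finset.card_insert_of_notMem hj]
          omega
  -- reduction to dimension zero
  have h2 : ∀ D : ℕ, (∃ P : Ideal (MvPolynomial (Fin n) K), HomI P ∧ P.IsPrime ∧
      (∀ j, f j ∈ P) ∧ ∃ c, Tp D c (hf P) ∧ ¬ (r : ℤ) ∣ c) →
      ∃ P : Ideal (MvPolynomial (Fin n) K), HomI P ∧ P.IsPrime ∧
      (∀ j, f j ∈ P) ∧ ∃ c, Tp 0 c (hf P) ∧ ¬ (r : ℤ) ∣ c := by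
    intro D
    induction D with
    | zero => exact fun h => h
    | succ D ih =>
      rintro ⟨P, hP, hPp, hPf, c, hc, hrc⟩
      have hX : ∃ i, (X i : MvPolynomial (Fin n) K) ∉ P := by
        by_contra hcon
        push Not at hcon
        exact hc.not_zero (hf_irrel hcon)
      obtain ⟨i, hi⟩ := hX
      have h3 := section_deg hP hPp one_pos (isHomogeneous_X K i) hi hc
      obtain ⟨Q, hQ, hQp, hPQ, c', hc', hrc'⟩ := exists_prime (r := (r : ℤ)) _
        (hP.sup (isHomogeneous_X K i)) ⟨_, h3, fun h => hrc (by simpa using h)⟩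
      exact ih ⟨Q, hQ, hQp, fun j => hPQ (Submodule.mem_sup_left (hPf j)), c', hc', hrc'⟩
  obtain ⟨P, hP, hPp, hPf, D, c, -, hc, hrc⟩ := h1 Finset.univ
  obtain ⟨P, hP, hPp, hPf, c, hc, hrc⟩ := h2 D ⟨P, hP, hPp, fun j => hPf j (Finset.mem_univ j),
    c, hc, hrc⟩
  obtain ⟨L, _, _, _, y, hL, hy0, hy⟩ := exists_point hPp hc
  have h3 : finrank K L = 1 := hS L fun h => hrc (by rw [← hL]; exact_mod_cast h)
  -- the point is rational
  have h4 : ∀ z : L, ∃ w : K, algebraMap K L w = z := by
    intro z
    obtain ⟨w, hw⟩ := (finrank_eq_one_iff_of_nonzero' (1 : L) one_ne_zero).1 h3 z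
    exact ⟨w, by rw [← hw, Algebra.smul_def, mul_one]⟩
  choose w hw using h4
  have h5 : (fun j => w (y j)) = 0 := hani _ fun j => by
    have h6 := hy (d j) (f j) (hf' j) (hPf j)
    have h7 : aeval (fun j => algebraMap K L (w (y j))) (f j) =
        algebraMap K L (eval (fun j => w (y j)) (f j)) := by
      have h9 : (fun j => algebraMap K L (w (y j))) = algebraMap K L ∘ (fun j => w (y j)) := rfl
      rw [h9, aeval_algebraMap_apply]
      simp [coe_aeval_eq_eval]
    have h8 : (fun j => algebraMap K L (w (y j))) = y := funext fun j => hw (y j)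
    rw [h8, h6] at h7
    exact (map_eq_zero _).1 h7.symm
  apply hy0
  funext j
  rw [← hw (y j), congrFun h5 j]
  simp

end Run7.h94
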