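import Mathlib

/-!
# The homogeneous coordinate ring of the real conic without real points
-/

set_option autoImplicit false

namespace Run7.h94.Con

open MvPolynomial

/-- the quadratic form `x ^ 2 + y ^ 2 + z ^ 2` -/
noncomputable def QQ : MvPolynomial (Fin 3) ℝ := X 0 ^ 2 + X 1 ^ 2 + X 2 ^ 2

lemma QQ_hom : QQ.IsHomogeneous 2 := by
  unfold QQ
  exact ((isHomogeneous_X_pow 0 2).add (isHomogeneous_X_pow 1 2)).add (isHomogeneous_X_pow 2 2)

lemma QQ_ne : QQ ≠ 0 := by
  intro h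
  have := congrArg (eval (fun _ : Fin 3 => (1 : ℝ))) h
  simp [QQ] at this
  norm_num at this

/-- the homogeneous coordinate ring of the conic -/
abbrev AA : Type := MvPolynomial (Fin 3) ℝ ⧸ Ideal.span {QQ}

/-- the quotient map -/
noncomputable abbrev qm : MvPolynomial (Fin 3) ℝ →ₐ[ℝ] AA := Ideal.Quotient.mkₐ ℝ (Ideal.span {QQ})

lemma qm_eq_zero {p : MvPolynomial (Fin 3) ℝ} : qm p = 0 ↔ QQ ∣ p := by
  show Ideal.Quotient.mk _ p = 0 ↔ _
  rw [Ideal.Quotient.eq_zero_iff_mem, Ideal.mem_span_singleton]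

/-- the forms of degree `k` on the conic -/
noncomputable def VV (k : ℕ) : Submodule ℝ AA :=
  (homogeneousSubmodule (Fin 3) ℝ k).map qm.toLinearMap

lemma mem_VV {k : ℕ} {a : AA} : a ∈ VV k ↔ ∃ p : MvPolynomial (Fin 3) ℝ, p.IsHomogeneous k ∧
    qm p = a := by
  unfold VV
  rw [Submodule.mem_map]
  rfl

lemma VV_mul {k l : ℕ} {a b : AA} (ha : a ∈ VV k) (hb : b ∈ VV l) : a * b ∈ VV (k + l) := by
  rw [mem_VV] at *
  obtain ⟨p, hp, rfl⟩ := ha
  obtain ⟨q, hq, rfl⟩ := hb
  exact ⟨p * q, hp.mul hq, map_mul _ _ _⟩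

lemma VV_const (c : ℝ) : algebraMap ℝ AA c ∈ VV 0 := by
  rw [mem_VV]
  exact ⟨C c, isHomogeneous_C _ _, rfl⟩

lemma VV_pow {k : ℕ} {a : AA} (ha : a ∈ VV k) (n : ℕ) : a ^ n ∈ VV (n * k) := by
  induction n with
  | zero => simpa using VV_const 1
  | succ n ih =>
    rw [pow_succ, Nat.succ_mul]
    exact VV_mul ih ha

lemma VV_prod {σ : Type*} (S : Finset σ) (k : σ → ℕ) (a : σ → AA) (ha : ∀ i, a i ∈ VV (k i)) :
    ∏ i ∈ S, a i ∈ VV (∑ i ∈ S, k i) := by
  classical
  induction S using Finset.induction_on with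
  | empty => simpa using VV_const 1
  | insert i S hi ih =>
    rw [Finset.prod_insert hi, Finset.sum_insert hi]
    exact VV_mul (ha i) ih

/-- a real form, evaluated at forms on the conic -/
lemma VV_aeval {σ : Type*} {f : MvPolynomial σ ℝ} {w : σ → ℕ} {d k : ℕ}
    (hf : f.IsWeightedHomogeneous w d) {a : σ → AA} (ha : ∀ i, a i ∈ VV (w i * k)) :
    aeval a f ∈ VV (d * k) := by
  rw [aeval_def, eval₂_eq]
  refine Submodule.sum_mem _ fun α hα => ?_
  have h1 : Finsupp.weight w α = d := hf (mem_support_iff.1 hα)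
  have h2 : ∏ i ∈ α.support, a i ^ α i ∈ VV (∑ i ∈ α.support, α i * (w i * k)) :=
    VV_prod _ _ (fun i => a i ^ α i) fun i => VV_pow (ha i) _
  have h3 : ∑ i ∈ α.support, α i * (w i * k) = d * k := by
    rw [← h1, Finsupp.weight_apply, Finsupp.sum, Finset.sum_mul]
    exact Finset.sum_congr rfl fun i _ => by rw [smul_eq_mul, mul_assoc]
  rw [h3] at h2
  have h4 := VV_mul (VV_const (coeff α f)) h2
  rwa [zero_add] at h4

/-- divisibility by the quadratic form, in one degree -/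
lemma dvd_hom {k : ℕ} {p : MvPolynomial (Fin 3) ℝ} (hp : p.IsHomogeneous k) (h : QQ ∣ p)
    (h0 : p ≠ 0) : ∃ j, k = j + 2 ∧ ∃ c : MvPolynomial (Fin 3) ℝ, c.IsHomogeneous j ∧
      p = QQ * c := by
  obtain ⟨c, rfl⟩ := h
  have hc : ∀ j, (QQ * homogeneousComponent j c).IsHomogeneous (2 + j) := fun j =>
    QQ_hom.mul (homogeneousComponent_isHomogeneous j c)
  have h1 : QQ * c = ∑ j ∈ Finset.range (c.totalDegree + 1), QQ * homogeneousComponent j c := by
    conv_lhs => rw [← sum_homogeneousComponent c]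
    rw [Finset.mul_sum]
  have h2 : QQ * c = ∑ j ∈ Finset.range (c.totalDegree + 1),
      if k = 2 + j then QQ * homogeneousComponent j c else 0 := by
    have h3 : QQ * c = homogeneousComponent k (QQ * c) := by
      rw [homogeneousComponent_of_mem hp, if_pos rfl]
    rw [h3, h1, map_sum]
    refine Finset.sum_congr rfl fun j _ => ?_
    rw [homogeneousComponent_of_mem (hc j)]
  obtain ⟨j, hj, hne⟩ := Finset.exists_ne_zero_of_sum_ne_zero (h2 ▸ h0)
  have hk : k = 2 + j := by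
    by_contra hcon
    rw [if_neg hcon] at hne
    exact hne rfl
  refine ⟨j, by omega, homogeneousComponent j c, homogeneousComponent_isHomogeneous j c, ?_⟩
  rw [h2, Finset.sum_eq_single j]
  · rw [if_pos hk]
  · intro b _ hb
    rw [if_neg (by omega)]
  · intro hcon
    exact absurd hj hcon

theorem finrank_forms3 (n : ℕ) :
    Module.finrank ℝ (homogeneousSubmodule (Fin 3) ℝ n) = (n + 2).choose 2 := by
  have h1 : homogeneousSubmodule (Fin 3) ℝ n = restrictSupport ℝ {d : Fin 3 →₀ ℕ | d.degree = n} :=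
    homogeneousSubmodule_eq_finsupp_supported (R := ℝ) (σ := Fin 3) n
  rw [h1, Module.finrank_eq_nat_card_basis (basisRestrictSupport ℝ {d : Fin 3 →₀ ℕ | d.degree = n})]
  have e : {d : Fin 3 →₀ ℕ | d.degree = n} ≃ Sym (Fin 3) n :=
    (Equiv.subtypeEquivRight (fun d => Iff.rfl)).trans
      (Sym.equivNatSum (Fin 3) n).symm
  rw [Nat.card_congr e, Nat.card_eq_fintype_card, Sym.card_sym_eq_choose, Fintype.card_fin]
  have : 3 + n - 1 = n + 2 := by omega
  rw [this, ← Nat.choose_symm_add]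

lemma fin_forms3 (n : ℕ) : FiniteDimensional ℝ (homogeneousSubmodule (Fin 3) ℝ n) := by
  refine Module.finite_of_finrank_pos ?_
  rw [finrank_forms3]
  exact Nat.choose_pos (by omega)

/-- the restriction of the quotient map -/
noncomputable def rq (k : ℕ) : homogeneousSubmodule (Fin 3) ℝ k →ₗ[ℝ] AA :=
  qm.toLinearMap ∘ₗ (homogeneousSubmodule (Fin 3) ℝ k).subtype

lemma range_rq (k : ℕ) : LinearMap.range (rq k) = VV k := by
  unfold rq VV
  rw [LinearMap.range_comp, Submodule.range_subtype]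

/-- multiplication by the quadratic form -/
noncomputable def mulQ (j : ℕ) : homogeneousSubmodule (Fin 3) ℝ j →ₗ[ℝ]
    homogeneousSubmodule (Fin 3) ℝ (j + 2) :=
  { toFun := fun p => ⟨QQ * p, by
      have := QQ_hom.mul p.2
      rw [add_comm] at this
      exact this⟩
    map_add' := fun p q => Subtype.ext (mul_add _ _ _)
    map_smul' := fun c p => Subtype.ext (mul_smul_comm _ _ _) }

lemma mulQ_inj (j : ℕ) : Function.Injective (mulQ j) := by
  intro p q h
  have h1 : QQ * (p : MvPolynomial (Fin 3) ℝ) = QQ * q := congrArg Subtype.val h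
  exact Subtype.ext (mul_left_cancel₀ QQ_ne h1)

lemma ker_rq (j : ℕ) : LinearMap.ker (rq (j + 2)) = LinearMap.range (mulQ j) := by
  ext p
  rw [LinearMap.mem_ker, LinearMap.mem_range]
  constructor
  · intro h
    have h1 : QQ ∣ (p : MvPolynomial (Fin 3) ℝ) := qm_eq_zero.1 h
    by_cases h0 : (p : MvPolynomial (Fin 3) ℝ) = 0
    · exact ⟨0, by rw [map_zero]; exact Subtype.ext h0.symm⟩
    · obtain ⟨j', hj, c, hc, hpc⟩ := dvd_hom p.2 h1 h0
      obtain rfl : j' = j := by omega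
      exact ⟨⟨c, hc⟩, Subtype.ext hpc.symm⟩
  · rintro ⟨c, rfl⟩
    exact qm_eq_zero.2 (dvd_mul_right _ _)

lemma ker_rq_small (k : ℕ) (hk : k < 2) : LinearMap.ker (rq k) = ⊥ := by
  rw [LinearMap.ker_eq_bot']
  intro p h
  have h1 : QQ ∣ (p : MvPolynomial (Fin 3) ℝ) := qm_eq_zero.1 h
  by_contra h0
  have h0' : (p : MvPolynomial (Fin 3) ℝ) ≠ 0 := fun h => h0 (Subtype.ext h)
  obtain ⟨j', hj, -⟩ := dvd_hom p.2 h1 h0'
  omega

lemma finrank_VV (k : ℕ) : Module.finrank ℝ (VV k) = 2 * k + 1 := by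
  have := fin_forms3 k
  have h1 := LinearMap.finrank_range_add_finrank_ker (rq k)
  rw [range_rq, finrank_forms3] at h1
  rcases Nat.lt_or_ge k 2 with hk | hk
  · rw [ker_rq_small k hk, finrank_bot] at h1
    interval_cases k
    · simpa using h1
    · rw [add_zero] at h1
      rw [h1]
      decide
  · obtain ⟨j, rfl⟩ : ∃ j, k = j + 2 := ⟨k - 2, by omega⟩
    rw [ker_rq, LinearMap.finrank_range_of_inj (mulQ_inj j), finrank_forms3] at h1
    have h2 : (j + 2 + 2).choose 2 = (j + 2).choose 2 + (2 * j + 5) := by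
      rw [Nat.choose_succ_succ' (j + 3) 1, Nat.choose_succ_succ' (j + 2) 1, Nat.choose_one_right,
        Nat.choose_one_right]
      ring
    omega

instance fin_VV (k : ℕ) : FiniteDimensional ℝ (VV k) := by
  refine Module.finite_of_finrank_pos ?_
  rw [finrank_VV]
  omega

/-- the coordinates -/
noncomputable def xx (l : Fin 3) : AA := qm (X l)

lemma xx_mem (l : Fin 3) : xx l ∈ VV 1 := mem_VV.2 ⟨X l, isHomogeneous_X _ _, rfl⟩

lemma xx_sq : ∑ l, xx l ^ 2 = 0 := by
  have h : ∑ l, xx l ^ 2 = qm QQ := by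
    simp only [xx, QQ, map_add, map_pow, Fin.sum_univ_three]
  rw [h, qm_eq_zero]

lemma xx_mul {a : AA} (h : xx 0 * a = 0) : a = 0 := by
  obtain ⟨p, rfl⟩ := Ideal.Quotient.mkₐ_surjective ℝ (Ideal.span {QQ}) a
  have h1 : QQ ∣ X 0 * p := by
    rw [← qm_eq_zero, map_mul]
    exact h
  obtain ⟨c, hc⟩ := h1
  have h2 : (X 0 : MvPolynomial (Fin 3) ℝ) ∣ QQ * c := ⟨p, hc.symm⟩
  have h3 : ¬ (X 0 : MvPolynomial (Fin 3) ℝ) ∣ QQ := by
    rintro ⟨e, he⟩
    have := congrArg (eval (fun i : Fin 3 => if i = 1 then (1 : ℝ) else 0)) he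
    simp [QQ] at this
  obtain ⟨e, rfl⟩ := (((X_prime (R := ℝ) (i := (0 : Fin 3))).dvd_or_dvd h2).resolve_left h3)
  rw [qm_eq_zero]
  refine ⟨e, ?_⟩
  have h4 : (X 0 : MvPolynomial (Fin 3) ℝ) * p = X 0 * (QQ * e) := by
    rw [hc]; ring
  exact mul_left_cancel₀ (X_prime (R := ℝ) (i := (0 : Fin 3))).ne_zero h4

end Run7.h94.Con
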