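import Pool.Agent.Helper716_Lang.KLine

/-!
# Forms on the real conic without real points
-/

set_option autoImplicit false

namespace Run7.h94.Con

open MvPolynomial Pool.Agent.Helper716_Lang

theorem scaling_real : Scaling ℝ := by
  intro M w hw v hv
  let F : ℝ → ℝ := fun c => ∑ i, (c ^ w i * v i) ^ 2
  have hF : Continuous F := by fun_prop
  have h0 : F 0 = 0 := by
    refine Finset.sum_eq_zero fun i _ => ?_
    rw [zero_pow (hw i).ne', zero_mul, zero_pow two_ne_zero]
  have h1 : 1 ≤ F 1 := by
    show 1 ≤ ∑ i, ((1 : ℝ) ^ w i * v i) ^ 2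
    simpa using hv
  obtain ⟨c, hc, hc1⟩ := intermediate_value_Icc (zero_le_one' ℝ) hF.continuousOn
    (show (1 : ℝ) ∈ Set.Icc (F 0) (F 1) from ⟨by rw [h0]; exact zero_le_one, h1⟩)
  refine ⟨c, ?_, hc.2, hc1⟩
  rcases hc.1.eq_or_lt with h | h
  · rw [← h, h0] at hc1
    exact absurd hc1 zero_ne_one
  · exact h

/-- graded pieces of dimension `2 k + 1` in an algebra over the real numbers, and three elements of
degree one, the sum of whose squares is zero -/
structure GD (A : Type) [CommRing A] [Algebra ℝ A] where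
  V : ℕ → Submodule ℝ A
  mul : ∀ k l a b, a ∈ V k → b ∈ V l → a * b ∈ V (k + l)
  const : ∀ c : ℝ, algebraMap ℝ A c ∈ V 0
  rank : ∀ k, Module.finrank ℝ (V k) = 2 * k + 1
  x : Fin 3 → A
  xmem : ∀ l, x l ∈ V 1
  xsq : ∑ l, x l ^ 2 = 0
  xinj : ∀ a, x 0 * a = 0 → a = 0

namespace GD

variable {A : Type} [CommRing A] [Algebra ℝ A] (G : GD A)

lemma fin (k : ℕ) : FiniteDimensional ℝ (G.V k) := by
  refine Module.finite_of_finrank_pos ?_
  rw [G.rank]
  omega

lemma pow {k : ℕ} {a : A} (ha : a ∈ G.V k) (n : ℕ) : a ^ n ∈ G.V (n * k) := by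
  induction n with
  | zero => simpa using G.const 1
  | succ n ih =>
    rw [pow_succ, Nat.succ_mul]
    exact G.mul _ _ _ _ ih ha

lemma prod {σ : Type} (S : Finset σ) (k : σ → ℕ) (a : σ → A) (ha : ∀ i, a i ∈ G.V (k i)) :
    ∏ i ∈ S, a i ∈ G.V (∑ i ∈ S, k i) := by
  classical
  induction S using Finset.induction_on with
  | empty => simpa using G.const 1
  | insert i S hi ih =>
    rw [Finset.prod_insert hi, Finset.sum_insert hi]
    exact G.mul _ _ _ _ (ha i) ih

/-- a real form, evaluated at forms on the conic -/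
lemma aeval_mem {σ : Type} {f : MvPolynomial σ ℝ} {w : σ → ℕ} {d k : ℕ}
    (hf : f.IsWeightedHomogeneous w d) {a : σ → A} (ha : ∀ i, a i ∈ G.V (w i * k)) :
    aeval a f ∈ G.V (d * k) := by
  rw [aeval_def, eval₂_eq]
  refine Submodule.sum_mem _ fun α hα => ?_
  have h1 : Finsupp.weight w α = d := hf (mem_support_iff.1 hα)
  have h2 : ∏ i ∈ α.support, a i ^ α i ∈ G.V (∑ i ∈ α.support, α i * (w i * k)) :=
    G.prod _ _ (fun i => a i ^ α i) fun i => G.pow (ha i) _
  have h3 : ∑ i ∈ α.support, α i * (w i * k) = d * k := by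
    rw [← h1, Finsupp.weight_apply, Finsupp.sum, Finset.sum_mul]
    exact Finset.sum_congr rfl fun i _ => by rw [smul_eq_mul, mul_assoc]
  rw [h3] at h2
  have h4 := G.mul _ _ _ _ (G.const (coeff α f)) h2
  rwa [zero_add] at h4

/-- weighted homogeneous real forms of degrees `d_j` in variables of weights `w_i` have a common
zero consisting of forms of degree `w_i k` on the conic, if `2 k (∑ w_i - ∑ d_j)` is larger than
the number of variables minus the number of forms -/
theorem zero {I J : Type} [Fintype I] [Fintype J] (w : I → ℕ) (hw : ∀ i, 0 < w i)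
    (d : J → ℕ) (hd : ∀ j, 0 < d j) (k : ℕ) (hk : 0 < k)
    (hN : 2 * k * ∑ j, d j + Fintype.card I < 2 * k * ∑ i, w i + Fintype.card J)
    (f : J → MvPolynomial I ℝ) (hf : ∀ j, (f j).IsWeightedHomogeneous w (d j)) :
    ∃ a : I → A, (∀ i, a i ∈ G.V (w i * k)) ∧ a ≠ 0 ∧ ∀ j, aeval a (f j) = 0 := by
  classical
  have hfin : ∀ l, FiniteDimensional ℝ (G.V l) := G.fin
  -- coordinates
  let b : ∀ i : I, Module.Basis (Fin (Module.finrank ℝ (G.V (w i * k)))) ℝ (G.V (w i * k)) :=
    fun i => Module.finBasis ℝ (G.V (w i * k))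
  let ι := Σ i : I, Fin (Module.finrank ℝ (G.V (w i * k)))
  let E : I → ι → A := fun i m => if m.1 = i then (b m.1 m.2 : A) else 0
  have hE : ∀ (s : ι → ℝ) (i : I), ∑ m, s m • E i m =
      ((∑ m, s ⟨i, m⟩ • b i m : G.V (w i * k)) : A) := by
    intro s i
    rw [Fintype.sum_sigma, Finset.sum_eq_single i]
    · simp [E]
    · intro l _ hl
      refine Finset.sum_eq_zero fun m _ => ?_
      simp [E, hl]
    · simp
  have hIne : Nonempty I := by
    by_contra hcon
    rw [not_nonempty_iff] at hcon
    have h1 : Fintype.card J ≤ ∑ j, d j := by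
      calc Fintype.card J = ∑ _j : J, 1 := by simp
        _ ≤ ∑ j, d j := Finset.sum_le_sum fun j _ => hd j
    simp only [Finset.univ_eq_empty, Finset.sum_empty, Fintype.card_eq_zero, mul_zero, add_zero,
      zero_add] at hN
    nlinarith [Nat.mul_le_mul_right (∑ j, d j) (show 1 ≤ 2 * k by omega)]
  have : Nonempty ι := by
    obtain ⟨i⟩ := hIne
    exact ⟨⟨i, ⟨0, by rw [G.rank]; omega⟩⟩⟩
  let fA : J → MvPolynomial I A := fun j => map (algebraMap ℝ A) (f j)
  have hfA : ∀ j (a : I → A), eval a (fA j) = aeval a (f j) := fun j a => by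
    rw [eval_map, aeval_def]
  let g : J → MvPolynomial ι A := fun j =>
    aeval (fun i => ∑ m, C (E i m) * X m) (fA j)
  have hsurj : ∀ y : I → A, (∀ i, y i ∈ G.V (w i * k)) → ∃ ρ : ι → ℝ,
      ∀ i, ∑ m, ρ m • E i m = y i := by
    intro y hy
    refine ⟨fun m => (b m.1).repr ⟨y m.1, hy m.1⟩ m.2, fun i => ?_⟩
    rw [hE]
    have := (b i).sum_repr ⟨y i, hy i⟩
    rw [this]
  have hmem : ∀ (s : ι → ℝ) (i : I), ∑ m, s m • E i m ∈ G.V (w i * k) := by
    intro s i
    rw [hE]
    exact Submodule.coe_mem _
  suffices hmain : ∃ s : ι → ℝ, s ≠ 0 ∧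
      ∀ j, eval (fun i => algebraMap ℝ A (s i)) (g j) = 0 by
    obtain ⟨s, hs0, hs⟩ := hmain
    refine ⟨fun i => ∑ m, s m • E i m, hmem s, ?_, fun j => ?_⟩
    · intro h0
      apply hs0
      funext ⟨i, m⟩
      have h1 : ((∑ m, s ⟨i, m⟩ • b i m : G.V (w i * k)) : A) = 0 := by
        rw [← hE]
        exact congrFun h0 i
      have h2 : (∑ m, s ⟨i, m⟩ • b i m : G.V (w i * k)) = 0 := Subtype.ext h1
      exact Fintype.linearIndependent_iff.1 (b i).linearIndependent (fun m => s ⟨i, m⟩) h2 m
    · rw [← hfA, ← eval_compose]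
      exact hs j
  refine engine (R := ℝ) (A := A) sphereMin_real scaling_real (ι := ι) (fun m => w m.1)
    (fun m => hw m.1) g d hd ?_ ?_
  · -- weighted homogeneity
    intro j r s
    rw [eval_compose, eval_compose, hfA, hfA]
    have h1 : (fun i => ∑ m, (r ^ w m.1 * s m) • E i m) =
        fun i => (algebraMap ℝ A r) ^ w i * ∑ m, s m • E i m := by
      funext i
      rw [Finset.mul_sum]
      refine Finset.sum_congr rfl fun m _ => ?_
      by_cases hm : m.1 = i
      · subst hm
        rw [Algebra.smul_def, Algebra.smul_def, map_mul, map_pow]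
        ring
      · simp [E, hm]
    rw [h1, aeval_def, aeval_def, eval₂_eq, eval₂_eq, Finset.smul_sum]
    refine Finset.sum_congr rfl fun α hα => ?_
    have h2 : Finsupp.weight w α = d j := hf j (mem_support_iff.1 hα)
    rw [Algebra.smul_def, map_pow, ← h2]
    simp only [mul_pow, Finset.prod_mul_distrib]
    have h3 : (algebraMap ℝ A r) ^ (Finsupp.weight w α) =
        ∏ i ∈ α.support, ((algebraMap ℝ A r) ^ w i) ^ α i := by
      rw [Finsupp.weight_apply, Finsupp.sum, ← Finset.prod_pow_eq_pow_sum]
      refine Finset.prod_congr rfl fun i _ => ?_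
      rw [← pow_mul, smul_eq_mul, mul_comm]
    rw [h3]
    ring
  · -- the directions
    intro s
    set a : I → A := fun i => ∑ m, s m • E i m with ha
    have haA : ∀ i, a i ∈ G.V (w i * k) := fun i => hmem s i
    have hlin : ∀ (z : I → A) (j : J), (∀ i, z i ∈ G.V (w i * k - 1)) →
        ∑ i, eval a (pderiv i (fA j)) * z i ∈ G.V (d j * k - 1) := by
      intro z j hz
      refine Submodule.sum_mem _ fun i _ => ?_
      have h1 : eval a (pderiv i (fA j)) = aeval a (pderiv i (f j)) := by
        rw [pderiv_map, eval_map, aeval_def]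
      rw [h1]
      by_cases hwd : w i ≤ d j
      · have h2 : (pderiv i (f j)).IsWeightedHomogeneous w (d j - w i) :=
          (hf j).pderiv (by omega)
        have h3 := G.mul _ _ _ _ (G.aeval_mem h2 haA) (hz i)
        have h4 : (d j - w i) * k + (w i * k - 1) = d j * k - 1 := by
          have h5 : 1 ≤ w i * k := Nat.mul_pos (hw i) hk
          rw [Nat.sub_mul]
          have h6 : w i * k ≤ d j * k := Nat.mul_le_mul_right _ hwd
          omega
        rwa [h4] at h3
      · have h2 : pderiv i (f j) = 0 := by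
          by_contra hne
          obtain ⟨α, hα⟩ := ne_zero_iff.1 hne
          have h3 : coeff (α + Finsupp.single i 1) (f j) ≠ 0 := by
            intro h4
            apply hα
            rw [coeff_pderiv, h4]
            simp
          have h5 := hf j h3
          rw [map_add, Finsupp.weight_single] at h5
          simp only [one_smul] at h5
          omega
        rw [h2, map_zero, zero_mul]
        exact Submodule.zero_mem _
    let Λ : (∀ i : I, G.V (w i * k - 1)) →ₗ[ℝ] (∀ j : J, G.V (d j * k - 1)) :=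
      { toFun := fun z j => ⟨∑ i, eval a (pderiv i (fA j)) * (z i : A),
          hlin (fun i => (z i : A)) j fun i => (z i).2⟩
        map_add' := by
          intro x y
          funext j
          apply Subtype.ext
          simp [mul_add, Finset.sum_add_distrib]
        map_smul' := by
          intro r x
          funext j
          apply Subtype.ext
          simp [Finset.smul_sum] }
    have hrank : Module.finrank ℝ (∀ j : J, G.V (d j * k - 1)) <
        Module.finrank ℝ (∀ i : I, G.V (w i * k - 1)) := by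
      rw [Module.finrank_pi_fintype, Module.finrank_pi_fintype]
      simp only [G.rank]
      have e1 : ∑ j, (2 * (d j * k - 1) + 1) + Fintype.card J = 2 * k * ∑ j, d j := by
        rw [Finset.mul_sum, show Fintype.card J = ∑ _j : J, 1 by simp, ← Finset.sum_add_distrib]
        refine Finset.sum_congr rfl fun j _ => ?_
        have h5 : 1 ≤ d j * k := Nat.mul_pos (hd j) hk
        have h6 : 2 * k * d j = 2 * (d j * k) := by ring
        omega
      have e2 : ∑ i, (2 * (w i * k - 1) + 1) + Fintype.card I = 2 * k * ∑ i, w i := by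
        rw [Finset.mul_sum, show Fintype.card I = ∑ _i : I, 1 by simp, ← Finset.sum_add_distrib]
        refine Finset.sum_congr rfl fun i _ => ?_
        have h5 : 1 ≤ w i * k := Nat.mul_pos (hw i) hk
        have h6 : 2 * k * w i = 2 * (w i * k) := by ring
        omega
      omega
    have hker : LinearMap.ker Λ ≠ ⊥ := LinearMap.ker_ne_bot_of_finrank_lt hrank
    obtain ⟨z, hz, hz0⟩ := Submodule.exists_mem_ne_zero_of_ne_bot hker
    have hzj : ∀ j, ∑ i, eval a (pderiv i (fA j)) * (z i : A) = 0 := by
      intro j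
      have h1 : Λ z = 0 := hz
      exact congrArg Subtype.val (congrFun h1 j)
    -- the directions `x_l * z`
    have hmemz : ∀ l i, G.x l * (z i : A) ∈ G.V (w i * k) := by
      intro l i
      have h1 := G.mul _ _ _ _ (G.xmem l) (z i).2
      have h5 : 1 ≤ w i * k := Nat.mul_pos (hw i) hk
      rwa [show 1 + (w i * k - 1) = w i * k by omega] at h1
    choose ρ hρ using fun l => hsurj (fun i => G.x l * (z i : A)) (hmemz l)
    have hρ' : ∀ l, (fun i => ∑ m, ρ l m • E i m) = fun i => G.x l * (z i : A) := fun l =>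
      funext (hρ l)
    have hline : ∀ j l e, (line (g j) s (ρ l)).coeff e =
        (kline (fA j) a (fun i => (z i : A))).coeff e * G.x l ^ e := by
      intro j l e
      rw [line_compose, hρ', kline_smul_coeff]
    refine ⟨3, ρ, ?_, fun j l => ?_, fun j => ?_⟩
    · refine ⟨0, fun h0 => hz0 ?_⟩
      funext i
      apply Subtype.ext
      have h1 := hρ 0 i
      rw [h0] at h1
      simp only [Pi.zero_apply, zero_smul, Finset.sum_const_zero] at h1
      exact G.xinj _ h1.symm
    · rw [hline, kline_coeff_one, hzj, zero_mul]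
    · simp only [hline]
      rw [← Finset.mul_sum, G.xsq, mul_zero]

end GD

end Run7.h94.Con
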