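import Pool.Agent.Run7.h94.Conic2
import Pool.Agent.Run7.h94.Conic1

/-!
# Real rational curves without real points
-/

set_option autoImplicit false

namespace Run7.h94.Con

open MvPolynomial

/-- the conic ring -/
noncomputable def conicGD : GD AA where
  V := VV
  mul := fun _ _ _ _ ha hb => VV_mul ha hb
  const := VV_const
  rank := finrank_VV
  x := xx
  xmem := xx_mem
  xsq := xx_sq
  xinj := fun _ h => xx_mul h

/-- the value of a real polynomial at a complex point -/
noncomputable abbrev cev {σ : Type} (p : σ → ℂ) (s : MvPolynomial σ ℝ) : ℂ := aeval p s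

lemma cev_conj {σ : Type} (p : σ → ℂ) (s : MvPolynomial σ ℝ) :
    cev (fun i => (starRingEnd ℂ) (p i)) s = (starRingEnd ℂ) (cev p s) := by
  induction s using MvPolynomial.induction_on with
  | C a => simp [cev]
  | add f g hf hg =>
    simp only [cev, map_add] at *
    rw [hf, hg]
  | mul_X f i hf =>
    simp only [cev, map_mul, aeval_X] at *
    rw [hf]

/-- the point `(i √(y² + z²), y, z)` of the conic -/
noncomputable def pt (v : Fin 2 → ℝ) : Fin 3 → ℂ :=
  Fin.cons (Complex.I * ((Real.sqrt (v 0 ^ 2 + v 1 ^ 2) : ℝ) : ℂ)) fun l => ((v l : ℝ) : ℂ)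

lemma pt_conic (v : Fin 2 → ℝ) : pt v 0 ^ 2 + pt v 1 ^ 2 + pt v 2 ^ 2 = 0 := by
  have h0 : pt v 0 = Complex.I * ((Real.sqrt (v 0 ^ 2 + v 1 ^ 2) : ℝ) : ℂ) := rfl
  have h1 : pt v 1 = ((v 0 : ℝ) : ℂ) := rfl
  have h2 : pt v 2 = ((v 1 : ℝ) : ℂ) := rfl
  rw [h0, h1, h2, mul_pow, Complex.I_sq, ← Complex.ofReal_pow, Real.sq_sqrt (by positivity)]
  push_cast
  ring

lemma cev_dvd {p : Fin 3 → ℂ} (hp : p 0 ^ 2 + p 1 ^ 2 + p 2 ^ 2 = 0)
    {s : MvPolynomial (Fin 3) ℝ} (h : QQ ∣ s) : cev p s = 0 := by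
  obtain ⟨c, rfl⟩ := h
  rw [cev, map_mul]
  have : aeval p QQ = 0 := by
    simp [QQ, hp]
  rw [this, zero_mul]

/-- a real polynomial which vanishes at all the points `pt v` is divisible by the quadratic form -/
lemma dvd_of_cev {s : MvPolynomial (Fin 3) ℝ} (h : ∀ v : Fin 2 → ℝ, v ≠ 0 → cev (pt v) s = 0) :
    QQ ∣ s := by
  classical
  let e := finSuccEquiv ℝ 2
  let q2 : MvPolynomial (Fin 2) ℝ := X 0 ^ 2 + X 1 ^ 2
  let M : Polynomial (MvPolynomial (Fin 2) ℝ) := Polynomial.X ^ 2 + Polynomial.C q2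
  have hM : M.Monic := Polynomial.monic_X_pow_add_C q2 two_ne_zero
  have hMd : M.natDegree = 2 := Polynomial.natDegree_X_pow_add_C
  have heQ : e QQ = M := by
    have h1 : e (X 1) = Polynomial.C (X 0) := finSuccEquiv_X_succ (j := (0 : Fin 2))
    have h2 : e (X 2) = Polynomial.C (X 1) := finSuccEquiv_X_succ (j := (1 : Fin 2))
    have h0 : e (X 0) = Polynomial.X := finSuccEquiv_X_zero
    simp only [QQ, map_add, map_pow, h0, h1, h2, M, q2]
    ring
  set R := (e s) %ₘ M with hR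
  have hRd : R.natDegree < 2 := by
    have h5 := Polynomial.natDegree_modByMonic_lt (e s) hM (by
      intro h1
      rw [h1, Polynomial.natDegree_one] at hMd
      omega)
    rw [hMd] at h5
    exact h5
  have hdiv : R + M * ((e s) /ₘ M) = e s := Polynomial.modByMonic_add_div _ _
  -- evaluation
  have hev : ∀ (v : Fin 2 → ℝ) (T : MvPolynomial (Fin 3) ℝ),
      cev (pt v) T = (e T).eval₂ ((aeval (fun l => ((v l : ℝ) : ℂ))).toRingHom) (pt v 0) := by
    intro v T
    have hC : ∀ a : ℝ, e (C a) = Polynomial.C (C a) := fun a => by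
      have h1 := e.commutes a
      rw [MvPolynomial.algebraMap_eq] at h1
      rw [h1]
      rfl
    have hX0 : e (X 0) = Polynomial.X := finSuccEquiv_X_zero
    have hXs : ∀ j : Fin 2, e (X j.succ) = Polynomial.C (X j) := fun j => finSuccEquiv_X_succ
    induction T using MvPolynomial.induction_on with
    | C a =>
      rw [hC, Polynomial.eval₂_C, cev, aeval_C]
      exact (aeval_C _ _).symm
    | add f g hf hg =>
      rw [map_add, Polynomial.eval₂_add, ← hf, ← hg, cev, map_add]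
    | mul_X f i hf =>
      rw [map_mul, Polynomial.eval₂_mul, ← hf, cev, map_mul, aeval_X]
      congr 1
      refine Fin.cases ?_ (fun j => ?_) i
      · rw [hX0, Polynomial.eval₂_X]
      · rw [hXs, Polynomial.eval₂_C]
        exact (aeval_X (R := ℝ) (fun l : Fin 2 => ((v l : ℝ) : ℂ)) j).symm
  have hval : ∀ v : Fin 2 → ℝ, v ≠ 0 → eval v (R.coeff 0) = 0 ∧ eval v (R.coeff 1) = 0 := by
    intro v hv
    have h1 : cev (pt v) s =
        R.eval₂ ((aeval (fun l => ((v l : ℝ) : ℂ))).toRingHom) (pt v 0) := by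
      rw [hev, ← hdiv, Polynomial.eval₂_add, Polynomial.eval₂_mul]
      have h3 : M.eval₂ ((aeval (fun l => ((v l : ℝ) : ℂ))).toRingHom) (pt v 0) = 0 := by
        rw [← heQ, ← hev]
        exact cev_dvd (pt_conic v) dvd_rfl
      rw [h3, zero_mul, add_zero]
    rw [h v hv, Polynomial.eval₂_eq_sum_range' _ hRd] at h1
    rw [Finset.sum_range_succ, Finset.sum_range_one, pow_zero, mul_one, pow_one] at h1
    have hc : ∀ c : MvPolynomial (Fin 2) ℝ,
        (aeval (fun l => ((v l : ℝ) : ℂ))).toRingHom c = ((eval v c : ℝ) : ℂ) := by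
      intro c
      have h5 := aeval_algebraMap_apply (B := ℂ) v c
      have h6 : aeval v c = eval v c := by
        rw [aeval_def, Algebra.algebraMap_self]
        rfl
      rw [h6] at h5
      exact h5
    rw [hc, hc] at h1
    have h0 : pt v 0 = Complex.I * ((Real.sqrt (v 0 ^ 2 + v 1 ^ 2) : ℝ) : ℂ) := rfl
    rw [h0] at h1
    have hpos : 0 < v 0 ^ 2 + v 1 ^ 2 := by
      rcases eq_or_ne (v 0) 0 with h6 | h6
      · have h7 : v 1 ≠ 0 := by
          intro h8
          apply hv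
          funext l
          fin_cases l
          · exact h6
          · exact h8
        positivity
      · positivity
    have hre := congrArg Complex.re h1
    have him := congrArg Complex.im h1
    simp at hre him
    refine ⟨hre.symm ▸ rfl, ?_⟩
    rcases him with h7 | h7
    · exact h7
    · exfalso
      have := Real.sqrt_pos.2 hpos
      rw [h7] at this
      exact lt_irrefl _ this
  have hzero : ∀ c : MvPolynomial (Fin 2) ℝ, (∀ v : Fin 2 → ℝ, v ≠ 0 → eval v c = 0) → c = 0 := by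
    intro c hc
    have h1 : X 0 * c = 0 := by
      refine MvPolynomial.funext fun v => ?_
      rw [map_mul, eval_X, map_zero]
      by_cases hv : v = 0
      · rw [hv]; simp
      · rw [hc v hv, mul_zero]
    exact (mul_eq_zero.1 h1).resolve_left (X_ne_zero _)
  have hR0 : R = 0 := by
    ext1 n
    rcases Nat.lt_or_ge n 2 with hn | hn
    · interval_cases n
      · exact hzero _ fun v hv => (hval v hv).1
      · exact hzero _ fun v hv => (hval v hv).2
    · rw [Polynomial.coeff_eq_zero_of_natDegree_lt (lt_of_lt_of_le hRd hn)]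
      rfl
  rw [hR0, zero_add] at hdiv
  refine ⟨e.symm ((e s) /ₘ M), ?_⟩
  rw [← e.injective.eq_iff, map_mul, AlgEquiv.apply_symm_apply, heQ, hdiv]

/-- unit complex numbers are quotients `t / conj t` -/
lemma exists_conj_quot {l : ℂ} (h : l * (starRingEnd ℂ) l = 1) :
    ∃ t : ℂ, t ≠ 0 ∧ (starRingEnd ℂ) t * l = t := by
  by_cases h1 : l = -1
  · refine ⟨Complex.I, Complex.I_ne_zero, ?_⟩
    rw [h1, Complex.conj_I]
    ring
  · refine ⟨1 + l, ?_, ?_⟩
    · intro h2
      exact h1 (by linear_combination h2)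
    · rw [map_add, map_one]
      linear_combination h

/-- a point which is equivalent to its complex conjugate is equivalent to a real point -/
lemma exists_real {N : ℕ} (w : Fin N → ℕ) (hw : ∀ i, 0 < w i) (c : Fin N → ℂ) (hc : c ≠ 0) (l : ℂ)
    (h : ∀ i, (starRingEnd ℂ) (c i) = l ^ w i * c i) :
    ∃ (t : ℂ) (v : Fin N → ℝ), v ≠ 0 ∧ ∀ i, ((v i : ℝ) : ℂ) = t ^ w i * c i := by
  obtain ⟨i0, hi0⟩ : ∃ i, c i ≠ 0 := by
    by_contra hcon
    push Not at hcon
    exact hc (funext hcon)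
  -- the absolute value of `l` is one
  have h1 : ((starRingEnd ℂ) l * l) ^ w i0 = 1 := by
    have h2 := congrArg (starRingEnd ℂ) (h i0)
    rw [Complex.conj_conj, map_mul, map_pow, h i0] at h2
    have h3 : (((starRingEnd ℂ) l * l) ^ w i0 - 1) * c i0 = 0 := by
      rw [mul_pow]
      linear_combination -h2
    exact sub_eq_zero.1 ((mul_eq_zero.1 h3).resolve_right hi0)
  have h4 : l * (starRingEnd ℂ) l = 1 := by
    rw [mul_comm] at h1
    rw [Complex.mul_conj] at h1 ⊢
    have h5 : (Complex.normSq l) ^ w i0 = 1 := by exact_mod_cast h1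
    have h6 : Complex.normSq l = 1 :=
      (pow_eq_one_iff_of_nonneg (Complex.normSq_nonneg l) (hw i0).ne').1 h5
    rw [h6]
    simp
  obtain ⟨t, ht, htl⟩ := exists_conj_quot h4
  have h7 : ∀ i, (starRingEnd ℂ) (t ^ w i * c i) = t ^ w i * c i := by
    intro i
    rw [map_mul, map_pow, h i, ← mul_assoc, ← mul_pow, htl]
  refine ⟨t, fun i => (t ^ w i * c i).re, ?_, fun i => ?_⟩
  · intro h8
    have h9 : (t ^ w i0 * c i0).re = 0 := congrFun h8 i0
    have h10 := Complex.conj_eq_iff_re.1 (h7 i0)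
    rw [h9] at h10
    exact (mul_ne_zero (pow_ne_zero _ ht) hi0) h10.symm
  · exact Complex.conj_eq_iff_re.1 (h7 i)

lemma cev_weighted {N : ℕ} {w : Fin N → ℕ} {d : ℕ} {f : MvPolynomial (Fin N) ℝ}
    (hf : f.IsWeightedHomogeneous w d) (c : Fin N → ℂ) (t : ℂ) :
    cev (fun i => t ^ w i * c i) f = t ^ d * cev c f := by
  rw [cev, cev, aeval_def, aeval_def, eval₂_eq, eval₂_eq, Finset.mul_sum]
  refine Finset.sum_congr rfl fun α hα => ?_
  have h2 : Finsupp.weight w α = d := hf (mem_support_iff.1 hα)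
  simp only [mul_pow, Finset.prod_mul_distrib]
  have h3 : t ^ d = ∏ i ∈ α.support, (t ^ w i) ^ α i := by
    rw [← h2, Finsupp.weight_apply, Finsupp.sum, ← Finset.prod_pow_eq_pow_sum]
    refine Finset.prod_congr rfl fun i _ => ?_
    rw [← pow_mul, smul_eq_mul, mul_comm]
  rw [h3]
  ring

lemma cev_real {N : ℕ} (v : Fin N → ℝ) (f : MvPolynomial (Fin N) ℝ) :
    cev (fun i => ((v i : ℝ) : ℂ)) f = ((eval v f : ℝ) : ℂ) := by
  have h5 := aeval_algebraMap_apply (B := ℂ) v f
  have h6 : aeval v f = eval v f := by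
    rw [aeval_def, Algebra.algebraMap_self]
    rfl
  rw [h6] at h5
  exact h5

/-- the main theorem -/
theorem main {N r : ℕ} (w : Fin N → ℕ) (hw : ∀ i, 1 ≤ w i) (d : Fin r → ℕ) (hd : ∀ j, 1 ≤ d j)
    (f : Fin r → MvPolynomial (Fin N) ℝ) (hf : ∀ j, (f j).IsWeightedHomogeneous w (d j))
    (hR : ∀ v : Fin N → ℝ, (∀ j, eval v (f j) = 0) → v = 0)
    (k : ℕ) (hk : 1 ≤ k) (hN : 2 * k * ∑ j, d j + N < 2 * k * ∑ i, w i + r) :
    ∃ s : Fin N → MvPolynomial (Fin 3) ℝ, (∀ i, (s i).IsHomogeneous (w i * k)) ∧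
      (∀ p : Fin 3 → ℂ, p 0 ^ 2 + p 1 ^ 2 + p 2 ^ 2 = 0 →
        ∀ j, aeval (fun i => aeval p (s i)) (f j) = 0) ∧
      (∃ p : Fin 3 → ℂ, p 0 ^ 2 + p 1 ^ 2 + p 2 ^ 2 = 0 ∧ ∃ i, aeval p (s i) ≠ 0) ∧
      ∀ p : Fin 3 → ℂ, p 0 ^ 2 + p 1 ^ 2 + p 2 ^ 2 = 0 → (∃ i, aeval p (s i) ≠ 0) →
        ¬ ∃ l : ℂ, ∀ i, aeval (fun e => (starRingEnd ℂ) (p e)) (s i) = l ^ w i * aeval p (s i) := by
  obtain ⟨a, ha, ha0, haf⟩ := conicGD.zero w hw d hd k hk (by simpa using hN) f hf
  choose s hs hsa using fun i => mem_VV.1 (ha i)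
  have hfs : ∀ j, QQ ∣ aeval s (f j) := by
    intro j
    rw [← qm_eq_zero, ← haf j]
    have h1 : a = fun i => qm (s i) := funext fun i => (hsa i).symm
    rw [h1]
    exact (comp_aeval_apply s qm (f j)).symm ▸ rfl
  have hz : ∀ p : Fin 3 → ℂ, p 0 ^ 2 + p 1 ^ 2 + p 2 ^ 2 = 0 →
      ∀ j, aeval (fun i => aeval p (s i)) (f j) = (0 : ℂ) := by
    intro p hp j
    have h1 : cev p (aeval s (f j)) = 0 := cev_dvd hp (hfs j)
    have h2 : cev p (aeval s (f j)) = aeval (fun i => aeval p (s i)) (f j) :=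
      comp_aeval_apply s (aeval p) (f j)
    rw [← h2, h1]
  refine ⟨s, hs, hz, ?_, ?_⟩
  · by_contra hcon
    push Not at hcon
    apply ha0
    funext i
    rw [← hsa i]
    show qm (s i) = 0
    rw [qm_eq_zero]
    exact dvd_of_cev fun v _ => hcon (pt v) (pt_conic v) i
  · rintro p hp ⟨i0, hi0⟩ ⟨l, hl⟩
    obtain ⟨t, v, hv, htv⟩ := exists_real w hw (fun i => cev p (s i))
      (fun h => hi0 (congrFun h i0)) l fun i => by
        rw [← cev_conj]
        exact hl i
    apply hv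
    refine hR v fun j => ?_
    have h1 : cev (fun i => ((v i : ℝ) : ℂ)) (f j) = 0 := by
      rw [show (fun i => ((v i : ℝ) : ℂ)) = fun i => t ^ w i * cev p (s i) from funext htv,
        cev_weighted (hf j)]
      have h2 := hz p hp j
      show t ^ d j * aeval (fun i => aeval p (s i)) (f j) = 0
      rw [h2, mul_zero]
    rw [cev_real] at h1
    exact_mod_cast h1

end Run7.h94.Con
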