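import Pool.Agent.Run7.h94.Semi

/-! The exponent of a `C_i` field with a normic form of prime degree. -/

set_option autoImplicit false

open MvPolynomial Pool.Agent.H19CI Real

namespace Run7.h94

variable {K : Type*} [Field K] {i ℓ : ℕ}

/-- the exponents of the anisotropic forms -/
def ExpSet (K : Type*) [Field K] (i ℓ : ℕ) : Set ℝ :=
  {y : ℝ | ∃ (m : ℕ) (x : ℝ), 2 ≤ m ∧ ¬ ℓ ∣ m ∧ 1 ≤ x ∧ PP K i ℓ m x ∧ y = log x / log m}

theorem expSet_le (hK : IsC K i) (hℓ : ℓ.Prime) : ∀ y ∈ ExpSet K i ℓ, y ≤ i := by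
  rintro _ ⟨m, x, hm, hcop, hx, h, rfl⟩
  have hm' : (1 : ℝ) < m := by exact_mod_cast (by omega : 1 < m)
  have h1 := h.le hK hℓ.pos (by omega)
  rw [div_le_iff₀ (log_pos hm')]
  calc log x ≤ log ((m : ℝ) ^ i) := log_le_log (by linarith) h1
    _ = i * log m := log_pow _ _

theorem expSet_nonempty (hℓ : ℓ.Prime) : (0 : ℝ) ∈ ExpSet K i ℓ := by
  refine ⟨ℓ + 1, 1, by have := hℓ.two_le; omega, fun h => ?_, le_rfl, PP.one (by omega), by simp⟩
  have := (Nat.dvd_add_right (dvd_refl ℓ)).1 h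
  exact hℓ.one_lt.ne' (Nat.dvd_one.1 this)

/-- the exponent -/
noncomputable def expo (K : Type*) [Field K] (i ℓ : ℕ) : ℝ := sSup (ExpSet K i ℓ)

theorem expo_nonneg (hK : IsC K i) (hℓ : ℓ.Prime) : 0 ≤ expo K i ℓ :=
  le_csSup ⟨i, fun y hy => expSet_le hK hℓ y hy⟩ (expSet_nonempty hℓ)

theorem expo_le (hK : IsC K i) (hℓ : ℓ.Prime) : expo K i ℓ ≤ i :=
  csSup_le ⟨0, expSet_nonempty hℓ⟩ fun y hy => expSet_le hK hℓ y hy

theorem upper (hK : IsC K i) (hℓ : ℓ.Prime) {m : ℕ} (hm : 2 ≤ m) (hcop : ¬ ℓ ∣ m) {x : ℝ}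
    (h : PP K i ℓ m x) : x ≤ (m : ℝ) ^ expo K i ℓ := by
  have hm' : (1 : ℝ) < m := by exact_mod_cast (by omega : 1 < m)
  rcases lt_or_ge x 1 with hx | hx
  · exact hx.le.trans (one_le_rpow hm'.le (expo_nonneg hK hℓ))
  · have h1 : log x / log m ≤ expo K i ℓ :=
      le_csSup ⟨i, fun y hy => expSet_le hK hℓ y hy⟩ ⟨m, x, hm, hcop, hx, h, rfl⟩
    rw [div_le_iff₀ (log_pos hm')] at h1
    rw [← log_le_log_iff (by linarith) (rpow_pos_of_pos (by linarith) _), log_rpow (by linarith)]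
    exact h1

theorem lower (hi : 0 < i) (hK : IsC K i) (hℓ : ℓ.Prime) (hnorm : HasForm K ℓ (Fin (ℓ ^ i)))
    (δ : ℝ) (hδ : 0 < δ) : ∃ R : ℕ, ∀ Z : ℕ, R ≤ Z → 0 < Z →
      PP K i ℓ Z ((Z : ℝ) ^ (expo K i ℓ - δ)) := by
  rcases le_or_gt (expo K i ℓ - δ) 0 with h0 | h0
  · refine ⟨0, fun Z _ hZ => (PP.one hZ).mono ?_⟩
    exact rpow_le_one_of_one_le_of_nonpos (by exact_mod_cast hZ) h0
  -- a good form
  obtain ⟨_, ⟨m, x, hm, hcop, hx, h, rfl⟩, hy⟩ := exists_lt_of_lt_csSup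
    ⟨0, expSet_nonempty (K := K) (i := i) hℓ⟩ (show expo K i ℓ - δ / 2 < sSup (ExpSet K i ℓ) by
      show expo K i ℓ - δ / 2 < expo K i ℓ; linarith)
  have hm' : (1 : ℝ) < m := by exact_mod_cast (by omega : 1 < m)
  set μ := log (m : ℝ) with hμ
  have hμ0 : 0 < μ := log_pos hm'
  rw [lt_div_iff₀ hμ0] at hy
  have hℓ1 : (1 : ℝ) < ℓ := by exact_mod_cast hℓ.one_lt
  set lam := log (ℓ : ℝ) with hlam
  have hlam0 : 0 < lam := log_pos hℓ1
  set θ := expo K i ℓ with hθ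
  have hθi : θ ≤ i := expo_le hK hℓ
  have hi0 : (0 : ℝ) < i := by exact_mod_cast hi
  -- the power
  obtain ⟨t, ht⟩ := exists_nat_ge (i * (lam + 1) / (δ / 4 * μ) + 1)
  have ht1 : (1 : ℝ) ≤ t := by
    have : 0 ≤ i * (lam + 1) / (δ / 4 * μ) := by positivity
    linarith
  have ht2 : i * (lam + 1) ≤ δ / 4 * μ * t := by
    have h1 : i * (lam + 1) / (δ / 4 * μ) ≤ t := by linarith
    rw [div_le_iff₀ (by positivity)] at h1
    linarith
  obtain ⟨k0, hk0⟩ := exists_nat_ge (i * (2 * t * μ + 2 * lam) / (δ / 4 * t * μ))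
  have hk0' : i * (2 * t * μ + 2 * lam) ≤ δ / 4 * t * μ * k0 := by
    rw [div_le_iff₀ (by positivity)] at hk0
    linarith
  set b := ℓ * m ^ t with hb
  have hb2 : 2 ≤ b := by
    have : 1 ≤ m ^ t := Nat.one_le_pow _ _ (by omega)
    calc 2 ≤ ℓ := hℓ.two_le
      _ = ℓ * 1 := (mul_one _).symm
      _ ≤ b := Nat.mul_le_mul_left _ this
  refine ⟨(k0 + 1) * b ^ (k0 + 2), fun Z hZR hZ0 => ?_⟩
  -- the number of factors
  have hex : ∃ k, Z < (k + 1) * b ^ (k + 2) := by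
    refine ⟨Z, ?_⟩
    calc Z < b ^ Z := Nat.lt_pow_self hb2
      _ ≤ b ^ (Z + 2) := Nat.pow_le_pow_right (by omega) (by omega)
      _ ≤ (Z + 1) * b ^ (Z + 2) := Nat.le_mul_of_pos_left _ (by omega)
  classical
  set k := Nat.find hex with hk
  have hk1 : Z < (k + 1) * b ^ (k + 2) := Nat.find_spec hex
  have hk2 : k * b ^ (k + 1) ≤ Z := by
    rcases Nat.eq_zero_or_pos k with h1 | h1
    · rw [h1]; simp
    · have h2 : ¬ Z < (k - 1 + 1) * b ^ (k - 1 + 2) := Nat.find_min hex (by omega)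
      push Not at h2
      have h3 : k - 1 + 1 = k := by omega
      have h4 : k - 1 + 2 = k + 1 := by omega
      rwa [h3, h4] at h2
  have hkk0 : k0 ≤ k := by
    by_contra hlt
    push Not at hlt
    have h1 : (k + 1) * b ^ (k + 2) ≤ (k0 + 1) * b ^ (k0 + 2) :=
      Nat.mul_le_mul (by omega) (Nat.pow_le_pow_right (by omega) (by omega))
    omega
  have hxt : PP K i ℓ (m ^ t) (x ^ t) := h.pow (by linarith) t
  have hcopt : ¬ ℓ ∣ m ^ t := fun h1 => hcop (hℓ.dvd_of_dvd_pow h1)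
  have hmain := PP.amplify hi hK hℓ hnorm (Nat.pow_pos (n := t) (by omega : 0 < m)) hcopt
    (one_le_pow₀ hx) hxt k Z hZ0 (by rw [← hb]; exact hk2)
  refine hmain.mono ?_
  -- comparison
  have hZr : (0 : ℝ) < Z := by exact_mod_cast hZ0
  have hxpos : 0 < x := by linarith
  rw [← log_le_log_iff (rpow_pos_of_pos hZr _) (by positivity), log_rpow hZr, log_pow, log_pow]
  have hlogZ : log (Z : ℝ) ≤ k + (k + 2) * (lam + t * μ) := by
    have h1 : (Z : ℝ) ≤ ((k : ℝ) + 1) * ((ℓ : ℝ) * (m : ℝ) ^ t) ^ (k + 2) := by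
      have h2 : Z ≤ (k + 1) * b ^ (k + 2) := hk1.le
      rw [hb] at h2
      exact_mod_cast h2
    have hm0 : (0 : ℝ) < m := by linarith
    have hℓ0 : (0 : ℝ) < ℓ := by linarith
    have h2 : log (Z : ℝ) ≤ log (((k : ℝ) + 1) * ((ℓ : ℝ) * (m : ℝ) ^ t) ^ (k + 2)) :=
      log_le_log hZr h1
    rw [log_mul (by positivity) (by positivity), log_pow, log_mul (by positivity) (by positivity),
      log_pow] at h2
    have h3 : log ((k : ℝ) + 1) ≤ k := by
      have := log_le_sub_one_of_pos (show (0 : ℝ) < (k : ℝ) + 1 by positivity)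
      linarith
    push_cast at h2
    rw [← hμ, ← hlam] at h2
    linarith
  have hkr : (k0 : ℝ) ≤ k := by exact_mod_cast hkk0
  have hk00 : (0 : ℝ) ≤ k := by positivity
  have h1 : (θ - δ) * log (Z : ℝ) ≤ (θ - δ) * (k + (k + 2) * (lam + t * μ)) :=
    mul_le_mul_of_nonneg_left hlogZ h0.le
  have hxlog : (θ - δ / 2) * μ ≤ log x := hy.le
  have h2 : (k : ℝ) * (t * ((θ - δ / 2) * μ)) ≤ k * (t * log x) := by
    apply mul_le_mul_of_nonneg_left _ hk00
    exact mul_le_mul_of_nonneg_left hxlog (by linarith)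
  refine h1.trans (le_trans ?_ h2)
  -- `(θ - δ) * (k + (k + 2) * (lam + t * μ)) ≤ k * (t * ((θ - δ / 2) * μ))`
  have h3 : (θ - δ) * (k + (k + 2) * lam + 2 * (t * μ)) ≤ i * (k + (k + 2) * lam + 2 * (t * μ)) := by
    apply mul_le_mul_of_nonneg_right (by linarith)
    positivity
  have h4 : (k : ℝ) * (i * (lam + 1)) ≤ k * (δ / 4 * μ * t) := mul_le_mul_of_nonneg_left ht2 hk00
  have h5 : i * (2 * t * μ + 2 * lam) ≤ δ / 4 * t * μ * k := by
    refine hk0'.trans ?_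
    exact mul_le_mul_of_nonneg_left hkr (by positivity)
  nlinarith

end Run7.h94
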