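import Pool.Agent.Run7.h94.W
import Pool.Agent.Run7.h94.Dim

/-! Weighted homogeneous polynomials of the same degree over a `C_i` field. -/

set_option autoImplicit false

open MvPolynomial Pool.Agent.H19CI

namespace Run7.h94

variable {K : Type*} [Field K]

/-- the number of variables of an anisotropic system of forms of the same degree over a `C_i`
field -/
theorem same_le {i : ℕ} (hK : IsC K i) {V T : Type} [Fintype V] [Fintype T]
    (g : T → MvPolynomial V K) (D : ℕ) (hD : 0 < D) (hg : ∀ t, (g t).IsHomogeneous D)
    (hani : Aniso g) : Fintype.card V ≤ Fintype.card T * D ^ i := by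
  classical
  by_cases halg : IsAlgClosed K
  · have e := Fintype.equivFin V
    have h1 := closed_le (n := Fintype.card V) (fun t => rename e (g t)) (fun _ => D)
      (fun _ => hD) (fun t => (hg t).rename_isHomogeneous) (fun x hx => by
        have h2 : (fun v => x (e v)) = 0 := hani _ fun t => by
          have := hx t
          rw [eval_rename] at this
          exact this
        funext j
        have := congrFun h2 (e.symm j)
        simpa using this)
    exact h1.trans (Nat.le_mul_of_pos_right _ (Nat.pow_pos hD))
  · by_contra hlt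
    push Not at hlt
    obtain ⟨x, hx0, hx⟩ := nagata hK halg g D hD hg hlt
    exact hx0 (hani x hx)

/-- evaluation on an axis -/
theorem axis_dvd {J ι : Type} (f : J → MvPolynomial ι K) (w : ι → ℕ) (D : ℕ)
    (hf : ∀ j, IsWeightedHomogeneous w (f j) D) (hani : Aniso f) (v : ι) : w v ∣ D := by
  classical
  by_contra hdvd
  have h1 : (Pi.single v 1 : ι → K) = 0 := by
    refine hani _ fun j => ?_
    rw [eval_eq]
    refine Finset.sum_eq_zero fun m hm => ?_
    have h2 := hf j (mem_support_iff.1 hm)
    have h3 : ∃ s ∈ m.support, s ≠ v := by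
      by_contra hcon
      push Not at hcon
      apply hdvd
      rw [← h2, Finsupp.weight_apply, Finsupp.sum]
      refine Finset.dvd_sum fun s hs => ?_
      rw [hcon s hs]
      exact Dvd.intro_left _ rfl
    obtain ⟨s, hs, hsv⟩ := h3
    have h4 : ∏ s ∈ m.support, (Pi.single v 1 : ι → K) s ^ m s = 0 := by
      refine Finset.prod_eq_zero hs ?_
      rw [Pi.single_eq_of_ne hsv, zero_pow (Finsupp.mem_support_iff.1 hs)]
    rw [h4, mul_zero]
  have h2 := congrFun h1 v
  rw [Pi.single_eq_same] at h2
  exact one_ne_zero h2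

/-- **Weighted forms of the same degree over a `C_i` field.** -/
theorem weighted_same {i : ℕ} (hK : IsC K i) {J ι : Type} [Fintype J] [Fintype ι]
    (f : J → MvPolynomial ι K) (w : ι → ℕ) (D : ℕ) (hD : 0 < D) (hw : ∀ v, 0 < w v)
    (hf : ∀ j, IsWeightedHomogeneous w (f j) D)
    (hlt : Fintype.card J * D ^ i < ∑ v, w v ^ i) :
    ∃ x : ι → K, x ≠ 0 ∧ ∀ j, eval x (f j) = 0 := by
  classical
  by_contra hcon
  push Not at hcon
  have hani : Aniso f := by
    intro x hx
    by_contra h
    obtain ⟨t, ht⟩ := hcon x h
    exact ht (hx t)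
  have h1 := weighted_reduction i f w (fun _ => D) hw hf hani (by
    intro k Ω hΩ ⟨v0, hv0⟩ h hh1 hh2
    have hwt : ∀ l : Fin k → J, wt (fun _ => D) l = D ^ k := fun l => by simp [wt]
    have hdvd : Ω ∣ D ^ k := by
      rw [← hv0, wt]
      have : D ^ k = ∏ _s : Fin k, D := by simp
      rw [this]
      exact Finset.prod_dvd_prod_of_dvd _ _ fun s _ => axis_dvd f w D hf hani _
    have hpos : 0 < D ^ k / Ω := Nat.div_pos (Nat.le_of_dvd (Nat.pow_pos hD) hdvd) hΩ
    have h2 := same_le hK h (D ^ k / Ω) hpos (fun l => by
      have := hh1 l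
      rwa [hwt] at this) hh2
    refine h2.trans (le_of_eq ?_)
    rw [Finset.sum_congr rfl fun l _ => by rw [hwt]]
    rw [Finset.sum_const, smul_eq_mul, Finset.card_univ])
  rw [Finset.sum_const, smul_eq_mul, Finset.card_univ] at h1
  omega

end Run7.h94
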