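import Pool.Agent.H92R2.UHilb
import Pool.Agent.H19CI.A

/-! Homogeneous ideals and their Hilbert functions. -/

set_option autoImplicit false

open MvPolynomial Module

namespace Run7.h94

universe u

variable {K : Type u} [Field K] {n : ℕ}

/-- homogeneous ideals -/
def HomI (I : Ideal (MvPolynomial (Fin n) K)) : Prop :=
  ∀ a ∈ I, ∀ i, homogeneousComponent i a ∈ I

theorem HomI.isHomogeneous {I : Ideal (MvPolynomial (Fin n) K)} (h : HomI I) :
    letI := MvPolynomial.gradedAlgebra (σ := Fin n) (R := K)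
    I.IsHomogeneous (homogeneousSubmodule (Fin n) K) := by
  intro i a ha
  exact (decomposition.decompose'_apply a i).symm ▸ h a ha i

/-- a homogeneous ideal which is not prime -/
theorem exists_of_not_prime {I : Ideal (MvPolynomial (Fin n) K)} (h : HomI I) (htop : I ≠ ⊤)
    (hp : ¬ I.IsPrime) : ∃ (f g : MvPolynomial (Fin n) K) (d e : ℕ), f.IsHomogeneous d ∧
      g.IsHomogeneous e ∧ f ∉ I ∧ g ∉ I ∧ g * f ∈ I := by
  by_contra hcon
  push Not at hcon
  apply hp
  let _ := MvPolynomial.gradedAlgebra (σ := Fin n) (R := K)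
  refine Ideal.IsHomogeneous.isPrime_of_homogeneous_mem_or_mem
    (𝒜 := homogeneousSubmodule (Fin n) K) h.isHomogeneous htop ?_
  rintro x y ⟨e, hx⟩ ⟨d, hy⟩ hxy
  by_contra hno
  push Not at hno
  exact hcon y x d e hy hx hno.2 hno.1 hxy

theorem comp_mul (i d : ℕ) (a f : MvPolynomial (Fin n) K) (hf : f.IsHomogeneous d) :
    homogeneousComponent (i + d) (a * f) = homogeneousComponent i a * f := by
  induction a using MvPolynomial.induction_on' with
  | monomial m c =>
    have h1 : (monomial m c).IsHomogeneous m.degree := isHomogeneous_monomial c rfl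
    rw [homogeneousComponent_of_mem h1, homogeneousComponent_of_mem (h1.mul hf)]
    by_cases h : i = m.degree
    · rw [if_pos h, if_pos (by omega)]
    · rw [if_neg h, if_neg (by omega), zero_mul]
  | add p q hp hq => rw [add_mul, map_add, hp, hq, map_add, add_mul]

theorem comp_mul_lt (i d : ℕ) (a f : MvPolynomial (Fin n) K) (hf : f.IsHomogeneous d)
    (hi : i < d) : homogeneousComponent i (a * f) = 0 := by
  induction a using MvPolynomial.induction_on' with
  | monomial m c =>
    have h1 : (monomial m c).IsHomogeneous m.degree := isHomogeneous_monomial c rfl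
    rw [homogeneousComponent_of_mem (h1.mul hf), if_neg (by omega)]
  | add p q hp hq => rw [add_mul, map_add, hp, hq, add_zero]

/-- `{a | a * f ∈ I}` -/
def quo (I : Ideal (MvPolynomial (Fin n) K)) (f : MvPolynomial (Fin n) K) :
    Ideal (MvPolynomial (Fin n) K) where
  carrier := {a | a * f ∈ I}
  zero_mem' := by
    show 0 * f ∈ I
    rw [zero_mul]; exact I.zero_mem
  add_mem' := by
    intro a b ha hb
    show (a + b) * f ∈ I
    rw [add_mul]; exact I.add_mem ha hb
  smul_mem' := by
    intro c a ha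
    show (c * a) * f ∈ I
    rw [mul_assoc]; exact I.mul_mem_left c ha

theorem mem_quo {I : Ideal (MvPolynomial (Fin n) K)} {f a : MvPolynomial (Fin n) K} :
    a ∈ quo I f ↔ a * f ∈ I := Iff.rfl

theorem le_quo (I : Ideal (MvPolynomial (Fin n) K)) (f : MvPolynomial (Fin n) K) :
    I ≤ quo I f := fun _ ha => I.mul_mem_right f ha

theorem quo_prime {P : Ideal (MvPolynomial (Fin n) K)} (hP : P.IsPrime)
    {f : MvPolynomial (Fin n) K} (hf : f ∉ P) : quo P f = P :=
  le_antisymm (fun _ ha => (hP.mem_or_mem ha).resolve_right hf) (le_quo P f)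

theorem HomI.quo {I : Ideal (MvPolynomial (Fin n) K)} (h : HomI I) {f : MvPolynomial (Fin n) K}
    {d : ℕ} (hf : f.IsHomogeneous d) : HomI (quo I f) := by
  intro a ha i
  rw [mem_quo] at ha ⊢
  rw [← comp_mul i d a f hf]
  exact h _ ha _

theorem HomI.sup {I : Ideal (MvPolynomial (Fin n) K)} (h : HomI I) {f : MvPolynomial (Fin n) K}
    {d : ℕ} (hf : f.IsHomogeneous d) : HomI (I ⊔ Ideal.span {f}) := by
  intro a ha i
  obtain ⟨b, hb, c, hc, rfl⟩ := Submodule.mem_sup.1 ha
  obtain ⟨e, rfl⟩ := Ideal.mem_span_singleton'.1 hc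
  rw [map_add]
  refine Submodule.add_mem_sup (h b hb i) ?_
  rcases Nat.lt_or_ge i d with hi | hi
  · rw [comp_mul_lt i d e f hf hi]; exact Submodule.zero_mem _
  · obtain ⟨j, rfl⟩ := Nat.exists_eq_add_of_le hi
    rw [add_comm d j, comp_mul j d e f hf]
    exact Ideal.mem_span_singleton'.2 ⟨_, rfl⟩

/-- the forms of degree `t` in `I` -/
noncomputable def part (I : Ideal (MvPolynomial (Fin n) K)) (t : ℕ) : Submodule K (MvPolynomial (Fin n) K) :=
  homogeneousSubmodule (Fin n) K t ⊓ I.restrictScalars K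

theorem mem_part {I : Ideal (MvPolynomial (Fin n) K)} {t : ℕ} {a : MvPolynomial (Fin n) K} :
    a ∈ part I t ↔ a.IsHomogeneous t ∧ a ∈ I := Iff.rfl

instance finS (t : ℕ) : Module.Finite K (homogeneousSubmodule (Fin n) K t) :=
  Module.Finite.iff_fg.2 (homogeneousSubmodule_fg (Fin n) K t)

instance finPart (I : Ideal (MvPolynomial (Fin n) K)) (t : ℕ) : Module.Finite K (part I t) :=
  Submodule.finiteDimensional_of_le (inf_le_left : part I t ≤ homogeneousSubmodule (Fin n) K t)

/-- the Hilbert function of `K[X_0, …, X_{n-1}] / I` -/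
noncomputable def hf (I : Ideal (MvPolynomial (Fin n) K)) (t : ℕ) : ℤ :=
  (finrank K (homogeneousSubmodule (Fin n) K t) : ℤ) - finrank K (part I t)

theorem hf_nonneg (I : Ideal (MvPolynomial (Fin n) K)) (t : ℕ) : 0 ≤ hf I t := by
  have h := Submodule.finrank_mono
    (show part I t ≤ homogeneousSubmodule (Fin n) K t from inf_le_left)
  unfold hf
  omega

theorem hf_top (t : ℕ) : hf (⊤ : Ideal (MvPolynomial (Fin n) K)) t = 0 := by
  have : part (⊤ : Ideal (MvPolynomial (Fin n) K)) t = homogeneousSubmodule (Fin n) K t := by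
    ext a
    simp [mem_part]
  unfold hf
  rw [this, sub_self]

/-- the fundamental exact sequence -/
theorem hf_step {I : Ideal (MvPolynomial (Fin n) K)} (h : HomI I) {f : MvPolynomial (Fin n) K}
    {d : ℕ} (hf' : f.IsHomogeneous d) (t : ℕ) :
    hf I (t + d) = hf (quo I f) t + hf (I ⊔ Ideal.span {f}) (t + d) := by
  have h1 := H92U.finrank_sup_map (LinearMap.mulRight K f) (homogeneousSubmodule (Fin n) K t)
    (part I (t + d))
  have h2 : part I (t + d) ⊔ (homogeneousSubmodule (Fin n) K t).map (LinearMap.mulRight K f) =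
      part (I ⊔ Ideal.span {f}) (t + d) := by
    ext a
    constructor
    · intro ha
      obtain ⟨b, hb, c, ⟨e, he, rfl⟩, rfl⟩ := Submodule.mem_sup.1 ha
      rw [mem_part] at hb ⊢
      refine ⟨hb.1.add (IsHomogeneous.mul he hf'), Submodule.add_mem_sup hb.2 ?_⟩
      exact Ideal.mem_span_singleton'.2 ⟨e, rfl⟩
    · intro ha
      rw [mem_part] at ha
      obtain ⟨b, hb, c, hc, hbc⟩ := Submodule.mem_sup.1 ha.2
      obtain ⟨e, rfl⟩ := Ideal.mem_span_singleton'.1 hc
      have h3 : a = homogeneousComponent (t + d) b + homogeneousComponent t e * f := by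
        rw [← homogeneousComponent_eq_self ha.1, ← hbc, map_add, comp_mul t d e f hf']
      rw [h3]
      refine Submodule.add_mem_sup ?_ ?_
      · exact ⟨homogeneousComponent_isHomogeneous _ _, h b hb _⟩
      · exact ⟨_, homogeneousComponent_isHomogeneous _ _, rfl⟩
  have h3 : homogeneousSubmodule (Fin n) K t ⊓
      (part I (t + d)).comap (LinearMap.mulRight K f) = part (quo I f) t := by
    ext a
    constructor
    · rintro ⟨h4, h5⟩
      exact ⟨h4, h5.2⟩
    · rintro ⟨h4, h5⟩
      exact ⟨h4, IsHomogeneous.mul h4 hf', h5⟩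
  rw [h2, h3] at h1
  unfold hf
  have h1' : (finrank K (part (I ⊔ Ideal.span {f}) (t + d)) : ℤ) + finrank K (part (quo I f) t) =
      finrank K (part I (t + d)) + finrank K (homogeneousSubmodule (Fin n) K t) := by
    exact_mod_cast h1
  linarith

/-- noetherian induction over the homogeneous ideals -/
theorem noeth (Q : Ideal (MvPolynomial (Fin n) K) → Prop)
    (hQ : ∀ I, HomI I → (∀ J, HomI J → I < J → Q J) → Q I) : ∀ I, HomI I → Q I := by
  intro I
  induction I using WellFoundedGT.induction with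
  | _ I ih => exact fun hI => hQ I hI fun J hJ hIJ => ih J hIJ hJ

/-- dévissage -/
theorem devissage (Q : Ideal (MvPolynomial (Fin n) K) → Prop) (htop : Q ⊤)
    (hstep : ∀ (I : Ideal (MvPolynomial (Fin n) K)) (f : MvPolynomial (Fin n) K) (d : ℕ), HomI I →
      f.IsHomogeneous d → Q (quo I f) → Q (I ⊔ Ideal.span {f}) → Q I)
    (hprime : ∀ P, HomI P → P.IsPrime → (∀ J, HomI J → P < J → Q J) → Q P) :
    ∀ I, HomI I → Q I := by
  refine noeth Q fun I hI ih => ?_
  by_cases htop' : I = ⊤
  · rw [htop']; exact htop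
  by_cases hp : I.IsPrime
  · exact hprime I hI hp ih
  obtain ⟨f, g, d, e, hf, hg, hfI, hgI, hgf⟩ := exists_of_not_prime hI htop' hp
  refine hstep I f d hI hf (ih _ (hI.quo hf) ?_) (ih _ (hI.sup hf) ?_)
  · exact lt_of_le_of_ne (le_quo I f) fun h => hgI (h ▸ mem_quo.2 hgf)
  · refine lt_of_le_of_ne le_sup_left fun h => hfI ?_
    rw [h]
    exact Submodule.mem_sup_right (Ideal.mem_span_singleton_self f)

end Run7.h94
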