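import Pool.Agent.Run7.h94.Hilb

/-! Dimension and degree of homogeneous ideals through the differences of the Hilbert function. -/

set_option autoImplicit false

open MvPolynomial Module

namespace Run7.h94

universe u

/-- the difference operator -/
def dl (h : ℕ → ℤ) : ℕ → ℤ := fun t => h (t + 1) - h t

/-- the `D`-th difference of `h` is eventually equal to `c` -/
def Ld (D : ℕ) (c : ℤ) (h : ℕ → ℤ) : Prop := ∃ N, ∀ t ≥ N, dl^[D] h t = c

theorem dl_add (g h : ℕ → ℤ) (D : ℕ) :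
    dl^[D] (fun t => g t + h t) = fun t => dl^[D] g t + dl^[D] h t := by
  induction D generalizing g h with
  | zero => rfl
  | succ D ih =>
    rw [Function.iterate_succ_apply, Function.iterate_succ_apply, Function.iterate_succ_apply]
    have h1 : dl (fun t => g t + h t) = fun t => dl g t + dl h t := by
      funext t
      simp only [dl]
      ring
    rw [h1, ih]

theorem dl_shift (h : ℕ → ℤ) (d D : ℕ) :
    dl^[D] (fun t => h (t + d)) = fun t => dl^[D] h (t + d) := by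
  induction D generalizing h with
  | zero => rfl
  | succ D ih =>
    rw [Function.iterate_succ_apply, Function.iterate_succ_apply, ← ih]
    congr 1
    funext t
    simp only [dl]
    rw [show t + 1 + d = t + d + 1 by omega]

theorem Ld.add {D : ℕ} {c c' : ℤ} {g h : ℕ → ℤ} (hg : Ld D c g) (hh : Ld D c' h) :
    Ld D (c + c') (fun t => g t + h t) := by
  obtain ⟨N, hN⟩ := hg
  obtain ⟨N', hN'⟩ := hh
  refine ⟨max N N', fun t ht => ?_⟩
  rw [dl_add]
  show dl^[D] g t + dl^[D] h t = _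
  rw [hN t ((le_max_left _ _).trans ht), hN' t ((le_max_right _ _).trans ht)]

theorem Ld.shift {D : ℕ} {c : ℤ} {h : ℕ → ℤ} (hh : Ld D c h) (d : ℕ) :
    Ld D c (fun t => h (t + d)) := by
  obtain ⟨N, hN⟩ := hh
  refine ⟨N, fun t ht => ?_⟩
  rw [dl_shift]
  exact hN (t + d) (by omega)

theorem Ld.unshift {D : ℕ} {c : ℤ} {h : ℕ → ℤ} {d : ℕ} (hh : Ld D c (fun t => h (t + d))) :
    Ld D c h := by
  obtain ⟨N, hN⟩ := hh
  refine ⟨N + d, fun t ht => ?_⟩
  have h1 := hN (t - d) (by omega)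
  rw [dl_shift] at h1
  have h2 : t - d + d = t := by omega
  simp only [h2] at h1
  exact h1

theorem Ld.succ {D : ℕ} {c : ℤ} {h : ℕ → ℤ} (hh : Ld D c h) : Ld (D + 1) 0 h := by
  obtain ⟨N, hN⟩ := hh
  refine ⟨N, fun t ht => ?_⟩
  rw [Function.iterate_succ_apply']
  show dl^[D] h (t + 1) - dl^[D] h t = 0
  rw [hN t ht, hN (t + 1) (by omega), sub_self]

theorem Ld.up {D D' : ℕ} {c : ℤ} {h : ℕ → ℤ} (hh : Ld D c h) (hD : D < D') : Ld D' 0 h := by
  obtain ⟨k, rfl⟩ := Nat.exists_eq_add_of_lt hD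
  induction k with
  | zero => exact hh.succ
  | succ k ih => exact (ih (by omega)).succ

theorem Ld.zero {h : ℕ → ℤ} (hh : Ld 0 0 h) (D : ℕ) : Ld D 0 h := by
  rcases Nat.eq_zero_or_pos D with h0 | h0
  · rw [h0]; exact hh
  · exact hh.up h0

theorem Ld.of_dl {D : ℕ} {c : ℤ} {h : ℕ → ℤ} (hh : Ld D c (dl h)) : Ld (D + 1) c h := by
  obtain ⟨N, hN⟩ := hh
  exact ⟨N, fun t ht => by rw [Function.iterate_succ_apply]; exact hN t ht⟩

theorem Ld.dl {D : ℕ} {c : ℤ} {h : ℕ → ℤ} (hh : Ld (D + 1) c h) : Ld D c (dl h) := by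
  obtain ⟨N, hN⟩ := hh
  exact ⟨N, fun t ht => by rw [← Function.iterate_succ_apply]; exact hN t ht⟩

theorem Ld.unique {D : ℕ} {c c' : ℤ} {h : ℕ → ℤ} (hh : Ld D c h) (hh' : Ld D c' h) : c = c' := by
  obtain ⟨N, hN⟩ := hh
  obtain ⟨N', hN'⟩ := hh'
  rw [← hN (max N N') (le_max_left _ _), hN' (max N N') (le_max_right _ _)]

theorem Ld.sum {D : ℕ} {c : ℤ} {h : ℕ → ℤ} (hh : Ld D c h) (d : ℕ) :
    Ld D (d * c) (fun t => ∑ i ∈ Finset.range d, h (t + i)) := by
  induction d with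
  | zero =>
    have h1 : Ld 0 0 (fun _ : ℕ => (0 : ℤ)) := ⟨0, fun t _ => rfl⟩
    have h2 := h1.zero D
    simpa using h2
  | succ d ih =>
    have h1 := ih.add (hh.shift d)
    have h2 : ((d + 1 : ℕ) : ℤ) * c = d * c + c := by push_cast; ring
    rw [h2]
    convert h1 using 2
    rw [Finset.sum_range_succ]

/-- `D` is the dimension and `c` the degree -/
def Tp (D : ℕ) (c : ℤ) (h : ℕ → ℤ) : Prop := Ld D c h ∧ 0 < c

theorem Tp.unique {D D' : ℕ} {c c' : ℤ} {h : ℕ → ℤ} (h1 : Tp D c h) (h2 : Tp D' c' h) :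
    D = D' ∧ c = c' := by
  rcases lt_trichotomy D D' with hlt | heq | hlt
  · have := h2.1.unique (h1.1.up hlt)
    have := h2.2
    omega
  · subst heq
    exact ⟨rfl, h1.1.unique h2.1⟩
  · have := h1.1.unique (h2.1.up hlt)
    have := h1.2
    omega

theorem Tp.not_zero {D : ℕ} {c : ℤ} {h : ℕ → ℤ} (h1 : Tp D c h) : ¬ Ld 0 0 h := by
  intro h0
  have := h1.1.unique (h0.zero D)
  have := h1.2
  omega

/-- eventually zero, or with a dimension and a degree -/
def Nice (h : ℕ → ℤ) : Prop := Ld 0 0 h ∨ ∃ D c, Tp D c h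

theorem Nice.add {g h : ℕ → ℤ} (hg : Nice g) (hh : Nice h) : Nice (fun t => g t + h t) := by
  rcases hg with hg | ⟨D, c, hg⟩
  · rcases hh with hh | ⟨D', c', hh⟩
    · exact Or.inl (by have := hg.add hh; rwa [add_zero] at this)
    · exact Or.inr ⟨D', c', by have := (hg.zero D').add hh.1; rwa [zero_add] at this, hh.2⟩
  · rcases hh with hh | ⟨D', c', hh⟩
    · exact Or.inr ⟨D, c, by have := hg.1.add (hh.zero D); rwa [add_zero] at this, hg.2⟩
    · rcases lt_trichotomy D D' with hlt | heq | hlt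
      · exact Or.inr ⟨D', c', by have := (hg.1.up hlt).add hh.1; rwa [zero_add] at this, hh.2⟩
      · subst heq
        exact Or.inr ⟨D, c + c', hg.1.add hh.1, add_pos hg.2 hh.2⟩
      · exact Or.inr ⟨D, c, by have := hg.1.add (hh.1.up hlt); rwa [add_zero] at this, hg.2⟩

theorem Nice.split {g h : ℕ → ℤ} (hg : Nice g) (hh : Nice h) {D : ℕ} {c : ℤ} {r : ℤ}
    (hs : Tp D c (fun t => g t + h t)) (hr : ¬ r ∣ c) :
    (∃ c', Tp D c' g ∧ ¬ r ∣ c') ∨ (∃ c', Tp D c' h ∧ ¬ r ∣ c') := by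
  rcases hg with hg | ⟨D1, c1, hg⟩
  · rcases hh with hh | ⟨D2, c2, hh⟩
    · exact absurd (by have := hg.add hh; rwa [add_zero] at this) hs.not_zero
    · have h1 : Tp D2 c2 (fun t => g t + h t) :=
        ⟨by have := (hg.zero D2).add hh.1; rwa [zero_add] at this, hh.2⟩
      obtain ⟨rfl, rfl⟩ := hs.unique h1
      exact Or.inr ⟨c, hh, hr⟩
  · rcases hh with hh | ⟨D2, c2, hh⟩
    · have h1 : Tp D1 c1 (fun t => g t + h t) :=
        ⟨by have := hg.1.add (hh.zero D1); rwa [add_zero] at this, hg.2⟩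
      obtain ⟨rfl, rfl⟩ := hs.unique h1
      exact Or.inl ⟨c, hg, hr⟩
    · rcases lt_trichotomy D1 D2 with hlt | heq | hlt
      · have h1 : Tp D2 c2 (fun t => g t + h t) :=
          ⟨by have := (hg.1.up hlt).add hh.1; rwa [zero_add] at this, hh.2⟩
        obtain ⟨rfl, rfl⟩ := hs.unique h1
        exact Or.inr ⟨c, hh, hr⟩
      · subst heq
        have h1 : Tp D1 (c1 + c2) (fun t => g t + h t) := ⟨hg.1.add hh.1, add_pos hg.2 hh.2⟩
        obtain ⟨rfl, rfl⟩ := hs.unique h1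
        by_cases h2 : r ∣ c1
        · exact Or.inr ⟨c2, hh, fun h3 => hr (dvd_add h2 h3)⟩
        · exact Or.inl ⟨c1, hg, h2⟩
      · have h1 : Tp D1 c1 (fun t => g t + h t) :=
          ⟨by have := hg.1.add (hh.1.up hlt); rwa [add_zero] at this, hg.2⟩
        obtain ⟨rfl, rfl⟩ := hs.unique h1
        exact Or.inl ⟨c, hg, hr⟩

theorem Nice.shift {h : ℕ → ℤ} (hh : Nice h) (d : ℕ) : Nice (fun t => h (t + d)) := by
  rcases hh with hh | ⟨D, c, hh⟩
  · exact Or.inl (hh.shift d)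
  · exact Or.inr ⟨D, c, hh.1.shift d, hh.2⟩

theorem Nice.unshift {h : ℕ → ℤ} {d : ℕ} (hh : Nice (fun t => h (t + d))) : Nice h := by
  rcases hh with hh | ⟨D, c, hh⟩
  · exact Or.inl hh.unshift
  · exact Or.inr ⟨D, c, hh.1.unshift, hh.2⟩

theorem Nice.of_dl {h : ℕ → ℤ} (h0 : ∀ t, 0 ≤ h t) (hh : Nice (dl h)) : Nice h := by
  rcases hh with ⟨N, hN⟩ | ⟨D, c, hh⟩
  · have h1 : ∀ t ≥ N, h t = h N := by
      intro t ht
      induction t, ht using Nat.le_induction with
      | base => rfl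
      | succ t ht ih =>
        have h2 : h (t + 1) - h t = 0 := hN t ht
        omega
    rcases (h0 N).eq_or_lt with h2 | h2
    · exact Or.inl ⟨N, fun t ht => by rw [Function.iterate_zero, id, h1 t ht]; exact h2.symm⟩
    · exact Or.inr ⟨0, h N, ⟨N, fun t ht => h1 t ht⟩, h2⟩
  · exact Or.inr ⟨D + 1, c, hh.1.of_dl, hh.2⟩

variable {K : Type u} [Field K] {n : ℕ}

/-- an ideal which contains all variables -/
theorem hf_irrel' {P : Ideal (MvPolynomial (Fin n) K)} (hX : ∀ i, X i ∈ P) (t : ℕ)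
    (ht : 1 ≤ t) : hf P t = 0 := by
  have h1 : part P t = homogeneousSubmodule (Fin n) K t := by
    ext a
    rw [mem_part]
    refine ⟨fun h => h.1, fun h => ⟨h, ?_⟩⟩
    have h2 : a ∈ Ideal.span (Set.range (X : Fin n → MvPolynomial (Fin n) K)) := by
      rw [← Set.image_univ, mem_ideal_span_X_image]
      intro m hm
      have h3 : m.degree = t := by
        have h5 := h (mem_support_iff.1 hm)
        rw [← h5, Finsupp.weight_apply, Finsupp.degree_apply, Finsupp.sum]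
        exact Finset.sum_congr rfl fun i _ => by simp
      have h4 : m ≠ 0 := by
        rintro rfl
        rw [map_zero] at h3
        omega
      obtain ⟨i, hi⟩ := Finsupp.ne_iff.1 h4
      exact ⟨i, Set.mem_univ _, hi⟩
    refine (Ideal.span_le.2 ?_) h2
    rintro _ ⟨i, rfl⟩
    exact hX i
  unfold hf
  rw [h1, sub_self]

theorem hf_irrel {P : Ideal (MvPolynomial (Fin n) K)} (hX : ∀ i, X i ∈ P) :
    Ld 0 0 (hf P) := ⟨1, fun t ht => hf_irrel' hX t ht⟩

/-- every homogeneous ideal has a dimension and a degree -/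
theorem nice_hf (I : Ideal (MvPolynomial (Fin n) K)) (hI : HomI I) : Nice (hf I) := by
  refine devissage (fun I => Nice (hf I)) ?_ ?_ ?_ I hI
  · exact Or.inl ⟨0, fun t _ => hf_top t⟩
  · intro I f d hI hf' h1 h2
    refine Nice.unshift (d := d) ?_
    have h3 := h1.add (h2.shift d)
    convert h3 using 2 with t
    exact hf_step hI hf' t
  · intro P hP hPp ih
    by_cases hX : ∀ i, X i ∈ P
    · exact Or.inl (hf_irrel hX)
    · push Not at hX
      obtain ⟨i, hi⟩ := hX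
      have hXi : (X i : MvPolynomial (Fin n) K).IsHomogeneous 1 := isHomogeneous_X K i
      have h1 : P < P ⊔ Ideal.span {X i} := lt_of_le_of_ne le_sup_left fun h => hi (by
        rw [h]; exact Submodule.mem_sup_right (Ideal.mem_span_singleton_self _))
      refine Nice.of_dl (hf_nonneg P) ?_
      have h2 := (ih _ (hP.sup hXi) h1).shift 1
      convert h2 using 1
      funext t
      have h3 := hf_step hP hXi t
      rw [quo_prime hPp hi] at h3
      show hf P (t + 1) - hf P t = _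
      omega

/-- a component whose degree is not divisible by `r` -/
theorem exists_prime {r : ℤ} {D : ℕ} (I : Ideal (MvPolynomial (Fin n) K)) (hI : HomI I) :
    (∃ c, Tp D c (hf I) ∧ ¬ r ∣ c) →
      ∃ P : Ideal (MvPolynomial (Fin n) K), HomI P ∧ P.IsPrime ∧ I ≤ P ∧
        ∃ c, Tp D c (hf P) ∧ ¬ r ∣ c := by
  refine devissage (fun I => (∃ c, Tp D c (hf I) ∧ ¬ r ∣ c) →
      ∃ P : Ideal (MvPolynomial (Fin n) K), HomI P ∧ P.IsPrime ∧ I ≤ P ∧
        ∃ c, Tp D c (hf P) ∧ ¬ r ∣ c) ?_ ?_ ?_ I hI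
  · rintro ⟨c, hc, -⟩
    exact absurd ⟨0, fun t _ => hf_top t⟩ hc.not_zero
  · rintro I f d hI hf' h1 h2 ⟨c, hc, hrc⟩
    have h3 : Tp D c (fun t => hf (quo I f) t + hf (I ⊔ Ideal.span {f}) (t + d)) := by
      have h4 := hc.1.shift d
      refine ⟨?_, hc.2⟩
      convert h4 using 2 with t
      exact (hf_step hI hf' t).symm
    rcases Nice.split (nice_hf _ (hI.quo hf')) ((nice_hf _ (hI.sup hf')).shift d) h3 hrc with
      ⟨c', hc', hrc'⟩ | ⟨c', hc', hrc'⟩
    · obtain ⟨P, hP1, hP2, hP3, hP4⟩ := h1 ⟨c', hc', hrc'⟩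
      exact ⟨P, hP1, hP2, (le_quo I f).trans hP3, hP4⟩
    · obtain ⟨P, hP1, hP2, hP3, hP4⟩ := h2 ⟨c', ⟨hc'.1.unshift, hc'.2⟩, hrc'⟩
      exact ⟨P, hP1, hP2, le_sup_left.trans hP3, hP4⟩
  · intro P hP hPp _ h
    exact ⟨P, hP, hPp, le_rfl, h⟩

/-- a hypersurface section of an integral scheme -/
theorem section_deg {P : Ideal (MvPolynomial (Fin n) K)} (hP : HomI P) (hPp : P.IsPrime)
    {f : MvPolynomial (Fin n) K} {d : ℕ} (hd : 0 < d) (hf' : f.IsHomogeneous d) (hfP : f ∉ P)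
    {D : ℕ} {c : ℤ} (hc : Tp (D + 1) c (hf P)) :
    Tp D (d * c) (hf (P ⊔ Ideal.span {f})) := by
  refine ⟨Ld.unshift (d := d) ?_, mul_pos (by exact_mod_cast hd) hc.2⟩
  have h1 := (hc.1.dl).sum d
  convert h1 using 2 with t
  have h2 := hf_step hP hf' t
  rw [quo_prime hPp hfP] at h2
  have h3 : ∑ i ∈ Finset.range d, dl (hf P) (t + i) = hf P (t + d) - hf P t := by
    have := Finset.sum_range_sub (fun i => hf P (t + i)) d
    simpa [dl, add_assoc] using this
  rw [h3]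
  omega

end Run7.h94
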