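import Pool.Agent.H19CI.D

/-! Systems of weighted homogeneous polynomials: iteration and restriction to variables of equal
weight. -/

set_option autoImplicit false

open MvPolynomial Pool.Agent.H19CI

namespace Run7.h94

variable {K : Type*} [Field K]

/-- weighted substitution -/
theorem wbind_hom {σ τ : Type*} (A : MvPolynomial σ K) (g : σ → MvPolynomial τ K) (w : σ → ℕ)
    (u : τ → ℕ) (a b : ℕ) (hA : IsWeightedHomogeneous w A a)
    (hg : ∀ s, IsWeightedHomogeneous u (g s) (w s * b)) :
    IsWeightedHomogeneous u (bind₁ g A) (a * b) := by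
  classical
  rw [bind₁, aeval_def, eval₂_eq]
  refine (weightedHomogeneousSubmodule K u (a * b)).sum_mem fun m hm => ?_
  have h1 : IsWeightedHomogeneous u (∏ i ∈ m.support, g i ^ m i)
      (∑ i ∈ m.support, m i • (w i * b)) :=
    IsWeightedHomogeneous.prod _ _ _ fun i _ => (hg i).pow (m i)
  have h2 : ∑ i ∈ m.support, m i • (w i * b) = a * b := by
    have h3 := hA (mem_support_iff.1 hm)
    rw [← h3, Finsupp.weight_apply, Finsupp.sum, Finset.sum_mul]
    refine Finset.sum_congr rfl fun i _ => ?_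
    simp [mul_assoc]
  rw [h2] at h1
  have h4 := (isWeightedHomogeneous_C (R := K) u (coeff m A)).mul h1
  rw [zero_add] at h4
  exact h4

theorem rename_bind {σ τ : Type*} (f : σ → τ) (p : MvPolynomial σ K) :
    rename f p = bind₁ (fun v => X (f v)) p := by
  induction p using MvPolynomial.induction_on with
  | C a => simp
  | add P Q hP hQ => rw [map_add, map_add, hP, hQ]
  | mul_X P s hP => rw [map_mul, map_mul, hP, rename_X, bind₁_X_right]

/-- the weight of a word -/
def wt {k : ℕ} {V : Type} (w : V → ℕ) (l : Fin k → V) : ℕ := ∏ s, w (l s)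

theorem wt_cons {k : ℕ} {V : Type} (w : V → ℕ) (v : V) (l : Fin k → V) :
    wt w (Fin.cons v l : Fin (k + 1) → V) = w v * wt w l := by
  simp [wt, Fin.prod_univ_succ]

theorem wt_tail {k : ℕ} {V : Type} (w : V → ℕ) (l : Fin (k + 1) → V) :
    wt w l = w (l 0) * wt w (Fin.tail l) := by
  simp [wt, Fin.prod_univ_succ, Fin.tail]

/-- the `k`-th power of an anisotropic weighted system -/
theorem wsyspow {J ι : Type} (f : J → MvPolynomial ι K) (w : ι → ℕ) (d : J → ℕ)
    (hf : ∀ j, IsWeightedHomogeneous w (f j) (d j)) (hani : Aniso f) (k : ℕ) :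
    ∃ g : (Fin k → J) → MvPolynomial (Fin k → ι) K,
      (∀ l, IsWeightedHomogeneous (wt w) (g l) (wt d l)) ∧ Aniso g := by
  induction k with
  | zero =>
    refine ⟨fun _ => X default, fun l => ?_, fun x hx => ?_⟩
    · have h := isWeightedHomogeneous_X (R := K) (wt w) (default : Fin 0 → ι)
      have h2 : wt w (default : Fin 0 → ι) = 1 := by simp [wt]
      have h3 : wt d l = 1 := by simp [wt]
      rw [h2] at h
      rw [h3]
      exact h
    · funext v
      have := hx default
      rw [eval_X] at this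
      rw [Subsingleton.elim v default, this]
      rfl
  | succ k ih =>
    obtain ⟨g, hg1, hg2⟩ := ih
    refine ⟨fun l => bind₁ (fun s : ι => rename (fun v : Fin k → ι =>
      (Fin.cons s v : Fin (k + 1) → ι)) (g (Fin.tail l))) (f (l 0)), fun l => ?_, fun x hx => ?_⟩
    · rw [wt_tail]
      refine wbind_hom _ _ w _ _ _ (hf (l 0)) fun s => ?_
      rw [rename_bind, mul_comm]
      refine wbind_hom _ _ (wt w) _ _ _ (hg1 (Fin.tail l)) fun v => ?_
      have h := isWeightedHomogeneous_X (R := K) (wt w) (Fin.cons s v : Fin (k + 1) → ι)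
      rw [wt_cons, mul_comm] at h
      exact h
    · have h1 : ∀ (l' : Fin k → J) (s : ι),
          eval (fun v => x (Fin.cons s v : Fin (k + 1) → ι)) (g l') = 0 := by
        intro l' s
        have h2 : (fun s : ι => eval x (rename (fun v : Fin k → ι =>
            (Fin.cons s v : Fin (k + 1) → ι)) (g l'))) = 0 := hani _ fun j => by
          have h3 := hx (Fin.cons j l' : Fin (k + 1) → J)
          rw [eval_bind] at h3
          simpa using h3
        have h4 := congrFun h2 s
        simp only [eval_rename] at h4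
        exact h4
      funext v
      have h5 := congrFun (hg2 _ fun l' => h1 l' (v 0)) (Fin.tail v)
      simp only [Fin.cons_self_tail] at h5
      exact h5

/-- restriction to the variables of one weight -/
theorem restrict {J ι : Type} (g : J → MvPolynomial ι K) (w : ι → ℕ) (d : J → ℕ)
    (hg : ∀ j, IsWeightedHomogeneous w (g j) (d j)) (hani : Aniso g) (Ω : ℕ) (hΩ : 0 < Ω) :
    ∃ h : {j : J // Ω ∣ d j} → MvPolynomial {v : ι // w v = Ω} K,
      (∀ j, (h j).IsHomogeneous (d j.1 / Ω)) ∧ Aniso h := by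
  classical
  let ρ : ι → MvPolynomial {v : ι // w v = Ω} K := fun v => if h : w v = Ω then X ⟨v, h⟩ else 0
  have hρ : ∀ j, IsWeightedHomogeneous (fun _ : {v : ι // w v = Ω} => Ω) (bind₁ ρ (g j)) (d j) := by
    intro j
    have h0 : ∀ s, IsWeightedHomogeneous (fun _ : {v : ι // w v = Ω} => Ω) (ρ s) (w s * 1) := by
      intro s
      rw [mul_one]
      by_cases h : w s = Ω
      · have h1 : ρ s = X ⟨s, h⟩ := dif_pos h
        rw [h1, h]
        exact isWeightedHomogeneous_X K _ _
      · have h1 : ρ s = 0 := dif_neg h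
        rw [h1]
        exact isWeightedHomogeneous_zero _ _ _
    have h1 := wbind_hom (g j) ρ w (fun _ => Ω) (d j) 1 (hg j) h0
    rwa [mul_one] at h1
  refine ⟨fun j => bind₁ ρ (g j.1), fun j => ?_, fun x hx => ?_⟩
  · intro m hm
    have h1 := hρ j.1 hm
    obtain ⟨c, hc⟩ := j.2
    rw [hc, Nat.mul_div_cancel_left _ hΩ]
    rw [hc, Finsupp.weight_apply, Finsupp.sum] at h1
    rw [Finsupp.weight_apply, Finsupp.sum]
    simp only [smul_eq_mul, Pi.one_apply, mul_one] at h1 ⊢
    rw [← Finset.sum_mul, mul_comm] at h1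
    exact Nat.eq_of_mul_eq_mul_left hΩ h1
  · let y : ι → K := fun v => if h : w v = Ω then x ⟨v, h⟩ else 0
    have hy : ∀ v, eval x (ρ v) = y v := by
      intro v
      show eval x (if h : w v = Ω then X ⟨v, h⟩ else 0) = if h : w v = Ω then x ⟨v, h⟩ else 0
      split_ifs with h
      · rw [eval_X]
      · rw [map_zero]
    have hy0 : y = 0 := by
      refine hani _ fun j => ?_
      by_cases hj : Ω ∣ d j
      · have := hx ⟨j, hj⟩
        rw [eval_bind] at this
        simpa only [hy] using this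
      · have h1 : bind₁ ρ (g j) = 0 := by
          by_contra hne
          obtain ⟨m, hm⟩ := exists_coeff_ne_zero hne
          have h2 := hρ j hm
          rw [Finsupp.weight_apply, Finsupp.sum] at h2
          simp only [smul_eq_mul] at h2
          rw [← Finset.sum_mul] at h2
          exact hj ⟨_, by rw [mul_comm]; exact h2.symm⟩
        have h2 : eval x (bind₁ ρ (g j)) = 0 := by rw [h1, map_zero]
        rw [eval_bind] at h2
        simpa only [hy] using h2
    funext v
    have h3 := congrFun hy0 v.1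
    simp only [y, v.2, dite_true] at h3
    simpa using h3

/-- polynomial versus exponential growth -/
theorem poly_exp (S B n : ℕ) (h : ∀ k : ℕ, S ^ k ≤ (k + 1) ^ n * B ^ k) : S ≤ B := by
  by_contra hlt
  push Not at hlt
  have hS : (0 : ℝ) < S := by
    have : 0 < S := by omega
    exact_mod_cast this
  set q : ℝ := (B : ℝ) / S with hq
  have hq0 : 0 ≤ q := by positivity
  have hq1 : q < 1 := by
    rw [hq, div_lt_one hS]
    exact_mod_cast hlt
  have ht := tendsto_pow_const_mul_const_pow_of_abs_lt_one n (show |q| < 1 by rwa [abs_of_nonneg hq0])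
  have h1 : (0 : ℝ) < 1 / 2 ^ n := by positivity
  obtain ⟨k, hk, hk0⟩ := ((ht.eventually (gt_mem_nhds h1)).and
    (Filter.eventually_gt_atTop 0)).exists
  have h2 : (k + 1 : ℝ) ^ n ≤ 2 ^ n * (k : ℝ) ^ n := by
    rw [← mul_pow]
    refine pow_le_pow_left₀ (by positivity) ?_ n
    have : (1 : ℝ) ≤ k := by exact_mod_cast hk0
    linarith
  have h3 : ((S : ℝ)) ^ k ≤ (k + 1) ^ n * (B : ℝ) ^ k := by exact_mod_cast h k
  have h4 : (1 : ℝ) ≤ (k + 1) ^ n * q ^ k := by
    rw [hq, div_pow, ← mul_div_assoc, le_div_iff₀ (by positivity), one_mul]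
    exact h3
  have h5 : ((k : ℝ) + 1) ^ n * q ^ k ≤ 2 ^ n * (k : ℝ) ^ n * q ^ k :=
    mul_le_mul_of_nonneg_right h2 (by positivity)
  have h6 : 2 ^ n * (k : ℝ) ^ n * q ^ k < 1 := by
    have h7 : (2 : ℝ) ^ n * ((k : ℝ) ^ n * q ^ k) < 2 ^ n * (1 / 2 ^ n) :=
      mul_lt_mul_of_pos_left hk (by positivity)
    have h8 : (2 : ℝ) ^ n * (1 / 2 ^ n) = 1 := by
      field_simp
    rw [h8] at h7
    calc 2 ^ n * (k : ℝ) ^ n * q ^ k = (2 : ℝ) ^ n * ((k : ℝ) ^ n * q ^ k) := by ring
      _ < 1 := h7
  linarith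

theorem wt_eq {k : ℕ} {V : Type} [Fintype V] [DecidableEq V] (w : V → ℕ) (l : Fin k → V) :
    wt w l = ∏ v, w v ^ (Finset.univ.filter fun t => l t = v).card :=
  (prod_identity k w l).symm

/-- the number of weights of words of length `k` -/
theorem card_wt {V : Type} [Fintype V] (w : V → ℕ) (k : ℕ) :
    (Finset.univ.image fun l : Fin k → V => wt w l).card ≤ (k + 1) ^ Fintype.card V := by
  classical
  have h1 : (Finset.univ.image fun l : Fin k → V => wt w l) ⊆
      (Finset.univ.image fun c : V → Fin (k + 1) => ∏ v, w v ^ (c v : ℕ)) := by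
    intro Ω hΩ
    rw [Finset.mem_image] at hΩ ⊢
    obtain ⟨l, -, rfl⟩ := hΩ
    refine ⟨fun v => ⟨(Finset.univ.filter fun t => l t = v).card, ?_⟩, Finset.mem_univ _, ?_⟩
    · refine Nat.lt_succ_of_le ((Finset.card_le_univ _).trans ?_)
      simp
    · exact (wt_eq w l).symm
  refine (Finset.card_le_card h1).trans (Finset.card_image_le.trans ?_)
  simp

/-- **Weighted reduction.** A bound for the number of variables of the anisotropic systems of
ordinary forms obtained from the powers of a weighted system. -/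
theorem weighted_reduction {J ι : Type} [Fintype J] [Fintype ι] (i : ℕ)
    (f : J → MvPolynomial ι K) (w : ι → ℕ) (d : J → ℕ) (hw : ∀ v, 0 < w v)
    (hf : ∀ j, IsWeightedHomogeneous w (f j) (d j)) (hani : Aniso f)
    (hgood : ∀ (k Ω : ℕ), 0 < Ω → (∃ v : Fin k → ι, wt w v = Ω) →
      ∀ h : {l : Fin k → J // Ω ∣ wt d l} → MvPolynomial {v : Fin k → ι // wt w v = Ω} K,
        (∀ l, (h l).IsHomogeneous (wt d l.1 / Ω)) → Aniso h →
        Fintype.card {v : Fin k → ι // wt w v = Ω} ≤
          ∑ l : {l : Fin k → J // Ω ∣ wt d l}, (wt d l.1 / Ω) ^ i) :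
    ∑ v, w v ^ i ≤ ∑ j, d j ^ i := by
  classical
  refine poly_exp _ _ (Fintype.card ι) fun k => ?_
  obtain ⟨g, hg1, hg2⟩ := wsyspow f w d hf hani k
  have h1 : (∑ v, w v ^ i) ^ k = ∑ l : Fin k → ι, wt w l ^ i := by
    rw [Fintype.sum_pow]
    refine Finset.sum_congr rfl fun l _ => ?_
    rw [wt, Finset.prod_pow]
  have h2 : (∑ j, d j ^ i) ^ k = ∑ l : Fin k → J, wt d l ^ i := by
    rw [Fintype.sum_pow]
    refine Finset.sum_congr rfl fun l _ => ?_
    rw [wt, Finset.prod_pow]
  rw [h1, h2, ← Finset.sum_fiberwise_of_maps_to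
    (t := Finset.univ.image fun l : Fin k → ι => wt w l) (g := fun l => wt w l)
    (fun l _ => Finset.mem_image_of_mem _ (Finset.mem_univ l))]
  have h3 : ∀ Ω ∈ Finset.univ.image fun l : Fin k → ι => wt w l,
      ∑ l ∈ Finset.univ.filter (fun l : Fin k → ι => wt w l = Ω), wt w l ^ i ≤
        ∑ l : Fin k → J, wt d l ^ i := by
    intro Ω hΩ
    rw [Finset.mem_image] at hΩ
    obtain ⟨l0, -, hl0⟩ := hΩ
    have hΩpos : 0 < Ω := by
      rw [← hl0]
      exact Finset.prod_pos fun s _ => hw _
    obtain ⟨h, hh1, hh2⟩ := restrict g (wt w) (wt d) hg1 hg2 Ω hΩpos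
    have h4 := hgood k Ω hΩpos ⟨l0, hl0⟩ h hh1 hh2
    have h5 : ∑ l ∈ Finset.univ.filter (fun l : Fin k → ι => wt w l = Ω), wt w l ^ i =
        Fintype.card {v : Fin k → ι // wt w v = Ω} * Ω ^ i := by
      rw [Finset.sum_congr rfl (g := fun _ => Ω ^ i) fun l hl => by
        rw [(Finset.mem_filter.1 hl).2]]
      rw [Finset.sum_const, smul_eq_mul, Fintype.card_subtype]
    rw [h5]
    refine (Nat.mul_le_mul_right _ h4).trans ?_
    rw [Finset.sum_mul]
    have h6 : ∀ l : {l : Fin k → J // Ω ∣ wt d l}, (wt d l.1 / Ω) ^ i * Ω ^ i = wt d l.1 ^ i := by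
      intro l
      rw [← mul_pow, Nat.div_mul_cancel l.2]
    rw [Finset.sum_congr rfl fun l _ => h6 l]
    rw [← Finset.sum_subtype (Finset.univ.filter fun l : Fin k → J => Ω ∣ wt d l)
      (p := fun l : Fin k → J => Ω ∣ wt d l) (by simp) (fun l => wt d l ^ i)]
    exact Finset.sum_le_sum_of_subset (Finset.filter_subset _ _)
  refine (Finset.sum_le_sum h3).trans ?_
  rw [Finset.sum_const, smul_eq_mul]
  exact Nat.mul_le_mul_right _ (card_wt w k)

end Run7.h94
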