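import Pool.Agent.H19CI.E
import Pool.Agent.Run7.h94.W

/-! Normic degrees with greatest common divisor one. -/

set_option autoImplicit false

open MvPolynomial Pool.Agent.H19CI

namespace Run7.h94

variable {K : Type*} [Field K]

theorem HasForm_sum {J : Type} (s : Finset J) (hs : s.Nonempty) (e : J → ℕ) {m : ℕ}
    (h : ∀ j ∈ s, HasForm K (e j) (Fin m)) : HasForm K (∑ j ∈ s, e j) (Fin m) := by
  classical
  induction hs using Finset.Nonempty.cons_induction with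
  | singleton a => simpa using h a (by simp)
  | cons a s ha hs ih =>
    rw [Finset.sum_cons]
    exact (h a (by simp)).add (ih fun j hj => h j (by simp [hj]))

/-- a sum of large products which is prime to `a` -/
theorem exists_unit_sum {i a : ℕ} (ha : 2 ≤ a) (hA : HasForm K a (Fin (a ^ i)))
    (hN : ∀ p : ℕ, p.Prime → ∃ b, 2 ≤ b ∧ ¬ p ∣ b ∧ HasForm K b (Fin (b ^ i))) :
    ∃ C, 0 < C ∧ ∀ X x : ℕ, ∃ s, Nat.Coprime s a ∧ 0 < s ∧
      HasForm K (a ^ x * s) (Fin ((a ^ X) ^ i)) ∧ (x < X → a ^ x * s ≤ C * a ^ X) := by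
  classical
  choose! b hb1 hb2 hb3 using hN
  set P := a.primeFactors with hP
  have hPne : P.Nonempty := Nat.nonempty_primeFactors.2 (by omega)
  have hPp : ∀ p ∈ P, p.Prime := fun p hp => Nat.prime_of_mem_primeFactors hp
  let u : ℕ → ℕ := fun p => ∏ q ∈ P.erase p, q
  have hu : ∀ p ∈ P, 0 < u p := fun p _ => Finset.prod_pos fun q hq =>
    (hPp q (Finset.mem_of_mem_erase hq)).pos
  refine ⟨∑ p ∈ P, u p * b p, Finset.sum_pos (fun p hp => Nat.mul_pos (hu p hp)
    (by have := hb1 p (hPp p hp); omega)) hPne, fun X x => ?_⟩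
  have hex : ∀ p ∈ P, ∃ y, a ^ X ≤ a ^ x * b p ^ y := by
    intro p hp
    refine ⟨a ^ X, ?_⟩
    calc a ^ X ≤ b p ^ (a ^ X) := (Nat.lt_pow_self (hb1 p (hPp p hp))).le
      _ = 1 * b p ^ (a ^ X) := (one_mul _).symm
      _ ≤ a ^ x * b p ^ (a ^ X) := Nat.mul_le_mul_right _ (Nat.one_le_pow _ _ (by omega))
  let z : ℕ → ℕ := fun p => if h : ∃ y, a ^ X ≤ a ^ x * b p ^ y then Nat.find h else 0
  have hz1 : ∀ p ∈ P, a ^ X ≤ a ^ x * b p ^ z p := by
    intro p hp
    have h := hex p hp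
    have h1 : z p = Nat.find h := dif_pos h
    rw [h1]
    exact Nat.find_spec h
  have hz2 : ∀ p ∈ P, x < X → a ^ x * b p ^ z p ≤ b p * a ^ X := by
    intro p hp hx
    have h := hex p hp
    have h1 : z p = Nat.find h := dif_pos h
    have hypos : 0 < z p := by
      refine Nat.pos_of_ne_zero fun h0 => ?_
      have h2 := hz1 p hp
      rw [h0, pow_zero, mul_one] at h2
      exact absurd h2 (not_le.2 (Nat.pow_lt_pow_right (by omega) hx))
    have h2 : ¬ a ^ X ≤ a ^ x * b p ^ (z p - 1) := Nat.find_min h (by omega)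
    push Not at h2
    have h3 : b p ^ z p = b p ^ (z p - 1) * b p := by rw [← pow_succ]; congr 1; omega
    calc a ^ x * b p ^ z p = (a ^ x * b p ^ (z p - 1)) * b p := by rw [h3, mul_assoc]
      _ ≤ a ^ X * b p := Nat.mul_le_mul_right _ h2.le
      _ = b p * a ^ X := mul_comm _ _
  refine ⟨∑ p ∈ P, u p * b p ^ z p, ?_, ?_, ?_, ?_⟩
  · refine Nat.Coprime.symm (Nat.coprime_of_dvd fun p hp hpa hps => ?_)
    have hpP : p ∈ P := Nat.mem_primeFactors.2 ⟨hp, hpa, by omega⟩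
    rw [← Finset.add_sum_erase _ _ hpP] at hps
    have h1 : p ∣ ∑ q ∈ P.erase p, u q * b q ^ z q := by
      refine Finset.dvd_sum fun q hq => Dvd.dvd.mul_right ?_ _
      refine Finset.dvd_prod_of_mem (fun q => q) ?_
      rw [Finset.mem_erase] at hq ⊢
      exact ⟨hq.1.symm, hpP⟩
    have h2 := (Nat.dvd_add_left h1).1 hps
    rcases (Nat.Prime.dvd_mul hp).1 h2 with h3 | h3
    · obtain ⟨q, hq, hpq⟩ := (Prime.dvd_finsetProd_iff hp.prime _).1 h3
      rw [Finset.mem_erase] at hq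
      exact hq.1 ((Nat.prime_dvd_prime_iff_eq hp (hPp q hq.2)).1 hpq).symm
    · exact hb2 p hp (hp.dvd_of_dvd_pow h3)
  · exact Finset.sum_pos (fun p hp => Nat.mul_pos (hu p hp)
      (Nat.pow_pos (by have := hb1 p (hPp p hp); omega))) hPne
  · rw [Finset.mul_sum]
    refine HasForm_sum P hPne _ fun p hp => ?_
    have h1 : a ^ x * (u p * b p ^ z p) = u p * (a ^ x * b p ^ z p) := by ring
    rw [h1]
    refine HasForm.mul_left ?_ _ (hu p hp)
    refine ((hA.pow x).compFin ((hb3 p (hPp p hp)).pow (z p))).mono ?_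
    have h2 : (a ^ i) ^ x * (b p ^ i) ^ z p = (a ^ x * b p ^ z p) ^ i := by
      rw [mul_pow, ← pow_mul, ← pow_mul, ← pow_mul, ← pow_mul, mul_comm i x, mul_comm i (z p)]
    rw [h2]
    exact Nat.pow_le_pow_left (hz1 p hp) i
  · intro hx
    rw [Finset.mul_sum, Finset.sum_mul]
    refine Finset.sum_le_sum fun p hp => ?_
    calc a ^ x * (u p * b p ^ z p) = u p * (a ^ x * b p ^ z p) := by ring
      _ ≤ u p * (b p * a ^ X) := Nat.mul_le_mul_left _ (hz2 p hp hx)
      _ = u p * b p * a ^ X := by ring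

/-- every large degree is a sum of large products of normic degrees -/
theorem repr' {a i C : ℕ} (ha : 2 ≤ a) (hC : 0 < C) (hA : HasForm K a (Fin (a ^ i))) (X : ℕ)
    (hs : ∀ x, ∃ s, Nat.Coprime s a ∧ 0 < s ∧
      HasForm K (a ^ x * s) (Fin ((a ^ X) ^ i)) ∧ (x < X → a ^ x * s ≤ C * a ^ X)) :
    ∀ s ≤ X, ∀ N, 0 < N → a ^ (X - s) ∣ N → s * (a * C * a ^ X) ≤ N →
      HasForm K N (Fin ((a ^ X) ^ i)) := by
  intro s
  induction s with
  | zero =>
    intro _ N hN hdvd _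
    obtain ⟨v, rfl⟩ := hdvd
    rw [Nat.sub_zero, mul_comm] at *
    have hv : 0 < v := Nat.pos_of_ne_zero fun h => by rw [h, zero_mul] at hN; exact lt_irrefl _ hN
    refine HasForm.mul_left ?_ v hv
    have h1 := hA.pow X
    rwa [← pow_mul, mul_comm i X, pow_mul] at h1
  | succ s ih =>
    intro hsX N hN hdvd hle
    set x := X - (s + 1) with hx
    have hxs : X - s = x + 1 := by omega
    obtain ⟨w, hw1, hw2, hw3, hw4⟩ := hs x
    have hw4 := hw4 (by omega)
    obtain ⟨N1, rfl⟩ := hdvd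
    obtain ⟨v, hv1, hv2⟩ : ∃ v < a, a ∣ (N1 + (a - v) * w) ∧ True := by
      obtain ⟨y, hy⟩ := Nat.exists_mul_mod_eq_one_of_coprime hw1 (by omega)
      refine ⟨(N1 * y) % a, Nat.mod_lt _ (by omega), ?_, trivial⟩
      have hlt : (N1 * y) % a < a := Nat.mod_lt _ (by omega)
      have h3 : ((N1 + (a - (N1 * y) % a) * w : ℕ) : ZMod a) = 0 := by
        have h4 : ((w * y : ℕ) : ZMod a) = 1 := by
          rw [← ZMod.natCast_mod, hy.2, Nat.cast_one]
        rw [Nat.cast_add, Nat.cast_mul, Nat.cast_sub hlt.le, ZMod.natCast_self, ZMod.natCast_mod]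
        push_cast at h4 ⊢
        linear_combination (-(N1 : ZMod a)) * h4
      exact (ZMod.natCast_eq_zero_iff _ _).1 h3
    have hv2 := hv2.1
    have hvle : v * (a ^ x * w) ≤ (a - 1) * (C * a ^ X) :=
      Nat.mul_le_mul (by omega) hw4
    have hbig : s * (a * C * a ^ X) + C * a ^ X + v * (a ^ x * w) ≤ a ^ x * N1 := by
      have h4 : (s + 1) * (a * C * a ^ X) = s * (a * C * a ^ X) + a * (C * a ^ X) := by ring
      have h5 : a * (C * a ^ X) = (a - 1) * (C * a ^ X) + C * a ^ X := by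
        have h6 : (a - 1) + 1 = a := by omega
        calc a * (C * a ^ X) = ((a - 1) + 1) * (C * a ^ X) := by rw [h6]
          _ = _ := by rw [Nat.add_mul, one_mul]
      omega
    have hMpos : 0 < C * a ^ X := Nat.mul_pos hC (Nat.pow_pos (by omega))
    obtain ⟨N2, hN2⟩ : ∃ N2, a ^ x * N1 = N2 + v * (a ^ x * w) :=
      ⟨a ^ x * N1 - v * (a ^ x * w), by omega⟩
    have hN2pos : 0 < N2 := by omega
    have hN2dvd : a ^ (X - s) ∣ N2 := by
      rw [hxs, pow_succ]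
      have h6 : a ^ x * N1 + a ^ x * ((a - v) * w) = N2 + a ^ x * (a * w) := by
        have h7 : a * w = (a - v) * w + v * w := by
          rw [← Nat.add_mul, Nat.sub_add_cancel hv1.le]
        rw [hN2, h7]
        ring
      have h8 : a ^ x * a ∣ N2 + a ^ x * (a * w) := by
        rw [← h6, ← Nat.mul_add]
        exact Nat.mul_dvd_mul_left _ hv2
      have h9 : a ^ x * a ∣ a ^ x * (a * w) := Nat.mul_dvd_mul_left _ (Dvd.intro _ rfl)
      exact (Nat.dvd_add_left h9).1 h8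
    have h10 : HasForm K N2 (Fin ((a ^ X) ^ i)) := ih (by omega) N2 hN2pos hN2dvd (by omega)
    rw [hN2]
    rcases Nat.eq_zero_or_pos v with h | h
    · rw [h, zero_mul, add_zero]; exact h10
    · exact h10.add (hw3.mul_left v h)

/-- the growth of the number of variables of anisotropic forms of degree `e ^ k` -/
theorem growth' {a C i : ℕ} (ha : 2 ≤ a) (hC : 0 < C) (hA : HasForm K a (Fin (a ^ i)))
    (hs : ∀ X x : ℕ, ∃ s, Nat.Coprime s a ∧ 0 < s ∧
      HasForm K (a ^ x * s) (Fin ((a ^ X) ^ i)) ∧ (x < X → a ^ x * s ≤ C * a ^ X))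
    (e : ℕ) (he : 2 ≤ e) (τ : ℝ) (hτ : 1 / 2 ≤ τ) (hτ1 : τ < 1) :
    ∃ k m : ℕ, 0 < k ∧ HasForm K (e ^ k) (Fin m) ∧ ((e * τ) ^ i) ^ k ≤ m := by
  have hτ0 : 0 < τ := by linarith
  have h1 := tendsto_self_mul_const_pow_of_lt_one hτ0.le hτ1
  have hpos : (0 : ℝ) < 1 / ((e : ℝ) * a ^ 2 * C) := by positivity
  obtain ⟨k, hk, hk0⟩ := ((h1.eventually (gt_mem_nhds hpos)).and
    (Filter.eventually_gt_atTop 0)).exists
  have hc1 : (1 : ℝ) ≤ e * τ := by
    have : (2 : ℝ) ≤ e := by exact_mod_cast he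
    nlinarith
  have hck : (1 : ℝ) ≤ (e * τ) ^ k := one_le_pow₀ hc1
  have ha' : (2 : ℝ) ≤ a := by exact_mod_cast ha
  classical
  have hex : ∃ X : ℕ, (e * τ : ℝ) ^ k ≤ (a : ℝ) ^ X := by
    obtain ⟨X, hX⟩ := pow_unbounded_of_one_lt ((e * τ : ℝ) ^ k) (show (1 : ℝ) < a by linarith)
    exact ⟨X, hX.le⟩
  let X := Nat.find hex
  have hX : (e * τ : ℝ) ^ k ≤ (a : ℝ) ^ X := Nat.find_spec hex
  have hek : (0 : ℝ) < (e : ℝ) ^ k := by positivity
  have hXle : (X : ℝ) * (a * C * a ^ X) ≤ (e : ℝ) ^ k := by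
    rcases Nat.eq_zero_or_pos X with h | h
    · rw [h]; simp
    · have h2 : ¬ (e * τ : ℝ) ^ k ≤ (a : ℝ) ^ (X - 1) := Nat.find_min hex (by omega)
      push Not at h2
      have h3 : (a : ℝ) ^ X = a ^ (X - 1) * a := by rw [← pow_succ]; congr 1; omega
      have h4 : (a : ℝ) ^ X ≤ (e * τ) ^ k * a := by
        rw [h3]; exact mul_le_mul_of_nonneg_right h2.le (by positivity)
      have h5 : X ≤ e * k := by
        have h6 : (2 : ℝ) ^ (X - 1) < 2 ^ (e * k) := by
          calc (2 : ℝ) ^ (X - 1) ≤ a ^ (X - 1) := pow_le_pow_left₀ (by norm_num) ha' _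
            _ < (e * τ) ^ k := h2
            _ ≤ (e : ℝ) ^ k := pow_le_pow_left₀ (by positivity) (by nlinarith) _
            _ ≤ (2 ^ e : ℝ) ^ k := pow_le_pow_left₀ (by positivity)
                (by exact_mod_cast (Nat.lt_two_pow_self).le) _
            _ = 2 ^ (e * k) := by rw [pow_mul]
        have h7 := (pow_lt_pow_iff_right₀ (one_lt_two)).1 h6
        omega
      have h8 : (X : ℝ) ≤ e * k := by exact_mod_cast h5
      have h9 : (k : ℝ) * τ ^ k * ((e : ℝ) * a ^ 2 * C) ≤ 1 := by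
        rw [lt_div_iff₀ (by positivity)] at hk
        exact hk.le
      calc (X : ℝ) * (a * C * a ^ X) ≤ (e * k) * (a * C * ((e * τ) ^ k * a)) := by
            apply mul_le_mul h8 _ (by positivity) (by positivity)
            exact mul_le_mul_of_nonneg_left h4 (by positivity)
        _ = (e : ℝ) ^ k * ((k : ℝ) * τ ^ k * ((e : ℝ) * a ^ 2 * C)) := by rw [mul_pow]; ring
        _ ≤ (e : ℝ) ^ k * 1 := mul_le_mul_of_nonneg_left h9 hek.le
        _ = _ := mul_one _
  refine ⟨k, (a ^ X) ^ i, hk0, ?_, ?_⟩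
  · refine repr' ha hC hA X (hs X) X le_rfl (e ^ k) (Nat.pow_pos (by omega)) ?_ ?_
    · rw [Nat.sub_self, pow_zero]; exact one_dvd _
    · exact_mod_cast hXle
  · rw [← pow_mul, mul_comm i k, pow_mul]
    push_cast
    exact pow_le_pow_left₀ (by positivity) hX _

/-- the property `(*)_i` from the growth of the number of variables of anisotropic forms -/
theorem strongly_of {i : ℕ} (hK : IsC K i) (halg : ¬ IsAlgClosed K)
    (hgrow : ∀ e : ℕ, 2 ≤ e → ∀ τ : ℝ, 1 / 2 ≤ τ → τ < 1 →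
      ∃ k m : ℕ, 0 < k ∧ HasForm K (e ^ k) (Fin m) ∧ ((e * τ) ^ i) ^ k ≤ m)
    {J ι : Type} [Fintype J] [Fintype ι]
    (f : J → MvPolynomial ι K) (d : J → ℕ) (hd : ∀ j, 0 < d j)
    (hf : ∀ j, (f j).IsHomogeneous (d j)) (hlt : ∑ j, d j ^ i < Fintype.card ι) :
    ∃ x : ι → K, x ≠ 0 ∧ ∀ j, eval x (f j) = 0 := by
  classical
  set n := Fintype.card ι with hn
  set D := ∏ j, d j with hDdef
  have hD : 0 < D := Finset.prod_pos fun j _ => hd j
  have hdvd : ∀ j, d j ∣ D := fun j => Finset.dvd_prod_of_mem _ (Finset.mem_univ j)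
  set e : J → ℕ := fun j => D / d j with he
  have hed : ∀ j, e j * d j = D := fun j => Nat.div_mul_cancel (hdvd j)
  have hepos : ∀ j, 0 < e j := fun j =>
    Nat.pos_of_ne_zero fun h => hD.ne' (by rw [← hed j, h, zero_mul])
  -- the loss
  set δ : ℝ := 1 / ((n : ℝ) * (i + 1) + 1) with hδ
  have hnpos : (1 : ℝ) ≤ n := by
    have : 1 ≤ n := by omega
    exact_mod_cast this
  have hden : (2 : ℝ) ≤ (n : ℝ) * (i + 1) + 1 := by
    have : (0 : ℝ) ≤ i := Nat.cast_nonneg i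
    nlinarith
  have hδ0 : 0 < δ := by positivity
  have hδ2 : δ ≤ 1 / 2 := one_div_le_one_div_of_le (by norm_num) hden
  set τ : ℝ := 1 - δ with hτ
  have hτ1 : τ < 1 := by linarith
  have hτ2 : 1 / 2 ≤ τ := by linarith
  have hτ0 : 0 < τ := by linarith
  have hbern : 1 - (i : ℝ) * δ ≤ τ ^ i := by
    have := one_add_mul_le_pow (show (-2 : ℝ) ≤ -δ by linarith) i
    have h2 : (1 : ℝ) + -δ = τ := by rw [hτ]; ring
    rw [h2] at this
    linarith
  have hs : ((∑ j, d j ^ i : ℕ) : ℝ) < n * τ ^ i := by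
    have h1 : ((∑ j, d j ^ i : ℕ) : ℝ) ≤ n - 1 := by
      have : (∑ j, d j ^ i) + 1 ≤ n := hlt
      have h2 : (((∑ j, d j ^ i) + 1 : ℕ) : ℝ) ≤ n := by exact_mod_cast this
      push_cast at h2 ⊢
      linarith
    have h2 : (n : ℝ) * (i * δ) < 1 := by
      rw [hδ]
      rw [mul_one_div, ← mul_div_assoc, div_lt_one (by positivity)]
      nlinarith
    have h3 : (n : ℝ) * (1 - i * δ) ≤ n * τ ^ i := mul_le_mul_of_nonneg_left hbern (by linarith)
    linarith
  have hgr : ∀ j, ∃ k m : ℕ, ∃ γ : ℝ, 0 < k ∧ 1 ≤ γ ∧ HasForm K (e j ^ k) (Fin m) ∧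
      γ ^ k ≤ m ∧ (e j * τ) ^ i ≤ γ := by
    intro j
    rcases Nat.lt_or_ge (e j) 2 with h | h
    · have h1 : e j = 1 := by have := hepos j; omega
      refine ⟨1, 1, 1, one_pos, le_rfl, ?_, by simp, ?_⟩
      · rw [h1, one_pow]; exact HasForm.one one_pos
      · rw [h1, Nat.cast_one, one_mul]; exact pow_le_one₀ hτ0.le hτ1.le
    · obtain ⟨k, m, hk, hm, hle⟩ := hgrow (e j) h τ hτ2 hτ1
      refine ⟨k, m, (e j * τ) ^ i, hk, ?_, hm, hle, le_rfl⟩
      refine one_le_pow₀ ?_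
      have : (2 : ℝ) ≤ e j := by exact_mod_cast h
      nlinarith
  choose k m γ hk hγ hN hle hγe using hgr
  refine system_growth hK halg f d hf D hD e k m hed hk γ hγ hN hle ?_
  have h1 : ∀ j, (D : ℝ) ^ i / γ j ≤ (d j : ℝ) ^ i / τ ^ i := by
    intro j
    have h2 : (0 : ℝ) < e j := by exact_mod_cast hepos j
    have h3 : (D : ℝ) = e j * d j := by exact_mod_cast (hed j).symm
    have h4 : (0 : ℝ) < (e j * τ) ^ i := by positivity
    calc (D : ℝ) ^ i / γ j ≤ (D : ℝ) ^ i / (e j * τ) ^ i :=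
          div_le_div_of_nonneg_left (by positivity) h4 (hγe j)
      _ = (d j : ℝ) ^ i / τ ^ i := by
          rw [h3, mul_pow, mul_pow]
          field_simp
  refine (Finset.sum_le_sum fun j _ => h1 j).trans_lt ?_
  rw [← Finset.sum_div, div_lt_iff₀ (by positivity)]
  push_cast at hs
  exact hs

/-- **Normic degrees with greatest common divisor one make a `C_i` field strongly `C_i`**
(homogeneous version). -/
theorem strongly_gcd {i : ℕ} (hK : IsC K i) (halg : ¬ IsAlgClosed K)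
    (hN : ∀ p : ℕ, p.Prime → ∃ b, 2 ≤ b ∧ ¬ p ∣ b ∧ HasForm K b (Fin (b ^ i)))
    {J ι : Type} [Fintype J] [Fintype ι]
    (f : J → MvPolynomial ι K) (d : J → ℕ) (hd : ∀ j, 0 < d j)
    (hf : ∀ j, (f j).IsHomogeneous (d j)) (hlt : ∑ j, d j ^ i < Fintype.card ι) :
    ∃ x : ι → K, x ≠ 0 ∧ ∀ j, eval x (f j) = 0 := by
  obtain ⟨a, ha, -, hA⟩ := hN 2 Nat.prime_two
  obtain ⟨C, hC, hs⟩ := exists_unit_sum ha hA hN
  exact strongly_of hK halg (growth' ha hC hA hs) f d hd hf hlt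

/-- weighted version of a bound for all anisotropic systems -/
theorem weighted_all {i : ℕ}
    (hall : ∀ (J ι : Type) [Fintype J] [Fintype ι] (f : J → MvPolynomial ι K) (d : J → ℕ),
      (∀ j, 0 < d j) → (∀ j, (f j).IsHomogeneous (d j)) → Aniso f →
      Fintype.card ι ≤ ∑ j, d j ^ i)
    {J ι : Type} [Fintype J] [Fintype ι]
    (f : J → MvPolynomial ι K) (w : ι → ℕ) (d : J → ℕ) (hw : ∀ v, 0 < w v) (hd : ∀ j, 0 < d j)
    (hf : ∀ j, IsWeightedHomogeneous w (f j) (d j)) (hani : Aniso f) :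
    ∑ v, w v ^ i ≤ ∑ j, d j ^ i := by
  classical
  refine weighted_reduction i f w d hw hf hani fun k Ω hΩ _ h hh1 hh2 => ?_
  exact hall _ _ h (fun l => wt d l.1 / Ω) (fun l => Nat.div_pos (Nat.le_of_dvd
    (Finset.prod_pos fun s _ => hd _) l.2) hΩ) hh1 hh2

theorem weighted_gcd {i : ℕ} (hK : IsC K i) (halg : ¬ IsAlgClosed K)
    (hN : ∀ p : ℕ, p.Prime → ∃ b, 2 ≤ b ∧ ¬ p ∣ b ∧ HasForm K b (Fin (b ^ i)))
    {J ι : Type} [Fintype J] [Fintype ι]
    (f : J → MvPolynomial ι K) (w : ι → ℕ) (d : J → ℕ) (hw : ∀ v, 0 < w v) (hd : ∀ j, 0 < d j)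
    (hf : ∀ j, IsWeightedHomogeneous w (f j) (d j)) (hlt : ∑ j, d j ^ i < ∑ v, w v ^ i) :
    ∃ x : ι → K, x ≠ 0 ∧ ∀ j, eval x (f j) = 0 := by
  classical
  by_contra hcon
  push Not at hcon
  have hani : Aniso f := by
    intro x hx
    by_contra h
    obtain ⟨t, ht⟩ := hcon x h
    exact ht (hx t)
  refine absurd (weighted_all (i := i) (fun J ι _ _ f d hd hf hani => ?_) f w d hw hd hf hani)
    (not_le.2 hlt)
  by_contra hlt
  push Not at hlt
  obtain ⟨x, hx0, hx⟩ := strongly_gcd hK halg hN f d hd hf hlt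
  exact hx0 (hani x hx)

end Run7.h94
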