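import Pool.Agent.Run7.h94.Semi

/-! The exponent of a `C_i` field with a normic form of order `i` and any degree `ν`, along the
degrees prime to `ν`. -/

set_option autoImplicit false

open MvPolynomial Pool.Agent.H19CI Real

namespace Run7.h94

variable {K : Type*} [Field K] {i ν : ℕ}

/-- all large degrees -/
theorem PP.amplify' (hi : 0 < i) (hK : IsC K i) (hν : 2 ≤ ν) (hnorm : HasForm K ν (Fin (ν ^ i)))
    {m : ℕ} (hm : 0 < m) (hcop : Nat.Coprime m ν) {x : ℝ} (hx : 1 ≤ x) (h : PP K i ν m x)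
    (k Z : ℕ) (hZ0 : 0 < Z) (hZ : k * (ν * m) ^ (k + 1) ≤ Z) : PP K i ν Z (x ^ k) := by
  classical
  have hνpos : 0 < ν := by omega
  obtain ⟨a, N, h1, h2⟩ := h
  have hν1 : 1 < ν ^ i := Nat.one_lt_pow hi.ne' (by omega)
  have hex : ∃ τ, N ≤ (ν ^ i) ^ τ := ⟨N, (Nat.lt_pow_self hν1).le⟩
  set τ := Nat.find hex with hτ
  have hτ1 : N ≤ (ν ^ i) ^ τ := Nat.find_spec hex
  have hNa : (ν ^ i) ^ a ≤ N := by
    have h3 : (((ν ^ i) ^ a : ℕ) : ℝ) ≤ N := by
      push_cast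
      refine le_trans ?_ h2
      have : (0 : ℝ) ≤ ((ν : ℝ) ^ i) ^ a := by positivity
      nlinarith
    exact_mod_cast h3
  have haτ : a ≤ τ := by
    by_contra hlt
    push Not at hlt
    have h3 : (ν ^ i) ^ τ < (ν ^ i) ^ a := Nat.pow_lt_pow_right hν1 hlt
    omega
  set c := ν ^ (τ - a) with hc
  have hcpos : 0 < c := Nat.pow_pos hνpos
  have hcle : c ≤ ν * m := by
    rcases Nat.eq_zero_or_pos τ with h0 | h0
    · have : c = 1 := by rw [hc, h0]; simp
      rw [this]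
      exact Nat.mul_pos hνpos hm
    · have h3 : ¬ N ≤ (ν ^ i) ^ (τ - 1) := Nat.find_min hex (by omega)
      push Not at h3
      have h4 : N ≤ (m * ν ^ a) ^ i := by
        have := h1.card_le hK (Nat.mul_pos hm (Nat.pow_pos hνpos))
        rwa [Fintype.card_fin] at this
      have h5 : (ν ^ (τ - 1)) ^ i < (m * ν ^ a) ^ i := by
        rw [← pow_mul, mul_comm, pow_mul]
        exact h3.trans_le h4
      have h6 : ν ^ (τ - 1) < m * ν ^ a := lt_of_pow_lt_pow_left₀ i (Nat.zero_le _) h5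
      have h7 : c * ν ^ a = ν * ν ^ (τ - 1) := by
        rw [hc, ← pow_add, ← pow_succ']; congr 1; omega
      have h8 : c * ν ^ a ≤ (ν * m) * ν ^ a := by
        rw [h7, mul_assoc]
        exact Nat.mul_le_mul_left _ h6.le
      exact Nat.le_of_mul_le_mul_right h8 (Nat.pow_pos hνpos)
  have hcop' : Nat.Coprime m c := by
    rw [hc]
    exact Nat.Coprime.pow_right _ hcop
  have hB : HasForm K (ν ^ a * c) (Fin ((ν ^ i) ^ τ)) := by
    have h3 : ν ^ a * c = ν ^ τ := by rw [hc, ← pow_add]; congr 1; omega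
    rw [h3]
    exact hnorm.pow τ
  have hD : HasForm K (ν ^ a * m) (Fin N) := by rwa [mul_comm] at h1
  have h3 := repr2 hm hcpos hcop' hD hB hτ1 k (ν * m) (Nat.le_mul_of_pos_left m hνpos) hcle k
    le_rfl Z hZ0 (by rw [Nat.sub_self, pow_zero]; exact one_dvd _) (by
      refine le_trans ?_ hZ
      rw [pow_succ, mul_comm ((ν * m) ^ k)]
      exact Nat.mul_le_mul_left _ (Nat.mul_le_mul_right _ hcle))
  refine ⟨a * k, N ^ k, ?_, ?_⟩
  · rwa [← pow_mul, mul_comm] at h3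
  · have h4 := pow_le_pow_left₀ (by positivity) h2 k
    rw [mul_pow, ← pow_mul ((ν : ℝ) ^ i)] at h4
    exact_mod_cast h4

/-- the exponents of the anisotropic forms -/
def ExpSet' (K : Type*) [Field K] (i ν : ℕ) : Set ℝ :=
  {y : ℝ | ∃ (m : ℕ) (x : ℝ), 2 ≤ m ∧ Nat.Coprime m ν ∧ 1 ≤ x ∧ PP K i ν m x ∧ y = log x / log m}

theorem expSet_le' (hK : IsC K i) (hν : 2 ≤ ν) : ∀ y ∈ ExpSet' K i ν, y ≤ i := by
  rintro _ ⟨m, x, hm, hcop, hx, h, rfl⟩
  have hm' : (1 : ℝ) < m := by exact_mod_cast (by omega : 1 < m)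
  have h1 := h.le hK (by omega) (by omega)
  rw [div_le_iff₀ (log_pos hm')]
  calc log x ≤ log ((m : ℝ) ^ i) := log_le_log (by linarith) h1
    _ = i * log m := log_pow _ _

theorem expSet_nonempty' (hν : 2 ≤ ν) : (0 : ℝ) ∈ ExpSet' K i ν := by
  refine ⟨ν + 1, 1, by omega, ?_, le_rfl, PP.one (by omega), by simp⟩
  simp

/-- the exponent -/
noncomputable def expo' (K : Type*) [Field K] (i ν : ℕ) : ℝ := sSup (ExpSet' K i ν)

theorem expo_nonneg' (hK : IsC K i) (hν : 2 ≤ ν) : 0 ≤ expo' K i ν :=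
  le_csSup ⟨i, fun y hy => expSet_le' hK hν y hy⟩ (expSet_nonempty' hν)

theorem expo_le' (hK : IsC K i) (hν : 2 ≤ ν) : expo' K i ν ≤ i :=
  csSup_le ⟨0, expSet_nonempty' hν⟩ fun y hy => expSet_le' hK hν y hy

theorem upper' (hK : IsC K i) (hν : 2 ≤ ν) {m : ℕ} (hm : 2 ≤ m) (hcop : Nat.Coprime m ν) {x : ℝ}
    (h : PP K i ν m x) : x ≤ (m : ℝ) ^ expo' K i ν := by
  have hm' : (1 : ℝ) < m := by exact_mod_cast (by omega : 1 < m)
  rcases lt_or_ge x 1 with hx | hx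
  · exact hx.le.trans (one_le_rpow hm'.le (expo_nonneg' hK hν))
  · have h1 : log x / log m ≤ expo' K i ν :=
      le_csSup ⟨i, fun y hy => expSet_le' hK hν y hy⟩ ⟨m, x, hm, hcop, hx, h, rfl⟩
    rw [div_le_iff₀ (log_pos hm')] at h1
    rw [← log_le_log_iff (by linarith) (rpow_pos_of_pos (by linarith) _), log_rpow (by linarith)]
    exact h1

theorem lower' (hi : 0 < i) (hK : IsC K i) (hν : 2 ≤ ν) (hnorm : HasForm K ν (Fin (ν ^ i)))
    (δ : ℝ) (hδ : 0 < δ) : ∃ R : ℕ, ∀ Z : ℕ, R ≤ Z → 0 < Z →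
      PP K i ν Z ((Z : ℝ) ^ (expo' K i ν - δ)) := by
  rcases le_or_gt (expo' K i ν - δ) 0 with h0 | h0
  · refine ⟨0, fun Z _ hZ => (PP.one hZ).mono ?_⟩
    exact rpow_le_one_of_one_le_of_nonpos (by exact_mod_cast hZ) h0
  -- a good form
  obtain ⟨_, ⟨m, x, hm, hcop, hx, h, rfl⟩, hy⟩ := exists_lt_of_lt_csSup
    ⟨0, expSet_nonempty' (K := K) (i := i) hν⟩
    (show expo' K i ν - δ / 2 < sSup (ExpSet' K i ν) by
      show expo' K i ν - δ / 2 < expo' K i ν; linarith)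
  have hm' : (1 : ℝ) < m := by exact_mod_cast (by omega : 1 < m)
  set μ := log (m : ℝ) with hμ
  have hμ0 : 0 < μ := log_pos hm'
  rw [lt_div_iff₀ hμ0] at hy
  have hν1 : (1 : ℝ) < ν := by exact_mod_cast (by omega : 1 < ν)
  set lam := log (ν : ℝ) with hlam
  have hlam0 : 0 < lam := log_pos hν1
  set θ := expo' K i ν with hθ
  have hθi : θ ≤ i := expo_le' hK hν
  have hi0 : (0 : ℝ) < i := by exact_mod_cast hi
  -- the power
  obtain ⟨t, ht⟩ := exists_nat_ge (i * (lam + 1) / (δ / 4 * μ) + 1)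
  have ht1 : (1 : ℝ) ≤ t := by
    have : 0 ≤ i * (lam + 1) / (δ / 4 * μ) := by positivity
    linarith
  have ht2 : i * (lam + 1) ≤ δ / 4 * μ * t := by
    have h1 : i * (lam + 1) / (δ / 4 * μ) ≤ t := by linarith
    rw [div_le_iff₀ (by positivity)] at h1
    linarith
  obtain ⟨k0, hk0⟩ := exists_nat_ge (i * (2 * t * μ + 2 * lam) / (δ / 4 * t * μ))
  have hk0' : i * (2 * t * μ + 2 * lam) ≤ δ / 4 * t * μ * k0 := by
    rw [div_le_iff₀ (by positivity)] at hk0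
    linarith
  set b := ν * m ^ t with hb
  have hb2 : 2 ≤ b := by
    have : 1 ≤ m ^ t := Nat.one_le_pow _ _ (by omega)
    calc 2 ≤ ν := hν
      _ = ν * 1 := (mul_one _).symm
      _ ≤ b := Nat.mul_le_mul_left _ this
  refine ⟨(k0 + 1) * b ^ (k0 + 2), fun Z hZR hZ0 => ?_⟩
  -- the number of factors
  have hex : ∃ k, Z < (k + 1) * b ^ (k + 2) := by
    refine ⟨Z, ?_⟩
    calc Z < b ^ Z := Nat.lt_pow_self hb2
      _ ≤ b ^ (Z + 2) := Nat.pow_le_pow_right (by omega) (by omega)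
      _ ≤ (Z + 1) * b ^ (Z + 2) := Nat.le_mul_of_pos_left _ (by omega)
  classical
  set k := Nat.find hex with hk
  have hk1 : Z < (k + 1) * b ^ (k + 2) := Nat.find_spec hex
  have hk2 : k * b ^ (k + 1) ≤ Z := by
    rcases Nat.eq_zero_or_pos k with h1 | h1
    · rw [h1]; simp
    · have h2 : ¬ Z < (k - 1 + 1) * b ^ (k - 1 + 2) := Nat.find_min hex (by omega)
      push Not at h2
      have h3 : k - 1 + 1 = k := by omega
      have h4 : k - 1 + 2 = k + 1 := by omega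
      rwa [h3, h4] at h2
  have hkk0 : k0 ≤ k := by
    by_contra hlt
    push Not at hlt
    have h1 : (k + 1) * b ^ (k + 2) ≤ (k0 + 1) * b ^ (k0 + 2) :=
      Nat.mul_le_mul (by omega) (Nat.pow_le_pow_right (by omega) (by omega))
    omega
  have hxt : PP K i ν (m ^ t) (x ^ t) := h.pow (by linarith) t
  have hcopt : Nat.Coprime (m ^ t) ν := Nat.Coprime.pow_left _ hcop
  have hmain := PP.amplify' hi hK hν hnorm (Nat.pow_pos (n := t) (by omega : 0 < m)) hcopt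
    (one_le_pow₀ hx) hxt k Z hZ0 (by rw [← hb]; exact hk2)
  refine hmain.mono ?_
  -- comparison
  have hZr : (0 : ℝ) < Z := by exact_mod_cast hZ0
  have hxpos : 0 < x := by linarith
  rw [← log_le_log_iff (rpow_pos_of_pos hZr _) (by positivity), log_rpow hZr, log_pow, log_pow]
  have hlogZ : log (Z : ℝ) ≤ k + (k + 2) * (lam + t * μ) := by
    have h1 : (Z : ℝ) ≤ ((k : ℝ) + 1) * ((ν : ℝ) * (m : ℝ) ^ t) ^ (k + 2) := by
      have h2 : Z ≤ (k + 1) * b ^ (k + 2) := hk1.le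
      rw [hb] at h2
      exact_mod_cast h2
    have hm0 : (0 : ℝ) < m := by linarith
    have hν0 : (0 : ℝ) < ν := by linarith
    have h2 : log (Z : ℝ) ≤ log (((k : ℝ) + 1) * ((ν : ℝ) * (m : ℝ) ^ t) ^ (k + 2)) :=
      log_le_log hZr h1
    rw [log_mul (by positivity) (by positivity), log_pow, log_mul (by positivity) (by positivity),
      log_pow] at h2
    have h3 : log ((k : ℝ) + 1) ≤ k := by
      have := log_le_sub_one_of_pos (show (0 : ℝ) < (k : ℝ) + 1 by positivity)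
      linarith
    push_cast at h2
    rw [← hμ, ← hlam] at h2
    linarith
  have hkr : (k0 : ℝ) ≤ k := by exact_mod_cast hkk0
  have hk00 : (0 : ℝ) ≤ k := by positivity
  have h1 : (θ - δ) * log (Z : ℝ) ≤ (θ - δ) * (k + (k + 2) * (lam + t * μ)) :=
    mul_le_mul_of_nonneg_left hlogZ h0.le
  have hxlog : (θ - δ / 2) * μ ≤ log x := hy.le
  have h2 : (k : ℝ) * (t * ((θ - δ / 2) * μ)) ≤ k * (t * log x) := by
    apply mul_le_mul_of_nonneg_left _ hk00
    exact mul_le_mul_of_nonneg_left hxlog (by linarith)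
  refine h1.trans (le_trans ?_ h2)
  have h3 : (θ - δ) * (k + (k + 2) * lam + 2 * (t * μ)) ≤ i * (k + (k + 2) * lam + 2 * (t * μ)) := by
    apply mul_le_mul_of_nonneg_right (by linarith)
    positivity
  have h4 : (k : ℝ) * (i * (lam + 1)) ≤ k * (δ / 4 * μ * t) := mul_le_mul_of_nonneg_left ht2 hk00
  have h5 : i * (2 * t * μ + 2 * lam) ≤ δ / 4 * t * μ * k := by
    refine hk0'.trans ?_
    exact mul_le_mul_of_nonneg_left hkr (by positivity)
  nlinarith

/-- systems of forms of the same degree `m * ν ^ a` -/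
theorem same_expo' (hi : 0 < i) (hK : IsC K i) (hν : 2 ≤ ν) (hnorm : HasForm K ν (Fin (ν ^ i)))
    {m : ℕ} (hm : 2 ≤ m) (hcop : Nat.Coprime m ν) (a : ℕ) (V T : Type) [Fintype V] [Fintype T]
    (g : T → MvPolynomial V K) (hg : ∀ t, (g t).IsHomogeneous (m * ν ^ a)) (hani : Aniso g) :
    (Fintype.card V : ℝ) ≤ Fintype.card T *
      ((m : ℝ) ^ expo' K i ν * ((ν : ℝ) ^ i) ^ a) := by
  have hνpos : 0 < ν := by omega
  have hν0 : (0 : ℝ) < ν := by exact_mod_cast hνpos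
  have hm0 : (0 : ℝ) < m := by exact_mod_cast (by omega : 0 < m)
  have h1 := same_eff hi hK (q := m) (by omega) hν hnorm 1 a V T g
    (by rw [pow_one]; exact hg) hani
  refine h1.trans (mul_le_mul_of_nonneg_left ?_ (by positivity))
  have h2 : Eff K i m ν 1 ≤ (m : ℝ) ^ expo' K i ν / (m : ℝ) ^ i := by
    refine csSup_le (eff_nonempty (by omega) hνpos 1) ?_
    rintro _ ⟨b, N, h, rfl⟩
    rw [pow_one] at h
    have h3 : PP K i ν m ((N : ℝ) / ((ν : ℝ) ^ i) ^ b) :=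
      ⟨b, N, h, le_of_eq (div_mul_cancel₀ _ (by positivity))⟩
    have h4 := upper' hK hν hm hcop h3
    rw [div_le_iff₀ (by positivity)] at h4
    rw [div_le_div_iff₀ (by positivity) (by positivity)]
    have h5 : ((m : ℝ) ^ 1 * (ν : ℝ) ^ b) ^ i = (m : ℝ) ^ i * ((ν : ℝ) ^ i) ^ b := by
      rw [mul_pow, pow_one, ← pow_mul, ← pow_mul, mul_comm b i]
    rw [h5]
    nlinarith [show (0 : ℝ) < (m : ℝ) ^ i by positivity]
  have h5 : ((m : ℝ) ^ 1 * (ν : ℝ) ^ a) ^ i = (m : ℝ) ^ i * ((ν : ℝ) ^ i) ^ a := by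
    rw [mul_pow, pow_one, ← pow_mul, ← pow_mul, mul_comm a i]
  rw [h5]
  calc Eff K i m ν 1 * ((m : ℝ) ^ i * ((ν : ℝ) ^ i) ^ a)
      ≤ (m : ℝ) ^ expo' K i ν / (m : ℝ) ^ i * ((m : ℝ) ^ i * ((ν : ℝ) ^ i) ^ a) :=
        mul_le_mul_of_nonneg_right h2 (by positivity)
    _ = (m : ℝ) ^ expo' K i ν * ((ν : ℝ) ^ i) ^ a := by
        rw [← mul_assoc, div_mul_cancel₀ _ (by positivity)]

end Run7.h94
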