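import Pool.Agent.Run7.h94.Semi
import Pool.Agent.Run7.h94.H2

/-! Two normic forms of multiplicatively independent degrees make a `C_i` field strongly `C_i`. -/

set_option autoImplicit false

open MvPolynomial Pool.Agent.H19CI Real

namespace Run7.h94

/-- two multiplicatively independent numbers have powers whose quotient is close to one -/
theorem exists_close {a b : ℕ} (ha : 2 ≤ a) (hb : 2 ≤ b) (ε : ℝ) (hε : 0 < ε) :
    ∃ p q : ℕ, 0 < p ∧ 0 < q ∧ |(p : ℝ) * log a - q * log b| < ε := by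
  have ha' : (1 : ℝ) < a := by exact_mod_cast ha
  have hb' : (1 : ℝ) < b := by exact_mod_cast hb
  have hla : 0 < log (a : ℝ) := log_pos ha'
  have hlb : 0 < log (b : ℝ) := log_pos hb'
  -- Dirichlet
  obtain ⟨n, hn⟩ := exists_nat_gt (log (b : ℝ) / ε + log b / log a + 1)
  have hn0 : 0 < n := by
    have h1 : (0 : ℝ) < n := by
      have : 0 < log (b : ℝ) / ε := by positivity
      have : 0 < log (b : ℝ) / log a := by positivity
      linarith
    exact_mod_cast h1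
  obtain ⟨k, hk0, hkn, hk⟩ := Real.exists_nat_abs_mul_sub_round_le (log (a : ℝ) / log b) hn0
  set q := round ((k : ℝ) * (log (a : ℝ) / log b)) with hq
  have hnr : (0 : ℝ) < n := by exact_mod_cast hn0
  have h1 : |(k : ℝ) * (log (a : ℝ) / log b) - q| < ε / log b := by
    refine hk.trans_lt ?_
    rw [div_lt_div_iff₀ (by positivity) hlb, one_mul]
    have h2 : log (b : ℝ) / ε < n + 1 := by
      have : 0 < log (b : ℝ) / log a := by positivity
      linarith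
    rw [div_lt_iff₀ hε] at h2
    linarith
  have hqpos : 0 < q := by
    by_contra hle
    push Not at hle
    have h3 : (q : ℝ) ≤ 0 := by exact_mod_cast hle
    have h4 : (k : ℝ) * (log (a : ℝ) / log b) ≤ 1 / (n + 1) := by
      have h5 := (abs_le.1 hk).2
      linarith
    have h5 : (1 : ℝ) ≤ k := by exact_mod_cast hk0
    have h6 : log (a : ℝ) / log b ≤ 1 / (n + 1) := by
      refine le_trans ?_ h4
      have : 0 < log (a : ℝ) / log b := by positivity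
      nlinarith
    rw [div_le_div_iff₀ hlb (by positivity)] at h6
    have h7 : log (b : ℝ) / log a < n := by
      have : 0 < log (b : ℝ) / ε := by positivity
      linarith
    rw [div_lt_iff₀ hla] at h7
    nlinarith
  refine ⟨k, q.toNat, hk0, by omega, ?_⟩
  have h8 : ((q.toNat : ℕ) : ℝ) = (q : ℝ) := by
    have : ((q.toNat : ℕ) : ℤ) = q := Int.toNat_of_nonneg hqpos.le
    exact_mod_cast congrArg (fun z : ℤ => (z : ℝ)) this
  rw [h8]
  have h9 : (k : ℝ) * log a - q * log b = ((k : ℝ) * (log (a : ℝ) / log b) - q) * log b := by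
    field_simp
  rw [h9, abs_mul, abs_of_pos hlb]
  rwa [lt_div_iff₀ hlb] at h1

variable {K : Type*} [Field K]

/-- the estimate with a small loss -/
theorem pair_key {i : ℕ} (hK : IsC K i) {g u₁ u₂ : ℕ} (hg : 0 < g) (hu₁ : 2 ≤ u₁) (hu : u₁ ≤ u₂)
    (hcop : Nat.Coprime u₁ u₂) (h₁ : HasForm K (g * u₁) (Fin ((g * u₁) ^ i)))
    (h₂ : HasForm K (g * u₂) (Fin ((g * u₂) ^ i)))
    {J ι : Type} [Fintype J] [Fintype ι] (f : J → MvPolynomial ι K) (d : J → ℕ)
    (hd : ∀ j, 0 < d j) (hf : ∀ j, (f j).IsHomogeneous (d j)) (hani : Aniso f) (k : ℕ)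
    (hk : 0 < k) :
    ((Fintype.card ι : ℝ)) ^ k ≤
      ((k * ∏ j, d j : ℕ) * (g * u₂ ^ 2 : ℕ) * ((u₂ : ℝ) / u₁) ^ (k * ∏ j, d j)) ^ i *
        (∑ j, (d j : ℝ) ^ i) ^ k := by
  classical
  set Q := ∏ j, d j with hQ
  have hQpos : 0 < Q := Finset.prod_pos fun j _ => hd j
  have hdQ : ∀ j, d j ∣ Q := fun j => Finset.dvd_prod_of_mem d (Finset.mem_univ j)
  obtain ⟨F, hF1, hF2⟩ := syspow f d hf hani k
  set D : (Fin k → J) → ℕ := fun l => ∏ t, d (l t) with hDdef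
  have hDpos : ∀ l, 0 < D l := fun l => Finset.prod_pos fun t _ => hd _
  have hDdvd : ∀ l, D l ∣ Q ^ k := by
    intro l
    have h1 : Q ^ k = ∏ _t : Fin k, Q := by simp
    rw [h1]
    exact Finset.prod_dvd_prod_of_dvd _ _ fun t _ => hdQ _
  set A₀ := k * Q with hA₀
  have hA₀pos : 0 < A₀ := Nat.mul_pos hk hQpos
  have hQu : Q ^ k ≤ u₁ ^ A₀ := by
    rw [hA₀, mul_comm k Q, pow_mul]
    refine Nat.pow_le_pow_left ?_ k
    have h1 : Q < u₁ ^ Q := Nat.lt_pow_self (by omega)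
    exact h1.le
  set W := g ^ A₀ * Q ^ k with hW
  have hWpos : 0 < W := Nat.mul_pos (Nat.pow_pos hg) (Nat.pow_pos hQpos)
  set E : (Fin k → J) → ℕ := fun l => g ^ A₀ * (Q ^ k / D l) with hE
  have hED : ∀ l, E l * D l = W := by
    intro l
    rw [hE, hW]
    show g ^ A₀ * (Q ^ k / D l) * D l = g ^ A₀ * Q ^ k
    rw [mul_assoc, Nat.div_mul_cancel (hDdvd l)]
  have hEpos : ∀ l, 0 < E l := fun l =>
    Nat.pos_of_ne_zero fun h => hWpos.ne' (by rw [← hED l, h, zero_mul])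
  -- the number of factors
  have hA : ∀ l, ∃ A : ℕ, A ≤ A₀ ∧ A * (u₂ ^ (A + 1) * g ^ A) ≤ E l ∧
      E l ≤ A₀ * (g * u₂ ^ 2) * (g * u₂) ^ A ∧ (A < A₀ ∨ E l ≤ (g * u₁) ^ A) := by
    intro l
    let P : ℕ → Prop := fun A => A * (u₂ ^ (A + 1) * g ^ A) ≤ E l
    have hP0 : P 0 := by show 0 * _ ≤ _; rw [zero_mul]; exact Nat.zero_le _
    have hEle : E l ≤ (g * u₁) ^ A₀ := by
      rw [mul_pow]
      refine Nat.mul_le_mul_left _ ((Nat.div_le_self _ _).trans hQu)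
    by_cases hPA : P A₀
    · refine ⟨A₀, le_rfl, hPA, ?_, Or.inr hEle⟩
      calc E l ≤ (g * u₁) ^ A₀ := hEle
        _ ≤ (g * u₂) ^ A₀ := Nat.pow_le_pow_left (Nat.mul_le_mul_left _ hu) _
        _ = 1 * (g * u₂) ^ A₀ := (one_mul _).symm
        _ ≤ A₀ * (g * u₂ ^ 2) * (g * u₂) ^ A₀ := by
            refine Nat.mul_le_mul_right _ ?_
            exact Nat.mul_pos hA₀pos (Nat.mul_pos hg (Nat.pow_pos (by omega)))
    · -- the last good number
      have hex : ∃ A, ¬ P (A + 1) := ⟨A₀ - 1, by rwa [Nat.sub_add_cancel hA₀pos]⟩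
      set A := Nat.find hex with hAdef
      have hA1 : ¬ P (A + 1) := Nat.find_spec hex
      have hA2 : A + 1 ≤ A₀ := by
        have h1 : A ≤ A₀ - 1 := Nat.find_min' hex (by rwa [Nat.sub_add_cancel hA₀pos])
        omega
      have hA3 : P A := by
        rcases Nat.eq_zero_or_pos A with h0 | h0
        · rw [h0]; exact hP0
        · have h1 := Nat.find_min hex (m := A - 1) (by omega)
          push Not at h1
          rwa [Nat.sub_add_cancel h0] at h1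
      refine ⟨A, by omega, hA3, ?_, Or.inl (by omega)⟩
      have h1 : E l < (A + 1) * (u₂ ^ (A + 1 + 1) * g ^ (A + 1)) := by
        by_contra h
        exact hA1 (not_lt.1 h)
      refine h1.le.trans ?_
      calc (A + 1) * (u₂ ^ (A + 1 + 1) * g ^ (A + 1))
          ≤ A₀ * (u₂ ^ (A + 1 + 1) * g ^ (A + 1)) := Nat.mul_le_mul_right _ hA2
        _ = A₀ * (g * u₂ ^ 2) * (g * u₂) ^ A := by rw [mul_pow]; ring
  choose A hA1 hA2 hA3 hA4 using hA
  -- the forms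
  have hform : ∀ l, HasForm K (E l) (Fin (((g * u₁) ^ i) ^ A l)) := by
    intro l
    have hdvd : g ^ A l ∣ g ^ A₀ := pow_dvd_pow g (hA1 l)
    obtain ⟨c, hc⟩ := hdvd
    have hcpos : 0 < c := Nat.pos_of_ne_zero fun h => by
      rw [h, mul_zero] at hc
      exact (Nat.pow_pos (n := A₀) hg).ne' hc
    have hZ : E l = g ^ A l * (c * (Q ^ k / D l)) := by
      rw [hE]
      show g ^ A₀ * (Q ^ k / D l) = _
      rw [hc, mul_assoc]
    have hZpos : 0 < c * (Q ^ k / D l) := Nat.pos_of_ne_zero fun h => by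
      have := hEpos l
      rw [hZ, h, mul_zero] at this
      exact lt_irrefl _ this
    rw [hZ]
    refine repr2 (by omega) (by omega) hcop h₁ h₂
      (Nat.pow_le_pow_left (Nat.mul_le_mul_left _ hu) _) (A l) u₂ hu le_rfl (A l) le_rfl
      _ hZpos (by rw [Nat.sub_self, pow_zero]; exact one_dvd _) ?_
    have h1 := hA2 l
    rw [hZ] at h1
    have h2 : A l * (u₂ ^ (A l + 1) * g ^ A l) = g ^ A l * (A l * (u₂ * u₂ ^ A l)) := by
      rw [pow_succ']; ring
    rw [h2] at h1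
    exact Nat.le_of_mul_le_mul_left h1 (Nat.pow_pos hg)
  -- the comparison
  set M : (Fin k → J) → ℕ := fun l => ((g * u₁) ^ i) ^ A l with hM
  have hMpos : ∀ l, 0 < M l := fun l => Nat.pow_pos (Nat.pow_pos (Nat.mul_pos hg (by omega)))
  set C : ℝ := (A₀ : ℝ) * (g * u₂ ^ 2 : ℕ) * ((u₂ : ℝ) / u₁) ^ A₀ with hC
  have hu₁r : (0 : ℝ) < u₁ := by exact_mod_cast (by omega : 0 < u₁)
  have hu₂r : (0 : ℝ) < u₂ := by exact_mod_cast (by omega : 0 < u₂)
  have hgr : (0 : ℝ) < g := by exact_mod_cast hg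
  have hratio : (1 : ℝ) ≤ (u₂ : ℝ) / u₁ := by
    rw [le_div_iff₀ hu₁r, one_mul]; exact_mod_cast hu
  have hA₀r : (1 : ℝ) ≤ A₀ := by exact_mod_cast hA₀pos
  have hconst : (1 : ℝ) ≤ (g * u₂ ^ 2 : ℕ) := by
    exact_mod_cast (Nat.mul_pos hg (Nat.pow_pos (n := 2) (by omega : 0 < u₂)))
  have hEC : ∀ l, (E l : ℝ) ≤ C * ((g : ℝ) * u₁) ^ A l := by
    intro l
    have h1 : (E l : ℝ) ≤ (A₀ : ℝ) * (g * u₂ ^ 2 : ℕ) * ((g : ℝ) * u₂) ^ A l := by
      exact_mod_cast hA3 l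
    refine h1.trans ?_
    have h2 : ((g : ℝ) * u₂) ^ A l = ((u₂ : ℝ) / u₁) ^ A l * ((g : ℝ) * u₁) ^ A l := by
      rw [← mul_pow]
      congr 1
      field_simp
    rw [h2, hC]
    have h3 : ((u₂ : ℝ) / u₁) ^ A l ≤ ((u₂ : ℝ) / u₁) ^ A₀ := pow_le_pow_right₀ hratio (hA1 l)
    have h4 : (0 : ℝ) ≤ (A₀ : ℝ) * (g * u₂ ^ 2 : ℕ) := by positivity
    calc (A₀ : ℝ) * (g * u₂ ^ 2 : ℕ) * (((u₂ : ℝ) / u₁) ^ A l * ((g : ℝ) * u₁) ^ A l)
        = ((A₀ : ℝ) * (g * u₂ ^ 2 : ℕ)) * ((u₂ : ℝ) / u₁) ^ A l * ((g : ℝ) * u₁) ^ A l := by ring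
      _ ≤ ((A₀ : ℝ) * (g * u₂ ^ 2 : ℕ)) * ((u₂ : ℝ) / u₁) ^ A₀ * ((g : ℝ) * u₁) ^ A l := by
          apply mul_le_mul_of_nonneg_right _ (by positivity)
          exact mul_le_mul_of_nonneg_left h3 h4
  have hCpos : 0 < C := by
    rw [hC]
    have : 0 < ((u₂ : ℝ) / u₁) ^ A₀ := by positivity
    positivity
  have h1 := system_beta W ((W : ℝ) ^ i) (fun V T _ _ g hg hani => by
    have := same_le hK g W hWpos hg hani
    exact_mod_cast this) F (fun l => D l) hF1 E M hED hMpos hform hF2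
  have hterm : ∀ l, (W : ℝ) ^ i / M l ≤ C ^ i * ∏ t, (d (l t) : ℝ) ^ i := by
    intro l
    have hMr : (0 : ℝ) < M l := by exact_mod_cast hMpos l
    rw [div_le_iff₀ hMr]
    have h2 : (W : ℝ) = E l * D l := by exact_mod_cast (hED l).symm
    have h3 : (∏ t, (d (l t) : ℝ) ^ i) = (D l : ℝ) ^ i := by
      rw [Finset.prod_pow, hDdef]
      push_cast
      rfl
    have h4 : (M l : ℝ) = (((g : ℝ) * u₁) ^ A l) ^ i := by
      rw [hM]
      push_cast
      rw [← pow_mul, ← pow_mul, mul_comm i]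
    rw [h2, h3, h4, mul_pow]
    have h5 : (E l : ℝ) ^ i ≤ C ^ i * (((g : ℝ) * u₁) ^ A l) ^ i := by
      rw [← mul_pow]
      exact pow_le_pow_left₀ (by positivity) (hEC l) i
    calc (E l : ℝ) ^ i * (D l : ℝ) ^ i
        ≤ (C ^ i * (((g : ℝ) * u₁) ^ A l) ^ i) * (D l : ℝ) ^ i :=
          mul_le_mul_of_nonneg_right h5 (by positivity)
      _ = C ^ i * (D l : ℝ) ^ i * (((g : ℝ) * u₁) ^ A l) ^ i := by ring
  have h3 : (Fintype.card (Fin k → ι) : ℝ) = (Fintype.card ι : ℝ) ^ k := by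
    rw [Fintype.card_fun, Fintype.card_fin]
    push_cast
    rfl
  rw [← h3]
  refine h1.trans ((Finset.sum_le_sum fun l _ => hterm l).trans (le_of_eq ?_))
  rw [← Finset.mul_sum]
  congr 1
  exact (Fintype.sum_pow (fun j => (d j : ℝ) ^ i) k).symm

/-- a comparison of an exponential with a power -/
theorem exp_vs_pow (n s ρ c : ℝ) (i Q : ℕ) (hs : 0 ≤ s) (hρ : 0 < ρ)
    (h : ∀ k : ℕ, 0 < k → n ^ k ≤ ((k * Q : ℕ) * c * ρ ^ (k * Q)) ^ i * s ^ k) :
    n ≤ (ρ ^ Q) ^ i * s := by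
  rcases hs.eq_or_lt with h0 | h0
  · have h1 := h 1 one_pos
    rw [← h0, pow_one, pow_one, mul_zero] at h1
    rw [← h0, mul_zero]
    exact h1
  by_contra hlt
  push Not at hlt
  set b := (ρ ^ Q) ^ i * s with hb
  have hb0 : 0 < b := by positivity
  have hr : 1 < n / b := by rwa [lt_div_iff₀ hb0, one_mul]
  have h1 : ∀ k : ℕ, 0 < k → 1 ≤ ((Q : ℝ) * c) ^ i * ((k : ℝ) ^ i / (n / b) ^ k) := by
    intro k hk
    have h2 := h k hk
    have h3 : ((k * Q : ℕ) * c * ρ ^ (k * Q)) ^ i * s ^ k =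
        ((Q : ℝ) * c) ^ i * (k : ℝ) ^ i * b ^ k := by
      rw [hb]
      push_cast
      rw [mul_pow ((ρ ^ Q) ^ i), ← pow_mul (ρ ^ Q), mul_comm i k, pow_mul (ρ ^ Q) k i,
        ← pow_mul ρ Q k, mul_comm Q k]
      ring
    rw [h3] at h2
    have h4 : 0 < (n / b) ^ k := by positivity
    rw [← mul_div_assoc, le_div_iff₀ h4, one_mul, div_pow, div_le_iff₀ (by positivity)]
    exact h2
  have h2 := (tendsto_pow_const_div_const_pow_of_one_lt i hr).const_mul (((Q : ℝ) * c) ^ i)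
  rw [mul_zero] at h2
  obtain ⟨k, hk1, hk2⟩ := ((h2.eventually_lt_const (show (0 : ℝ) < 1 from one_pos)).and
    (Filter.eventually_gt_atTop 0)).exists
  have := h1 k hk2
  linarith

/-- two normic forms of close degrees -/
theorem close_bound {i : ℕ} (hK : IsC K i) {P₁ P₂ : ℕ} (hP : 2 ≤ P₁) (hlt : P₁ < P₂)
    (h2 : P₂ < 2 * P₁) (h₁ : HasForm K P₁ (Fin (P₁ ^ i))) (h₂ : HasForm K P₂ (Fin (P₂ ^ i)))
    {J ι : Type} [Fintype J] [Fintype ι] (f : J → MvPolynomial ι K) (d : J → ℕ)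
    (hd : ∀ j, 0 < d j) (hf : ∀ j, (f j).IsHomogeneous (d j)) (hani : Aniso f) :
    (Fintype.card ι : ℝ) ≤ (((P₂ : ℝ) / P₁) ^ (∏ j, d j)) ^ i * ∑ j, (d j : ℝ) ^ i := by
  have hg : 0 < Nat.gcd P₁ P₂ := Nat.gcd_pos_of_pos_left _ (by omega)
  obtain ⟨u₁, u₂, hcop, hu₁, hu₂⟩ := Nat.exists_coprime P₁ P₂
  set g := Nat.gcd P₁ P₂ with hgdef
  have e₁ : P₁ = g * u₁ := by rw [hu₁]; ring
  have e₂ : P₂ = g * u₂ := by rw [hu₂]; ring
  have hlt' : u₁ < u₂ := by
    rw [e₁, e₂] at hlt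
    exact Nat.lt_of_mul_lt_mul_left hlt
  have hu0 : 0 < u₁ := Nat.pos_of_ne_zero fun h => by rw [h, mul_zero] at e₁; omega
  have hu : 2 ≤ u₁ := by
    by_contra h
    have h1 : u₁ = 1 := by omega
    rw [h1, mul_one] at e₁
    have : P₁ * 2 ≤ P₂ := by
      rw [e₂, e₁]
      exact Nat.mul_le_mul_left _ (by omega)
    omega
  have hr : ((P₂ : ℝ) / P₁) = (u₂ : ℝ) / u₁ := by
    have hg' : (g : ℝ) ≠ 0 := by exact_mod_cast hg.ne'
    rw [show (P₂ : ℝ) = g * u₂ by exact_mod_cast e₂, show (P₁ : ℝ) = g * u₁ by exact_mod_cast e₁]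
    rw [mul_div_mul_left _ _ hg']
  rw [hr]
  have hu₁r : (0 : ℝ) < u₁ := by exact_mod_cast hu0
  have hu₂r : (0 : ℝ) < u₂ := by exact_mod_cast (by omega : 0 < u₂)
  refine exp_vs_pow _ _ _ ((g * u₂ ^ 2 : ℕ) : ℝ) i _ (by positivity) (by positivity)
    fun k hk => ?_
  exact pair_key hK hg hu hlt'.le hcop (by rw [← e₁]; exact h₁) (by rw [← e₂]; exact h₂) f d hd hf
    hani k hk

/-- **Two normic forms of multiplicatively independent degrees.** -/
theorem strongly_pair {i : ℕ} (hK : IsC K i) {a b : ℕ} (ha : 2 ≤ a) (hb : 2 ≤ b)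
    (hab : ∀ p q : ℕ, a ^ p = b ^ q → p = 0) (hA : HasForm K a (Fin (a ^ i)))
    (hB : HasForm K b (Fin (b ^ i)))
    {J ι : Type} [Fintype J] [Fintype ι] (f : J → MvPolynomial ι K) (d : J → ℕ)
    (hd : ∀ j, 0 < d j) (hf : ∀ j, (f j).IsHomogeneous (d j)) (hani : Aniso f) :
    Fintype.card ι ≤ ∑ j, d j ^ i := by
  classical
  set Q := ∏ j, d j with hQ
  set n : ℝ := (Fintype.card ι : ℝ) with hn
  set s : ℝ := ∑ j, (d j : ℝ) ^ i with hs
  have hs0 : 0 ≤ s := by positivity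
  have key : ∀ ε : ℝ, 0 < ε → ε ≤ log 2 → n ≤ ((exp ε) ^ Q) ^ i * s := by
    intro ε hε hε2
    obtain ⟨p, q, hp, hq, hpq⟩ := exists_close ha hb ε hε
    have hnorm : ∀ {a : ℕ}, HasForm K a (Fin (a ^ i)) → ∀ p : ℕ,
        HasForm K (a ^ p) (Fin ((a ^ p) ^ i)) := by
      intro a hA p
      have h1 := hA.pow p
      rwa [← pow_mul, mul_comm i p, pow_mul] at h1
    have hap := hnorm hA p
    have hbq := hnorm hB q
    have hne : a ^ p ≠ b ^ q := fun h => hp.ne' (hab p q h)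
    have ha2 : 2 ≤ a ^ p := ha.trans (Nat.le_self_pow hp.ne' a)
    have hb2 : 2 ≤ b ^ q := hb.trans (Nat.le_self_pow hq.ne' b)
    have hla : log ((a ^ p : ℕ) : ℝ) = p * log a := by push_cast; exact log_pow _ _
    have hlb : log ((b ^ q : ℕ) : ℝ) = q * log b := by push_cast; exact log_pow _ _
    rw [← hla, ← hlb] at hpq
    -- close numbers
    have hclose : ∀ P₁ P₂ : ℕ, 2 ≤ P₁ → P₁ < P₂ → HasForm K P₁ (Fin (P₁ ^ i)) →
        HasForm K P₂ (Fin (P₂ ^ i)) → log (P₂ : ℝ) - log (P₁ : ℝ) < ε →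
        n ≤ ((exp ε) ^ Q) ^ i * s := by
      intro P₁ P₂ h1 h2 h3 h4 h5
      have hP₁ : (0 : ℝ) < P₁ := by exact_mod_cast (by omega : 0 < P₁)
      have hP₂ : (0 : ℝ) < P₂ := by exact_mod_cast (by omega : 0 < P₂)
      have h6 : (P₂ : ℝ) / P₁ < exp ε := by
        rw [← log_lt_iff_lt_exp (by positivity), log_div hP₂.ne' hP₁.ne']
        exact h5
      have h7 : P₂ < 2 * P₁ := by
        have h8 : exp ε ≤ 2 := by
          rw [← exp_log (show (0 : ℝ) < 2 by norm_num)]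
          exact exp_le_exp.2 hε2
        have h9 : (P₂ : ℝ) < 2 * P₁ := by
          rw [div_lt_iff₀ hP₁] at h6
          nlinarith
        exact_mod_cast h9
      refine (close_bound hK h1 h2 h7 h3 h4 f d hd hf hani).trans ?_
      refine mul_le_mul_of_nonneg_right ?_ hs0
      exact pow_le_pow_left₀ (by positivity) (pow_le_pow_left₀ (by positivity) h6.le _) _
    rcases lt_or_gt_of_ne hne with h | h
    · refine hclose _ _ ha2 h hap hbq ?_
      have := (abs_lt.1 hpq).1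
      linarith
    · refine hclose _ _ hb2 h hbq hap ?_
      have := (abs_lt.1 hpq).2
      linarith
  -- conclusion
  have hfin : n ≤ s := by
    have h1 : Filter.Tendsto (fun ε : ℝ => ((exp ε) ^ Q) ^ i * s) (nhdsWithin 0 (Set.Ioi 0))
        (nhds (((exp 0) ^ Q) ^ i * s)) := by
      have h2 : Continuous fun ε : ℝ => ((exp ε) ^ Q) ^ i * s := by fun_prop
      exact (h2.tendsto 0).mono_left nhdsWithin_le_nhds
    rw [exp_zero, one_pow, one_pow, one_mul] at h1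
    refine ge_of_tendsto h1 ?_
    filter_upwards [Ioc_mem_nhdsGT (log_pos one_lt_two)] with ε hε
    exact key ε hε.1 hε.2
  rw [hn, hs] at hfin
  exact_mod_cast hfin

end Run7.h94
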