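import Pool.Agent.Run7.h94.PExpo
import Pool.Agent.Run7.h94.Pair
import Pool.Agent.Run7.h94.Strong

/-! Systems of forms of arbitrary degrees over a `C_i` field with a normic form of order `i` and of
prime power degree. -/

set_option autoImplicit false

open MvPolynomial Pool.Agent.H19CI Real

namespace Run7.h94

/-- rounding up to a multiple -/
theorem exists_round (c A : ℕ) (hc : 0 < c) : ∃ b A' : ℕ, b < c ∧ A + b = c * A' := by
  refine ⟨(c - A % c) % c, (A + (c - A % c) % c) / c, Nat.mod_lt _ hc, ?_⟩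
  symm
  apply Nat.mul_div_cancel'
  have h1 : A % c < c := Nat.mod_lt _ hc
  rw [Nat.dvd_iff_mod_eq_zero]
  rcases Nat.eq_zero_or_pos (A % c) with h | h
  · rw [h, Nat.sub_zero, Nat.mod_self, add_zero, h]
  · have h2 : (c - A % c) % c = c - A % c := Nat.mod_eq_of_lt (by omega)
    rw [h2, Nat.add_mod]
    rw [Nat.mod_eq_of_lt (show c - A % c < c by omega), Nat.add_sub_cancel' h1.le, Nat.mod_self]

/-- a constant factor is harmless -/
theorem le_of_pow_bound (n b C : ℝ) (k0 : ℕ) (hb : 0 ≤ b)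
    (h : ∀ k : ℕ, k0 ≤ k → n ^ k ≤ C * b ^ k) : n ≤ b := by
  by_contra hlt
  push Not at hlt
  rcases hb.eq_or_lt with h0 | h0
  · have h1 := h (k0 + 1) (by omega)
    rw [← h0, zero_pow (by omega), mul_zero] at h1
    have h2 : 0 < n ^ (k0 + 1) := by rw [← h0] at hlt; positivity
    linarith
  · have hr : 1 < n / b := by rwa [lt_div_iff₀ h0, one_mul]
    obtain ⟨k, hk⟩ := pow_unbounded_of_one_lt C hr
    have h1 := h (k + k0) (by omega)
    have h2 : (n / b) ^ k ≤ (n / b) ^ (k + k0) := pow_le_pow_right₀ hr.le (by omega)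
    have h3 : (n / b) ^ (k + k0) ≤ C := by
      rw [div_pow, div_le_iff₀ (by positivity)]
      exact h1
    linarith

variable {K : Type*} [Field K] {i ℓ c : ℕ}

/-- **Systems of forms of arbitrary degrees** over a `C_i` field with a normic form of order `i` and
of prime power degree. -/
theorem strong_ppow (hi : 0 < i) (hK : IsC K i) (hℓ : ℓ.Prime) (hc : 0 < c)
    (hnorm : HasForm K (ℓ ^ c) (Fin ((ℓ ^ c) ^ i)))
    {J ι : Type} [Fintype J] [Fintype ι] (f : J → MvPolynomial ι K) (d : J → ℕ)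
    (hd : ∀ j, 0 < d j) (hf : ∀ j, (f j).IsHomogeneous (d j)) (hani : Aniso f) :
    Fintype.card ι ≤ ∑ j, d j ^ i := by
  classical
  set ν := ℓ ^ c with hνdef
  have hℓpos := hℓ.pos
  have hν : 2 ≤ ν := by
    calc 2 ≤ ℓ := hℓ.two_le
      _ = ℓ ^ 1 := (pow_one _).symm
      _ ≤ ℓ ^ c := Nat.pow_le_pow_right hℓ.pos hc
  have hνpos : 0 < ν := by omega
  -- the decomposition of the degrees
  have hdec : ∀ j, ∃ a m : ℕ, ¬ ℓ ∣ m ∧ d j = ℓ ^ a * m := fun j => by
    obtain ⟨a, m, h1, h2⟩ := Nat.exists_eq_pow_mul_and_not_dvd (hd j).ne' ℓ hℓ.ne_one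
    exact ⟨a, m, h1, h2⟩
  choose a m hm hdm using hdec
  have hmpos : ∀ j, 0 < m j := fun j => Nat.pos_of_ne_zero fun h => hm j (by rw [h]; exact dvd_zero _)
  set Q := (ℓ + 1) * ∏ j, m j with hQ
  have hprodpos : 0 < ∏ j, m j := Finset.prod_pos fun j _ => hmpos j
  have hQ2 : 2 ≤ Q := by
    calc 2 ≤ ℓ + 1 := by have := hℓ.two_le; omega
      _ = (ℓ + 1) * 1 := (mul_one _).symm
      _ ≤ Q := Nat.mul_le_mul_left _ hprodpos
  have hQcop : ¬ ℓ ∣ Q := by
    intro h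
    rcases (Nat.Prime.dvd_mul hℓ).1 h with h1 | h1
    · have := (Nat.dvd_add_right (dvd_refl ℓ)).1 h1
      exact hℓ.one_lt.ne' (Nat.dvd_one.1 this)
    · obtain ⟨j, -, hj⟩ := (Prime.dvd_finsetProd_iff hℓ.prime _).1 h1
      exact hm j hj
  have hmQ : ∀ j, m j ∣ Q := fun j =>
    (Finset.dvd_prod_of_mem m (Finset.mem_univ j)).trans (Dvd.intro_left _ rfl)
  have hQr : (1 : ℝ) < Q := by exact_mod_cast (by omega : 1 < Q)
  set s : ℝ := ((∑ j, d j ^ i : ℕ) : ℝ) with hs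
  set n : ℝ := (Fintype.card ι : ℝ) with hn
  have hθ0 := expo_nonneg' (K := K) hK hν
  have hθi := expo_le' (K := K) hK hν
  set θ := expo' K i ν with hθ
  have hνr : (0 : ℝ) < ν := by exact_mod_cast hνpos
  have hs0 : 0 ≤ s := by rw [hs]; positivity
  -- the estimate with a small loss
  have key : ∀ δ : ℝ, 0 < δ → n ≤ (Q : ℝ) ^ (2 * δ) * s := by
    intro δ hδ
    obtain ⟨R, hR⟩ := lower' hi hK hν hnorm δ hδ
    refine le_of_pow_bound n _ ((ν : ℝ) ^ i) (R + 1) (by positivity) fun k hkR => ?_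
    have hk0 : k ≠ 0 := by omega
    have hQk : R ≤ Q ^ k := by
      have : k < Q ^ k := Nat.lt_pow_self hQ2
      omega
    obtain ⟨g, hg1, hg2⟩ := syspow f d hf hani k
    set A : (Fin k → J) → ℕ := fun l => ∑ t, a (l t) with hA
    set μ : (Fin k → J) → ℕ := fun l => ∏ t, m (l t) with hμ
    have hdeg : ∀ l : Fin k → J, ∏ t, d (l t) = ℓ ^ A l * μ l := by
      intro l
      rw [hA, hμ, ← Finset.prod_pow_eq_pow_sum, ← Finset.prod_mul_distrib]
      exact Finset.prod_congr rfl fun t _ => hdm _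
    choose b A' hb hbA using fun l => exists_round c (A l) hc
    have hdeg' : ∀ l : Fin k → J, ℓ ^ b l * ∏ t, d (l t) = ν ^ A' l * μ l := by
      intro l
      rw [hdeg, hνdef, ← pow_mul, ← hbA l, pow_add]
      ring
    have hμdvd : ∀ l, μ l ∣ Q ^ k := by
      intro l
      have h1 : Q ^ k = ∏ _t : Fin k, Q := by simp
      rw [h1]
      exact Finset.prod_dvd_prod_of_dvd _ _ fun t _ => hmQ _
    have hμpos : ∀ l, 0 < μ l := fun l => Finset.prod_pos fun t _ => hmpos _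
    set Z : (Fin k → J) → ℕ := fun l => Q ^ (2 * k) / μ l with hZ
    have hZμ : ∀ l, Z l * μ l = Q ^ (2 * k) := fun l =>
      Nat.div_mul_cancel ((hμdvd l).trans (pow_dvd_pow Q (by omega)))
    have hZge : ∀ l, Q ^ k ≤ Z l := by
      intro l
      have h1 : Q ^ k * μ l ≤ Z l * μ l := by
        calc Q ^ k * μ l ≤ Q ^ k * Q ^ k :=
              Nat.mul_le_mul_left _ (Nat.le_of_dvd (Nat.pow_pos (by omega)) (hμdvd l))
          _ = Q ^ (2 * k) := by rw [two_mul, pow_add (m := k) (n := k)]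
          _ = Z l * μ l := (hZμ l).symm
      exact Nat.le_of_mul_le_mul_right h1 (hμpos l)
    have hZpos : ∀ l, 0 < Z l := fun l => lt_of_lt_of_le (Nat.pow_pos (by omega)) (hZge l)
    choose B N hN1 hN2 using fun l => hR (Z l) (hQk.trans (hZge l)) (hZpos l)
    set T := ∑ l, (B l + A' l) with hT
    have hBT : ∀ l, B l + A' l ≤ T := fun l => Finset.single_le_sum
      (f := fun l => B l + A' l) (fun l _ => Nat.zero_le _) (Finset.mem_univ l)
    -- the normic forms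
    set M : (Fin k → J) → ℕ := fun l => N l * (ν ^ i) ^ (T - A' l - B l) with hM
    have hform : ∀ l, HasForm K (ℓ ^ b l * (Z l * ν ^ (T - A' l))) (Fin (M l)) := by
      intro l
      have h1 := (hN1 l).compFin (hnorm.pow (T - A' l - B l))
      have h2 : Z l * ν ^ B l * ν ^ (T - A' l - B l) = Z l * ν ^ (T - A' l) := by
        rw [mul_assoc, ← pow_add]
        congr 2
        have := hBT l
        omega
      rw [h2] at h1
      exact h1.mul_left _ (Nat.pow_pos hℓ.pos)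
    have hMge : ∀ l, (Z l : ℝ) ^ (θ - δ) * ((ν : ℝ) ^ i) ^ (T - A' l) ≤ M l := by
      intro l
      have h1 : ((ν : ℝ) ^ i) ^ (T - A' l) =
          ((ν : ℝ) ^ i) ^ B l * ((ν : ℝ) ^ i) ^ (T - A' l - B l) := by
        rw [← pow_add]
        congr 1
        have := hBT l
        omega
      rw [h1, ← mul_assoc, hM]
      push_cast
      exact mul_le_mul_of_nonneg_right (hN2 l) (by positivity)
    have hZr : ∀ l, (0 : ℝ) < Z l := fun l => by exact_mod_cast hZpos l
    have hMpos : ∀ l, (0 : ℝ) < M l := by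
      intro l
      refine lt_of_lt_of_le ?_ (hMge l)
      have h1 := rpow_pos_of_pos (hZr l) (θ - δ)
      positivity
    have hW : ∀ l, ℓ ^ b l * (Z l * ν ^ (T - A' l)) * ∏ t, d (l t) = Q ^ (2 * k) * ν ^ T := by
      intro l
      have h0 : ℓ ^ b l * (Z l * ν ^ (T - A' l)) * ∏ t, d (l t) =
          Z l * ν ^ (T - A' l) * (ℓ ^ b l * ∏ t, d (l t)) := by ring
      rw [h0, hdeg', ← hZμ l]
      have h1 : ν ^ T = ν ^ (T - A' l) * ν ^ A' l := by
        rw [← pow_add]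
        congr 1
        have := hBT l
        omega
      rw [h1]
      ring
    have hQ2k : 2 ≤ Q ^ (2 * k) := by
      calc 2 ≤ Q := hQ2
        _ = Q ^ 1 := (pow_one _).symm
        _ ≤ Q ^ (2 * k) := Nat.pow_le_pow_right (by omega) (by omega)
    have hQ2cop : Nat.Coprime (Q ^ (2 * k)) ν := by
      rw [hνdef]
      refine Nat.Coprime.pow _ _ ?_
      exact ((Nat.Prime.coprime_iff_not_dvd hℓ).2 hQcop).symm
    have h1 := system_beta (Q ^ (2 * k) * ν ^ T)
      (((Q ^ (2 * k) : ℕ) : ℝ) ^ θ * ((ν : ℝ) ^ i) ^ T)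
      (fun V T' _ _ g hg hani => same_expo' hi hK hν hnorm hQ2k hQ2cop T V T' g hg hani) g
      (fun l => ∏ t, d (l t)) hg1 (fun l => ℓ ^ b l * (Z l * ν ^ (T - A' l))) M hW
      (fun l => by exact_mod_cast hMpos l) hform hg2
    -- the terms
    have hterm : ∀ l, ((Q ^ (2 * k) : ℕ) : ℝ) ^ θ * ((ν : ℝ) ^ i) ^ T / M l ≤
        (ν : ℝ) ^ i * (((Q : ℝ) ^ (2 * δ)) ^ k * ∏ t, ((d (l t) : ℝ)) ^ i) := by
      intro l
      rw [div_le_iff₀ (hMpos l)]
      have hμr : (1 : ℝ) ≤ μ l := by exact_mod_cast hμpos l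
      have hμ0 : (0 : ℝ) < μ l := by linarith
      have h2 : ((Q ^ (2 * k) : ℕ) : ℝ) ^ θ = (Z l : ℝ) ^ θ * (μ l : ℝ) ^ θ := by
        rw [← hZμ l, Nat.cast_mul, mul_rpow (hZr l).le hμ0.le]
      have h3 : (μ l : ℝ) ^ θ ≤ (μ l : ℝ) ^ i := by
        rw [← rpow_natCast]
        exact rpow_le_rpow_of_exponent_le hμr hθi
      have h4 : (Z l : ℝ) ^ θ = (Z l : ℝ) ^ δ * (Z l : ℝ) ^ (θ - δ) := by
        rw [← rpow_add (hZr l)]; congr 1; ring
      have h5 : (Z l : ℝ) ^ δ ≤ ((Q : ℝ) ^ (2 * δ)) ^ k := by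
        have h6 : (Z l : ℝ) ≤ (Q : ℝ) ^ (2 * k) := by
          have h7 : Z l ≤ Q ^ (2 * k) := Nat.div_le_self _ _
          exact_mod_cast h7
        calc (Z l : ℝ) ^ δ ≤ ((Q : ℝ) ^ (2 * k)) ^ δ := rpow_le_rpow (hZr l).le h6 hδ.le
          _ = ((Q : ℝ) ^ (2 * δ)) ^ k := by
              rw [← rpow_natCast, ← rpow_natCast, ← rpow_mul (by linarith), ← rpow_mul (by linarith)]
              congr 1
              push_cast
              ring
      have h6 : ((ν : ℝ) ^ i) ^ T = ((ν : ℝ) ^ i) ^ (T - A' l) * ((ν : ℝ) ^ i) ^ A' l := by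
        rw [← pow_add]
        congr 1
        have := hBT l
        omega
      -- the degree
      have h7 : ((ν : ℝ) ^ i) ^ A' l * (μ l : ℝ) ^ i ≤ (ν : ℝ) ^ i * ∏ t, ((d (l t) : ℝ)) ^ i := by
        rw [Finset.prod_pow]
        have h8 : (ν : ℝ) ^ A' l * μ l = (ℓ : ℝ) ^ b l * ∏ t, (d (l t) : ℝ) := by
          exact_mod_cast (hdeg' l).symm
        have h9 : ((ν : ℝ) ^ i) ^ A' l * (μ l : ℝ) ^ i = ((ν : ℝ) ^ A' l * μ l) ^ i := by
          rw [mul_pow, ← pow_mul, ← pow_mul, mul_comm (A' l) i]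
        rw [h9, h8, mul_pow]
        have h10 : (ℓ : ℝ) ^ b l ≤ ν := by
          have h11 : ℓ ^ b l ≤ ν := Nat.pow_le_pow_right hℓ.pos (hb l).le
          exact_mod_cast h11
        exact mul_le_mul_of_nonneg_right (pow_le_pow_left₀ (by positivity) h10 i) (by positivity)
      rw [h2, h4, h6]
      have h8 := rpow_pos_of_pos (hZr l) (θ - δ)
      have h9 := rpow_pos_of_pos (hZr l) δ
      have h10 : (0 : ℝ) < (μ l : ℝ) ^ θ := rpow_pos_of_pos hμ0 θ
      calc (Z l : ℝ) ^ δ * (Z l : ℝ) ^ (θ - δ) * (μ l : ℝ) ^ θ *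
            (((ν : ℝ) ^ i) ^ (T - A' l) * ((ν : ℝ) ^ i) ^ A' l)
          = (Z l : ℝ) ^ δ * ((μ l : ℝ) ^ θ * (((ν : ℝ) ^ i) ^ A' l *
            ((Z l : ℝ) ^ (θ - δ) * ((ν : ℝ) ^ i) ^ (T - A' l)))) := by ring
        _ ≤ ((Q : ℝ) ^ (2 * δ)) ^ k * ((μ l : ℝ) ^ i * (((ν : ℝ) ^ i) ^ A' l * M l)) := by
            apply mul_le_mul h5 _ (by positivity) (by positivity)
            apply mul_le_mul h3 _ (by positivity) (by positivity)
            exact mul_le_mul_of_nonneg_left (hMge l) (by positivity)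
        _ = ((Q : ℝ) ^ (2 * δ)) ^ k * (((ν : ℝ) ^ i) ^ A' l * (μ l : ℝ) ^ i) * M l := by ring
        _ ≤ ((Q : ℝ) ^ (2 * δ)) ^ k * ((ν : ℝ) ^ i * ∏ t, ((d (l t) : ℝ)) ^ i) * M l := by
            apply mul_le_mul_of_nonneg_right _ (hMpos l).le
            exact mul_le_mul_of_nonneg_left h7 (by positivity)
        _ = (ν : ℝ) ^ i * (((Q : ℝ) ^ (2 * δ)) ^ k * ∏ t, ((d (l t) : ℝ)) ^ i) * M l := by ring
    have h3 : (Fintype.card (Fin k → ι) : ℝ) = n ^ k := by
      rw [Fintype.card_fun, Fintype.card_fin]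
      push_cast
      rfl
    rw [← h3]
    refine h1.trans ((Finset.sum_le_sum fun l _ => hterm l).trans (le_of_eq ?_))
    rw [← Finset.mul_sum, ← Finset.mul_sum, mul_pow]
    congr 2
    have h4 : s = ∑ j, (d j : ℝ) ^ i := by rw [hs]; push_cast; rfl
    rw [h4]
    exact (Fintype.sum_pow (fun j => (d j : ℝ) ^ i) k).symm
  -- conclusion
  have hfin : n ≤ s := by
    have h1 : Filter.Tendsto (fun δ : ℝ => (Q : ℝ) ^ (2 * δ) * s) (nhdsWithin 0 (Set.Ioi 0))
        (nhds ((Q : ℝ) ^ (2 * (0 : ℝ)) * s)) := by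
      have h2 : Continuous fun δ : ℝ => (Q : ℝ) ^ (2 * δ) * s := by
        refine Continuous.mul ?_ continuous_const
        exact Continuous.rpow continuous_const (by fun_prop) fun _ => Or.inl (by positivity)
      exact (h2.tendsto 0).mono_left nhdsWithin_le_nhds
    rw [mul_zero, rpow_zero, one_mul] at h1
    refine ge_of_tendsto h1 ?_
    filter_upwards [self_mem_nhdsWithin] with δ hδ
    exact key δ hδ
  have h2 : (Fintype.card ι : ℝ) ≤ ((∑ j, d j ^ i : ℕ) : ℝ) := hfin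
  exact_mod_cast h2

end Run7.h94
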