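import Pool.Agent.Run7.h94.Theta
import Pool.Agent.H19CI.E

/-! Anisotropic forms in a fixed number of variables: their degrees form a semigroup.  Growth of the
number of variables for all large degrees. -/

set_option autoImplicit false

open MvPolynomial Pool.Agent.H19CI

namespace Run7.h94

variable {K : Type*} [Field K]

/-- sums of products of powers of two degrees -/
theorem repr2 {g m c N N' : ℕ} (hm : 0 < m) (hc : 0 < c) (hcop : Nat.Coprime m c)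
    (hD : HasForm K (g * m) (Fin N)) (hB : HasForm K (g * c) (Fin N')) (hN : N ≤ N') (k M : ℕ)
    (hmM : m ≤ M) (hcM : c ≤ M) : ∀ s ≤ k, ∀ Z, 0 < Z → c ^ (k - s) ∣ Z → s * (c * M ^ k) ≤ Z →
      HasForm K (g ^ k * Z) (Fin (N ^ k)) := by
  have hgen : ∀ x y : ℕ, x + y = k → HasForm K (g ^ k * (m ^ x * c ^ y)) (Fin (N ^ k)) := by
    intro x y hxy
    have h1 := (hD.pow x).compFin (hB.pow y)
    have h2 : (g * m) ^ x * (g * c) ^ y = g ^ k * (m ^ x * c ^ y) := by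
      rw [← hxy, mul_pow, mul_pow, pow_add]; ring
    rw [h2] at h1
    refine h1.mono ?_
    rw [← hxy, pow_add]
    exact Nat.mul_le_mul_left _ (Nat.pow_le_pow_left hN y)
  intro s
  induction s with
  | zero =>
    intro _ Z hZ hdvd _
    obtain ⟨v, rfl⟩ := hdvd
    have hv : 0 < v := Nat.pos_of_ne_zero fun h => by rw [h, mul_zero] at hZ; exact lt_irrefl _ hZ
    have h1 := (hgen 0 k (by omega)).mul_left v hv
    rw [pow_zero, one_mul] at h1
    rw [Nat.sub_zero]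
    have h2 : v * (g ^ k * c ^ k) = g ^ k * (c ^ k * v) := by ring
    rwa [h2] at h1
  | succ s ih =>
    intro hs Z hZ hdvd hle
    set x := k - (s + 1) with hx
    have hxs : k - s = x + 1 := by omega
    obtain ⟨Z1, rfl⟩ := hdvd
    have hcop' : Nat.Coprime (m ^ (s + 1)) c := Nat.Coprime.pow_left _ hcop
    obtain ⟨v, hv1, hv2⟩ : ∃ v < c, c ∣ (Z1 + (c - v) * m ^ (s + 1)) := by
      rcases Nat.eq_or_lt_of_le (Nat.succ_le_of_lt hc) with h1 | h1
      · exact ⟨0, hc, by rw [← h1]; exact one_dvd _⟩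
      · obtain ⟨u, hu⟩ := Nat.exists_mul_mod_eq_one_of_coprime hcop' h1
        refine ⟨(Z1 * u) % c, Nat.mod_lt _ hc, ?_⟩
        have hlt : (Z1 * u) % c < c := Nat.mod_lt _ hc
        have h3 : ((Z1 + (c - (Z1 * u) % c) * m ^ (s + 1) : ℕ) : ZMod c) = 0 := by
          have h4 : ((m ^ (s + 1) * u : ℕ) : ZMod c) = 1 := by
            rw [← ZMod.natCast_mod, hu.2, Nat.cast_one]
          rw [Nat.cast_add, Nat.cast_mul, Nat.cast_sub hlt.le, ZMod.natCast_self, ZMod.natCast_mod]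
          push_cast at h4 ⊢
          linear_combination (-(Z1 : ZMod c)) * h4
        exact (ZMod.natCast_eq_zero_iff _ _).1 h3
    -- the element used
    have hE : m ^ (s + 1) * c ^ x ≤ M ^ k := by
      calc m ^ (s + 1) * c ^ x ≤ M ^ (s + 1) * M ^ x :=
            Nat.mul_le_mul (Nat.pow_le_pow_left hmM _) (Nat.pow_le_pow_left hcM _)
        _ = M ^ k := by rw [← pow_add]; congr 1; omega
    have hMpos : 0 < M ^ k := Nat.pow_pos (by omega)
    have hvle : v * (m ^ (s + 1) * c ^ x) ≤ (c - 1) * M ^ k := Nat.mul_le_mul (by omega) hE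
    have hbig : s * (c * M ^ k) + M ^ k + v * (m ^ (s + 1) * c ^ x) ≤ c ^ x * Z1 := by
      have h4 : (s + 1) * (c * M ^ k) = s * (c * M ^ k) + c * M ^ k := by ring
      have h5 : c * M ^ k = (c - 1) * M ^ k + M ^ k := by
        have h6 : (c - 1) + 1 = c := by omega
        calc c * M ^ k = ((c - 1) + 1) * M ^ k := by rw [h6]
          _ = _ := by rw [Nat.add_mul, one_mul]
      omega
    obtain ⟨Z2, hZ2⟩ : ∃ Z2, c ^ x * Z1 = Z2 + v * (m ^ (s + 1) * c ^ x) :=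
      ⟨c ^ x * Z1 - v * (m ^ (s + 1) * c ^ x), by omega⟩
    have hZ2pos : 0 < Z2 := by omega
    have hZ2dvd : c ^ (k - s) ∣ Z2 := by
      rw [hxs, pow_succ]
      have h6 : c ^ x * Z1 + c ^ x * ((c - v) * m ^ (s + 1)) = Z2 + c ^ x * (c * m ^ (s + 1)) := by
        have h7 : c * m ^ (s + 1) = (c - v) * m ^ (s + 1) + v * m ^ (s + 1) := by
          rw [← Nat.add_mul, Nat.sub_add_cancel hv1.le]
        rw [hZ2, h7]
        ring
      have h8 : c ^ x * c ∣ Z2 + c ^ x * (c * m ^ (s + 1)) := by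
        rw [← h6, ← Nat.mul_add]
        exact Nat.mul_dvd_mul_left _ hv2
      have h9 : c ^ x * c ∣ c ^ x * (c * m ^ (s + 1)) := Nat.mul_dvd_mul_left _ (Dvd.intro _ rfl)
      exact (Nat.dvd_add_left h9).1 h8
    have h10 := ih (by omega) Z2 hZ2pos hZ2dvd (by omega)
    rw [hZ2]
    rcases Nat.eq_zero_or_pos v with h | h
    · rw [h, zero_mul, add_zero]; exact h10
    · have h11 := h10.add ((hgen (s + 1) x (by omega)).mul_left v h)
      have h12 : g ^ k * Z2 + v * (g ^ k * (m ^ (s + 1) * c ^ x)) =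
          g ^ k * (Z2 + v * (m ^ (s + 1) * c ^ x)) := by ring
      rwa [h12] at h11

/-- there are anisotropic forms of degree `m * ℓ ^ a` in at least `x * (ℓ ^ i) ^ a` variables -/
def PP (K : Type*) [Field K] (i ℓ m : ℕ) (x : ℝ) : Prop :=
  ∃ a N : ℕ, HasForm K (m * ℓ ^ a) (Fin N) ∧ x * ((ℓ : ℝ) ^ i) ^ a ≤ N

variable {i ℓ : ℕ}

theorem PP.one {m : ℕ} (hm : 0 < m) : PP K i ℓ m 1 :=
  ⟨0, 1, by rw [pow_zero, mul_one]; exact HasForm.one hm, by simp⟩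

theorem PP.mono {m : ℕ} {x y : ℝ} (h : PP K i ℓ m x) (hxy : y ≤ x) : PP K i ℓ m y := by
  obtain ⟨a, N, h1, h2⟩ := h
  exact ⟨a, N, h1, (mul_le_mul_of_nonneg_right hxy (by positivity)).trans h2⟩

theorem PP.pow {m : ℕ} {x : ℝ} (hx : 0 ≤ x) (h : PP K i ℓ m x) (t : ℕ) :
    PP K i ℓ (m ^ t) (x ^ t) := by
  obtain ⟨a, N, h1, h2⟩ := h
  refine ⟨a * t, N ^ t, ?_, ?_⟩
  · have h3 := h1.pow t
    rwa [mul_pow, ← pow_mul] at h3
  · have h3 := pow_le_pow_left₀ (by positivity) h2 t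
    rw [mul_pow, ← pow_mul ((ℓ : ℝ) ^ i)] at h3
    exact_mod_cast h3

theorem PP.le (hK : IsC K i) (hℓ : 0 < ℓ) {m : ℕ} (hm : 0 < m) {x : ℝ} (h : PP K i ℓ m x) :
    x ≤ (m : ℝ) ^ i := by
  obtain ⟨a, N, h1, h2⟩ := h
  have h3 := h1.card_le hK (Nat.mul_pos hm (Nat.pow_pos hℓ))
  rw [Fintype.card_fin] at h3
  have h4 : (N : ℝ) ≤ (m : ℝ) ^ i * ((ℓ : ℝ) ^ i) ^ a := by
    have h5 : (N : ℝ) ≤ ((m * ℓ ^ a : ℕ) : ℝ) ^ i := by exact_mod_cast h3
    refine h5.trans (le_of_eq ?_)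
    push_cast
    rw [mul_pow, ← pow_mul, ← pow_mul, mul_comm a i]
  have h5 : (0 : ℝ) < ((ℓ : ℝ) ^ i) ^ a := by
    have : (0 : ℝ) < ℓ := by exact_mod_cast hℓ
    positivity
  exact le_of_mul_le_mul_right (h2.trans h4) h5

/-- all large degrees -/
theorem PP.amplify (hi : 0 < i) (hK : IsC K i) (hℓ : ℓ.Prime) (hnorm : HasForm K ℓ (Fin (ℓ ^ i)))
    {m : ℕ} (hm : 0 < m) (hcop : ¬ ℓ ∣ m) {x : ℝ} (hx : 1 ≤ x) (h : PP K i ℓ m x) (k Z : ℕ)
    (hZ0 : 0 < Z) (hZ : k * (ℓ * m) ^ (k + 1) ≤ Z) : PP K i ℓ Z (x ^ k) := by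
  classical
  obtain ⟨a, N, h1, h2⟩ := h
  have hℓ1 : 1 < ℓ ^ i := Nat.one_lt_pow hi.ne' hℓ.one_lt
  have hex : ∃ τ, N ≤ (ℓ ^ i) ^ τ := ⟨N, (Nat.lt_pow_self hℓ1).le⟩
  set τ := Nat.find hex with hτ
  have hτ1 : N ≤ (ℓ ^ i) ^ τ := Nat.find_spec hex
  have hNa : (ℓ ^ i) ^ a ≤ N := by
    have h3 : (((ℓ ^ i) ^ a : ℕ) : ℝ) ≤ N := by
      push_cast
      refine le_trans ?_ h2
      have : (0 : ℝ) ≤ ((ℓ : ℝ) ^ i) ^ a := by positivity
      nlinarith
    exact_mod_cast h3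
  have haτ : a ≤ τ := by
    by_contra hlt
    push Not at hlt
    have h3 : (ℓ ^ i) ^ τ < (ℓ ^ i) ^ a := Nat.pow_lt_pow_right hℓ1 hlt
    omega
  set c := ℓ ^ (τ - a) with hc
  have hcpos : 0 < c := Nat.pow_pos hℓ.pos
  have hcle : c ≤ ℓ * m := by
    rcases Nat.eq_zero_or_pos τ with h0 | h0
    · have : c = 1 := by rw [hc, h0]; simp
      rw [this]
      exact Nat.mul_pos hℓ.pos hm
    · have h3 : ¬ N ≤ (ℓ ^ i) ^ (τ - 1) := Nat.find_min hex (by omega)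
      push Not at h3
      have h4 : N ≤ (m * ℓ ^ a) ^ i := by
        have := h1.card_le hK (Nat.mul_pos hm (Nat.pow_pos hℓ.pos))
        rwa [Fintype.card_fin] at this
      have h5 : (ℓ ^ (τ - 1)) ^ i < (m * ℓ ^ a) ^ i := by
        rw [← pow_mul, mul_comm, pow_mul]
        exact h3.trans_le h4
      have h6 : ℓ ^ (τ - 1) < m * ℓ ^ a := lt_of_pow_lt_pow_left₀ i (Nat.zero_le _) h5
      have h7 : c * ℓ ^ a = ℓ * ℓ ^ (τ - 1) := by
        rw [hc, ← pow_add, ← pow_succ']; congr 1; omega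
      have h8 : c * ℓ ^ a ≤ (ℓ * m) * ℓ ^ a := by
        rw [h7, mul_assoc]
        exact Nat.mul_le_mul_left _ h6.le
      exact Nat.le_of_mul_le_mul_right h8 (Nat.pow_pos hℓ.pos)
  have hcop' : Nat.Coprime m c := by
    rw [hc]
    exact Nat.Coprime.pow_right _ ((Nat.Prime.coprime_iff_not_dvd hℓ).2 hcop).symm
  have hB : HasForm K (ℓ ^ a * c) (Fin ((ℓ ^ i) ^ τ)) := by
    have h3 : ℓ ^ a * c = ℓ ^ τ := by rw [hc, ← pow_add]; congr 1; omega
    rw [h3]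
    exact hnorm.pow τ
  have hD : HasForm K (ℓ ^ a * m) (Fin N) := by rwa [mul_comm] at h1
  have h3 := repr2 hm hcpos hcop' hD hB hτ1 k (ℓ * m) (Nat.le_mul_of_pos_left m hℓ.pos) hcle k
    le_rfl Z hZ0 (by rw [Nat.sub_self, pow_zero]; exact one_dvd _) (by
      refine le_trans ?_ hZ
      rw [pow_succ, mul_comm ((ℓ * m) ^ k)]
      exact Nat.mul_le_mul_left _ (Nat.mul_le_mul_right _ hcle))
  refine ⟨a * k, N ^ k, ?_, ?_⟩
  · rwa [← pow_mul, mul_comm] at h3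
  · have h4 := pow_le_pow_left₀ (by positivity) h2 k
    rw [mul_pow, ← pow_mul ((ℓ : ℝ) ^ i)] at h4
    exact_mod_cast h4

end Run7.h94
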