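import Pool.Agent.Run7.h94.NormF

/-! A field all of whose nontrivial finite extensions have degree divisible by the prime `r` has
an extension of degree `r`. -/

set_option autoImplicit false

open Pool.Agent.H19CI Module

namespace Run7.h94

universe u

variable {K : Type u} [Field K]

open Polynomial in
theorem special_normic (halg : ¬ IsAlgClosed K) (r : ℕ) (hr : r.Prime) (hS : Special K r) :
    HasForm K r (Fin r) := by
  classical
  by_cases hper : PerfectField K
  · -- an irreducible polynomial of degree at least two
    have h1 : ∃ P : K[X], P.Monic ∧ Irreducible P ∧ ¬ ∃ x, Polynomial.eval x P = 0 := by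
      by_contra hcon
      push Not at hcon
      exact halg (IsAlgClosed.of_exists_root K fun P hP1 hP2 => hcon P hP1 hP2)
    obtain ⟨P, hP1, hP2, hP3⟩ := h1
    have hgal : IsGalois K P.SplittingField :=
      IsGalois.of_separable_splitting_field (p := P) (PerfectField.separable_of_irreducible hP2)
    have hfac : Fact r.Prime := ⟨hr⟩
    have hcard : Nat.card Gal(P.SplittingField/K) = finrank K P.SplittingField :=
      IsGalois.card_aut_eq_finrank K P.SplittingField
    have hdeg : ∀ H : Subgroup Gal(P.SplittingField/K),
        finrank K (IntermediateField.fixedField H) * Nat.card H =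
          Nat.card Gal(P.SplittingField/K) := by
      intro H
      rw [hcard, ← IntermediateField.finrank_fixedField_eq_card, finrank_mul_finrank]
    have hidx : ∀ H : Subgroup Gal(P.SplittingField/K),
        finrank K (IntermediateField.fixedField H) = H.index := by
      intro H
      have h2 := hdeg H
      rw [← H.card_mul_index, mul_comm] at h2
      exact Nat.eq_of_mul_eq_mul_left Nat.card_pos h2
    have hne : 1 < Nat.card Gal(P.SplittingField/K) := by
      by_contra hle
      push Not at hle
      have hfin : finrank K P.SplittingField = 1 := by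
        have h3 : 0 < finrank K P.SplittingField := finrank_pos
        omega
      have hbot : Function.Surjective (algebraMap K P.SplittingField) := by
        have h4 := (finrank_eq_one_iff_of_nonzero' (1 : P.SplittingField) one_ne_zero).1 hfin
        intro y
        obtain ⟨c, hc⟩ := h4 y
        exact ⟨c, by rw [← hc, Algebra.smul_def, mul_one]⟩
      have hsp := SplittingField.splits P
      have hd : (P.map (algebraMap K P.SplittingField)).degree ≠ 0 := by
        rw [degree_map]
        exact hP2.degree_pos.ne'
      obtain ⟨y, hy⟩ := hsp.exists_eval_eq_zero hd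
      obtain ⟨x, rfl⟩ := hbot y
      apply hP3
      refine ⟨x, ?_⟩
      rw [eval_map_algebraMap, aeval_algebraMap_apply_eq_algebraMap_eval] at hy
      exact (map_eq_zero _).1 hy
    -- the Galois group is an `r`-group
    have S : Sylow r Gal(P.SplittingField/K) := default
    have hS1 : (S : Subgroup Gal(P.SplittingField/K)).index = 1 := by
      rw [← hidx]
      refine hS _ ?_
      rw [hidx]
      exact S.not_dvd_index
    obtain ⟨a, ha⟩ := IsPGroup.iff_card.1 S.isPGroup'
    have hG : Nat.card Gal(P.SplittingField/K) = r ^ a := by
      rw [← ha, ← (S : Subgroup Gal(P.SplittingField/K)).card_mul_index, hS1, mul_one]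
    have ha0 : 0 < a := by
      refine Nat.pos_of_ne_zero fun h => ?_
      rw [h, pow_zero] at hG
      omega
    obtain ⟨H, hH⟩ := Sylow.exists_subgroup_card_pow_prime (G := Gal(P.SplittingField/K)) r
      (n := a - 1) (by rw [hG]; exact pow_dvd_pow r (Nat.sub_le a 1))
    have h5 := hdeg H
    rw [hH, hG] at h5
    have h6 : r ^ a = r * r ^ (a - 1) := by rw [← pow_succ']; congr 1; omega
    rw [h6] at h5
    have h7 := Nat.eq_of_mul_eq_mul_right (Nat.pow_pos hr.pos) h5
    have h8 := hasForm_finrank (K := K) (IntermediateField.fixedField H)
    rwa [h7] at h8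
  · -- a purely inseparable extension
    obtain ⟨p, hchar⟩ := CharP.exists K
    rcases CharP.char_is_prime_or_zero K p with hp | hp
    · have hfac : Fact p.Prime := ⟨hp⟩
      have hexp : ExpChar K p := ExpChar.prime hp
      have h1 : ∃ a : K, ∀ b : K, b ^ p ≠ a := by
        by_contra hcon
        push Not at hcon
        have : PerfectRing K p := PerfectRing.ofSurjective K p fun y => by
          obtain ⟨b, hb⟩ := hcon y
          exact ⟨b, hb⟩
        exact hper (PerfectRing.toPerfectField K p)
      obtain ⟨a, ha⟩ := h1
      have hirr := X_pow_sub_C_irreducible_of_prime hp ha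
      have hfacI : Fact (Irreducible (X ^ p - Polynomial.C a)) := ⟨hirr⟩
      have hne : (X ^ p - Polynomial.C a : K[X]) ≠ 0 := hirr.ne_zero
      have hfd : FiniteDimensional K (AdjoinRoot (X ^ p - Polynomial.C a)) :=
        (AdjoinRoot.powerBasis hne).finite
      have hfr : finrank K (AdjoinRoot (X ^ p - Polynomial.C a)) = p := by
        rw [(AdjoinRoot.powerBasis hne).finrank, AdjoinRoot.powerBasis_dim,
          natDegree_X_pow_sub_C]
      have hdvd : r ∣ p := by
        by_contra hnd
        have h2 := hS (AdjoinRoot (X ^ p - Polynomial.C a)) (by rw [hfr]; exact hnd)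
        rw [hfr] at h2
        exact hp.one_lt.ne' h2
      have hrp : r = p := (Nat.prime_dvd_prime_iff_eq hr hp).1 hdvd
      have h3 := hasForm_finrank (K := K) (AdjoinRoot (X ^ p - Polynomial.C a))
      rw [hfr] at h3
      rw [hrp]
      exact h3
    · subst hp
      have h0 : CharZero K := CharP.charP_to_charZero K
      exact absurd PerfectField.ofCharZero hper

end Run7.h94
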