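import Pool.Agent.H19CI.D

/-! Efficiency of anisotropic forms and systems whose degrees are of the form `q ^ b * ν ^ a`. -/

set_option autoImplicit false

open MvPolynomial Pool.Agent.H19CI

namespace Run7.h94

variable {K : Type*} [Field K]

/-- A bound `β` for the systems of forms of degree `D` gives a bound for all systems which can be
merged in degree `D`. -/
theorem system_beta (D : ℕ) (β : ℝ)
    (hβ : ∀ (V T : Type) [Fintype V] [Fintype T] (g : T → MvPolynomial V K),
      (∀ t, (g t).IsHomogeneous D) → Aniso g → (Fintype.card V : ℝ) ≤ Fintype.card T * β)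
    {J ι : Type} [Fintype J] [Fintype ι] (f : J → MvPolynomial ι K) (d : J → ℕ)
    (hf : ∀ j, (f j).IsHomogeneous (d j)) (e m : J → ℕ) (he : ∀ j, e j * d j = D)
    (hm : ∀ j, 0 < m j) (hN : ∀ j, HasForm K (e j) (Fin (m j))) (hani : Aniso f) :
    (Fintype.card ι : ℝ) ≤ ∑ j, β / m j := by
  classical
  choose N hN1 hN2 using hN
  let P := ∀ j, Fin (m j)
  let R : J → Type := fun j => ∀ j' : {j' : J // j' ≠ j}, Fin (m (j' : J))
  let E : ∀ j, P ≃ Fin (m j) × R j := fun j => Equiv.piSplitAt j fun j => Fin (m j)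
  let T := Σ j, R j
  have hP : 0 < Fintype.card P := by
    rw [Fintype.card_pi]
    exact Finset.prod_pos fun j _ => by simpa using hm j
  have hcard : ∀ j, Fintype.card P = m j * Fintype.card (R j) := fun j => by
    rw [Fintype.card_congr (E j), Fintype.card_prod, Fintype.card_fin]
  let g : T → MvPolynomial (P × ι) K := fun t =>
    bind₁ (fun s => copy (f t.1) ((E t.1).symm (s, t.2))) (N t.1)
  have hg : ∀ t, (g t).IsHomogeneous D := fun t => by
    have := bind_hom (N t.1) (fun s => copy (f t.1) ((E t.1).symm (s, t.2))) (e t.1) (d t.1)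
      (hN1 t.1) (fun s => copy_hom _ _ (hf t.1))
    rwa [he] at this
  have hgani : Aniso g := by
    intro x hx
    funext cv
    obtain ⟨c, v⟩ := cv
    have h0 : (fun v => x (c, v)) = 0 := hani _ fun j => by
      have h1 := hx ⟨j, (E j c).2⟩
      have h2 : eval x (g ⟨j, (E j c).2⟩) =
          eval (fun s => eval x (copy (f j) ((E j).symm (s, (E j c).2)))) (N j) := eval_bind _ _ _
      rw [h2] at h1
      have h3 := congrFun (hN2 j _ h1) (E j c).1
      have h4 : (E j).symm ((E j c).1, (E j c).2) = c := (E j).symm_apply_apply c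
      simp only [h4, eval_copy] at h3
      exact h3
    exact congrFun h0 v
  have h1 := hβ _ _ g hg hgani
  have h2 : (Fintype.card T : ℝ) = ∑ j, (Fintype.card P : ℝ) / m j := by
    rw [Fintype.card_sigma, Nat.cast_sum]
    refine Finset.sum_congr rfl fun j _ => ?_
    rw [hcard j, Nat.cast_mul]
    have : (m j : ℝ) ≠ 0 := by exact_mod_cast (hm j).ne'
    field_simp
  have hP' : (0 : ℝ) < Fintype.card P := by exact_mod_cast hP
  rw [h2, Fintype.card_prod, Nat.cast_mul, Finset.sum_mul] at h1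
  have h3 : ∑ j, (Fintype.card P : ℝ) / m j * β = Fintype.card P * ∑ j, β / m j := by
    rw [Finset.mul_sum]
    exact Finset.sum_congr rfl fun j _ => by ring
  rw [h3] at h1
  exact le_of_mul_le_mul_left h1 hP'

/-- A bounded positive sequence does not always grow geometrically. -/
theorem exists_flat (Θ : ℕ → ℝ) (h0 : ∀ M, 0 < Θ M) (h1 : ∀ M, Θ M ≤ 1) (ε : ℝ) (hε : 0 < ε)
    (B : ℕ) : ∃ M, B ≤ M ∧ ∀ b ≤ B, Θ M ≤ (1 + ε) * Θ (M - b) := by
  by_contra hcon
  push Not at hcon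
  rcases Nat.eq_zero_or_pos B with hB | hB
  · subst hB
    obtain ⟨b, hb, hlt⟩ := hcon 0 le_rfl
    have : b = 0 := by omega
    subst this
    have := h0 0
    simp only [Nat.sub_zero] at hlt
    nlinarith
  obtain ⟨c, hc0, hc⟩ : ∃ c : ℝ, 0 < c ∧ ∀ M < B, c ≤ Θ M := by
    refine ⟨(Finset.range B).inf' ⟨0, by simpa using hB⟩ Θ, ?_, fun M hM =>
      Finset.inf'_le _ (by simpa using hM)⟩
    rw [Finset.lt_inf'_iff]
    exact fun M _ => h0 M
  have key : ∀ M, c * (1 + ε) ^ (M / B) ≤ Θ M := by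
    intro M
    induction M using Nat.strong_induction_on with
    | _ M ih =>
      rcases Nat.lt_or_ge M B with h | h
      · rw [Nat.div_eq_of_lt h, pow_zero, mul_one]
        exact hc M h
      · obtain ⟨b, hb, hlt⟩ := hcon M h
        have hb0 : 0 < b := by
          refine Nat.pos_of_ne_zero fun h2 => ?_
          subst h2
          rw [Nat.sub_zero] at hlt
          have := h0 M
          nlinarith
        have h2 := ih (M - b) (by omega)
        have h3 : M / B ≤ (M - b) / B + 1 := by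
          rw [← Nat.add_div_right _ hB]
          exact Nat.div_le_div_right (by omega)
        calc c * (1 + ε) ^ (M / B) ≤ c * (1 + ε) ^ ((M - b) / B + 1) := by
              exact mul_le_mul_of_nonneg_left (pow_le_pow_right₀ (by linarith) h3) hc0.le
          _ = (1 + ε) * (c * (1 + ε) ^ ((M - b) / B)) := by ring
          _ ≤ (1 + ε) * Θ (M - b) := mul_le_mul_of_nonneg_left h2 (by linarith)
          _ ≤ Θ M := hlt.le
  obtain ⟨k, hk⟩ := pow_unbounded_of_one_lt (1 / c) (show (1 : ℝ) < 1 + ε by linarith)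
  have h2 := key (k * B)
  rw [Nat.mul_div_cancel _ hB] at h2
  have h3 := h1 (k * B)
  rw [div_lt_iff₀ hc0] at hk
  linarith

/-- the efficiency of the forms of degree `q ^ M * ν ^ a` -/
noncomputable def Eff (K : Type*) [Field K] (i q ν M : ℕ) : ℝ :=
  sSup {x : ℝ | ∃ a m : ℕ, HasForm K (q ^ M * ν ^ a) (Fin m) ∧
    x = (m : ℝ) / ((q : ℝ) ^ M * (ν : ℝ) ^ a) ^ i}

variable {i q ν : ℕ}

theorem eff_bdd (hK : IsC K i) (hq : 0 < q) (hν : 0 < ν) (M : ℕ) :
    BddAbove {x : ℝ | ∃ a m : ℕ, HasForm K (q ^ M * ν ^ a) (Fin m) ∧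
      x = (m : ℝ) / ((q : ℝ) ^ M * (ν : ℝ) ^ a) ^ i} := by
  refine ⟨1, ?_⟩
  rintro x ⟨a, m, h, rfl⟩
  have h1 := h.card_le hK (by positivity)
  rw [Fintype.card_fin] at h1
  rw [div_le_one (by positivity)]
  exact_mod_cast h1

theorem eff_nonempty (hq : 0 < q) (hν : 0 < ν) (M : ℕ) :
    Set.Nonempty {x : ℝ | ∃ a m : ℕ, HasForm K (q ^ M * ν ^ a) (Fin m) ∧
      x = (m : ℝ) / ((q : ℝ) ^ M * (ν : ℝ) ^ a) ^ i} :=
  ⟨_, 0, 1, HasForm.one (by positivity), rfl⟩

theorem le_eff (hK : IsC K i) (hq : 0 < q) (hν : 0 < ν) {M a m : ℕ}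
    (h : HasForm K (q ^ M * ν ^ a) (Fin m)) :
    (m : ℝ) ≤ Eff K i q ν M * ((q : ℝ) ^ M * (ν : ℝ) ^ a) ^ i := by
  have h1 : (m : ℝ) / ((q : ℝ) ^ M * (ν : ℝ) ^ a) ^ i ≤ Eff K i q ν M :=
    le_csSup (eff_bdd hK hq hν M) ⟨a, m, h, rfl⟩
  rwa [div_le_iff₀ (by positivity)] at h1

theorem eff_le_one (hK : IsC K i) (hq : 0 < q) (hν : 0 < ν) (M : ℕ) : Eff K i q ν M ≤ 1 := by
  refine csSup_le (eff_nonempty hq hν M) ?_
  rintro x ⟨a, m, h, rfl⟩
  have h1 := h.card_le hK (by positivity)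
  rw [Fintype.card_fin] at h1
  rw [div_le_one (by positivity)]
  exact_mod_cast h1

theorem eff_pos (hK : IsC K i) (hq : 0 < q) (hν : 0 < ν) (M : ℕ) : 0 < Eff K i q ν M := by
  have h := le_eff hK hq hν (M := M) (a := 0) (m := 1) (HasForm.one (by positivity))
  by_contra hcon
  push Not at hcon
  have h1 : Eff K i q ν M * ((q : ℝ) ^ M * (ν : ℝ) ^ 0) ^ i ≤ 0 :=
    mul_nonpos_of_nonpos_of_nonneg hcon (by positivity)
  have h2 : ((1 : ℕ) : ℝ) = 1 := Nat.cast_one
  linarith

/-- approximation of the efficiency by forms of all large degrees -/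
theorem eff_approx (hν : 0 < ν) (hnorm : HasForm K ν (Fin (ν ^ i))) (hq : 0 < q)
    (M : ℕ) (x : ℝ) (hx : x < Eff K i q ν M) : ∃ A, ∀ a ≥ A, ∃ m : ℕ,
      HasForm K (q ^ M * ν ^ a) (Fin m) ∧ x * ((q : ℝ) ^ M * (ν : ℝ) ^ a) ^ i ≤ m := by
  obtain ⟨y, ⟨A, m, h, rfl⟩, hy⟩ := exists_lt_of_lt_csSup (eff_nonempty hq hν M) hx
  refine ⟨A, fun a ha => ⟨m * (ν ^ i) ^ (a - A), ?_, ?_⟩⟩
  · have h1 := h.compFin (hnorm.pow (a - A))
    have h2 : q ^ M * ν ^ A * ν ^ (a - A) = q ^ M * ν ^ a := by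
      rw [mul_assoc, ← pow_add]; congr 2; omega
    rwa [h2] at h1
  · rw [lt_div_iff₀ (by positivity)] at hy
    have h2 : ((q : ℝ) ^ M * (ν : ℝ) ^ a) ^ i =
        ((q : ℝ) ^ M * (ν : ℝ) ^ A) ^ i * ((ν : ℝ) ^ i) ^ (a - A) := by
      have h3 : (ν : ℝ) ^ a = (ν : ℝ) ^ A * (ν : ℝ) ^ (a - A) := by
        rw [← pow_add]; congr 1; omega
      rw [h3, ← pow_mul (ν : ℝ) i, mul_comm i, pow_mul, ← mul_pow]
      ring
    rw [h2]
    push_cast
    rw [← mul_assoc]
    exact mul_le_mul_of_nonneg_right hy.le (by positivity)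

/-- the number of variables of anisotropic systems of forms of the same degree -/
theorem same_eff (hi : 0 < i) (hK : IsC K i) (hq : 0 < q) (hν : 2 ≤ ν)
    (hnorm : HasForm K ν (Fin (ν ^ i))) (M a : ℕ) (V T : Type) [Fintype V] [Fintype T]
    (g : T → MvPolynomial V K) (hg : ∀ t, (g t).IsHomogeneous (q ^ M * ν ^ a)) (hani : Aniso g) :
    (Fintype.card V : ℝ) ≤ Fintype.card T *
      (Eff K i q ν M * ((q : ℝ) ^ M * (ν : ℝ) ^ a) ^ i) := by
  classical
  rcases Nat.eq_zero_or_pos (Fintype.card T) with hT | hT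
  · have : IsEmpty T := Fintype.card_eq_zero_iff.1 hT
    have hV : Fintype.card V = 0 := by
      by_contra hne
      obtain ⟨v⟩ := Fintype.card_pos_iff.1 (Nat.pos_of_ne_zero hne)
      have h1 : (fun _ : V => (1 : K)) = 0 := hani _ fun t => this.elim t
      exact one_ne_zero (congrFun h1 v)
    rw [hV, hT]
    simp
  · by_contra hlt
    push Not at hlt
    set t : ℝ := (Fintype.card T : ℝ) with ht
    set v : ℝ := (Fintype.card V : ℝ) with hv
    have ht0 : 0 < t := by rw [ht]; exact_mod_cast hT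
    set β : ℝ := Eff K i q ν M * ((q : ℝ) ^ M * (ν : ℝ) ^ a) ^ i with hβ
    have hv0 : 0 ≤ v := by rw [hv]; positivity
    -- a large power
    obtain ⟨A, hA⟩ := pow_unbounded_of_one_lt (t * v / (v - t * β)) (show (1 : ℝ) < (ν : ℝ) ^ i from
      one_lt_pow₀ (by exact_mod_cast (by omega : 1 < ν)) hi.ne')
    rw [div_lt_iff₀ (by linarith)] at hA
    set y : ℕ := (ν ^ i) ^ A with hy
    have hyr : (y : ℝ) = ((ν : ℝ) ^ i) ^ A := by rw [hy]; push_cast; rfl
    set u : ℕ := y / Fintype.card T with hu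
    have h1 : HasForm K (ν ^ A) (Fin (Fintype.card T * u)) :=
      (hnorm.pow A).mono (Nat.mul_div_le _ _)
    have h2 := HasForm.insert g _ hg hani h1
    have h3 : ν ^ A * (q ^ M * ν ^ a) = q ^ M * ν ^ (A + a) := by rw [pow_add]; ring
    rw [h3] at h2
    have h4 := le_eff hK hq (by omega) h2
    have h5 : ((q : ℝ) ^ M * (ν : ℝ) ^ (A + a)) ^ i =
        y * ((q : ℝ) ^ M * (ν : ℝ) ^ a) ^ i := by
      rw [hyr, ← pow_mul, mul_comm i A, pow_mul, ← mul_pow, pow_add]
      ring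
    rw [h5] at h4
    push_cast at h4
    have h6 : (y : ℝ) < t * (u + 1) := by
      have := Nat.lt_mul_div_succ y hT
      rw [ht]
      exact_mod_cast this
    have h7 : (u : ℝ) * v ≤ y * β := by
      rw [hβ]
      linarith
    have h8 : (y : ℝ) * v ≤ t * (y * β) + t * v := by
      calc (y : ℝ) * v ≤ t * (u + 1) * v := mul_le_mul_of_nonneg_right h6.le hv0
        _ = t * (u * v) + t * v := by ring
        _ ≤ t * (y * β) + t * v := by
          have := mul_le_mul_of_nonneg_left h7 ht0.le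
          linarith
    rw [← hyr] at hA
    nlinarith

/-- **Systems of forms of degrees `q ^ b * ν ^ a`** over a `C_i` field with a normic form of
order `i` and degree `ν`. -/
theorem two_gen (hi : 0 < i) (hK : IsC K i) (hq : 0 < q) (hν : 2 ≤ ν)
    (hnorm : HasForm K ν (Fin (ν ^ i))) {J ι : Type} [Fintype J] [Fintype ι]
    (f : J → MvPolynomial ι K) (a b : J → ℕ)
    (hf : ∀ j, (f j).IsHomogeneous (q ^ b j * ν ^ a j)) (hani : Aniso f) :
    Fintype.card ι ≤ ∑ j, (q ^ b j * ν ^ a j) ^ i := by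
  classical
  set s : ℝ := ∑ j, (((q : ℝ) ^ b j * (ν : ℝ) ^ a j) ^ i) with hs
  have hs0 : 0 ≤ s := Finset.sum_nonneg fun j _ => by positivity
  have hν0 : 0 < ν := by omega
  have hqr : (0 : ℝ) < q := by exact_mod_cast hq
  have hνr : (0 : ℝ) < ν := by exact_mod_cast hν0
  -- it is enough to lose a factor close to one
  have key : ∀ ε : ℝ, 0 < ε → ε < 1 → (Fintype.card ι : ℝ) ≤ (1 + ε) / (1 - ε) * s := by
    intro ε hε hε1
    set B := ∑ j, b j with hB
    have hbB : ∀ j, b j ≤ B := fun j => Finset.single_le_sum (fun j _ => Nat.zero_le _)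
      (Finset.mem_univ j)
    obtain ⟨M, hM, hflat⟩ := exists_flat (fun M => Eff K i q ν M) (eff_pos hK hq hν0)
      (eff_le_one hK hq hν0) ε hε B
    have hap : ∀ j, ∃ A, ∀ a' ≥ A, ∃ m : ℕ, HasForm K (q ^ (M - b j) * ν ^ a') (Fin m) ∧
        (1 - ε) * Eff K i q ν (M - b j) * ((q : ℝ) ^ (M - b j) * (ν : ℝ) ^ a') ^ i ≤ m := by
      intro j
      refine eff_approx hν0 hnorm hq (M - b j) _ ?_
      have := eff_pos hK hq hν0 (M - b j)
      nlinarith
    choose A hA using hap
    set N := ∑ j, (A j + a j) with hN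
    have hAN : ∀ j, A j + a j ≤ N := fun j => Finset.single_le_sum
      (f := fun j => A j + a j) (fun j _ => Nat.zero_le _) (Finset.mem_univ j)
    choose m hm1 hm2 using fun j => hA j (N - a j) (by have := hAN j; omega)
    have hD : ∀ j, q ^ (M - b j) * ν ^ (N - a j) * (q ^ b j * ν ^ a j) = q ^ M * ν ^ N := by
      intro j
      have h1 : q ^ (M - b j) * q ^ b j = q ^ M := by
        rw [← pow_add]; congr 1; have := hbB j; omega
      have h2 : ν ^ (N - a j) * ν ^ a j = ν ^ N := by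
        rw [← pow_add]; congr 1; have := hAN j; omega
      rw [← h1, ← h2]
      ring
    have hmpos : ∀ j, (0 : ℝ) < m j := by
      intro j
      refine lt_of_lt_of_le ?_ (hm2 j)
      have := eff_pos hK hq hν0 (M - b j)
      have h1 : 0 < 1 - ε := by linarith
      positivity
    have h1 := system_beta (q ^ M * ν ^ N)
      (Eff K i q ν M * ((q : ℝ) ^ M * (ν : ℝ) ^ N) ^ i)
      (fun V T _ _ g hg hani => same_eff hi hK hq hν hnorm M N V T g hg hani) f
      (fun j => q ^ b j * ν ^ a j) hf (fun j => q ^ (M - b j) * ν ^ (N - a j)) m hD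
      (fun j => by exact_mod_cast hmpos j) hm1 hani
    refine h1.trans ?_
    rw [hs, Finset.mul_sum]
    refine Finset.sum_le_sum fun j _ => ?_
    rw [div_le_iff₀ (hmpos j)]
    have h2 := hflat (b j) (hbB j)
    have h3 : ((q : ℝ) ^ M * (ν : ℝ) ^ N) ^ i =
        ((q : ℝ) ^ (M - b j) * (ν : ℝ) ^ (N - a j)) ^ i * ((q : ℝ) ^ b j * (ν : ℝ) ^ a j) ^ i := by
      rw [← mul_pow]
      congr 1
      have := hD j
      exact_mod_cast this.symm
    have he := eff_pos hK hq hν0 (M - b j)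
    have h1ε : 0 < 1 - ε := by linarith
    calc Eff K i q ν M * ((q : ℝ) ^ M * (ν : ℝ) ^ N) ^ i
        ≤ (1 + ε) * Eff K i q ν (M - b j) * ((q : ℝ) ^ M * (ν : ℝ) ^ N) ^ i :=
          mul_le_mul_of_nonneg_right h2 (by positivity)
      _ = (1 + ε) / (1 - ε) * ((q : ℝ) ^ b j * (ν : ℝ) ^ a j) ^ i *
          ((1 - ε) * Eff K i q ν (M - b j) *
            ((q : ℝ) ^ (M - b j) * (ν : ℝ) ^ (N - a j)) ^ i) := by
          rw [h3]
          field_simp
      _ ≤ (1 + ε) / (1 - ε) * ((q : ℝ) ^ b j * (ν : ℝ) ^ a j) ^ i * m j :=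
          mul_le_mul_of_nonneg_left (hm2 j) (by positivity)
  -- conclusion
  have hfin : (Fintype.card ι : ℝ) ≤ s := by
    by_contra hlt
    push Not at hlt
    set n : ℝ := (Fintype.card ι : ℝ) with hn
    -- choose `ε`
    set ε : ℝ := (n - s) / (2 * (n + s) + 1) with hε
    have hn0 : 0 < n := by linarith
    have hε0 : 0 < ε := div_pos (by linarith) (by positivity)
    have hε1 : ε < 1 := by
      rw [hε, div_lt_one (by positivity)]
      linarith
    have h1 := key ε hε0 hε1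
    rw [div_mul_eq_mul_div, le_div_iff₀ (by linarith)] at h1
    have h2 : ε * (2 * (n + s) + 1) = n - s := by
      rw [hε]; field_simp
    nlinarith
  have h2 : ((∑ j, (q ^ b j * ν ^ a j) ^ i : ℕ) : ℝ) = s := by
    rw [hs]; push_cast; rfl
  rw [← h2] at hfin
  exact_mod_cast hfin

end Run7.h94
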