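import Pool.Agent.Run7.h94.H2

/-! Pivoting in configurations of vectors: extremal functionals. -/

set_option autoImplicit false

open Finset

namespace Run7.h94.Tor

variable {V : Type*} [AddCommGroup V] [Module ℚ V] {ι : Type*}

/-- a basis consisting of vectors of the configuration `w`, with the dual basis -/
structure Frame (w : ι → V) (n : ℕ) where
  /-- the indices of the basis vectors -/
  b : Fin n → ι
  /-- the dual basis -/
  Θ : Fin n → V →ₗ[ℚ] ℚ
  dual : ∀ i j, Θ i (w (b j)) = if i = j then 1 else 0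
  recon : ∀ v, v = ∑ i, Θ i v • w (b i)

variable {w : ι → V} {n : ℕ}

theorem Frame.ext' {fr fr' : Frame w n} (h : fr.b = fr'.b) : fr = fr' := by
  obtain ⟨b, Θ, dual, recon⟩ := fr
  obtain ⟨b', Θ', dual', recon'⟩ := fr'
  simp only at h
  subst h
  have h1 : Θ = Θ' := by
    funext i
    ext v
    have h2 := congrArg (Θ i) (recon' v)
    rw [map_sum] at h2
    rw [h2, Finset.sum_eq_single i]
    · rw [map_smul, dual, if_pos rfl, smul_eq_mul, mul_one]
    · intro j _ hj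
      rw [map_smul, dual, if_neg (Ne.symm hj), smul_zero]
    · intro h; exact absurd (Finset.mem_univ i) h
  subst h1
  rfl

instance [Finite ι] : Finite (Frame w n) :=
  Finite.of_injective (fun fr => fr.b) fun _ _ h => Frame.ext' h

/-- exchange a basis vector -/
noncomputable def Frame.pivot (fr : Frame w n) (j : Fin n) (k : ι) (hk : fr.Θ j (w k) ≠ 0) :
    Frame w n where
  b := Function.update fr.b j k
  Θ := fun m => if m = j then (fr.Θ j (w k))⁻¹ • fr.Θ j else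
    fr.Θ m - (fr.Θ m (w k) / fr.Θ j (w k)) • fr.Θ j
  dual := by
    intro m l
    by_cases hm : m = j
    · subst hm
      by_cases hl : l = m
      · subst hl
        simp [hk]
      · have hl' : ¬ m = l := fun h => hl h.symm
        simp [Function.update_of_ne hl, fr.dual, hl']
    · by_cases hl : l = j
      · subst hl
        simp [hm, hk]
      · have hl' : ¬ j = l := fun h => hl h.symm
        simp [hm, Function.update_of_ne hl, fr.dual, hl']
  recon := by
    intro v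
    rw [← Finset.add_sum_erase _ _ (Finset.mem_univ j)]
    simp only [if_true, Function.update_self]
    have h1 : ∑ x ∈ Finset.univ.erase j, (if x = j then (fr.Θ j (w k))⁻¹ • fr.Θ j else
        fr.Θ x - (fr.Θ x (w k) / fr.Θ j (w k)) • fr.Θ j) v • w (Function.update fr.b j k x) =
        ∑ x ∈ Finset.univ.erase j, (fr.Θ x v • w (fr.b x) -
          (fr.Θ j v / fr.Θ j (w k)) • (fr.Θ x (w k) • w (fr.b x))) := by
      refine Finset.sum_congr rfl fun x hx => ?_
      have hx' := Finset.ne_of_mem_erase hx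
      rw [if_neg hx', Function.update_of_ne hx', LinearMap.sub_apply, LinearMap.smul_apply,
        sub_smul, smul_eq_mul, smul_smul]
      congr 2
      ring
    rw [h1, Finset.sum_sub_distrib, ← Finset.smul_sum]
    have h2 := fr.recon v
    have h3 := fr.recon (w k)
    rw [← Finset.add_sum_erase _ _ (Finset.mem_univ j)] at h2 h3
    have h4 : ∑ x ∈ Finset.univ.erase j, fr.Θ x (w k) • w (fr.b x) =
        w k - fr.Θ j (w k) • w (fr.b j) := eq_sub_of_add_eq' h3.symm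
    rw [h4, smul_sub, smul_smul, div_mul_cancel₀ _ hk, LinearMap.smul_apply, smul_eq_mul,
      div_eq_inv_mul]
    nth_rw 1 [h2]
    abel

theorem Frame.pivot_Θ_self (fr : Frame w n) (j : Fin n) (k : ι) (hk : fr.Θ j (w k) ≠ 0) (v : V) :
    (fr.pivot j k hk).Θ j v = fr.Θ j v / fr.Θ j (w k) := by
  simp [Frame.pivot, div_eq_inv_mul]

theorem Frame.pivot_Θ_ne (fr : Frame w n) (j : Fin n) (k : ι) (hk : fr.Θ j (w k) ≠ 0) {m : Fin n}
    (hm : m ≠ j) (v : V) :
    (fr.pivot j k hk).Θ m v = fr.Θ m v - fr.Θ m (w k) * (fr.Θ j v / fr.Θ j (w k)) := by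
  simp [Frame.pivot, hm]
  ring

theorem Frame.pivot_b_self (fr : Frame w n) (j : Fin n) (k : ι) (hk : fr.Θ j (w k) ≠ 0) :
    (fr.pivot j k hk).b j = k := by simp [Frame.pivot]

theorem Frame.pivot_b_ne (fr : Frame w n) (j : Fin n) (k : ι) (hk : fr.Θ j (w k) ≠ 0) {m : Fin n}
    (hm : m ≠ j) : (fr.pivot j k hk).b m = fr.b m := by simp [Frame.pivot, hm]

/-- an extremal functional which does not vanish on `D`; `C` is in general position -/
theorem exists_ray [Fintype ι] {C D : V} (hgen : ∀ (fr : Frame w n) m, fr.Θ m C ≠ 0)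
    (fr0 : Frame w n) (hfr0 : ∀ m, 0 < fr0.Θ m C) (hD : D ≠ 0) :
    ∃ (fr : Frame w n) (i : Fin n), (∀ m, 0 < fr.Θ m C) ∧ fr.Θ i D ≠ 0 ∧
      ∀ (k : ι) (hk : 0 < fr.Θ i (w k)) (m : Fin n), 0 < (fr.pivot i k hk.ne').Θ m C := by
  classical
  -- a sign
  obtain ⟨i0, hi0⟩ : ∃ i0, fr0.Θ i0 D ≠ 0 := by
    by_contra hcon
    push Not at hcon
    apply hD
    rw [fr0.recon D]
    exact Finset.sum_eq_zero fun i _ => by rw [hcon i, zero_smul]
  obtain ⟨E, hE, hE0⟩ : ∃ E : V, (E = D ∨ E = -D) ∧ 0 < fr0.Θ i0 E := by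
    rcases lt_or_gt_of_ne hi0 with h | h
    · exact ⟨-D, Or.inr rfl, by rw [map_neg]; linarith⟩
    · exact ⟨D, Or.inl rfl, h⟩
  -- the type of positive frames
  let T := {fr : Frame w n // ∀ m, 0 < fr.Θ m C} × Fin n
  have hne : Nonempty T := ⟨⟨⟨fr0, hfr0⟩, i0⟩⟩
  let key : T → Lex (ℚ × ℚ) := fun t => toLex (t.1.1.Θ t.2 E / t.1.1.Θ t.2 C,
    ∑ l, (t.1.1.Θ t.2 (w l) / t.1.1.Θ t.2 C) ^ 2)
  obtain ⟨⟨⟨fr, hfr⟩, i⟩, hmax⟩ := Finite.exists_max key
  have hkey : ∀ (fr' : Frame w n) (_ : ∀ m, 0 < fr'.Θ m C) (i' : Fin n),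
      fr'.Θ i' E / fr'.Θ i' C < fr.Θ i E / fr.Θ i C ∨
        (fr'.Θ i' E / fr'.Θ i' C = fr.Θ i E / fr.Θ i C ∧
          ∑ l, (fr'.Θ i' (w l) / fr'.Θ i' C) ^ 2 ≤ ∑ l, (fr.Θ i (w l) / fr.Θ i C) ^ 2) := by
    intro fr' hfr' i'
    have := hmax ⟨⟨fr', hfr'⟩, i'⟩
    exact Prod.Lex.le_iff.1 this
  have hpos : 0 < fr.Θ i E := by
    have h1 : 0 < fr0.Θ i0 E / fr0.Θ i0 C := div_pos hE0 (hfr0 i0)
    have h2 : 0 < fr.Θ i E / fr.Θ i C := by
      rcases hkey fr0 hfr0 i0 with h | h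
      · exact h1.trans h
      · rw [← h.1]; exact h1
    exact (div_pos_iff_of_pos_right (hfr i)).1 h2
  refine ⟨fr, i, hfr, ?_, ?_⟩
  · rcases hE with rfl | rfl
    · exact hpos.ne'
    · rw [map_neg] at hpos
      intro h0
      rw [h0] at hpos
      simp at hpos
  intro k hk m
  -- the ratio test
  by_contra hneg
  have hneg' : (fr.pivot i k hk.ne').Θ m C < 0 :=
    lt_of_le_of_ne (not_lt.1 hneg) (hgen _ _)
  have hmi : m ≠ i := by
    rintro rfl
    rw [fr.pivot_Θ_self] at hneg'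
    have := div_pos (hfr m) hk
    linarith
  rw [fr.pivot_Θ_ne _ _ _ hmi] at hneg'
  have hmk : 0 < fr.Θ m (w k) := by
    by_contra h
    push Not at h
    have h1 : 0 < fr.Θ i C / fr.Θ i (w k) := div_pos (hfr i) hk
    have h2 := hfr m
    nlinarith
  -- the smallest ratio
  have hfin : (Finset.univ.filter fun j => 0 < fr.Θ j (w k)).Nonempty := ⟨m, by simp [hmk]⟩
  obtain ⟨j, hj, hjmin⟩ := Finset.exists_min_image _ (fun j => fr.Θ j C / fr.Θ j (w k)) hfin
  have hjk : 0 < fr.Θ j (w k) := (Finset.mem_filter.1 hj).2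
  have hjm := hjmin m (by simp [hmk])
  have hmi' : fr.Θ m C / fr.Θ m (w k) < fr.Θ i C / fr.Θ i (w k) := by
    rw [div_lt_iff₀ hmk]
    linarith
  have hji : i ≠ j := by
    rintro rfl
    linarith
  set fr' := fr.pivot j k hjk.ne' with hfr'
  have hpos' : ∀ l, 0 < fr'.Θ l C := by
    intro l
    refine lt_of_le_of_ne ?_ (hgen fr' l).symm
    by_cases hl : l = j
    · subst hl
      rw [hfr', fr.pivot_Θ_self]
      exact (div_pos (hfr l) hjk).le
    · rw [hfr', fr.pivot_Θ_ne _ _ _ hl]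
      rcases le_or_gt (fr.Θ l (w k)) 0 with h | h
      · have h1 : 0 < fr.Θ j C / fr.Θ j (w k) := div_pos (hfr j) hjk
        have h2 := hfr l
        nlinarith
      · have h1 := hjmin l (by simp [h])
        have h2 : fr.Θ l (w k) * (fr.Θ j C / fr.Θ j (w k)) ≤
            fr.Θ l (w k) * (fr.Θ l C / fr.Θ l (w k)) := mul_le_mul_of_nonneg_left h1 h.le
        rw [mul_div_cancel₀ _ h.ne'] at h2
        linarith
  -- the decomposition
  have hdec : ∀ v, fr.Θ i v = fr'.Θ i v + fr.Θ i (w k) * fr'.Θ j v := by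
    intro v
    rw [hfr', fr.pivot_Θ_ne _ _ _ hji, fr.pivot_Θ_self]
    ring
  set α := fr'.Θ i C with hα
  set β := fr.Θ i (w k) * fr'.Θ j C with hβ
  have hαpos : 0 < α := hpos' i
  have hβpos : 0 < β := mul_pos hk (hpos' j)
  have hsum : fr.Θ i C = α + β := hdec C
  -- normalised vectors
  have hnorm : ∀ v, fr.Θ i v / fr.Θ i C = (α / (α + β)) * (fr'.Θ i v / fr'.Θ i C) +
      (β / (α + β)) * (fr'.Θ j v / fr'.Θ j C) := by
    intro v
    have h1 := hpos' j
    have h2 : α + β ≠ 0 := by positivity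
    rw [hdec v, hsum, ← hα, hβ]
    have h3 : fr'.Θ j C ≠ 0 := h1.ne'
    field_simp
  have hs1 : 0 < α / (α + β) := by positivity
  have ht1 : 0 < β / (α + β) := by positivity
  have hst : α / (α + β) + β / (α + β) = 1 := by
    have : α + β ≠ 0 := by positivity
    field_simp
  generalize α / (α + β) = s at hnorm hs1 hst
  generalize β / (α + β) = t at hnorm ht1 hst
  have hk1 := hkey fr' hpos' i
  have hk2 := hkey fr' hpos' j
  have hle1 : fr'.Θ i E / fr'.Θ i C ≤ fr.Θ i E / fr.Θ i C := by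
    rcases hk1 with h | h
    · exact h.le
    · exact h.1.le
  have hle2 : fr'.Θ j E / fr'.Θ j C ≤ fr.Θ i E / fr.Θ i C := by
    rcases hk2 with h | h
    · exact h.le
    · exact h.1.le
  have hE' := hnorm E
  have he1 : fr'.Θ i E / fr'.Θ i C = fr.Θ i E / fr.Θ i C := by
    refine le_antisymm hle1 ?_
    have ht : t = 1 - s := by linarith
    subst ht
    nlinarith
  have he2 : fr'.Θ j E / fr'.Θ j C = fr.Θ i E / fr.Θ i C := by
    refine le_antisymm hle2 ?_
    have ht : s = 1 - t := by linarith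
    subst ht
    nlinarith
  have hg1 : ∑ l, (fr'.Θ i (w l) / fr'.Θ i C) ^ 2 ≤ ∑ l, (fr.Θ i (w l) / fr.Θ i C) ^ 2 := by
    rcases hk1 with h | h
    · exact absurd he1 h.ne
    · exact h.2
  have hg2 : ∑ l, (fr'.Θ j (w l) / fr'.Θ j C) ^ 2 ≤ ∑ l, (fr.Θ i (w l) / fr.Θ i C) ^ 2 := by
    rcases hk2 with h | h
    · exact absurd he2 h.ne
    · exact h.2
  have hsq : ∑ l, (fr.Θ i (w l) / fr.Θ i C) ^ 2 =
      s * ∑ l, (fr'.Θ i (w l) / fr'.Θ i C) ^ 2 + t * ∑ l, (fr'.Θ j (w l) / fr'.Θ j C) ^ 2 -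
        s * t * ∑ l, (fr'.Θ i (w l) / fr'.Θ i C - fr'.Θ j (w l) / fr'.Θ j C) ^ 2 := by
    rw [Finset.mul_sum, Finset.mul_sum, Finset.mul_sum, ← Finset.sum_add_distrib,
      ← Finset.sum_sub_distrib]
    refine Finset.sum_congr rfl fun l _ => ?_
    rw [hnorm (w l)]
    have ht : t = 1 - s := by linarith
    subst ht
    ring
  have hzero : ∑ l, (fr'.Θ i (w l) / fr'.Θ i C - fr'.Θ j (w l) / fr'.Θ j C) ^ 2 = 0 := by
    refine le_antisymm ?_ (Finset.sum_nonneg fun l _ => sq_nonneg _)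
    have h1 : s * ∑ l, (fr'.Θ i (w l) / fr'.Θ i C) ^ 2 ≤ s * ∑ l, (fr.Θ i (w l) / fr.Θ i C) ^ 2 :=
      mul_le_mul_of_nonneg_left hg1 hs1.le
    have h2 : t * ∑ l, (fr'.Θ j (w l) / fr'.Θ j C) ^ 2 ≤ t * ∑ l, (fr.Θ i (w l) / fr.Θ i C) ^ 2 :=
      mul_le_mul_of_nonneg_left hg2 ht1.le
    have h3 : s * ∑ l, (fr.Θ i (w l) / fr.Θ i C) ^ 2 + t * ∑ l, (fr.Θ i (w l) / fr.Θ i C) ^ 2 =
        ∑ l, (fr.Θ i (w l) / fr.Θ i C) ^ 2 := by rw [← add_mul, hst, one_mul]
    have h4 : 0 < s * t := mul_pos hs1 ht1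
    have h5 : s * t * ∑ l, (fr'.Θ i (w l) / fr'.Θ i C - fr'.Θ j (w l) / fr'.Θ j C) ^ 2 ≤ 0 := by
      linarith
    by_contra h6
    push Not at h6
    have := mul_pos h4 h6
    linarith
  have hall := (Finset.sum_eq_zero_iff_of_nonneg fun l _ => sq_nonneg _).1 hzero (fr'.b i)
    (Finset.mem_univ _)
  have h1 := pow_eq_zero_iff (two_ne_zero) |>.1 hall
  rw [fr'.dual, fr'.dual, if_pos rfl, if_neg (Ne.symm hji), zero_div, sub_zero] at h1
  have h2 := one_div_pos.2 (hpos' i)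
  linarith

end Run7.h94.Tor
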