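import Pool.Agent.Run7.h94.Tor1

/-! Pivoting in configurations of vectors: perturbation to general position. -/

set_option autoImplicit false

open Finset Module

namespace Run7.h94.Tor

variable {V : Type*} [AddCommGroup V] [Module ℚ V] {ι : Type*}

/-- a nonnegative combination is a positive combination of linearly independent vectors -/
theorem exists_indep [Fintype ι] (w : ι → V) (c : ι → ℚ) (hc : ∀ i, 0 < c i) :
    ∃ (S : Finset ι) (g : ι → ℚ), (∀ i ∈ S, 0 < g i) ∧ ∑ i, c i • w i = ∑ i ∈ S, g i • w i ∧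
      LinearIndepOn ℚ w (S : Set ι) := by
  classical
  let P : Finset ι → Prop := fun S => ∃ g : ι → ℚ, (∀ i ∈ S, 0 < g i) ∧
    ∑ i, c i • w i = ∑ i ∈ S, g i • w i
  have hP : ∃ S, P S := ⟨Finset.univ, c, fun i _ => hc i, rfl⟩
  obtain ⟨S, ⟨g, hg, hgs⟩, hmin⟩ : ∃ S, P S ∧ ∀ T, P T → S.card ≤ T.card := by
    let Q : Set ℕ := {m | ∃ S, P S ∧ S.card = m}
    have hQ : Q.Nonempty := by
      obtain ⟨S, hS⟩ := hP
      exact ⟨_, S, hS, rfl⟩
    obtain ⟨S, hS, hSc⟩ := Nat.sInf_mem hQ
    refine ⟨S, hS, fun T hT => ?_⟩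
    rw [hSc]
    exact Nat.sInf_le ⟨T, hT, rfl⟩
  refine ⟨S, g, hg, hgs, ?_⟩
  rw [linearIndepOn_finset_iff]
  by_contra hcon
  push Not at hcon
  obtain ⟨h, hh, i0, hi0, hne⟩ := hcon
  -- a relation with a positive coefficient
  obtain ⟨f, hf, i1, hi1, hpos⟩ : ∃ f : ι → ℚ, ∑ i ∈ S, f i • w i = 0 ∧ ∃ i ∈ S, 0 < f i := by
    rcases lt_or_gt_of_ne hne with h1 | h1
    · refine ⟨fun i => -h i, ?_, i0, hi0, by simpa using h1⟩
      rw [← neg_zero, ← hh, ← Finset.sum_neg_distrib]
      exact Finset.sum_congr rfl fun i _ => neg_smul _ _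
    · exact ⟨h, hh, i0, hi0, h1⟩
  obtain ⟨j, hj, hjmin⟩ := Finset.exists_min_image (S.filter fun i => 0 < f i)
    (fun i => g i / f i) ⟨i1, by simp [hi1, hpos]⟩
  obtain ⟨hjS, hjpos⟩ := Finset.mem_filter.1 hj
  set t := g j / f j with ht
  have ht0 : 0 < t := div_pos (hg j hjS) hjpos
  have hnn : ∀ i ∈ S, 0 ≤ g i - t * f i := by
    intro i hi
    rcases le_or_gt (f i) 0 with h1 | h1
    · have := hg i hi
      nlinarith
    · have h2 := hjmin i (by simp [hi, h1])
      have h3 : t * f i ≤ g i / f i * f i := mul_le_mul_of_nonneg_right h2 h1.le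
      rw [div_mul_cancel₀ _ h1.ne'] at h3
      linarith
  let S' := S.filter fun i => 0 < g i - t * f i
  have hS' : P S' := by
    refine ⟨fun i => g i - t * f i, fun i hi => (Finset.mem_filter.1 hi).2, ?_⟩
    rw [hgs]
    have h1 : ∑ i ∈ S', (g i - t * f i) • w i = ∑ i ∈ S, (g i - t * f i) • w i := by
      refine Finset.sum_subset (Finset.filter_subset _ _) fun i hi hni => ?_
      have h2 : ¬ 0 < g i - t * f i := fun h => hni (Finset.mem_filter.2 ⟨hi, h⟩)
      have h3 : g i - t * f i = 0 := le_antisymm (not_lt.1 h2) (hnn i hi)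
      rw [h3, zero_smul]
    rw [h1]
    have h2 : ∑ i ∈ S, (g i - t * f i) • w i = ∑ i ∈ S, g i • w i - t • ∑ i ∈ S, f i • w i := by
      rw [Finset.smul_sum, ← Finset.sum_sub_distrib]
      exact Finset.sum_congr rfl fun i _ => by rw [sub_smul, mul_smul]
    rw [h2, hf, smul_zero, sub_zero]
  have hlt : S'.card < S.card := by
    refine Finset.card_lt_card ⟨Finset.filter_subset _ _, fun hsub => ?_⟩
    have h1 := (Finset.mem_filter.1 (hsub hjS)).2
    rw [ht, div_mul_cancel₀ _ hjpos.ne'] at h1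
    simp at h1
  have := hmin S' hS'
  omega

/-- perturbation to general position -/
theorem exists_near [Fintype ι] [FiniteDimensional ℚ V] (w : ι → V)
    (hw : Submodule.span ℚ (Set.range w) = ⊤) (c : ι → ℚ) (hc : ∀ i, 0 < c i) (C : V)
    (hC : C = ∑ i, c i • w i) :
    ∃ C' : V, (∀ (fr : Frame w (finrank ℚ V)) m, fr.Θ m C' ≠ 0) ∧
      (∀ (fr : Frame w (finrank ℚ V)) m, 0 < fr.Θ m C' → 0 ≤ fr.Θ m C) ∧
      ∃ fr0 : Frame w (finrank ℚ V), ∀ m, 0 < fr0.Θ m C' := by
  classical
  -- a general direction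
  obtain ⟨η, hη⟩ : ∃ η : V, ∀ S : Finset ι, Submodule.span ℚ (w '' (S : Set ι)) ≠ ⊤ →
      η ∉ Submodule.span ℚ (w '' (S : Set ι)) := by
    let p : {S : Finset ι // Submodule.span ℚ (w '' (S : Set ι)) ≠ ⊤} → Submodule ℚ V :=
      fun S => Submodule.span ℚ (w '' (S.1 : Set ι))
    have h1 : (⋃ i, (p i : Set V)) ≠ Set.univ := by
      intro h
      obtain ⟨S, hS⟩ := Subspace.exists_eq_top_of_iUnion_eq_univ h
      exact S.2 hS
    obtain ⟨η, hη⟩ := (Set.ne_univ_iff_exists_notMem _).1 h1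
    refine ⟨η, fun S hS hmem => hη (Set.mem_iUnion.2 ⟨⟨S, hS⟩, hmem⟩)⟩
  obtain ⟨h, hh⟩ : ∃ h : ι → ℚ, ∑ i, h i • w i = η := by
    have : η ∈ Submodule.span ℚ (Set.range w) := by rw [hw]; trivial
    exact (Submodule.mem_span_range_iff_exists_fun ℚ).1 this
  -- three conditions on a small number
  have E1 : ∀ᶠ ε in nhdsWithin (0 : ℚ) (Set.Ioi 0), ∀ S : Finset ι,
      Submodule.span ℚ (w '' (S : Set ι)) ≠ ⊤ →
        C + ε • η ∉ Submodule.span ℚ (w '' (S : Set ι)) := by
    rw [Filter.eventually_all]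
    intro S
    by_cases hS : Submodule.span ℚ (w '' (S : Set ι)) = ⊤
    · exact Filter.Eventually.of_forall fun ε h => absurd hS h
    by_cases hex : ∃ ε1 : ℚ, 0 < ε1 ∧ C + ε1 • η ∈ Submodule.span ℚ (w '' (S : Set ι))
    · obtain ⟨ε1, hε1, hmem⟩ := hex
      filter_upwards [Ioo_mem_nhdsGT hε1] with ε hε _ hmem'
      have h1 := Submodule.sub_mem _ hmem hmem'
      rw [add_sub_add_left_eq_sub, ← sub_smul] at h1
      have h2 : ε1 - ε ≠ 0 := by
        have := hε.2
        intro h0
        linarith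
      have h3 := Submodule.smul_mem _ (ε1 - ε)⁻¹ h1
      rw [smul_smul, inv_mul_cancel₀ h2, one_smul] at h3
      exact hη S hS h3
    · push Not at hex
      filter_upwards [self_mem_nhdsWithin] with ε hε _
      exact hex ε hε
  have htend : ∀ a b : ℚ, Filter.Tendsto (fun ε : ℚ => a + ε * b) (nhdsWithin (0 : ℚ) (Set.Ioi 0))
      (nhds a) := by
    intro a b
    have h1 : Continuous fun ε : ℚ => a + ε * b := by fun_prop
    have h2 := h1.tendsto 0
    rw [zero_mul, add_zero] at h2
    exact h2.mono_left nhdsWithin_le_nhds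
  have E2 : ∀ᶠ ε in nhdsWithin (0 : ℚ) (Set.Ioi 0), ∀ (fr : Frame w (finrank ℚ V)) m,
      0 < fr.Θ m C + ε * fr.Θ m η → 0 ≤ fr.Θ m C := by
    rw [Filter.eventually_all]
    intro fr
    rw [Filter.eventually_all]
    intro m
    by_cases hneg : fr.Θ m C < 0
    · filter_upwards [(htend (fr.Θ m C) (fr.Θ m η)).eventually_lt_const hneg] with ε hε h1
      linarith
    · exact Filter.Eventually.of_forall fun ε _ => not_lt.1 hneg
  have E3 : ∀ᶠ ε in nhdsWithin (0 : ℚ) (Set.Ioi 0), ∀ i, 0 < c i + ε * h i := by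
    rw [Filter.eventually_all]
    intro i
    exact (htend (c i) (h i)).eventually_const_lt (hc i)
  obtain ⟨ε, h1, h2, h3⟩ := (E1.and (E2.and E3)).exists
  set C' := C + ε • η with hC'
  have hgen : ∀ S : Finset ι, C' ∈ Submodule.span ℚ (w '' (S : Set ι)) →
      Submodule.span ℚ (w '' (S : Set ι)) = ⊤ := by
    intro S hS
    by_contra hne
    exact h1 S hne hS
  refine ⟨C', ?_, ?_, ?_⟩
  · intro fr m h0
    -- `C'` lies in the span of the other basis vectors
    let S : Finset ι := (Finset.univ.erase m).image fr.b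
    have hS : C' ∈ Submodule.span ℚ (w '' (S : Set ι)) := by
      rw [fr.recon C']
      refine Submodule.sum_mem _ fun l _ => ?_
      by_cases hl : l = m
      · rw [hl, h0, zero_smul]
        exact Submodule.zero_mem _
      · refine Submodule.smul_mem _ _ (Submodule.subset_span ⟨fr.b l, ?_, rfl⟩)
        exact Finset.mem_coe.2 (Finset.mem_image.2 ⟨l, Finset.mem_erase.2 ⟨hl, Finset.mem_univ _⟩,
          rfl⟩)
    have htop := hgen S hS
    have h4 : w (fr.b m) ∈ LinearMap.ker (fr.Θ m) := by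
      have h5 : Submodule.span ℚ (w '' (S : Set ι)) ≤ LinearMap.ker (fr.Θ m) := by
        rw [Submodule.span_le]
        rintro _ ⟨k, hk, rfl⟩
        obtain ⟨l, hl, rfl⟩ := Finset.mem_image.1 (Finset.mem_coe.1 hk)
        show fr.Θ m (w (fr.b l)) = 0
        rw [fr.dual, if_neg (Finset.ne_of_mem_erase hl).symm]
      rw [htop] at h5
      exact h5 trivial
    have h6 : fr.Θ m (w (fr.b m)) = 0 := h4
    rw [fr.dual, if_pos rfl] at h6
    exact one_ne_zero h6
  · intro fr m hpos
    refine h2 fr m ?_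
    rw [hC', map_add, map_smul, smul_eq_mul] at hpos
    exact hpos
  · have hC'' : C' = ∑ i, (c i + ε * h i) • w i := by
      rw [hC', hC, ← hh, Finset.smul_sum, ← Finset.sum_add_distrib]
      exact Finset.sum_congr rfl fun i _ => by rw [add_smul, mul_smul]
    obtain ⟨S, g, hg, hgs, hli⟩ := exists_indep w _ h3
    have hmem : C' ∈ Submodule.span ℚ (w '' (S : Set ι)) := by
      rw [hC'', hgs]
      exact Submodule.sum_mem _ fun i hi =>
        Submodule.smul_mem _ _ (Submodule.subset_span ⟨i, hi, rfl⟩)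
    have htop := hgen S hmem
    have hrange : Set.range (fun x : (S : Set ι) => w x) = w '' (S : Set ι) := by
      ext v
      simp
    let B : Module.Basis (S : Set ι) ℚ V := Module.Basis.mk hli (by
      show ⊤ ≤ Submodule.span ℚ (Set.range (fun x : (S : Set ι) => w x))
      rw [hrange, htop])
    have hB : ∀ x, B x = w x := fun x => by
      show (Module.Basis.mk hli _) x = _
      rw [Module.Basis.mk_apply]
    have hcard : Fintype.card (S : Set ι) = finrank ℚ V := (Module.finrank_eq_card_basis B).symm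
    let e := Fintype.equivFinOfCardEq hcard
    refine ⟨⟨fun m => (e.symm m : ι), fun m => B.coord (e.symm m), fun i j => ?_, fun v => ?_⟩,
      fun m => ?_⟩
    · rw [← hB, Module.Basis.coord_apply, Module.Basis.repr_self, Finsupp.single_apply]
      by_cases hij : i = j
      · rw [if_pos (by rw [hij]), if_pos hij]
      · rw [if_neg (fun h => hij (e.symm.injective h).symm), if_neg hij]
    · have h5 := B.sum_repr v
      have h6 : ∑ m, B.repr v (e.symm m) • B (e.symm m) = v := by
        rw [Equiv.sum_comp e.symm (fun x => B.repr v x • B x)]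
        exact h5
      conv_lhs => rw [← h6]
      exact Finset.sum_congr rfl fun m _ => by rw [hB, Module.Basis.coord_apply]
    · show 0 < B.coord (e.symm m) C'
      have h5 : C' = ∑ x : (S : Set ι), g x • B x := by
        rw [hC'', hgs, ← Finset.sum_coe_sort S]
        exact Finset.sum_congr rfl fun x _ => by rw [hB]
      rw [h5, Module.Basis.coord_apply, Module.Basis.repr_sum_self]
      exact hg _ (e.symm m).2

/-- **The extremal functional.** -/
theorem exists_functional [Fintype ι] [FiniteDimensional ℚ V] (w : ι → V)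
    (hw : Submodule.span ℚ (Set.range w) = ⊤) (c : ι → ℚ) (hc : ∀ i, 0 < c i) (C D : V)
    (hC : C = ∑ i, c i • w i) (hD : D ≠ 0) :
    ∃ (θ : V →ₗ[ℚ] ℚ) (J : Finset ι), θ D ≠ 0 ∧ (∀ j ∈ J, θ (w j) = 0) ∧ (∃ k, 0 < θ (w k)) ∧
      ∀ k, 0 < θ (w k) → ∃ a : ι → ℚ, (∀ i, 0 ≤ a i) ∧ (∀ i, a i ≠ 0 → i ∈ J ∨ i = k) ∧
        C = ∑ i, a i • w i := by
  classical
  obtain ⟨C', hgen, hnear, fr0, hfr0⟩ := exists_near w hw c hc C hC
  obtain ⟨fr, i, hfr, hiD, hray⟩ := exists_ray hgen fr0 hfr0 hD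
  refine ⟨fr.Θ i, (Finset.univ.erase i).image fr.b, hiD, ?_, ⟨fr.b i, ?_⟩, ?_⟩
  · intro j hj
    obtain ⟨l, hl, rfl⟩ := Finset.mem_image.1 hj
    rw [fr.dual, if_neg (Finset.ne_of_mem_erase hl).symm]
  · rw [fr.dual, if_pos rfl]
    exact one_pos
  · intro k hk
    set fr' := fr.pivot i k hk.ne' with hfr'
    refine ⟨fun l => ∑ m, if fr'.b m = l then fr'.Θ m C else 0, ?_, ?_, ?_⟩
    · intro l
      refine Finset.sum_nonneg fun m _ => ?_
      split_ifs
      · exact hnear fr' m (hray k hk m)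
      · exact le_rfl
    · intro l hl
      obtain ⟨m, _, hm⟩ := Finset.exists_ne_zero_of_sum_ne_zero hl
      have hm' : fr'.b m = l := by
        by_contra h
        rw [if_neg h] at hm
        exact hm rfl
      by_cases hmi : m = i
      · right
        rw [← hm', hmi, hfr', fr.pivot_b_self]
      · left
        rw [← hm', hfr', fr.pivot_b_ne _ _ _ hmi]
        exact Finset.mem_image.2 ⟨m, Finset.mem_erase.2 ⟨hmi, Finset.mem_univ _⟩, rfl⟩
    · conv_lhs => rw [fr'.recon C]
      simp_rw [Finset.sum_smul]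
      rw [Finset.sum_comm]
      refine Finset.sum_congr rfl fun m _ => ?_
      rw [Finset.sum_eq_single (fr'.b m)]
      · rw [if_pos rfl]
      · intro l _ hl
        rw [if_neg (Ne.symm hl), zero_smul]
      · intro h; exact absurd (Finset.mem_univ _) h

end Run7.h94.Tor
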