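import Pool.Agent.Run7.h94.Tor2

/-! Multihomogeneous polynomials of one multidegree over `C_1` fields. -/

set_option autoImplicit false

open Finset Module MvPolynomial Pool.Agent.H19CI

namespace Run7.h94.Tor

variable {K : Type*} [Field K] {N ρ : ℕ}

/-- the substitution which keeps the variables of positive weight -/
noncomputable def subs (ω : Fin N → ℤ) (J : Finset (Fin N)) (k : Fin N) :
    MvPolynomial {k : Fin N // 0 < ω k} K :=
  if h : 0 < ω k then X ⟨k, h⟩ else if k ∈ J then 1 else 0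

theorem subs_hom (ω : Fin N → ℤ) (J : Finset (Fin N)) (δ : ℤ) (F : MvPolynomial (Fin N) K)
    (hJ : ∀ j ∈ J, ω j = 0) (hF : ∀ a ∈ F.support, ∑ i, (a i : ℤ) * ω i = δ) :
    IsWeightedHomogeneous (fun k : {k : Fin N // 0 < ω k} => (ω k).toNat)
      (bind₁ (subs (K := K) ω J) F) δ.toNat := by
  classical
  rw [bind₁, aeval_def, eval₂_eq]
  refine (weightedHomogeneousSubmodule K _ δ.toNat).sum_mem fun a ha => ?_
  by_cases hneg : ∃ i ∈ a.support, ω i < 0
  · obtain ⟨i, hi, hi'⟩ := hneg
    have h1 : ∏ i ∈ a.support, subs (K := K) ω J i ^ a i = 0 := by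
      refine Finset.prod_eq_zero hi ?_
      have h2 : subs (K := K) ω J i = 0 := by
        unfold subs
        rw [dif_neg (by omega), if_neg]
        intro h
        have := hJ i h
        omega
      rw [h2, zero_pow (Finsupp.mem_support_iff.1 hi)]
    rw [h1, mul_zero]
    exact Submodule.zero_mem _
  · push Not at hneg
    have h1 : IsWeightedHomogeneous (fun k : {k : Fin N // 0 < ω k} => (ω k).toNat)
        (∏ i ∈ a.support, subs (K := K) ω J i ^ a i) (∑ i ∈ a.support, a i • (ω i).toNat) := by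
      refine IsWeightedHomogeneous.prod _ _ _ fun i hi => ?_
      refine IsWeightedHomogeneous.pow ?_ _
      unfold subs
      split_ifs with h1 h2
      · exact isWeightedHomogeneous_X K _ (⟨i, h1⟩ : {k : Fin N // 0 < ω k})
      · have h3 : (ω i).toNat = 0 := by omega
        rw [h3]
        exact isWeightedHomogeneous_one K _
      · exact isWeightedHomogeneous_zero K _ _
    have h2 : ∑ i ∈ a.support, a i • (ω i).toNat = δ.toNat := by
      have h3 := hF a ha
      have h4 : ∑ i, (a i : ℤ) * ω i = ∑ i ∈ a.support, (a i : ℤ) * ω i := by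
        symm
        refine Finset.sum_subset (Finset.subset_univ _) fun i _ hi => ?_
        rw [Finsupp.notMem_support_iff.1 hi]
        simp
      rw [h4] at h3
      have h5 : ((∑ i ∈ a.support, a i • (ω i).toNat : ℕ) : ℤ) = δ := by
        rw [← h3, Nat.cast_sum]
        refine Finset.sum_congr rfl fun i hi => ?_
        have := hneg i hi
        rw [smul_eq_mul, Nat.cast_mul, Int.toNat_of_nonneg this]
      omega
    rw [h2] at h1
    have h3 := (isWeightedHomogeneous_C (R := K)
      (fun k : {k : Fin N // 0 < ω k} => (ω k).toNat) (coeff a F)).mul h1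
    rw [zero_add] at h3
    exact h3

/-- evaluation -/
theorem eval_subs (ω : Fin N → ℤ) (J : Finset (Fin N)) (F : MvPolynomial (Fin N) K)
    (y : {k : Fin N // 0 < ω k} → K) :
    eval y (bind₁ (subs (K := K) ω J) F) =
      eval (fun k => if h : 0 < ω k then y ⟨k, h⟩ else if k ∈ J then 1 else 0) F := by
  have h1 : eval y (bind₁ (subs (K := K) ω J) F) = aeval y (bind₁ (subs (K := K) ω J) F) := rfl
  have h2 : eval (fun k => if h : 0 < ω k then y ⟨k, h⟩ else if k ∈ J then 1 else 0) F =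
      aeval (fun k => if h : 0 < ω k then y ⟨k, h⟩ else if k ∈ J then 1 else 0) F := rfl
  rw [h1, h2, aeval_bind₁]
  congr 2
  funext k
  unfold subs
  split_ifs with h3 h4
  · rw [aeval_X]
  · rw [map_one]
  · rw [map_zero]

/-- negative degree: everything vanishes -/
theorem eval_neg (ω : Fin N → ℤ) (J : Finset (Fin N)) (δ : ℤ) (hδ : δ < 0)
    (F : MvPolynomial (Fin N) K)
    (hJ : ∀ j ∈ J, ω j = 0) (hF : ∀ a ∈ F.support, ∑ i, (a i : ℤ) * ω i = δ)
    (y : {k : Fin N // 0 < ω k} → K) :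
    eval (fun k => if h : 0 < ω k then y ⟨k, h⟩ else if k ∈ J then 1 else 0) F = 0 := by
  rw [eval_eq]
  refine Finset.sum_eq_zero fun a ha => ?_
  have h1 : ∃ i, (a i : ℤ) * ω i < 0 := by
    by_contra hcon
    push Not at hcon
    have := hF a ha
    have h2 := Finset.sum_nonneg fun i (_ : i ∈ Finset.univ) => hcon i
    omega
  obtain ⟨i, hi⟩ := h1
  have h2 : ω i < 0 := by
    by_contra h
    push Not at h
    have : (0 : ℤ) ≤ a i := Int.natCast_nonneg _
    have := mul_nonneg this h
    omega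
  have h3 : a i ≠ 0 := by
    intro h
    rw [h] at hi
    simp at hi
  have h4 : i ∈ a.support := Finsupp.mem_support_iff.2 h3
  have h5 : i ∉ J := fun h => by
    have := hJ i h
    omega
  rw [Finset.prod_eq_zero h4, mul_zero]
  rw [dif_neg (by omega), if_neg h5, zero_pow h3]

/-- some positive multiple of `E` is a combination with nonnegative integral coefficients of the
vectors `w i` with `i` in `S` -/
def InCone (w : Fin N → Fin ρ → ℤ) (S : Set (Fin N)) (E : Fin ρ → ℤ) : Prop :=
  ∃ m : ℕ, 0 < m ∧ ∃ a : Fin N → ℕ, (∀ i, i ∉ S → a i = 0) ∧ ∑ i, a i • w i = m • E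

/-- common denominators -/
theorem exists_denom {ι : Type*} [Fintype ι] (a : ι → ℚ) :
    ∃ q : ℕ, 0 < q ∧ ∃ z : ι → ℤ, ∀ i, (z i : ℚ) = q * a i := by
  classical
  refine ⟨∏ i, (a i).den, Finset.prod_pos fun i _ => (a i).den_pos,
    fun i => (∏ j ∈ Finset.univ.erase i, ((a j).den : ℤ)) * (a i).num, fun i => ?_⟩
  rw [← Finset.mul_prod_erase _ _ (Finset.mem_univ i)]
  push_cast
  have h1 : ((a i).den : ℚ) * a i = (a i).num := by
    rw [mul_comm]; exact Rat.mul_den_eq_num (a i)
  rw [← h1]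
  ring

/-- the rational cone and the integral one -/
theorem inCone_of_rat (w : Fin N → Fin ρ → ℤ) (S : Set (Fin N)) (E : Fin ρ → ℤ) (a : Fin N → ℚ)
    (ha : ∀ i, 0 ≤ a i) (hS : ∀ i, a i ≠ 0 → i ∈ S)
    (hE : ∀ k, (E k : ℚ) = ∑ i, a i * w i k) : InCone w S E := by
  obtain ⟨q, hq, z, hz⟩ := exists_denom a
  refine ⟨q, hq, fun i => (z i).toNat, fun i hi => ?_, ?_⟩
  · have h1 : a i = 0 := by
      by_contra h
      exact hi (hS i h)
    have h2 : (z i : ℚ) = 0 := by rw [hz, h1, mul_zero]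
    have h3 : z i = 0 := by exact_mod_cast h2
    show (z i).toNat = 0
    rw [h3]; rfl
  · funext k
    have hnn : ∀ i, 0 ≤ z i := fun i => by
      have : (0 : ℚ) ≤ z i := by
        rw [hz]
        exact mul_nonneg (by positivity) (ha i)
      exact_mod_cast this
    have h1 : ((∑ i, (z i).toNat • w i) k : ℤ) = ∑ i, z i * w i k := by
      rw [Finset.sum_apply]
      refine Finset.sum_congr rfl fun i _ => ?_
      rw [Pi.smul_apply, nsmul_eq_mul]
      congr 1
      exact Int.toNat_of_nonneg (hnn i)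
    rw [h1, Pi.smul_apply, nsmul_eq_mul]
    have h2 : ((∑ i, z i * w i k : ℤ) : ℚ) = ((q : ℤ) * E k : ℤ) := by
      push_cast
      rw [hE k, Finset.mul_sum]
      refine Finset.sum_congr rfl fun i _ => ?_
      rw [hz]
      ring
    exact_mod_cast h2

/-- **Hypersurfaces of one class in toric varieties over `C_1` fields.** -/
theorem toric (hK : IsC K 1) {r : ℕ} (w : Fin N → Fin ρ → ℤ) (D H C : Fin ρ → ℤ) (hD : D ≠ 0)
    (M : ℕ) (c : Fin N → ℕ) (hc : ∀ i, 0 < c i ∧ c i ≤ M) (hC : C = ∑ i, c i • w i - (M * r) • D)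
    (F : Fin r → MvPolynomial (Fin N) K)
    (hF : ∀ j, ∀ a ∈ (F j).support, ∑ i, a i • w i = D)
    (hCbig : ∃ m : ℕ, 0 < m ∧ ∃ a : Fin N → ℕ, (∀ i, 0 < a i) ∧ ∑ i, a i • w i = m • C)
    (hHbig : ∃ m : ℕ, 0 < m ∧ ∃ a : Fin N → ℕ, (∀ i, 0 < a i) ∧ ∑ i, a i • w i = m • H)
    (hnef : ∀ S : Set (Fin N), InCone w S H → InCone w S C) :
    ∃ x : Fin N → K, (∀ j, eval x (F j) = 0) ∧ InCone w {i | x i ≠ 0} H := by
  classical
  obtain ⟨mH, hmH, aH, haH, hsH⟩ := hHbig
  obtain ⟨mC, hmC, aC, haC, hsC⟩ := hCbig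
  by_cases hF0 : ∀ j, F j = 0
  · refine ⟨fun _ => 1, fun j => by rw [hF0 j, map_zero], mH, hmH, aH, fun i hi => ?_, hsH⟩
    exact absurd (one_ne_zero (α := K)) hi
  push Not at hF0
  obtain ⟨j0, hj0⟩ := hF0
  obtain ⟨a0, ha0⟩ := (MvPolynomial.support_nonempty).2 hj0
  have hDa := hF j0 a0 ha0
  -- the rational vector space
  let wQ : Fin N → (Fin ρ → ℚ) := fun i k => (w i k : ℚ)
  let V : Submodule ℚ (Fin ρ → ℚ) := Submodule.span ℚ (Set.range wQ)
  let w' : Fin N → V := fun i => ⟨wQ i, Submodule.subset_span ⟨i, rfl⟩⟩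
  have hw' : Submodule.span ℚ (Set.range w') = ⊤ := by
    apply Submodule.map_injective_of_injective V.subtype_injective
    rw [Submodule.map_span, Submodule.map_top, Submodule.range_subtype, ← Set.range_comp]
    rfl
  -- the vectors
  have hvec : ∀ (E : Fin ρ → ℤ) (m : ℕ) (a : Fin N → ℕ), 0 < m → ∑ i, a i • w i = m • E →
      ∃ E' : V, (E' : Fin ρ → ℚ) = (fun k => (E k : ℚ)) ∧
        E' = ∑ i, ((a i : ℚ) / m) • w' i := by
    intro E m a hm hE
    refine ⟨∑ i, ((a i : ℚ) / m) • w' i, ?_, rfl⟩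
    funext k
    have h1 : ((∑ i, ((a i : ℚ) / m) • w' i : V) : Fin ρ → ℚ) k =
        ∑ i, ((a i : ℚ) / m) * (w i k : ℚ) := by
      rw [Submodule.coe_sum, Finset.sum_apply]
      rfl
    rw [h1]
    have h2 := congrFun hE k
    rw [Finset.sum_apply] at h2
    simp only [Pi.smul_apply, nsmul_eq_mul] at h2
    have h3 : ∑ i, (a i : ℚ) * (w i k : ℚ) = m * (E k : ℚ) := by exact_mod_cast h2
    have h4 : (m : ℚ) ≠ 0 := by
      have : 0 < (m : ℚ) := by exact_mod_cast hm
      exact this.ne'
    have h5 : ∑ i, ((a i : ℚ) / m) * (w i k : ℚ) = (∑ i, (a i : ℚ) * (w i k : ℚ)) / m := by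
      rw [Finset.sum_div]
      exact Finset.sum_congr rfl fun i _ => by ring
    rw [h5, h3]
    field_simp
  obtain ⟨H', hH', hH'w⟩ := hvec H mH aH hmH hsH
  obtain ⟨C', hC', hC'w⟩ := hvec C mC aC hmC hsC
  obtain ⟨D', hD', hD'w⟩ := hvec D 1 a0 one_pos (by rw [one_smul]; exact hDa)
  have hD'0 : D' ≠ 0 := by
    intro h0
    apply hD
    funext k
    have h1 := congrFun hD' k
    rw [h0] at h1
    have h2 : (0 : ℚ) = (D k : ℚ) := h1
    exact_mod_cast h2.symm
  obtain ⟨θ, J, hθD, hθJ, ⟨k0, hk0⟩, hray⟩ := exists_functional w' hw'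
    (fun i => (aH i : ℚ) / mH) (fun i => div_pos (by exact_mod_cast haH i)
      (by exact_mod_cast hmH)) H' D' hH'w hD'0
  -- the weights
  obtain ⟨q, hq, ω, hω⟩ := exists_denom fun i => θ (w' i)
  have hqpos : (0 : ℚ) < q := by exact_mod_cast hq
  have hωpos : ∀ i, 0 < ω i ↔ 0 < θ (w' i) := by
    intro i
    have h1 : (0 < ω i) ↔ (0 : ℚ) < (ω i : ℚ) := by exact_mod_cast Iff.rfl
    rw [h1, hω, mul_pos_iff_of_pos_left hqpos]
  have hωJ : ∀ j ∈ J, ω j = 0 := by
    intro j hj
    have h1 : (ω j : ℚ) = 0 := by rw [hω, hθJ j hj, mul_zero]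
    exact_mod_cast h1
  -- combinations
  have hcomb : ∀ (E : Fin ρ → ℤ) (E' : V) (a : Fin N → ℕ) (m : ℕ),
      (E' : Fin ρ → ℚ) = (fun k => (E k : ℚ)) → ∑ i, a i • w i = m • E →
        ((∑ i, (a i : ℤ) * ω i : ℤ) : ℚ) = q * (m * θ E') := by
    intro E E' a m hE' hE
    have h1 : (m : ℚ) • E' = ∑ i, (a i : ℚ) • w' i := by
      apply Subtype.ext
      funext k
      have h2 := congrFun hE k
      rw [Finset.sum_apply] at h2
      simp only [Pi.smul_apply, nsmul_eq_mul] at h2
      have h3 : ∑ i, (a i : ℚ) * (w i k : ℚ) = m * (E k : ℚ) := by exact_mod_cast h2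
      have h4 : ((∑ i, (a i : ℚ) • w' i : V) : Fin ρ → ℚ) k = ∑ i, (a i : ℚ) * (w i k : ℚ) := by
        rw [Submodule.coe_sum, Finset.sum_apply]
        rfl
      have h5 : (((m : ℚ) • E' : V) : Fin ρ → ℚ) k = m * (E k : ℚ) := by
        rw [Submodule.coe_smul, Pi.smul_apply, smul_eq_mul, hE']
      rw [h4, h5, h3]
    have h2 := congrArg θ h1
    rw [map_smul, smul_eq_mul, map_sum] at h2
    rw [h2, Finset.mul_sum]
    push_cast
    refine Finset.sum_congr rfl fun i _ => ?_
    rw [hω, map_smul, smul_eq_mul]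
    ring
  set δ : ℤ := ∑ i, (a0 i : ℤ) * ω i with hδ
  have hδθ : (δ : ℚ) = q * θ D' := by
    have := hcomb D D' a0 1 hD' (by rw [one_smul]; exact hDa)
    rw [Nat.cast_one, one_mul] at this
    exact this
  have hδ0 : δ ≠ 0 := by
    intro h0
    rw [h0] at hδθ
    have h1 : (q : ℚ) * θ D' ≠ 0 := mul_ne_zero hqpos.ne' hθD
    apply h1
    rw [← hδθ]
    simp
  have hFω : ∀ j, ∀ a ∈ (F j).support, ∑ i, (a i : ℤ) * ω i = δ := by
    intro j a ha
    have h1 := hcomb D D' a 1 hD' (by rw [one_smul]; exact hF j a ha)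
    rw [Nat.cast_one, one_mul, ← hδθ] at h1
    exact_mod_cast h1
  -- the points
  have hsemi : ∀ y : {k : Fin N // 0 < ω k} → K, y ≠ 0 →
      InCone w {i | (fun k => if h : 0 < ω k then y ⟨k, h⟩ else if k ∈ J then 1 else 0 :
        Fin N → K) i ≠ 0} H := by
    intro y hy
    obtain ⟨⟨k, hk⟩, hyk⟩ := Function.ne_iff.1 hy
    obtain ⟨a, ha, haS, haH'⟩ := hray k ((hωpos k).1 hk)
    refine inCone_of_rat w _ H a ha (fun i hi => ?_) fun l => ?_
    · rcases haS i hi with h | h
      · show (if h : 0 < ω i then y ⟨i, h⟩ else if i ∈ J then (1 : K) else 0) ≠ 0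
        rw [dif_neg (by rw [hωJ i h]; exact lt_irrefl _), if_pos h]
        exact one_ne_zero
      · subst h
        show (if h : 0 < ω i then y ⟨i, h⟩ else if i ∈ J then (1 : K) else 0) ≠ 0
        rw [dif_pos hk]
        exact hyk
    · have h1 := congrFun hH' l
      rw [← h1, haH', Submodule.coe_sum, Finset.sum_apply]
      rfl
  rcases lt_or_gt_of_ne hδ0 with hneg | hpos
  · have hy : (fun _ => 1 : {k : Fin N // 0 < ω k} → K) ≠ 0 := by
      intro h
      have := congrFun h ⟨k0, (hωpos k0).2 hk0⟩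
      exact one_ne_zero this
    exact ⟨_, fun j => eval_neg ω J δ hneg (F j) hωJ (hFω j) (fun _ => 1), hsemi _ hy⟩
  · -- the inequality
    have hθC : 0 ≤ θ C' := by
      obtain ⟨a, ha, haS, haH'⟩ := hray k0 hk0
      have h1 : InCone w {i | i ∈ J ∨ i = k0} H := by
        refine inCone_of_rat w _ H a ha haS fun l => ?_
        have h1 := congrFun hH' l
        rw [← h1, haH', Submodule.coe_sum, Finset.sum_apply]
        rfl
      obtain ⟨m, hm, b, hb, hbC⟩ := hnef _ h1
      have h2 := hcomb C C' b m hC' hbC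
      have h3 : (0 : ℤ) ≤ ∑ i, (b i : ℤ) * ω i := by
        refine Finset.sum_nonneg fun i _ => ?_
        by_cases hi : i ∈ J ∨ i = k0
        · rcases hi with hi | rfl
          · rw [hωJ i hi, mul_zero]
          · exact mul_nonneg (Int.natCast_nonneg _) ((hωpos i).2 hk0).le
        · rw [hb i hi]
          simp
      have h4 : (0 : ℚ) ≤ q * (m * θ C') := by
        rw [← h2]
        exact_mod_cast h3
      have h5 : (0 : ℚ) < m := by exact_mod_cast hm
      have h6 := (mul_nonneg_iff_of_pos_left hqpos).1 h4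
      exact (mul_nonneg_iff_of_pos_left h5).1 h6
    have hsumω : ((∑ i, (c i : ℤ) * ω i : ℤ) : ℚ) = q * θ C' + M * r * δ := by
      have h1 : ∑ i, (c i : ℚ) • w' i = C' + ((M * r : ℕ) : ℚ) • D' := by
        apply Subtype.ext
        funext k
        have h2 : ((∑ i, (c i : ℚ) • w' i : V) : Fin ρ → ℚ) k = ∑ i, (c i : ℚ) * (w i k : ℚ) := by
          rw [Submodule.coe_sum, Finset.sum_apply]
          rfl
        have h3 : ((C' + ((M * r : ℕ) : ℚ) • D' : V) : Fin ρ → ℚ) k =
            C k + ((M * r : ℕ) : ℚ) * D k := by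
          rw [Submodule.coe_add, Submodule.coe_smul, Pi.add_apply, Pi.smul_apply, hC', hD',
            smul_eq_mul]
        rw [h2, h3, hC]
        simp
      have h2 := congrArg θ h1
      rw [map_sum, map_add, map_smul, smul_eq_mul] at h2
      push_cast
      have h3 : ∑ i, (c i : ℚ) * (ω i : ℚ) = q * ∑ i, θ ((c i : ℚ) • w' i) := by
        rw [Finset.mul_sum]
        refine Finset.sum_congr rfl fun i _ => ?_
        rw [hω, map_smul, smul_eq_mul]
        ring
      rw [h3, h2, hδθ]
      push_cast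
      ring
    have hposC : (∀ i, 0 ≤ ω i) → 0 < θ C' := by
      intro hall
      rw [hC'w, map_sum]
      refine Finset.sum_pos' (fun i _ => ?_) ⟨k0, Finset.mem_univ _, ?_⟩
      · rw [map_smul, smul_eq_mul]
        refine mul_nonneg (by positivity) ?_
        have h1 : (0 : ℚ) ≤ ω i := by exact_mod_cast hall i
        rw [hω] at h1
        exact (mul_nonneg_iff_of_pos_left hqpos).1 h1
      · rw [map_smul, smul_eq_mul]
        refine mul_pos (div_pos (by exact_mod_cast haC k0) (by exact_mod_cast hmC)) hk0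
    have hsplit : ∑ i, (c i : ℤ) * ω i ≤ M * ∑ i : {k : Fin N // 0 < ω k}, ω i ∧
        ((∃ i, ω i < 0) → ∑ i, (c i : ℤ) * ω i < M * ∑ i : {k : Fin N // 0 < ω k}, ω i) := by
      have h1 : ∑ i : {k : Fin N // 0 < ω k}, ω i = ∑ i ∈ Finset.univ.filter (fun k => 0 < ω k), ω i := by
        rw [← Finset.sum_subtype (Finset.univ.filter fun k => 0 < ω k) (by simp) ω]
      have h2 : ∑ i ∈ Finset.univ.filter (fun k => 0 < ω k), ω i =
          ∑ i, if 0 < ω i then ω i else 0 := by
        rw [Finset.sum_filter]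
      rw [h1, h2, Finset.mul_sum]
      have h3 : ∀ i, (c i : ℤ) * ω i ≤ M * (if 0 < ω i then ω i else 0) := by
        intro i
        have h4 := (hc i).1
        have h5 := (hc i).2
        have h6 : (c i : ℤ) ≤ M := by exact_mod_cast h5
        have h7 : (0 : ℤ) < c i := by exact_mod_cast h4
        split_ifs with h
        · exact mul_le_mul_of_nonneg_right h6 h.le
        · push Not at h
          rw [mul_zero]
          exact mul_nonpos_of_nonneg_of_nonpos h7.le h
      constructor
      · exact Finset.sum_le_sum fun i _ => h3 i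
      · rintro ⟨l, hl⟩
        refine Finset.sum_lt_sum (fun i _ => h3 i) ⟨l, Finset.mem_univ _, ?_⟩
        rw [if_neg (by omega), mul_zero]
        have h7 : (0 : ℤ) < c l := by exact_mod_cast (hc l).1
        exact mul_neg_of_pos_of_neg h7 hl
    have hM : (0 : ℤ) < M := by
      have h1 := (hc k0).1
      have h2 := (hc k0).2
      have : 0 < M := by omega
      exact_mod_cast this
    have hkey : (r : ℤ) * δ < ∑ i : {k : Fin N // 0 < ω k}, ω i := by
      have h1 : (M : ℤ) * (r * δ) ≤ ∑ i, (c i : ℤ) * ω i := by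
        have : ((M * (r * δ) : ℤ) : ℚ) ≤ ((∑ i, (c i : ℤ) * ω i : ℤ) : ℚ) := by
          rw [hsumω]
          push_cast
          have := mul_nonneg hqpos.le hθC
          linarith
        exact_mod_cast this
      have h3 : (M : ℤ) * (r * δ) < M * ∑ i : {k : Fin N // 0 < ω k}, ω i := by
        by_cases hex : ∃ i, ω i < 0
        · exact h1.trans_lt (hsplit.2 hex)
        · push Not at hex
          have h2 : (M : ℤ) * (r * δ) < ∑ i, (c i : ℤ) * ω i := by
            have : ((M * (r * δ) : ℤ) : ℚ) < ((∑ i, (c i : ℤ) * ω i : ℤ) : ℚ) := by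
              rw [hsumω]
              push_cast
              have := mul_pos hqpos (hposC hex)
              linarith
            exact_mod_cast this
          exact h2.trans_le hsplit.1
      exact lt_of_mul_lt_mul_left h3 hM.le
    obtain ⟨y, hy0, hy⟩ := weighted_same hK (fun j => bind₁ (subs (K := K) ω J) (F j))
      (fun k : {k : Fin N // 0 < ω k} => (ω k).toNat) δ.toNat (by omega)
      (fun k => by have := k.2; omega) (fun j => subs_hom ω J δ (F j) hωJ (hFω j)) (by
        simp only [pow_one, Fintype.card_fin]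
        have h1 : ((r * δ.toNat : ℕ) : ℤ) = r * δ := by
          push_cast
          rw [Int.toNat_of_nonneg hpos.le]
        have h2 : ((∑ k : {k : Fin N // 0 < ω k}, (ω k).toNat : ℕ) : ℤ) =
            ∑ i : {k : Fin N // 0 < ω k}, ω i := by
          push_cast
          exact Finset.sum_congr rfl fun i _ => Int.toNat_of_nonneg i.2.le
        omega)
    refine ⟨_, fun j => ?_, hsemi y hy0⟩
    rw [← eval_subs]
    exact hy j

end Run7.h94.Tor
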