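import Pool.Agent.Run7.h94.Tor3
import Pool.Agent.Run7.h94.Strong

/-! Multihomogeneous polynomials whose degrees are multiples of one class over `C_1` fields. -/

set_option autoImplicit false

open Finset Module MvPolynomial Pool.Agent.H19CI

namespace Run7.h94.Tor

variable {K : Type*} [Field K] {N ρ : ℕ}

/-- **Hypersurfaces whose classes are multiples of one class in toric varieties over `C_1` fields.** -/
theorem toric2 (hK : IsC K 1) {r : ℕ} (w : Fin N → Fin ρ → ℤ) (D H C : Fin ρ → ℤ) (hD : D ≠ 0)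
    (m : Fin r → ℕ) (hm : ∀ j, 0 < m j)
    (M : ℕ) (c : Fin N → ℕ) (hc : ∀ i, 0 < c i ∧ c i ≤ M)
    (hC : C = ∑ i, c i • w i - (M * ∑ j, m j) • D)
    (F : Fin r → MvPolynomial (Fin N) K)
    (hF : ∀ j, ∀ a ∈ (F j).support, ∑ i, a i • w i = m j • D)
    (hCbig : ∃ m : ℕ, 0 < m ∧ ∃ a : Fin N → ℕ, (∀ i, 0 < a i) ∧ ∑ i, a i • w i = m • C)
    (hHbig : ∃ m : ℕ, 0 < m ∧ ∃ a : Fin N → ℕ, (∀ i, 0 < a i) ∧ ∑ i, a i • w i = m • H)
    (hnef : ∀ S : Set (Fin N), InCone w S H → InCone w S C) :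
    ∃ x : Fin N → K, (∀ j, eval x (F j) = 0) ∧ InCone w {i | x i ≠ 0} H := by
  classical
  obtain ⟨mH, hmH, aH, haH, hsH⟩ := hHbig
  obtain ⟨mC, hmC, aC, haC, hsC⟩ := hCbig
  by_cases hF0 : ∀ j, F j = 0
  · refine ⟨fun _ => 1, fun j => by rw [hF0 j, map_zero], mH, hmH, aH, fun i hi => ?_, hsH⟩
    exact absurd (one_ne_zero (α := K)) hi
  push Not at hF0
  obtain ⟨j0, hj0⟩ := hF0
  obtain ⟨a0, ha0⟩ := (MvPolynomial.support_nonempty).2 hj0
  have hDa := hF j0 a0 ha0
  -- the rational vector space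
  let wQ : Fin N → (Fin ρ → ℚ) := fun i k => (w i k : ℚ)
  let V : Submodule ℚ (Fin ρ → ℚ) := Submodule.span ℚ (Set.range wQ)
  let w' : Fin N → V := fun i => ⟨wQ i, Submodule.subset_span ⟨i, rfl⟩⟩
  have hw' : Submodule.span ℚ (Set.range w') = ⊤ := by
    apply Submodule.map_injective_of_injective V.subtype_injective
    rw [Submodule.map_span, Submodule.map_top, Submodule.range_subtype, ← Set.range_comp]
    rfl
  -- the vectors
  have hvec : ∀ (E : Fin ρ → ℤ) (m : ℕ) (a : Fin N → ℕ), 0 < m → ∑ i, a i • w i = m • E →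
      ∃ E' : V, (E' : Fin ρ → ℚ) = (fun k => (E k : ℚ)) ∧
        E' = ∑ i, ((a i : ℚ) / m) • w' i := by
    intro E m a hm hE
    refine ⟨∑ i, ((a i : ℚ) / m) • w' i, ?_, rfl⟩
    funext k
    have h1 : ((∑ i, ((a i : ℚ) / m) • w' i : V) : Fin ρ → ℚ) k =
        ∑ i, ((a i : ℚ) / m) * (w i k : ℚ) := by
      rw [Submodule.coe_sum, Finset.sum_apply]
      rfl
    rw [h1]
    have h2 := congrFun hE k
    rw [Finset.sum_apply] at h2
    simp only [Pi.smul_apply, nsmul_eq_mul] at h2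
    have h3 : ∑ i, (a i : ℚ) * (w i k : ℚ) = m * (E k : ℚ) := by exact_mod_cast h2
    have h4 : (m : ℚ) ≠ 0 := by
      have : 0 < (m : ℚ) := by exact_mod_cast hm
      exact this.ne'
    have h5 : ∑ i, ((a i : ℚ) / m) * (w i k : ℚ) = (∑ i, (a i : ℚ) * (w i k : ℚ)) / m := by
      rw [Finset.sum_div]
      exact Finset.sum_congr rfl fun i _ => by ring
    rw [h5, h3]
    field_simp
  obtain ⟨H', hH', hH'w⟩ := hvec H mH aH hmH hsH
  obtain ⟨C', hC', hC'w⟩ := hvec C mC aC hmC hsC
  obtain ⟨D', hD', hD'w⟩ := hvec D (m j0) a0 (hm j0) hDa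
  have hD'0 : D' ≠ 0 := by
    intro h0
    apply hD
    funext k
    have h1 := congrFun hD' k
    rw [h0] at h1
    have h2 : (0 : ℚ) = (D k : ℚ) := h1
    exact_mod_cast h2.symm
  obtain ⟨θ, J, hθD, hθJ, ⟨k0, hk0⟩, hray⟩ := exists_functional w' hw'
    (fun i => (aH i : ℚ) / mH) (fun i => div_pos (by exact_mod_cast haH i)
      (by exact_mod_cast hmH)) H' D' hH'w hD'0
  -- the weights
  obtain ⟨q₀, hq₀, ω₀, hω₀⟩ := exists_denom fun i => θ (w' i)
  obtain ⟨q, hqdef⟩ : ∃ q : ℕ, q = m j0 * q₀ := ⟨_, rfl⟩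
  obtain ⟨ω, hωdef⟩ : ∃ ω : Fin N → ℤ, ω = fun i => (m j0 : ℤ) * ω₀ i := ⟨_, rfl⟩
  have hq : 0 < q := by rw [hqdef]; exact Nat.mul_pos (hm j0) hq₀
  have hω : ∀ i, (ω i : ℚ) = q * θ (w' i) := by
    intro i
    rw [hωdef, hqdef]
    push_cast
    rw [hω₀]
    ring
  have hqpos : (0 : ℚ) < q := by exact_mod_cast hq
  have hωpos : ∀ i, 0 < ω i ↔ 0 < θ (w' i) := by
    intro i
    have h1 : (0 < ω i) ↔ (0 : ℚ) < (ω i : ℚ) := by exact_mod_cast Iff.rfl
    rw [h1, hω, mul_pos_iff_of_pos_left hqpos]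
  have hωJ : ∀ j ∈ J, ω j = 0 := by
    intro j hj
    have h1 : (ω j : ℚ) = 0 := by rw [hω, hθJ j hj, mul_zero]
    exact_mod_cast h1
  -- combinations
  have hcomb : ∀ (E : Fin ρ → ℤ) (E' : V) (a : Fin N → ℕ) (m : ℕ),
      (E' : Fin ρ → ℚ) = (fun k => (E k : ℚ)) → ∑ i, a i • w i = m • E →
        ((∑ i, (a i : ℤ) * ω i : ℤ) : ℚ) = q * (m * θ E') := by
    intro E E' a m hE' hE
    have h1 : (m : ℚ) • E' = ∑ i, (a i : ℚ) • w' i := by
      apply Subtype.ext
      funext k
      have h2 := congrFun hE k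
      rw [Finset.sum_apply] at h2
      simp only [Pi.smul_apply, nsmul_eq_mul] at h2
      have h3 : ∑ i, (a i : ℚ) * (w i k : ℚ) = m * (E k : ℚ) := by exact_mod_cast h2
      have h4 : ((∑ i, (a i : ℚ) • w' i : V) : Fin ρ → ℚ) k = ∑ i, (a i : ℚ) * (w i k : ℚ) := by
        rw [Submodule.coe_sum, Finset.sum_apply]
        rfl
      have h5 : (((m : ℚ) • E' : V) : Fin ρ → ℚ) k = m * (E k : ℚ) := by
        rw [Submodule.coe_smul, Pi.smul_apply, smul_eq_mul, hE']
      rw [h4, h5, h3]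
    have h2 := congrArg θ h1
    rw [map_smul, smul_eq_mul, map_sum] at h2
    rw [h2, Finset.mul_sum]
    push_cast
    refine Finset.sum_congr rfl fun i _ => ?_
    rw [hω, map_smul, smul_eq_mul]
    ring
  set δ : ℤ := ∑ i, (a0 i : ℤ) * ω₀ i with hδ
  have hmj0 : (m j0 : ℚ) ≠ 0 := by
    have : (0 : ℚ) < m j0 := by exact_mod_cast hm j0
    exact this.ne'
  have hδθ : (δ : ℚ) = q * θ D' := by
    have h1 := hcomb D D' a0 (m j0) hD' hDa
    have h2 : ((∑ i, (a0 i : ℤ) * ω i : ℤ) : ℚ) = (m j0 : ℚ) * δ := by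
      rw [hδ, hωdef]
      push_cast
      rw [Finset.mul_sum]
      exact Finset.sum_congr rfl fun i _ => by ring
    rw [h2] at h1
    have h3 : (m j0 : ℚ) * δ = m j0 * (q * θ D') := by rw [h1]; ring
    exact mul_left_cancel₀ hmj0 h3
  have hδ0 : δ ≠ 0 := by
    intro h0
    rw [h0] at hδθ
    have h1 : (q : ℚ) * θ D' ≠ 0 := mul_ne_zero hqpos.ne' hθD
    apply h1
    rw [← hδθ]
    simp
  have hFω : ∀ j, ∀ a ∈ (F j).support, ∑ i, (a i : ℤ) * ω i = m j * δ := by
    intro j a ha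
    have h1 := hcomb D D' a (m j) hD' (hF j a ha)
    have h2 : (q : ℚ) * (m j * θ D') = m j * δ := by rw [hδθ]; ring
    rw [h2] at h1
    exact_mod_cast h1
  -- the points
  have hsemi : ∀ y : {k : Fin N // 0 < ω k} → K, y ≠ 0 →
      InCone w {i | (fun k => if h : 0 < ω k then y ⟨k, h⟩ else if k ∈ J then 1 else 0 :
        Fin N → K) i ≠ 0} H := by
    intro y hy
    obtain ⟨⟨k, hk⟩, hyk⟩ := Function.ne_iff.1 hy
    obtain ⟨a, ha, haS, haH'⟩ := hray k ((hωpos k).1 hk)
    refine inCone_of_rat w _ H a ha (fun i hi => ?_) fun l => ?_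
    · rcases haS i hi with h | h
      · show (if h : 0 < ω i then y ⟨i, h⟩ else if i ∈ J then (1 : K) else 0) ≠ 0
        rw [dif_neg (by rw [hωJ i h]; exact lt_irrefl _), if_pos h]
        exact one_ne_zero
      · subst h
        show (if h : 0 < ω i then y ⟨i, h⟩ else if i ∈ J then (1 : K) else 0) ≠ 0
        rw [dif_pos hk]
        exact hyk
    · have h1 := congrFun hH' l
      rw [← h1, haH', Submodule.coe_sum, Finset.sum_apply]
      rfl
  rcases lt_or_gt_of_ne hδ0 with hneg | hpos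
  · have hy : (fun _ => 1 : {k : Fin N // 0 < ω k} → K) ≠ 0 := by
      intro h
      have := congrFun h ⟨k0, (hωpos k0).2 hk0⟩
      exact one_ne_zero this
    exact ⟨_, fun j => eval_neg ω J (m j * δ) (mul_neg_of_pos_of_neg (by exact_mod_cast hm j) hneg)
      (F j) hωJ (hFω j) (fun _ => 1), hsemi _ hy⟩
  · -- the inequality
    have hθC : 0 ≤ θ C' := by
      obtain ⟨a, ha, haS, haH'⟩ := hray k0 hk0
      have h1 : InCone w {i | i ∈ J ∨ i = k0} H := by
        refine inCone_of_rat w _ H a ha haS fun l => ?_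
        have h1 := congrFun hH' l
        rw [← h1, haH', Submodule.coe_sum, Finset.sum_apply]
        rfl
      obtain ⟨mm, hmm, b, hb, hbC⟩ := hnef _ h1
      have h2 := hcomb C C' b mm hC' hbC
      have h3 : (0 : ℤ) ≤ ∑ i, (b i : ℤ) * ω i := by
        refine Finset.sum_nonneg fun i _ => ?_
        by_cases hi : i ∈ J ∨ i = k0
        · rcases hi with hi | rfl
          · rw [hωJ i hi, mul_zero]
          · exact mul_nonneg (Int.natCast_nonneg _) ((hωpos i).2 hk0).le
        · rw [hb i hi]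
          simp
      have h4 : (0 : ℚ) ≤ q * (mm * θ C') := by
        rw [← h2]
        exact_mod_cast h3
      have h5 : (0 : ℚ) < mm := by exact_mod_cast hmm
      have h6 := (mul_nonneg_iff_of_pos_left hqpos).1 h4
      exact (mul_nonneg_iff_of_pos_left h5).1 h6
    have hsumω : ((∑ i, (c i : ℤ) * ω i : ℤ) : ℚ) = q * θ C' + M * (∑ j, (m j : ℚ)) * δ := by
      have h1 : ∑ i, (c i : ℚ) • w' i = C' + ((M * ∑ j, m j : ℕ) : ℚ) • D' := by
        apply Subtype.ext
        funext k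
        have h2 : ((∑ i, (c i : ℚ) • w' i : V) : Fin ρ → ℚ) k = ∑ i, (c i : ℚ) * (w i k : ℚ) := by
          rw [Submodule.coe_sum, Finset.sum_apply]
          rfl
        have h3 : ((C' + ((M * ∑ j, m j : ℕ) : ℚ) • D' : V) : Fin ρ → ℚ) k =
            C k + ((M * ∑ j, m j : ℕ) : ℚ) * D k := by
          rw [Submodule.coe_add, Submodule.coe_smul, Pi.add_apply, Pi.smul_apply, hC', hD',
            smul_eq_mul]
        rw [h2, h3, hC]
        simp
      have h2 := congrArg θ h1
      rw [map_sum, map_add, map_smul, smul_eq_mul] at h2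
      push_cast
      have h3 : ∑ i, (c i : ℚ) * (ω i : ℚ) = q * ∑ i, θ ((c i : ℚ) • w' i) := by
        rw [Finset.mul_sum]
        refine Finset.sum_congr rfl fun i _ => ?_
        rw [hω, map_smul, smul_eq_mul]
        ring
      rw [h3, h2, hδθ]
      push_cast
      ring
    have hposC : (∀ i, 0 ≤ ω i) → 0 < θ C' := by
      intro hall
      rw [hC'w, map_sum]
      refine Finset.sum_pos' (fun i _ => ?_) ⟨k0, Finset.mem_univ _, ?_⟩
      · rw [map_smul, smul_eq_mul]
        refine mul_nonneg (by positivity) ?_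
        have h1 : (0 : ℚ) ≤ ω i := by exact_mod_cast hall i
        rw [hω] at h1
        exact (mul_nonneg_iff_of_pos_left hqpos).1 h1
      · rw [map_smul, smul_eq_mul]
        refine mul_pos (div_pos (by exact_mod_cast haC k0) (by exact_mod_cast hmC)) hk0
    have hsplit : ∑ i, (c i : ℤ) * ω i ≤ M * ∑ i : {k : Fin N // 0 < ω k}, ω i ∧
        ((∃ i, ω i < 0) → ∑ i, (c i : ℤ) * ω i < M * ∑ i : {k : Fin N // 0 < ω k}, ω i) := by
      have h1 : ∑ i : {k : Fin N // 0 < ω k}, ω i = ∑ i ∈ Finset.univ.filter (fun k => 0 < ω k), ω i := by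
        rw [← Finset.sum_subtype (Finset.univ.filter fun k => 0 < ω k) (by simp) ω]
      have h2 : ∑ i ∈ Finset.univ.filter (fun k => 0 < ω k), ω i =
          ∑ i, if 0 < ω i then ω i else 0 := by
        rw [Finset.sum_filter]
      rw [h1, h2, Finset.mul_sum]
      have h3 : ∀ i, (c i : ℤ) * ω i ≤ M * (if 0 < ω i then ω i else 0) := by
        intro i
        have h4 := (hc i).1
        have h5 := (hc i).2
        have h6 : (c i : ℤ) ≤ M := by exact_mod_cast h5
        have h7 : (0 : ℤ) < c i := by exact_mod_cast h4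
        split_ifs with h
        · exact mul_le_mul_of_nonneg_right h6 h.le
        · push Not at h
          rw [mul_zero]
          exact mul_nonpos_of_nonneg_of_nonpos h7.le h
      constructor
      · exact Finset.sum_le_sum fun i _ => h3 i
      · rintro ⟨l, hl⟩
        refine Finset.sum_lt_sum (fun i _ => h3 i) ⟨l, Finset.mem_univ _, ?_⟩
        rw [if_neg (by omega), mul_zero]
        have h7 : (0 : ℤ) < c l := by exact_mod_cast (hc l).1
        exact mul_neg_of_pos_of_neg h7 hl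
    have hM : (0 : ℤ) < M := by
      have h1 := (hc k0).1
      have h2 := (hc k0).2
      have : 0 < M := by omega
      exact_mod_cast this
    have hkey : (∑ j, (m j : ℤ)) * δ < ∑ i : {k : Fin N // 0 < ω k}, ω i := by
      have h1 : (M : ℤ) * ((∑ j, (m j : ℤ)) * δ) ≤ ∑ i, (c i : ℤ) * ω i := by
        have : ((M * ((∑ j, (m j : ℤ)) * δ) : ℤ) : ℚ) ≤ ((∑ i, (c i : ℤ) * ω i : ℤ) : ℚ) := by
          rw [hsumω]
          push_cast
          have := mul_nonneg hqpos.le hθC
          linarith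
        exact_mod_cast this
      have h3 : (M : ℤ) * ((∑ j, (m j : ℤ)) * δ) < M * ∑ i : {k : Fin N // 0 < ω k}, ω i := by
        by_cases hex : ∃ i, ω i < 0
        · exact h1.trans_lt (hsplit.2 hex)
        · push Not at hex
          have h2 : (M : ℤ) * ((∑ j, (m j : ℤ)) * δ) < ∑ i, (c i : ℤ) * ω i := by
            have : ((M * ((∑ j, (m j : ℤ)) * δ) : ℤ) : ℚ) < ((∑ i, (c i : ℤ) * ω i : ℤ) : ℚ) := by
              rw [hsumω]
              push_cast
              have := mul_pos hqpos (hposC hex)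
              linarith
            exact_mod_cast this
          exact h2.trans_le hsplit.1
      exact lt_of_mul_lt_mul_left h3 hM.le
    obtain ⟨y, hy0, hy⟩ := strong_one hK (fun j => bind₁ (subs (K := K) ω J) (F j))
      (fun k : {k : Fin N // 0 < ω k} => (ω k).toNat) (fun j => (m j * δ).toNat)
      (fun k => by have := k.2; omega)
      (fun j => by
        have h1 : (0 : ℤ) < m j * δ := mul_pos (by exact_mod_cast hm j) hpos
        omega)
      (fun j => subs_hom ω J (m j * δ) (F j) hωJ (hFω j)) (by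
        have h1 : ((∑ j, (m j * δ).toNat : ℕ) : ℤ) = (∑ j, (m j : ℤ)) * δ := by
          push_cast
          rw [Finset.sum_mul]
          refine Finset.sum_congr rfl fun j _ => ?_
          have h1 : (0 : ℤ) < m j * δ := mul_pos (by exact_mod_cast hm j) hpos
          exact Int.toNat_of_nonneg h1.le
        have h2 : ((∑ k : {k : Fin N // 0 < ω k}, (ω k).toNat : ℕ) : ℤ) =
            ∑ i : {k : Fin N // 0 < ω k}, ω i := by
          push_cast
          exact Finset.sum_congr rfl fun i _ => Int.toNat_of_nonneg i.2.le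
        omega)
    refine ⟨_, fun j => ?_, hsemi y hy0⟩
    rw [← eval_subs]
    exact hy j

end Run7.h94.Tor
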