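import Pool.Agent.Run7.h94.Tor4

/-! Pivoting in configurations of vectors: functionals which are positive on a given vector. -/

set_option autoImplicit false

open Finset Module

namespace Run7.h94.Tor

variable {V : Type*} [AddCommGroup V] [Module ℚ V] {ι : Type*}

/-- a nonnegative combination is a positive combination of linearly independent vectors -/
theorem exists_indep2 (w : ι → V) (S0 : Finset ι) (c : ι → ℚ) (hc : ∀ i ∈ S0, 0 < c i) :
    ∃ (S : Finset ι) (g : ι → ℚ), S ⊆ S0 ∧ (∀ i ∈ S, 0 < g i) ∧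
      ∑ i ∈ S0, c i • w i = ∑ i ∈ S, g i • w i ∧ LinearIndepOn ℚ w (S : Set ι) := by
  classical
  let P : Finset ι → Prop := fun S => S ⊆ S0 ∧ ∃ g : ι → ℚ, (∀ i ∈ S, 0 < g i) ∧
    ∑ i ∈ S0, c i • w i = ∑ i ∈ S, g i • w i
  have hP : ∃ S, P S := ⟨S0, Finset.Subset.refl _, c, hc, rfl⟩
  obtain ⟨S, ⟨hSS, g, hg, hgs⟩, hmin⟩ : ∃ S, P S ∧ ∀ T, P T → S.card ≤ T.card := by
    let Q : Set ℕ := {m | ∃ S, P S ∧ S.card = m}
    have hQ : Q.Nonempty := by
      obtain ⟨S, hS⟩ := hP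
      exact ⟨_, S, hS, rfl⟩
    obtain ⟨S, hS, hSc⟩ := Nat.sInf_mem hQ
    refine ⟨S, hS, fun T hT => ?_⟩
    rw [hSc]
    exact Nat.sInf_le ⟨T, hT, rfl⟩
  refine ⟨S, g, hSS, hg, hgs, ?_⟩
  rw [linearIndepOn_finset_iff]
  by_contra hcon
  push Not at hcon
  obtain ⟨h, hh, i0, hi0, hne⟩ := hcon
  -- a relation with a positive coefficient
  obtain ⟨f, hf, i1, hi1, hpos⟩ : ∃ f : ι → ℚ, ∑ i ∈ S, f i • w i = 0 ∧ ∃ i ∈ S, 0 < f i := by
    rcases lt_or_gt_of_ne hne with h1 | h1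
    · refine ⟨fun i => -h i, ?_, i0, hi0, by simpa using h1⟩
      rw [← neg_zero, ← hh, ← Finset.sum_neg_distrib]
      exact Finset.sum_congr rfl fun i _ => neg_smul _ _
    · exact ⟨h, hh, i0, hi0, h1⟩
  obtain ⟨j, hj, hjmin⟩ := Finset.exists_min_image (S.filter fun i => 0 < f i)
    (fun i => g i / f i) ⟨i1, by simp [hi1, hpos]⟩
  obtain ⟨hjS, hjpos⟩ := Finset.mem_filter.1 hj
  set t := g j / f j with ht
  have ht0 : 0 < t := div_pos (hg j hjS) hjpos
  have hnn : ∀ i ∈ S, 0 ≤ g i - t * f i := by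
    intro i hi
    rcases le_or_gt (f i) 0 with h1 | h1
    · have := hg i hi
      nlinarith
    · have h2 := hjmin i (by simp [hi, h1])
      have h3 : t * f i ≤ g i / f i * f i := mul_le_mul_of_nonneg_right h2 h1.le
      rw [div_mul_cancel₀ _ h1.ne'] at h3
      linarith
  let S' := S.filter fun i => 0 < g i - t * f i
  have hS' : P S' := by
    refine ⟨(Finset.filter_subset _ _).trans hSS, fun i => g i - t * f i,
      fun i hi => (Finset.mem_filter.1 hi).2, ?_⟩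
    rw [hgs]
    have h1 : ∑ i ∈ S', (g i - t * f i) • w i = ∑ i ∈ S, (g i - t * f i) • w i := by
      refine Finset.sum_subset (Finset.filter_subset _ _) fun i hi hni => ?_
      have h2 : ¬ 0 < g i - t * f i := fun h => hni (Finset.mem_filter.2 ⟨hi, h⟩)
      have h3 : g i - t * f i = 0 := le_antisymm (not_lt.1 h2) (hnn i hi)
      rw [h3, zero_smul]
    rw [h1]
    have h2 : ∑ i ∈ S, (g i - t * f i) • w i = ∑ i ∈ S, g i • w i - t • ∑ i ∈ S, f i • w i := by
      rw [Finset.smul_sum, ← Finset.sum_sub_distrib]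
      exact Finset.sum_congr rfl fun i _ => by rw [sub_smul, mul_smul]
    rw [h2, hf, smul_zero, sub_zero]
  have hlt : S'.card < S.card := by
    refine Finset.card_lt_card ⟨Finset.filter_subset _ _, fun hsub => ?_⟩
    have h1 := (Finset.mem_filter.1 (hsub hjS)).2
    rw [ht, div_mul_cancel₀ _ hjpos.ne'] at h1
    simp at h1
  have := hmin S' hS'
  omega

/-- perturbation to general position -/
theorem exists_near2 [Fintype ι] [FiniteDimensional ℚ V] (w : ι → V) (S0 : Finset ι)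
    (hS0 : Submodule.span ℚ (w '' (S0 : Set ι)) = ⊤) (c : ι → ℚ) (hc : ∀ i ∈ S0, 0 < c i) (C : V)
    (hC : C = ∑ i ∈ S0, c i • w i) :
    ∃ C' : V, (∀ (fr : Frame w (finrank ℚ V)) m, fr.Θ m C' ≠ 0) ∧
      (∀ (fr : Frame w (finrank ℚ V)) m, 0 < fr.Θ m C' → 0 ≤ fr.Θ m C) ∧
      ∃ fr0 : Frame w (finrank ℚ V), (∀ m, 0 < fr0.Θ m C') ∧ ∀ m, fr0.b m ∈ S0 := by
  classical
  -- a general direction
  obtain ⟨η, hη⟩ : ∃ η : V, ∀ S : Finset ι, Submodule.span ℚ (w '' (S : Set ι)) ≠ ⊤ →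
      η ∉ Submodule.span ℚ (w '' (S : Set ι)) := by
    let p : {S : Finset ι // Submodule.span ℚ (w '' (S : Set ι)) ≠ ⊤} → Submodule ℚ V :=
      fun S => Submodule.span ℚ (w '' (S.1 : Set ι))
    have h1 : (⋃ i, (p i : Set V)) ≠ Set.univ := by
      intro h
      obtain ⟨S, hS⟩ := Subspace.exists_eq_top_of_iUnion_eq_univ h
      exact S.2 hS
    obtain ⟨η, hη⟩ := (Set.ne_univ_iff_exists_notMem _).1 h1
    refine ⟨η, fun S hS hmem => hη (Set.mem_iUnion.2 ⟨⟨S, hS⟩, hmem⟩)⟩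
  obtain ⟨h, hh⟩ : ∃ h : ι → ℚ, ∑ i ∈ S0, h i • w i = η := by
    have h1 : η ∈ Submodule.span ℚ (w '' (S0 : Set ι)) := by rw [hS0]; trivial
    obtain ⟨f, hf⟩ := Submodule.mem_span_image_finset_iff_exists_fun ℚ |>.1 h1
    refine ⟨fun i => if hi : i ∈ S0 then f ⟨i, hi⟩ else 0, ?_⟩
    rw [← hf, ← Finset.sum_coe_sort S0]
    refine Finset.sum_congr rfl fun i _ => ?_
    have hd : (if hi : (i : ι) ∈ S0 then f ⟨i, hi⟩ else 0) = f i := dif_pos i.2
    exact congrArg (· • w i) hd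
  -- three conditions on a small number
  have E1 : ∀ᶠ ε in nhdsWithin (0 : ℚ) (Set.Ioi 0), ∀ S : Finset ι,
      Submodule.span ℚ (w '' (S : Set ι)) ≠ ⊤ →
        C + ε • η ∉ Submodule.span ℚ (w '' (S : Set ι)) := by
    rw [Filter.eventually_all]
    intro S
    by_cases hS : Submodule.span ℚ (w '' (S : Set ι)) = ⊤
    · exact Filter.Eventually.of_forall fun ε h => absurd hS h
    by_cases hex : ∃ ε1 : ℚ, 0 < ε1 ∧ C + ε1 • η ∈ Submodule.span ℚ (w '' (S : Set ι))
    · obtain ⟨ε1, hε1, hmem⟩ := hex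
      filter_upwards [Ioo_mem_nhdsGT hε1] with ε hε _ hmem'
      have h1 := Submodule.sub_mem _ hmem hmem'
      rw [add_sub_add_left_eq_sub, ← sub_smul] at h1
      have h2 : ε1 - ε ≠ 0 := by
        have := hε.2
        intro h0
        linarith
      have h3 := Submodule.smul_mem _ (ε1 - ε)⁻¹ h1
      rw [smul_smul, inv_mul_cancel₀ h2, one_smul] at h3
      exact hη S hS h3
    · push Not at hex
      filter_upwards [self_mem_nhdsWithin] with ε hε _
      exact hex ε hε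
  have htend : ∀ a b : ℚ, Filter.Tendsto (fun ε : ℚ => a + ε * b) (nhdsWithin (0 : ℚ) (Set.Ioi 0))
      (nhds a) := by
    intro a b
    have h1 : Continuous fun ε : ℚ => a + ε * b := by fun_prop
    have h2 := h1.tendsto 0
    rw [zero_mul, add_zero] at h2
    exact h2.mono_left nhdsWithin_le_nhds
  have E2 : ∀ᶠ ε in nhdsWithin (0 : ℚ) (Set.Ioi 0), ∀ (fr : Frame w (finrank ℚ V)) m,
      0 < fr.Θ m C + ε * fr.Θ m η → 0 ≤ fr.Θ m C := by
    rw [Filter.eventually_all]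
    intro fr
    rw [Filter.eventually_all]
    intro m
    by_cases hneg : fr.Θ m C < 0
    · filter_upwards [(htend (fr.Θ m C) (fr.Θ m η)).eventually_lt_const hneg] with ε hε h1
      linarith
    · exact Filter.Eventually.of_forall fun ε _ => not_lt.1 hneg
  have E3 : ∀ᶠ ε in nhdsWithin (0 : ℚ) (Set.Ioi 0), ∀ i, i ∈ S0 → 0 < c i + ε * h i := by
    rw [Filter.eventually_all]
    intro i
    by_cases hi : i ∈ S0
    · filter_upwards [(htend (c i) (h i)).eventually_const_lt (hc i hi)] with ε hε _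
      exact hε
    · exact Filter.Eventually.of_forall fun ε h => absurd h hi
  obtain ⟨ε, h1, h2, h3⟩ := (E1.and (E2.and E3)).exists
  set C' := C + ε • η with hC'
  have hgen : ∀ S : Finset ι, C' ∈ Submodule.span ℚ (w '' (S : Set ι)) →
      Submodule.span ℚ (w '' (S : Set ι)) = ⊤ := by
    intro S hS
    by_contra hne
    exact h1 S hne hS
  refine ⟨C', ?_, ?_, ?_⟩
  · intro fr m h0
    -- `C'` lies in the span of the other basis vectors
    let S : Finset ι := (Finset.univ.erase m).image fr.b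
    have hS : C' ∈ Submodule.span ℚ (w '' (S : Set ι)) := by
      rw [fr.recon C']
      refine Submodule.sum_mem _ fun l _ => ?_
      by_cases hl : l = m
      · rw [hl, h0, zero_smul]
        exact Submodule.zero_mem _
      · refine Submodule.smul_mem _ _ (Submodule.subset_span ⟨fr.b l, ?_, rfl⟩)
        exact Finset.mem_coe.2 (Finset.mem_image.2 ⟨l, Finset.mem_erase.2 ⟨hl, Finset.mem_univ _⟩,
          rfl⟩)
    have htop := hgen S hS
    have h4 : w (fr.b m) ∈ LinearMap.ker (fr.Θ m) := by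
      have h5 : Submodule.span ℚ (w '' (S : Set ι)) ≤ LinearMap.ker (fr.Θ m) := by
        rw [Submodule.span_le]
        rintro _ ⟨k, hk, rfl⟩
        obtain ⟨l, hl, rfl⟩ := Finset.mem_image.1 (Finset.mem_coe.1 hk)
        show fr.Θ m (w (fr.b l)) = 0
        rw [fr.dual, if_neg (Finset.ne_of_mem_erase hl).symm]
      rw [htop] at h5
      exact h5 trivial
    have h6 : fr.Θ m (w (fr.b m)) = 0 := h4
    rw [fr.dual, if_pos rfl] at h6
    exact one_ne_zero h6
  · intro fr m hpos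
    refine h2 fr m ?_
    rw [hC', map_add, map_smul, smul_eq_mul] at hpos
    exact hpos
  · have hC'' : C' = ∑ i ∈ S0, (c i + ε * h i) • w i := by
      rw [hC', hC, ← hh, Finset.smul_sum, ← Finset.sum_add_distrib]
      exact Finset.sum_congr rfl fun i _ => by rw [add_smul, mul_smul]
    obtain ⟨S, g, hSS, hg, hgs, hli⟩ := exists_indep2 w S0 _ h3
    have hmem : C' ∈ Submodule.span ℚ (w '' (S : Set ι)) := by
      rw [hC'', hgs]
      exact Submodule.sum_mem _ fun i hi =>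
        Submodule.smul_mem _ _ (Submodule.subset_span ⟨i, hi, rfl⟩)
    have htop := hgen S hmem
    have hrange : Set.range (fun x : (S : Set ι) => w x) = w '' (S : Set ι) := by
      ext v
      simp
    let B : Module.Basis (S : Set ι) ℚ V := Module.Basis.mk hli (by
      show ⊤ ≤ Submodule.span ℚ (Set.range (fun x : (S : Set ι) => w x))
      rw [hrange, htop])
    have hB : ∀ x, B x = w x := fun x => by
      show (Module.Basis.mk hli _) x = _
      rw [Module.Basis.mk_apply]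
    have hcard : Fintype.card (S : Set ι) = finrank ℚ V := (Module.finrank_eq_card_basis B).symm
    let e := Fintype.equivFinOfCardEq hcard
    refine ⟨⟨fun m => (e.symm m : ι), fun m => B.coord (e.symm m), fun i j => ?_, fun v => ?_⟩,
      fun m => ?_, fun m => hSS (e.symm m).2⟩
    · rw [← hB, Module.Basis.coord_apply, Module.Basis.repr_self, Finsupp.single_apply]
      by_cases hij : i = j
      · rw [if_pos (by rw [hij]), if_pos hij]
      · rw [if_neg (fun h => hij (e.symm.injective h).symm), if_neg hij]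
    · have h5 := B.sum_repr v
      have h6 : ∑ m, B.repr v (e.symm m) • B (e.symm m) = v := by
        rw [Equiv.sum_comp e.symm (fun x => B.repr v x • B x)]
        exact h5
      conv_lhs => rw [← h6]
      exact Finset.sum_congr rfl fun m _ => by rw [hB, Module.Basis.coord_apply]
    · show 0 < B.coord (e.symm m) C'
      have h5 : C' = ∑ x : (S : Set ι), g x • B x := by
        rw [hC'', hgs, ← Finset.sum_coe_sort S]
        exact Finset.sum_congr rfl fun x _ => by rw [hB]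
      rw [h5, Module.Basis.coord_apply, Module.Basis.repr_sum_self]
      exact hg _ (e.symm m).2

/-- an extremal functional which is positive on `E`; `C` is in general position -/
theorem exists_ray2 [Fintype ι] {w : ι → V} {n : ℕ} {C E : V}
    (hgen : ∀ (fr : Frame w n) m, fr.Θ m C ≠ 0)
    (fr0 : Frame w n) (hfr0 : ∀ m, 0 < fr0.Θ m C) (i0 : Fin n) (hE0 : 0 < fr0.Θ i0 E) :
    ∃ (fr : Frame w n) (i : Fin n), (∀ m, 0 < fr.Θ m C) ∧ 0 < fr.Θ i E ∧
      ∀ (k : ι) (hk : 0 < fr.Θ i (w k)) (m : Fin n), 0 < (fr.pivot i k hk.ne').Θ m C := by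
  classical
  -- the type of positive frames
  let T := {fr : Frame w n // ∀ m, 0 < fr.Θ m C} × Fin n
  have hne : Nonempty T := ⟨⟨⟨fr0, hfr0⟩, i0⟩⟩
  let key : T → Lex (ℚ × ℚ) := fun t => toLex (t.1.1.Θ t.2 E / t.1.1.Θ t.2 C,
    ∑ l, (t.1.1.Θ t.2 (w l) / t.1.1.Θ t.2 C) ^ 2)
  obtain ⟨⟨⟨fr, hfr⟩, i⟩, hmax⟩ := Finite.exists_max key
  have hkey : ∀ (fr' : Frame w n) (_ : ∀ m, 0 < fr'.Θ m C) (i' : Fin n),
      fr'.Θ i' E / fr'.Θ i' C < fr.Θ i E / fr.Θ i C ∨
        (fr'.Θ i' E / fr'.Θ i' C = fr.Θ i E / fr.Θ i C ∧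
          ∑ l, (fr'.Θ i' (w l) / fr'.Θ i' C) ^ 2 ≤ ∑ l, (fr.Θ i (w l) / fr.Θ i C) ^ 2) := by
    intro fr' hfr' i'
    have := hmax ⟨⟨fr', hfr'⟩, i'⟩
    exact Prod.Lex.le_iff.1 this
  have hpos : 0 < fr.Θ i E := by
    have h1 : 0 < fr0.Θ i0 E / fr0.Θ i0 C := div_pos hE0 (hfr0 i0)
    have h2 : 0 < fr.Θ i E / fr.Θ i C := by
      rcases hkey fr0 hfr0 i0 with h | h
      · exact h1.trans h
      · rw [← h.1]; exact h1
    exact (div_pos_iff_of_pos_right (hfr i)).1 h2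
  refine ⟨fr, i, hfr, hpos, ?_⟩
  intro k hk m
  -- the ratio test
  by_contra hneg
  have hneg' : (fr.pivot i k hk.ne').Θ m C < 0 :=
    lt_of_le_of_ne (not_lt.1 hneg) (hgen _ _)
  have hmi : m ≠ i := by
    rintro rfl
    rw [fr.pivot_Θ_self] at hneg'
    have := div_pos (hfr m) hk
    linarith
  rw [fr.pivot_Θ_ne _ _ _ hmi] at hneg'
  have hmk : 0 < fr.Θ m (w k) := by
    by_contra h
    push Not at h
    have h1 : 0 < fr.Θ i C / fr.Θ i (w k) := div_pos (hfr i) hk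
    have h2 := hfr m
    nlinarith
  -- the smallest ratio
  have hfin : (Finset.univ.filter fun j => 0 < fr.Θ j (w k)).Nonempty := ⟨m, by simp [hmk]⟩
  obtain ⟨j, hj, hjmin⟩ := Finset.exists_min_image _ (fun j => fr.Θ j C / fr.Θ j (w k)) hfin
  have hjk : 0 < fr.Θ j (w k) := (Finset.mem_filter.1 hj).2
  have hjm := hjmin m (by simp [hmk])
  have hmi' : fr.Θ m C / fr.Θ m (w k) < fr.Θ i C / fr.Θ i (w k) := by
    rw [div_lt_iff₀ hmk]
    linarith
  have hji : i ≠ j := by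
    rintro rfl
    linarith
  set fr' := fr.pivot j k hjk.ne' with hfr'
  have hpos' : ∀ l, 0 < fr'.Θ l C := by
    intro l
    refine lt_of_le_of_ne ?_ (hgen fr' l).symm
    by_cases hl : l = j
    · subst hl
      rw [hfr', fr.pivot_Θ_self]
      exact (div_pos (hfr l) hjk).le
    · rw [hfr', fr.pivot_Θ_ne _ _ _ hl]
      rcases le_or_gt (fr.Θ l (w k)) 0 with h | h
      · have h1 : 0 < fr.Θ j C / fr.Θ j (w k) := div_pos (hfr j) hjk
        have h2 := hfr l
        nlinarith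
      · have h1 := hjmin l (by simp [h])
        have h2 : fr.Θ l (w k) * (fr.Θ j C / fr.Θ j (w k)) ≤
            fr.Θ l (w k) * (fr.Θ l C / fr.Θ l (w k)) := mul_le_mul_of_nonneg_left h1 h.le
        rw [mul_div_cancel₀ _ h.ne'] at h2
        linarith
  -- the decomposition
  have hdec : ∀ v, fr.Θ i v = fr'.Θ i v + fr.Θ i (w k) * fr'.Θ j v := by
    intro v
    rw [hfr', fr.pivot_Θ_ne _ _ _ hji, fr.pivot_Θ_self]
    ring
  set α := fr'.Θ i C with hα
  set β := fr.Θ i (w k) * fr'.Θ j C with hβ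
  have hαpos : 0 < α := hpos' i
  have hβpos : 0 < β := mul_pos hk (hpos' j)
  have hsum : fr.Θ i C = α + β := hdec C
  -- normalised vectors
  have hnorm : ∀ v, fr.Θ i v / fr.Θ i C = (α / (α + β)) * (fr'.Θ i v / fr'.Θ i C) +
      (β / (α + β)) * (fr'.Θ j v / fr'.Θ j C) := by
    intro v
    have h1 := hpos' j
    have h2 : α + β ≠ 0 := by positivity
    rw [hdec v, hsum, ← hα, hβ]
    have h3 : fr'.Θ j C ≠ 0 := h1.ne'
    field_simp
  have hs1 : 0 < α / (α + β) := by positivity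
  have ht1 : 0 < β / (α + β) := by positivity
  have hst : α / (α + β) + β / (α + β) = 1 := by
    have : α + β ≠ 0 := by positivity
    field_simp
  generalize α / (α + β) = s at hnorm hs1 hst
  generalize β / (α + β) = t at hnorm ht1 hst
  have hk1 := hkey fr' hpos' i
  have hk2 := hkey fr' hpos' j
  have hle1 : fr'.Θ i E / fr'.Θ i C ≤ fr.Θ i E / fr.Θ i C := by
    rcases hk1 with h | h
    · exact h.le
    · exact h.1.le
  have hle2 : fr'.Θ j E / fr'.Θ j C ≤ fr.Θ i E / fr.Θ i C := by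
    rcases hk2 with h | h
    · exact h.le
    · exact h.1.le
  have hE' := hnorm E
  have he1 : fr'.Θ i E / fr'.Θ i C = fr.Θ i E / fr.Θ i C := by
    refine le_antisymm hle1 ?_
    have ht : t = 1 - s := by linarith
    subst ht
    nlinarith
  have he2 : fr'.Θ j E / fr'.Θ j C = fr.Θ i E / fr.Θ i C := by
    refine le_antisymm hle2 ?_
    have ht : s = 1 - t := by linarith
    subst ht
    nlinarith
  have hg1 : ∑ l, (fr'.Θ i (w l) / fr'.Θ i C) ^ 2 ≤ ∑ l, (fr.Θ i (w l) / fr.Θ i C) ^ 2 := by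
    rcases hk1 with h | h
    · exact absurd he1 h.ne
    · exact h.2
  have hg2 : ∑ l, (fr'.Θ j (w l) / fr'.Θ j C) ^ 2 ≤ ∑ l, (fr.Θ i (w l) / fr.Θ i C) ^ 2 := by
    rcases hk2 with h | h
    · exact absurd he2 h.ne
    · exact h.2
  have hsq : ∑ l, (fr.Θ i (w l) / fr.Θ i C) ^ 2 =
      s * ∑ l, (fr'.Θ i (w l) / fr'.Θ i C) ^ 2 + t * ∑ l, (fr'.Θ j (w l) / fr'.Θ j C) ^ 2 -
        s * t * ∑ l, (fr'.Θ i (w l) / fr'.Θ i C - fr'.Θ j (w l) / fr'.Θ j C) ^ 2 := by
    rw [Finset.mul_sum, Finset.mul_sum, Finset.mul_sum, ← Finset.sum_add_distrib,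
      ← Finset.sum_sub_distrib]
    refine Finset.sum_congr rfl fun l _ => ?_
    rw [hnorm (w l)]
    have ht : t = 1 - s := by linarith
    subst ht
    ring
  have hzero : ∑ l, (fr'.Θ i (w l) / fr'.Θ i C - fr'.Θ j (w l) / fr'.Θ j C) ^ 2 = 0 := by
    refine le_antisymm ?_ (Finset.sum_nonneg fun l _ => sq_nonneg _)
    have h1 : s * ∑ l, (fr'.Θ i (w l) / fr'.Θ i C) ^ 2 ≤ s * ∑ l, (fr.Θ i (w l) / fr.Θ i C) ^ 2 :=
      mul_le_mul_of_nonneg_left hg1 hs1.le
    have h2 : t * ∑ l, (fr'.Θ j (w l) / fr'.Θ j C) ^ 2 ≤ t * ∑ l, (fr.Θ i (w l) / fr.Θ i C) ^ 2 :=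
      mul_le_mul_of_nonneg_left hg2 ht1.le
    have h3 : s * ∑ l, (fr.Θ i (w l) / fr.Θ i C) ^ 2 + t * ∑ l, (fr.Θ i (w l) / fr.Θ i C) ^ 2 =
        ∑ l, (fr.Θ i (w l) / fr.Θ i C) ^ 2 := by rw [← add_mul, hst, one_mul]
    have h4 : 0 < s * t := mul_pos hs1 ht1
    have h5 : s * t * ∑ l, (fr'.Θ i (w l) / fr'.Θ i C - fr'.Θ j (w l) / fr'.Θ j C) ^ 2 ≤ 0 := by
      linarith
    by_contra h6
    push Not at h6
    have := mul_pos h4 h6
    linarith
  have hall := (Finset.sum_eq_zero_iff_of_nonneg fun l _ => sq_nonneg _).1 hzero (fr'.b i)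
    (Finset.mem_univ _)
  have h1 := pow_eq_zero_iff (two_ne_zero) |>.1 hall
  rw [fr'.dual, fr'.dual, if_pos rfl, if_neg (Ne.symm hji), zero_div, sub_zero] at h1
  have h2 := one_div_pos.2 (hpos' i)
  linarith

/-- a vector in the cone of a frame is a nonnegative combination of its basis -/
theorem frame_comb [Fintype ι] {w : ι → V} {n : ℕ} (fr : Frame w n) (v : V)
    (hv : ∀ m, 0 ≤ fr.Θ m v) :
    ∃ a : ι → ℚ, (∀ i, 0 ≤ a i) ∧ (∀ i, a i ≠ 0 → ∃ m, fr.b m = i) ∧ v = ∑ i, a i • w i := by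
  classical
  refine ⟨fun l => ∑ m, if fr.b m = l then fr.Θ m v else 0, ?_, ?_, ?_⟩
  · intro l
    refine Finset.sum_nonneg fun m _ => ?_
    split_ifs
    · exact hv m
    · exact le_rfl
  · intro l hl
    obtain ⟨m, _, hm⟩ := Finset.exists_ne_zero_of_sum_ne_zero hl
    refine ⟨m, ?_⟩
    by_contra h
    rw [if_neg h] at hm
    exact hm rfl
  · conv_lhs => rw [fr.recon v]
    simp_rw [Finset.sum_smul]
    rw [Finset.sum_comm]
    refine Finset.sum_congr rfl fun m _ => ?_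
    rw [Finset.sum_eq_single (fr.b m)]
    · rw [if_pos rfl]
    · intro l _ hl
      rw [if_neg (Ne.symm hl), zero_smul]
    · intro h; exact absurd (Finset.mem_univ _) h

/-- **The extremal functional, positive on `E`.** -/
theorem exists_functional2 [Fintype ι] [FiniteDimensional ℚ V] (w : ι → V) (S0 : Finset ι)
    (hS0 : Submodule.span ℚ (w '' (S0 : Set ι)) = ⊤) (c : ι → ℚ) (hc : ∀ i ∈ S0, 0 < c i)
    (C E : V) (hC : C = ∑ i ∈ S0, c i • w i)
    (hE : ¬ ∃ a : ι → ℚ, (∀ i, 0 ≤ a i) ∧ (∀ i, a i ≠ 0 → i ∈ S0) ∧ -E = ∑ i, a i • w i) :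
    ∃ (θ : V →ₗ[ℚ] ℚ) (J : Finset ι), 0 < θ E ∧ (∀ j ∈ J, θ (w j) = 0) ∧ (∃ k, 0 < θ (w k)) ∧
      ∀ k, 0 < θ (w k) → ∃ a : ι → ℚ, (∀ i, 0 ≤ a i) ∧ (∀ i, a i ≠ 0 → i ∈ J ∨ i = k) ∧
        C = ∑ i, a i • w i := by
  classical
  obtain ⟨C', hgen, hnear, fr0, hfr0, hb⟩ := exists_near2 w S0 hS0 c hc C hC
  obtain ⟨i0, hi0⟩ : ∃ i0, 0 < fr0.Θ i0 E := by
    by_contra hcon
    push Not at hcon
    obtain ⟨a, ha, haS, haE⟩ := frame_comb fr0 (-E) (fun m => by
      rw [map_neg]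
      have := hcon m
      linarith)
    exact hE ⟨a, ha, fun i hi => by
      obtain ⟨m, hm⟩ := haS i hi
      rw [← hm]
      exact hb m, haE⟩
  obtain ⟨fr, i, hfr, hiD, hray⟩ := exists_ray2 hgen fr0 hfr0 i0 hi0
  refine ⟨fr.Θ i, (Finset.univ.erase i).image fr.b, hiD, ?_, ⟨fr.b i, ?_⟩, ?_⟩
  · intro j hj
    obtain ⟨l, hl, rfl⟩ := Finset.mem_image.1 hj
    rw [fr.dual, if_neg (Finset.ne_of_mem_erase hl).symm]
  · rw [fr.dual, if_pos rfl]
    exact one_pos
  · intro k hk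
    obtain ⟨a, ha, haS, haC⟩ := frame_comb (fr.pivot i k hk.ne') C
      (fun m => hnear _ m (hray k hk m))
    refine ⟨a, ha, fun l hl => ?_, haC⟩
    obtain ⟨m, hm⟩ := haS l hl
    by_cases hmi : m = i
    · right
      rw [← hm, hmi, fr.pivot_b_self]
    · left
      rw [← hm, fr.pivot_b_ne _ _ _ hmi]
      exact Finset.mem_image.2 ⟨m, Finset.mem_erase.2 ⟨hmi, Finset.mem_univ _⟩, rfl⟩

end Run7.h94.Tor
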