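import Pool.Agent.Run7.h94.Tor5

/-! Multihomogeneous polynomials of arbitrary ample degrees over `C_1` fields. -/

set_option autoImplicit false

open Finset Module MvPolynomial Pool.Agent.H19CI

namespace Run7.h94.Tor

variable {K : Type*} [Field K] {N ρ : ℕ}

/-- **Complete intersections of ample divisors in toric varieties over `C_1` fields.** -/
theorem toric3 (hK : IsC K 1) {r : ℕ} (w : Fin N → Fin ρ → ℤ) (D : Fin r → Fin ρ → ℤ)
    (H E : Fin ρ → ℤ) (M : ℕ) (c : Fin N → ℕ) (hc : ∀ i, c i ≤ M)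
    (hE : E = ∑ i, c i • w i - M • ∑ j, D j)
    (F : Fin r → MvPolynomial (Fin N) K)
    (hF : ∀ j, ∀ a ∈ (F j).support, ∑ i, a i • w i = D j)
    (hample : ∀ j, ∀ S : Set (Fin N), InCone w S H ↔ InCone w S (D j))
    (hQ : ∀ S : Set (Fin N), InCone w S H → ∀ i, ∃ m : ℕ, 0 < m ∧ ∃ a : Fin N → ℤ,
      (∀ l, l ∉ S → a l = 0) ∧ ∑ l, a l • w l = m • w i)
    (hnn : ∃ S : Set (Fin N), InCone w S H ∧ ¬ InCone w S (-E)) :
    ∃ x : Fin N → K, (∀ j, eval x (F j) = 0) ∧ InCone w {i | x i ≠ 0} H := by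
  classical
  obtain ⟨S, hSH, hSE⟩ := hnn
  obtain ⟨mH, hmH, aH, haHS, hsH⟩ := hSH
  have hmH0 : (0 : ℚ) < mH := by exact_mod_cast hmH
  -- the rational vector space
  let wQ : Fin N → (Fin ρ → ℚ) := fun i k => (w i k : ℚ)
  let V : Submodule ℚ (Fin ρ → ℚ) := Submodule.span ℚ (Set.range wQ)
  let w' : Fin N → V := fun i => ⟨wQ i, Submodule.subset_span ⟨i, rfl⟩⟩
  have hw' : Submodule.span ℚ (Set.range w') = ⊤ := by
    apply Submodule.map_injective_of_injective V.subtype_injective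
    rw [Submodule.map_span, Submodule.map_top, Submodule.range_subtype, ← Set.range_comp]
    rfl
  -- the vectors
  have hvec : ∀ (E : Fin ρ → ℤ) (m : ℕ) (a : Fin N → ℤ), 0 < m → ∑ i, a i • w i = m • E →
      ∃ E' : V, (E' : Fin ρ → ℚ) = (fun k => (E k : ℚ)) ∧
        E' = ∑ i, ((a i : ℚ) / m) • w' i := by
    intro E m a hm hE
    refine ⟨∑ i, ((a i : ℚ) / m) • w' i, ?_, rfl⟩
    funext k
    have h1 : ((∑ i, ((a i : ℚ) / m) • w' i : V) : Fin ρ → ℚ) k =
        ∑ i, ((a i : ℚ) / m) * (w i k : ℚ) := by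
      rw [Submodule.coe_sum, Finset.sum_apply]
      rfl
    rw [h1]
    have h2 := congrFun hE k
    rw [Finset.sum_apply] at h2
    simp only [Pi.smul_apply, nsmul_eq_mul, smul_eq_mul] at h2
    have h3 : ∑ i, (a i : ℚ) * (w i k : ℚ) = m * (E k : ℚ) := by exact_mod_cast h2
    have h4 : (m : ℚ) ≠ 0 := by
      have : 0 < (m : ℚ) := by exact_mod_cast hm
      exact this.ne'
    have h5 : ∑ i, ((a i : ℚ) / m) * (w i k : ℚ) = (∑ i, (a i : ℚ) * (w i k : ℚ)) / m := by
      rw [Finset.sum_div]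
      exact Finset.sum_congr rfl fun i _ => by ring
    rw [h5, h3]
    field_simp
  have hnat : ∀ a : Fin N → ℕ, ∑ i, a i • w i = ∑ i, ((a i : ℕ) : ℤ) • w i := by
    intro a
    refine Finset.sum_congr rfl fun i _ => ?_
    rw [natCast_zsmul]
  have hinj : ∀ u v : V, (u : Fin ρ → ℚ) = (v : Fin ρ → ℚ) → u = v := fun u v h => Subtype.ext h
  obtain ⟨H', hH', hH'w⟩ := hvec H mH (fun i => (aH i : ℤ)) hmH (by rw [← hnat]; exact hsH)
  have hD0 : ∀ j, ∃ D' : V, (D' : Fin ρ → ℚ) = (fun k => (D j k : ℚ)) := by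
    intro j
    obtain ⟨m, hm, a, _, ha⟩ := (hample j S).1 ⟨mH, hmH, aH, haHS, hsH⟩
    obtain ⟨D', hD', _⟩ := hvec (D j) m (fun i => (a i : ℤ)) hm (by rw [← hnat]; exact ha)
    exact ⟨D', hD'⟩
  choose D' hD' using hD0
  obtain ⟨E', hE'def⟩ : ∃ E' : V, E' = ∑ i, (c i : ℚ) • w' i - (M : ℚ) • ∑ j, D' j := ⟨_, rfl⟩
  have hE' : (E' : Fin ρ → ℚ) = (fun k => (E k : ℚ)) := by
    funext k
    have h1 : ∑ j, ((D' j : V) : Fin ρ → ℚ) k = ∑ j, (D j k : ℚ) :=
      Finset.sum_congr rfl fun j _ => by rw [hD' j]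
    have h2 : ((E k : ℤ) : ℚ) = ∑ i, (c i : ℚ) * (w i k : ℚ) - M * ∑ j, (D j k : ℚ) := by
      rw [hE]
      simp
    have h3 : ((∑ i, (c i : ℚ) • w' i : V) : Fin ρ → ℚ) k = ∑ i, (c i : ℚ) * (w i k : ℚ) := by
      rw [Submodule.coe_sum, Finset.sum_apply]
      rfl
    have h4 : (((M : ℚ) • ∑ j, D' j : V) : Fin ρ → ℚ) k = M * ∑ j, (D j k : ℚ) := by
      rw [Submodule.coe_smul, Pi.smul_apply, Submodule.coe_sum, Finset.sum_apply, h1, smul_eq_mul]
    rw [hE'def, Submodule.coe_sub, Pi.sub_apply, h3, h4, h2]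
  -- the support of the combination
  let S0 : Finset (Fin N) := Finset.univ.filter fun i => 0 < aH i
  have hS0S : ∀ i ∈ S0, i ∈ S := by
    intro i hi
    by_contra h
    have h1 := haHS i h
    have h2 := (Finset.mem_filter.1 hi).2
    omega
  have hS0H : InCone w (S0 : Set (Fin N)) H := by
    refine ⟨mH, hmH, aH, fun i hi => ?_, hsH⟩
    by_contra h
    exact hi (Finset.mem_coe.2 (Finset.mem_filter.2 ⟨Finset.mem_univ _, Nat.pos_of_ne_zero h⟩))
  have hzvec : ∀ (i : Fin N) (m : ℕ) (a : Fin N → ℤ), ∑ l, a l • w l = m • w i →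
      (m : ℚ) • w' i = ∑ l, (a l : ℚ) • w' l := by
    intro i m a h
    apply hinj
    funext k
    have h1 : ((∑ l, (a l : ℚ) • w' l : V) : Fin ρ → ℚ) k = ∑ l, (a l : ℚ) * (w l k : ℚ) := by
      rw [Submodule.coe_sum, Finset.sum_apply]
      rfl
    have h2 : (((m : ℚ) • w' i : V) : Fin ρ → ℚ) k = m * (w i k : ℚ) := rfl
    rw [h1, h2]
    have h3 := congrFun h k
    rw [Finset.sum_apply] at h3
    simp only [Pi.smul_apply, nsmul_eq_mul, smul_eq_mul] at h3
    exact_mod_cast h3.symm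
  have hspan : Submodule.span ℚ (w' '' (S0 : Set (Fin N))) = ⊤ := by
    rw [eq_top_iff, ← hw', Submodule.span_le]
    rintro _ ⟨i, rfl⟩
    obtain ⟨m, hm, a, ha, hsum⟩ := hQ _ hS0H i
    have h1 := hzvec i m a hsum
    have hm0 : (m : ℚ) ≠ 0 := by
      have : (0 : ℚ) < m := by exact_mod_cast hm
      exact this.ne'
    have h2 : w' i = (m : ℚ)⁻¹ • ∑ l, (a l : ℚ) • w' l := by
      rw [← h1, smul_smul, inv_mul_cancel₀ hm0, one_smul]
    rw [h2]
    refine Submodule.smul_mem _ _ (Submodule.sum_mem _ fun l _ => ?_)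
    by_cases hl : l ∈ (S0 : Set (Fin N))
    · exact Submodule.smul_mem _ _ (Submodule.subset_span ⟨l, hl, rfl⟩)
    · rw [ha l hl, Int.cast_zero, zero_smul]
      exact Submodule.zero_mem _
  obtain ⟨θ, J, hθE, hθJ, ⟨k0, hk0⟩, hray⟩ := exists_functional2 w' S0 hspan
    (fun i => (aH i : ℚ) / mH) (fun i hi => div_pos (by exact_mod_cast (Finset.mem_filter.1 hi).2)
      hmH0) H' E' (by
        rw [hH'w, Finset.sum_filter]
        refine Finset.sum_congr rfl fun i _ => ?_
        split_ifs with h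
        · rw [Int.cast_natCast]
        · have h1 : aH i = 0 := by omega
          rw [h1]
          simp) (by
        rintro ⟨a, ha, haS, haE⟩
        apply hSE
        refine inCone_of_rat w S (-E) a ha (fun i hi => hS0S i (haS i hi)) fun k => ?_
        have h1 : ((-E' : V) : Fin ρ → ℚ) k = ∑ i, a i * (w i k : ℚ) := by
          rw [haE, Submodule.coe_sum, Finset.sum_apply]
          rfl
        rw [← h1, Submodule.coe_neg, Pi.neg_apply, hE']
        simp)
  -- the weights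
  obtain ⟨q, hq, z, hz⟩ := exists_denom (Sum.elim (fun i => θ (w' i)) (fun j => θ (D' j)))
  obtain ⟨ω, hωdef⟩ : ∃ ω : Fin N → ℤ, ω = fun i => z (Sum.inl i) := ⟨_, rfl⟩
  obtain ⟨δ, hδdef⟩ : ∃ δ : Fin r → ℤ, δ = fun j => z (Sum.inr j) := ⟨_, rfl⟩
  have hω : ∀ i, (ω i : ℚ) = q * θ (w' i) := by
    intro i
    rw [hωdef]
    exact hz (Sum.inl i)
  have hδθ : ∀ j, (δ j : ℚ) = q * θ (D' j) := by
    intro j
    rw [hδdef]
    exact hz (Sum.inr j)
  have hqpos : (0 : ℚ) < q := by exact_mod_cast hq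
  have hωpos : ∀ i, 0 < ω i ↔ 0 < θ (w' i) := by
    intro i
    have h1 : (0 < ω i) ↔ (0 : ℚ) < (ω i : ℚ) := by exact_mod_cast Iff.rfl
    rw [h1, hω, mul_pos_iff_of_pos_left hqpos]
  have hωJ : ∀ j ∈ J, ω j = 0 := by
    intro j hj
    have h1 : (ω j : ℚ) = 0 := by rw [hω, hθJ j hj, mul_zero]
    exact_mod_cast h1
  -- combinations
  have hcomb : ∀ (E : Fin ρ → ℤ) (E' : V) (a : Fin N → ℕ) (m : ℕ),
      (E' : Fin ρ → ℚ) = (fun k => (E k : ℚ)) → ∑ i, a i • w i = m • E →
        ((∑ i, (a i : ℤ) * ω i : ℤ) : ℚ) = q * (m * θ E') := by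
    intro E E' a m hE' hE
    have h1 : (m : ℚ) • E' = ∑ i, (a i : ℚ) • w' i := by
      apply Subtype.ext
      funext k
      have h2 := congrFun hE k
      rw [Finset.sum_apply] at h2
      simp only [Pi.smul_apply, nsmul_eq_mul] at h2
      have h3 : ∑ i, (a i : ℚ) * (w i k : ℚ) = m * (E k : ℚ) := by exact_mod_cast h2
      have h4 : ((∑ i, (a i : ℚ) • w' i : V) : Fin ρ → ℚ) k = ∑ i, (a i : ℚ) * (w i k : ℚ) := by
        rw [Submodule.coe_sum, Finset.sum_apply]
        rfl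
      have h5 : (((m : ℚ) • E' : V) : Fin ρ → ℚ) k = m * (E k : ℚ) := by
        rw [Submodule.coe_smul, Pi.smul_apply, smul_eq_mul, hE']
      rw [h4, h5, h3]
    have h2 := congrArg θ h1
    rw [map_smul, smul_eq_mul, map_sum] at h2
    rw [h2, Finset.mul_sum]
    push_cast
    refine Finset.sum_congr rfl fun i _ => ?_
    rw [hω, map_smul, smul_eq_mul]
    ring
  have hFω : ∀ j, ∀ a ∈ (F j).support, ∑ i, (a i : ℤ) * ω i = δ j := by
    intro j a ha
    have h1 := hcomb (D j) (D' j) a 1 (hD' j) (by rw [one_smul]; exact hF j a ha)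
    rw [Nat.cast_one, one_mul, ← hδθ] at h1
    exact_mod_cast h1
  -- the cones of `J` and one more vector contain `H`
  have hrayH : ∀ k, 0 < θ (w' k) → InCone w {i | i ∈ J ∨ i = k} H := by
    intro k hk
    obtain ⟨a, ha, haS, haH'⟩ := hray k hk
    refine inCone_of_rat w _ H a ha haS fun l => ?_
    have h1 := congrFun hH' l
    rw [← h1, haH', Submodule.coe_sum, Finset.sum_apply]
    rfl
  -- the degrees are positive
  have hδpos : ∀ j, 0 < δ j := by
    intro j
    obtain ⟨m, hm, b, hb, hbD⟩ := (hample j _).1 (hrayH k0 hk0)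
    have h2 := hcomb (D j) (D' j) b m (hD' j) hbD
    have hωk : 0 < ω k0 := (hωpos k0).2 hk0
    have hterm : ∀ i, 0 ≤ (b i : ℤ) * ω i := by
      intro i
      by_cases hi : i ∈ J ∨ i = k0
      · rcases hi with hi | rfl
        · rw [hωJ i hi, mul_zero]
        · exact mul_nonneg (Int.natCast_nonneg _) hωk.le
      · rw [hb i hi]
        simp
    have hbk : 0 < b k0 := by
      by_contra h0
      have h0' : b k0 = 0 := by omega
      have h1 : InCone w (J : Set (Fin N)) (D j) := by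
        refine ⟨m, hm, b, fun i hi => ?_, hbD⟩
        by_cases hik : i = k0
        · rw [hik, h0']
        · exact hb i (by
            rintro (h | h)
            · exact hi (Finset.mem_coe.2 h)
            · exact hik h)
      have h3 := (hample j _).2 h1
      obtain ⟨m', hm', a, ha, hsum⟩ := hQ _ h3 k0
      have h4 := congrArg θ (hzvec k0 m' a hsum)
      rw [map_smul, smul_eq_mul, map_sum] at h4
      have h5 : ∑ l, θ ((a l : ℚ) • w' l) = 0 := by
        refine Finset.sum_eq_zero fun l _ => ?_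
        rw [map_smul, smul_eq_mul]
        by_cases hl : l ∈ (J : Set (Fin N))
        · rw [hθJ l (Finset.mem_coe.1 hl), mul_zero]
        · rw [ha l hl, Int.cast_zero, zero_mul]
      rw [h5] at h4
      have h6 : (0 : ℚ) < m' := by exact_mod_cast hm'
      have h7 := mul_pos h6 hk0
      linarith
    have h3 : (0 : ℤ) < ∑ i, (b i : ℤ) * ω i :=
      Finset.sum_pos' (fun i _ => hterm i) ⟨k0, Finset.mem_univ _,
        mul_pos (by exact_mod_cast hbk) hωk⟩
    have h4 : (0 : ℚ) < q * (m * θ (D' j)) := by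
      rw [← h2]
      exact_mod_cast h3
    have h5 : (0 : ℚ) < m := by exact_mod_cast hm
    have h6 := (mul_pos_iff_of_pos_left hqpos).1 h4
    have h7 := (mul_pos_iff_of_pos_left h5).1 h6
    have h8 : (0 : ℚ) < δ j := by
      rw [hδθ]
      exact mul_pos hqpos h7
    exact_mod_cast h8
  -- the points
  have hsemi : ∀ y : {k : Fin N // 0 < ω k} → K, y ≠ 0 →
      InCone w {i | (fun k => if h : 0 < ω k then y ⟨k, h⟩ else if k ∈ J then 1 else 0 :
        Fin N → K) i ≠ 0} H := by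
    intro y hy
    obtain ⟨⟨k, hk⟩, hyk⟩ := Function.ne_iff.1 hy
    obtain ⟨a, ha, haS, haH'⟩ := hray k ((hωpos k).1 hk)
    refine inCone_of_rat w _ H a ha (fun i hi => ?_) fun l => ?_
    · rcases haS i hi with h | h
      · show (if h : 0 < ω i then y ⟨i, h⟩ else if i ∈ J then (1 : K) else 0) ≠ 0
        rw [dif_neg (by rw [hωJ i h]; exact lt_irrefl _), if_pos h]
        exact one_ne_zero
      · subst h
        show (if h : 0 < ω i then y ⟨i, h⟩ else if i ∈ J then (1 : K) else 0) ≠ 0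
        rw [dif_pos hk]
        exact hyk
    · have h1 := congrFun hH' l
      rw [← h1, haH', Submodule.coe_sum, Finset.sum_apply]
      rfl
  -- the inequality
  have hsumω : ((∑ i, (c i : ℤ) * ω i : ℤ) : ℚ) = q * θ E' + M * ∑ j, (δ j : ℚ) := by
    have h1 : ∑ i, (c i : ℚ) • w' i = E' + (M : ℚ) • ∑ j, D' j := by
      rw [hE'def]
      abel
    have h2 := congrArg θ h1
    rw [map_sum, map_add, map_smul, smul_eq_mul, map_sum] at h2
    push_cast
    have h3 : ∑ i, (c i : ℚ) * (ω i : ℚ) = q * ∑ i, θ ((c i : ℚ) • w' i) := by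
      rw [Finset.mul_sum]
      refine Finset.sum_congr rfl fun i _ => ?_
      rw [hω, map_smul, smul_eq_mul]
      ring
    have h4 : ∑ j, (δ j : ℚ) = q * ∑ j, θ (D' j) := by
      rw [Finset.mul_sum]
      exact Finset.sum_congr rfl fun j _ => hδθ j
    rw [h3, h2, h4]
    ring
  have hsplit : ∑ i, (c i : ℤ) * ω i ≤ M * ∑ i : {k : Fin N // 0 < ω k}, ω i := by
    have h1 : ∑ i : {k : Fin N // 0 < ω k}, ω i =
        ∑ i ∈ Finset.univ.filter (fun k => 0 < ω k), ω i := by
      rw [← Finset.sum_subtype (Finset.univ.filter fun k => 0 < ω k) (by simp) ω]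
    have h2 : ∑ i ∈ Finset.univ.filter (fun k => 0 < ω k), ω i =
        ∑ i, if 0 < ω i then ω i else 0 := by
      rw [Finset.sum_filter]
    rw [h1, h2, Finset.mul_sum]
    refine Finset.sum_le_sum fun i _ => ?_
    have h6 : (c i : ℤ) ≤ M := by exact_mod_cast hc i
    have h7 : (0 : ℤ) ≤ c i := Int.natCast_nonneg _
    split_ifs with h
    · exact mul_le_mul_of_nonneg_right h6 h.le
    · push Not at h
      rw [mul_zero]
      exact mul_nonpos_of_nonneg_of_nonpos h7 h
  have hkey : ∑ j, δ j < ∑ i : {k : Fin N // 0 < ω k}, ω i := by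
    have h1 : (M : ℤ) * ∑ j, δ j < ∑ i, (c i : ℤ) * ω i := by
      have : ((M * ∑ j, δ j : ℤ) : ℚ) < ((∑ i, (c i : ℤ) * ω i : ℤ) : ℚ) := by
        rw [hsumω]
        push_cast
        have := mul_pos hqpos hθE
        linarith
      exact_mod_cast this
    exact lt_of_mul_lt_mul_left (h1.trans_le hsplit) (Int.natCast_nonneg M)
  obtain ⟨y, hy0, hy⟩ := strong_one hK (fun j => bind₁ (subs (K := K) ω J) (F j))
    (fun k : {k : Fin N // 0 < ω k} => (ω k).toNat) (fun j => (δ j).toNat)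
    (fun k => by have := k.2; omega)
    (fun j => by
      have h1 := hδpos j
      omega)
    (fun j => subs_hom ω J (δ j) (F j) hωJ (hFω j)) (by
      have h1 : ((∑ j, (δ j).toNat : ℕ) : ℤ) = ∑ j, δ j := by
        push_cast
        exact Finset.sum_congr rfl fun j _ => Int.toNat_of_nonneg (hδpos j).le
      have h2 : ((∑ k : {k : Fin N // 0 < ω k}, (ω k).toNat : ℕ) : ℤ) =
          ∑ i : {k : Fin N // 0 < ω k}, ω i := by
        push_cast
        exact Finset.sum_congr rfl fun i _ => Int.toNat_of_nonneg i.2.le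
      omega)
  refine ⟨_, fun j => ?_, hsemi y hy0⟩
  rw [← eval_subs]
  exact hy j

end Run7.h94.Tor
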