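import Pool.Agent.Run7.h94.Bez
import Pool.Agent.Run7.h94.Spec
import Pool.Agent.Run7.h94.Theta
import Pool.Agent.Run7.h94.NS

/-! Every `C_1` field: systems of forms whose degrees have at most two prime factors in total. -/

set_option autoImplicit false

open MvPolynomial Module Pool.Agent.H19CI

namespace Run7.h94

universe u

variable {K : Type u} [Field K]

theorem aniso_rename {J ι κ : Type} (e : ι ≃ κ) {f : J → MvPolynomial ι K} (hani : Aniso f) :
    Aniso (fun j => MvPolynomial.rename e (f j)) := by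
  intro x hx
  have h2 : (fun v => x (e v)) = 0 := hani _ fun t => by
    have := hx t
    rw [eval_rename] at this
    exact this
  funext j
  have := congrFun h2 (e.symm j)
  simpa using this

theorem closed_le' [IsAlgClosed K] {J ι : Type} [Fintype J] [Fintype ι]
    (f : J → MvPolynomial ι K) (d : J → ℕ) (hd : ∀ j, 0 < d j)
    (hf : ∀ j, (f j).IsHomogeneous (d j)) (hani : Aniso f) :
    Fintype.card ι ≤ Fintype.card J :=
  closed_le _ d hd (fun j => (hf j).rename_isHomogeneous) (aniso_rename (Fintype.equivFin ι) hani)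

theorem bez' {r : ℕ} (hr : r.Prime) (hS : Special K r) {J ι : Type} [Fintype J] [Fintype ι]
    (f : J → MvPolynomial ι K) (d : J → ℕ) (hd : ∀ j, ¬ r ∣ d j)
    (hf : ∀ j, (f j).IsHomogeneous (d j)) (hani : Aniso f) :
    Fintype.card ι ≤ Fintype.card J :=
  bez hr hS _ d hd (fun j => (hf j).rename_isHomogeneous) (aniso_rename (Fintype.equivFin ι) hani)

theorem card_le_sum {J : Type} [Fintype J] (d : J → ℕ) (hd : ∀ j, 0 < d j) :
    Fintype.card J ≤ ∑ j, d j ^ 1 := by
  rw [← Finset.card_univ, Finset.card_eq_sum_ones]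
  exact Finset.sum_le_sum fun j _ => by rw [pow_one]; exact hd j

/-- homogeneous version -/
theorem two_primes_hom (hK : IsC K 1) {p q : ℕ} (hp : p.Prime) (hq : q.Prime)
    {J ι : Type} [Fintype J] [Fintype ι]
    (f : J → MvPolynomial ι K) (d : J → ℕ) (hd : ∀ j, ∃ a b, d j = p ^ a * q ^ b)
    (hf : ∀ j, (f j).IsHomogeneous (d j)) (hani : Aniso f) :
    Fintype.card ι ≤ ∑ j, d j ^ 1 := by
  classical
  choose a b hab using hd
  have hd0 : ∀ j, 0 < d j := fun j => by
    rw [hab j]; exact Nat.mul_pos (Nat.pow_pos hp.pos) (Nat.pow_pos hq.pos)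
  by_cases halg : IsAlgClosed K
  · exact (closed_le' f d hd0 hf hani).trans (card_le_sum d hd0)
  rcases special_or K with hN | ⟨r, hr, hS⟩
  · by_contra hlt
    push Not at hlt
    obtain ⟨x, hx0, hx⟩ := strongly_gcd (i := 1) hK halg (fun r hr => by
      obtain ⟨b, hb1, hb2, hb3⟩ := hN r hr
      exact ⟨b, hb1, hb2, by rwa [pow_one]⟩) f d hd0 hf hlt
    exact hx0 (hani x hx)
  · have hnorm := special_normic halg r hr hS
    have hnorm' : HasForm K r (Fin (r ^ 1)) := by rwa [pow_one]
    by_cases h1 : r = p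
    · subst h1
      have h2 := two_gen (i := 1) one_pos hK (q := q) hq.pos hr.two_le hnorm' f a b
        (fun j => by have := hf j; rwa [hab j, mul_comm] at this) hani
      refine h2.trans (le_of_eq (Finset.sum_congr rfl fun j _ => ?_))
      rw [hab j, mul_comm]
    by_cases h2 : r = q
    · subst h2
      have h3 := two_gen (i := 1) one_pos hK (q := p) hp.pos hr.two_le hnorm' f b a
        (fun j => by have := hf j; rwa [hab j] at this) hani
      refine h3.trans (le_of_eq (Finset.sum_congr rfl fun j _ => ?_))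
      rw [hab j]
    · refine (bez' hr hS f d (fun j hj => ?_) hf hani).trans (card_le_sum d hd0)
      rw [hab j] at hj
      rcases (Nat.Prime.dvd_mul hr).1 hj with h3 | h3
      · exact h1 ((Nat.prime_dvd_prime_iff_eq hr hp).1 (hr.dvd_of_dvd_pow h3))
      · exact h2 ((Nat.prime_dvd_prime_iff_eq hr hq).1 (hr.dvd_of_dvd_pow h3))

theorem two_dvd {p q : ℕ} (hp : p.Prime) (hq : q.Prime) {A B y : ℕ} (h : y ∣ p ^ A * q ^ B) :
    ∃ a b, y = p ^ a * q ^ b := by
  obtain ⟨y1, y2, h1, h2, rfl⟩ := exists_dvd_and_dvd_of_dvd_mul h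
  obtain ⟨a, -, rfl⟩ := (Nat.dvd_prime_pow hp).1 h1
  obtain ⟨b, -, rfl⟩ := (Nat.dvd_prime_pow hq).1 h2
  exact ⟨a, b, rfl⟩

/-- **Weighted systems whose degrees are products of powers of two primes, over every `C_1`
field.** -/
theorem two_primes (hK : IsC K 1) {p q : ℕ} (hp : p.Prime) (hq : q.Prime)
    {J ι : Type} [Fintype J] [Fintype ι]
    (f : J → MvPolynomial ι K) (w : ι → ℕ) (d : J → ℕ) (hw : ∀ v, 0 < w v)
    (hd : ∀ j, ∃ a b, d j = p ^ a * q ^ b)
    (hf : ∀ j, IsWeightedHomogeneous w (f j) (d j)) (hlt : ∑ j, d j < ∑ v, w v) :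
    ∃ x : ι → K, x ≠ 0 ∧ ∀ j, eval x (f j) = 0 := by
  classical
  by_contra hcon
  push Not at hcon
  have hani : Aniso f := by
    intro x hx
    by_contra h
    obtain ⟨t, ht⟩ := hcon x h
    exact ht (hx t)
  have h1 := weighted_reduction 1 f w d hw hf hani fun k Ω hΩ _ h hh1 hh2 => by
    refine two_primes_hom hK hp hq h (fun l => wt d l.1 / Ω) (fun l => ?_) hh1 hh2
    choose a b hab using hd
    have h2 : wt d l.1 = p ^ (∑ s, a (l.1 s)) * q ^ (∑ s, b (l.1 s)) := by
      rw [wt, ← Finset.prod_pow_eq_pow_sum, ← Finset.prod_pow_eq_pow_sum,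
        ← Finset.prod_mul_distrib]
      exact Finset.prod_congr rfl fun s _ => hab _
    refine two_dvd hp hq (A := ∑ s, a (l.1 s)) (B := ∑ s, b (l.1 s)) ?_
    rw [← h2]
    exact Nat.div_dvd_of_dvd l.2
  simp only [pow_one] at h1
  omega

end Run7.h94
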