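import Pool.Agent.Run7.h94.Lead

/-! Homogeneous primes with an eventually constant Hilbert function: the residue field. -/

set_option autoImplicit false

open MvPolynomial Module

namespace Run7.h94

universe u

variable {K : Type u} [Field K] {n : ℕ}

section Frac

variable (P : Ideal (MvPolynomial (Fin n) K)) [hPp : P.IsPrime]

/-- the fraction field of the homogeneous coordinate ring -/
abbrev FF : Type u := FractionRing (MvPolynomial (Fin n) K ⧸ P)

/-- the structure map -/
noncomputable def phi : MvPolynomial (Fin n) K →ₐ[K] FF P :=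
  (IsScalarTower.toAlgHom K (MvPolynomial (Fin n) K ⧸ P) (FF P)).comp (Ideal.Quotient.mkₐ K P)

theorem phi_eq_zero (a : MvPolynomial (Fin n) K) : phi P a = 0 ↔ a ∈ P := by
  show algebraMap (MvPolynomial (Fin n) K ⧸ P) (FF P) (Ideal.Quotient.mk P a) = 0 ↔ a ∈ P
  rw [← Ideal.Quotient.eq_zero_iff_mem]
  exact IsFractionRing.to_map_eq_zero_iff

/-- the map `a ↦ a / x ^ t` -/
noncomputable def quoMap (x : FF P) (t : ℕ) : MvPolynomial (Fin n) K →ₗ[K] FF P :=
  (LinearMap.mulRight K ((x ^ t)⁻¹)).comp (phi P).toLinearMap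

theorem quoMap_apply (x : FF P) (t : ℕ) (a : MvPolynomial (Fin n) K) :
    quoMap P x t a = phi P a * (x ^ t)⁻¹ := rfl

/-- the elements `a / x ^ t` with `a` a form of degree `t` -/
noncomputable def VV (x : FF P) (t : ℕ) : Submodule K (FF P) :=
  (homogeneousSubmodule (Fin n) K t).map (quoMap P x t)

instance finVV (x : FF P) (t : ℕ) : Module.Finite K (VV P x t) := by
  unfold VV
  infer_instance

theorem finrank_VV {x : FF P} (hx : x ≠ 0) (t : ℕ) : (finrank K (VV P x t) : ℤ) = hf P t := by
  have h1 := LinearMap.finrank_range_add_finrank_ker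
    ((quoMap P x t).domRestrict (homogeneousSubmodule (Fin n) K t))
  have h2 : LinearMap.range ((quoMap P x t).domRestrict (homogeneousSubmodule (Fin n) K t)) =
      VV P x t := by
    ext z
    simp only [LinearMap.mem_range, LinearMap.domRestrict_apply, VV, Submodule.mem_map,
      Subtype.exists, exists_prop]
  have h3 : (LinearMap.ker ((quoMap P x t).domRestrict (homogeneousSubmodule (Fin n) K t))).map
      (homogeneousSubmodule (Fin n) K t).subtype = part P t := by
    ext a
    simp only [Submodule.mem_map, LinearMap.mem_ker, LinearMap.domRestrict_apply,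
      Submodule.subtype_apply, Subtype.exists, mem_part, quoMap_apply]
    constructor
    · rintro ⟨b, hb, h4, rfl⟩
      refine ⟨hb, (phi_eq_zero P b).1 ?_⟩
      exact (mul_eq_zero.1 h4).resolve_right (inv_ne_zero (pow_ne_zero _ hx))
    · rintro ⟨h4, h5⟩
      exact ⟨a, h4, by rw [(phi_eq_zero P a).2 h5, zero_mul], rfl⟩
  rw [h2] at h1
  rw [← Submodule.finrank_map_subtype_eq (homogeneousSubmodule (Fin n) K t), h3] at h1
  unfold hf
  rw [← h1]
  push_cast
  ring

theorem VV_mul {x : FF P} {s t : ℕ} {y z : FF P} (hy : y ∈ VV P x s)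
    (hz : z ∈ VV P x t) : y * z ∈ VV P x (s + t) := by
  obtain ⟨a, ha, rfl⟩ := hy
  obtain ⟨b, hb, rfl⟩ := hz
  refine ⟨a * b, IsHomogeneous.mul ha hb, ?_⟩
  rw [quoMap_apply, quoMap_apply, quoMap_apply, map_mul, pow_add, mul_inv]
  ring

theorem VV_one {i : Fin n} (hi : (X i : MvPolynomial (Fin n) K) ∉ P) (t : ℕ) :
    (1 : FF P) ∈ VV P (phi P (X i)) t := by
  refine ⟨X i ^ t, ?_, ?_⟩
  · have := (isHomogeneous_X K i).pow t
    rwa [one_mul] at this
  · rw [quoMap_apply, map_pow]
    exact mul_inv_cancel₀ (pow_ne_zero _ fun h => hi ((phi_eq_zero P _).1 h))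

theorem VV_mono {i : Fin n} (hi : (X i : MvPolynomial (Fin n) K) ∉ P) {s t : ℕ} (hst : s ≤ t) :
    VV P (phi P (X i)) s ≤ VV P (phi P (X i)) t := by
  intro y hy
  obtain ⟨d, rfl⟩ := Nat.exists_eq_add_of_le hst
  have := VV_mul P hy (VV_one P hi d)
  rwa [mul_one] at this

/-- evaluation of a form at the generic point -/
theorem aeval_generic {x : FF P} {t : ℕ} {a : MvPolynomial (Fin n) K}
    (ha : a.IsHomogeneous t) :
    aeval (fun j => phi P (X j) * x⁻¹) a = phi P a * (x ^ t)⁻¹ := by
  have h1 : phi P a = aeval (fun j => phi P (X j)) a := by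
    rw [← MvPolynomial.comp_aeval_apply, aeval_X_left_apply]
  rw [h1, aeval_def, aeval_def, eval₂_eq, eval₂_eq, Finset.sum_mul]
  refine Finset.sum_congr rfl fun m hm => ?_
  have h2 := ha (mem_support_iff.1 hm)
  rw [Finsupp.weight_apply, Finsupp.sum] at h2
  have h3 : ∏ j ∈ m.support, (phi P (X j) * x⁻¹) ^ m j =
      (∏ j ∈ m.support, phi P (X j) ^ m j) * (x ^ t)⁻¹ := by
    have h4 : ∏ j ∈ m.support, (x⁻¹) ^ m j = (x ^ t)⁻¹ := by
      rw [Finset.prod_pow_eq_pow_sum, inv_pow, ← h2]
      simp
    rw [← h4, ← Finset.prod_mul_distrib]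
    exact Finset.prod_congr rfl fun j _ => mul_pow _ _ _
  rw [h3]
  ring

end Frac

/-- **A zero-dimensional integral projective scheme** of degree `c` has a point with coordinates in
an extension of degree `c`. -/
theorem exists_point {P : Ideal (MvPolynomial (Fin n) K)} (hPp : P.IsPrime) {c : ℤ}
    (hc : Tp 0 c (hf P)) :
    ∃ (L : Type u) (_ : Field L) (_ : Algebra K L) (_ : FiniteDimensional K L) (y : Fin n → L),
      (finrank K L : ℤ) = c ∧ y ≠ 0 ∧
        ∀ (t : ℕ) (a : MvPolynomial (Fin n) K), a.IsHomogeneous t → a ∈ P → aeval y a = 0 := by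
  classical
  have hX : ∃ i, (X i : MvPolynomial (Fin n) K) ∉ P := by
    by_contra hcon
    push Not at hcon
    exact hc.not_zero (hf_irrel hcon)
  obtain ⟨i, hi⟩ := hX
  set x : FF P := phi P (X i) with hx
  have hx0 : x ≠ 0 := fun h => hi ((phi_eq_zero P _).1 h)
  obtain ⟨N, hN⟩ := hc.1
  have hfin : ∀ t ≥ N, (finrank K (VV P x t) : ℤ) = c := fun t ht => by
    rw [finrank_VV P hx0 t]
    exact hN t ht
  set M := N + 1 with hM
  have hstab : ∀ t ≥ M, VV P x t = VV P x M := by
    intro t ht
    symm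
    refine Submodule.eq_of_le_of_finrank_eq (VV_mono P hi ht) ?_
    have h1 := hfin t (by omega)
    have h2 := hfin M (by omega)
    omega
  let A : Subalgebra K (FF P) :=
    { carrier := VV P x M
      mul_mem' := by
        intro a b ha hb
        have := VV_mul P ha hb
        rwa [hstab (M + M) (by omega)] at this
      add_mem' := fun ha hb => (VV P x M).add_mem ha hb
      algebraMap_mem' := fun r => by
        rw [Algebra.algebraMap_eq_smul_one]
        exact (VV P x M).smul_mem r (VV_one P hi M) }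
  have hA : Subalgebra.toSubmodule A = VV P x M := rfl
  have hAfin : Module.Finite K A := by
    have : Module.Finite K (Subalgebra.toSubmodule A) := by rw [hA]; infer_instance
    exact this
  have hinv : ∀ a ∈ A, a⁻¹ ∈ A := by
    intro a ha
    have h1 : IsIntegral K (⟨a, ha⟩ : A) := IsIntegral.of_finite K _
    have h2 : _root_.IsAlgebraic K (a : FF P) := by
      have := h1.map A.val
      exact this.isAlgebraic
    exact A.inv_mem_of_algebraic (x := ⟨a, ha⟩) h2
  let E : IntermediateField K (FF P) := A.toIntermediateField hinv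
  have hE : ∀ z : FF P, z ∈ E ↔ z ∈ VV P x M := fun z => Iff.rfl
  have hEfin : FiniteDimensional K E := hAfin
  have hy : ∀ j, phi P (X j) * x⁻¹ ∈ E := by
    intro j
    rw [hE]
    refine VV_mono P hi (s := 1) (by omega) ⟨X j, isHomogeneous_X K j, ?_⟩
    rw [quoMap_apply, pow_one]
  refine ⟨E, inferInstance, inferInstance, hEfin, fun j => ⟨phi P (X j) * x⁻¹, hy j⟩, ?_, ?_, ?_⟩
  · have h1 : finrank K E = finrank K (VV P x M) := rfl
    rw [h1]
    exact hfin M (by omega)
  · intro h
    have h1 := congrArg (fun z : E => (z : FF P)) (congrFun h i)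
    have h2 : x * x⁻¹ = 0 := h1
    rw [mul_inv_cancel₀ hx0] at h2
    exact one_ne_zero h2
  · intro t a ha haP
    apply Subtype.ext
    have h1 : ((aeval (fun j => (⟨phi P (X j) * x⁻¹, hy j⟩ : E)) a : E) : FF P) =
        aeval (fun j => phi P (X j) * x⁻¹) a := by
      have := MvPolynomial.comp_aeval_apply
        (fun j => (⟨phi P (X j) * x⁻¹, hy j⟩ : E)) E.val a
      exact this
    rw [h1, aeval_generic P ha, (phi_eq_zero P a).2 haP, zero_mul]
    rfl

end Run7.h94
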